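import Pool.Agent.T2h76.Wl1
import Pool.Agent.H262R4.FR.W3
import Pool.Agent.H510R2.Div

/-! The Weyl sums. -/

set_option autoImplicit false

namespace Pool.Agent.T2h76

open Finset
open Pool.Agent.H442R2.KF (e norm_e e_add e_congr norm_e_sub_le)

/-- one term -/
noncomputable def wt (L q : ℕ) (Θ j : ℤ) (Φ : ℕ → ℂ) (m : ℕ) (ν : ℤ) : ℂ :=
  if Nat.Coprime m (L * q) then Φ m * e ((j : ℝ) * crt m (L * q) ν Θ / (m * (L * q))) else 0

/-- the Weyl sum -/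
noncomputable def Ws (X L q : ℕ) (Θ j : ℤ) (Φ : ℕ → ℂ) : ℂ :=
  ∑ m ∈ Icc 1 X, ∑ ν ∈ Rt m, wt L q Θ j Φ m ν

theorem e_crt (m L q : ℕ) (hm : 1 ≤ m) (hLq : 1 ≤ L * q) (h : Nat.Coprime m (L * q)) (j c c' : ℤ)
    (h1 : (m : ℤ) ∣ c - c') (h2 : ((L * q : ℕ) : ℤ) ∣ c - c') :
    e ((j : ℝ) * c / (m * (L * q))) = e ((j : ℝ) * c' / (m * (L * q))) := by
  have h3 : (m : ℤ) * ((L * q : ℕ) : ℤ) ∣ c - c' :=
    (Nat.isCoprime_iff_coprime.mpr h).mul_dvd h1 h2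
  obtain ⟨t, ht⟩ := h3
  apply e_congr (j * t)
  have hmr : (m : ℝ) ≠ 0 := by exact_mod_cast (by omega : m ≠ 0)
  have hLr : (L : ℝ) ≠ 0 := by
    have : L ≠ 0 := by rintro rfl; simp at hLq
    exact_mod_cast this
  have hqr : (q : ℝ) ≠ 0 := by
    have : q ≠ 0 := by rintro rfl; simp at hLq
    exact_mod_cast this
  have htr : (c : ℝ) - c' = m * (L * q) * t := by exact_mod_cast ht
  push_cast
  field_simp
  linear_combination (j : ℝ) * htr

theorem Ws_eq (X Y L q : ℕ) (hL : 1 ≤ L) (hq : 1 ≤ q) (hY : X < (Y + 1) ^ 2) (Θ j : ℤ) (Φ : ℕ → ℂ)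
    (hΦ : ∀ m, Φ m ≠ 0 → m ≤ X) :
    ‖Ws X L q Θ j Φ‖ ≤ ∑ y ∈ Icc 1 Y, if h : y = 0 then 0 else
      haveI : NeZero (y * L * q) := ⟨Nat.mul_ne_zero (Nat.mul_ne_zero h (by omega)) (by omega)⟩
      ‖∑ x ∈ Ioc (-(y : ℤ)) y, Fy Φ y L q j x * phi (y * L * q) y Θ j ((x : ℤ) : ZMod (y * L * q))‖ := by
  have hLq : 1 ≤ L * q := Nat.mul_pos hL hq
  unfold Ws
  rw [sum_roots X Y hY (wt L q Θ j Φ) (by
    intro m a b hab
    unfold wt
    split_ifs with h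
    · rcases Nat.eq_zero_or_pos m with hm | hm
      · subst hm
        have : a - b = 0 := by simpa using hab
        have : a = b := by omega
        rw [this]
      · congr 1
        obtain ⟨a1, a2⟩ := crt_spec m (L * q) hLq h a Θ
        obtain ⟨b1, b2⟩ := crt_spec m (L * q) hLq h b Θ
        apply e_crt m L q hm hLq h j
        · have e1 : crt m (L * q) a Θ - crt m (L * q) b Θ =
            (crt m (L * q) a Θ - a) - (crt m (L * q) b Θ - b) + (a - b) := by ring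
          rw [e1]
          exact dvd_add (dvd_sub a1 b1) hab
        · have e1 : crt m (L * q) a Θ - crt m (L * q) b Θ =
            (crt m (L * q) a Θ - Θ) - (crt m (L * q) b Θ - Θ) := by ring
          rw [e1]
          exact dvd_sub a2 b2
    · rfl)]
  refine (norm_sum_le _ _).trans (Finset.sum_le_sum fun y hy => ?_)
  rw [mem_Icc] at hy
  have hy0 : ¬ y = 0 := by omega
  rw [dif_neg hy0]
  have hNZ : NeZero (y * L * q) := ⟨Nat.mul_ne_zero (Nat.mul_ne_zero hy0 (by omega)) (by omega)⟩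
  apply le_of_eq
  congr 1
  apply Finset.sum_congr rfl
  intro x _
  set m : ℕ := (x ^ 2 + (y : ℤ) ^ 2).toNat with hm
  have hmz : x ^ 2 + (y : ℤ) ^ 2 = m := (Int.toNat_of_nonneg (by positivity)).symm
  have hm1 : 1 ≤ m := by
    have : (0 : ℤ) < x ^ 2 + (y : ℤ) ^ 2 := by
      have : (0 : ℤ) < y := by exact_mod_cast Nat.pos_of_ne_zero hy0
      positivity
    omega
  by_cases h1 : IsCoprime x (y : ℤ)
  · by_cases h2 : x ^ 2 + (y : ℤ) ^ 2 ≤ X
    · rw [if_pos ⟨h1, h2⟩]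
      unfold wt
      by_cases h3 : Nat.Coprime m (L * q)
      · rw [if_pos h3]
        obtain ⟨a1, a2⟩ := crt_spec m (L * q) hLq h3 (nu0 x y) Θ
        obtain ⟨b1, b2⟩ := nu0_spec m x y hmz h1
        have hc : (m : ℤ) ∣ crt m (L * q) (nu0 x y) Θ * y - x := by
          have e1 : crt m (L * q) (nu0 x y) Θ * y - x =
            (crt m (L * q) (nu0 x y) Θ - nu0 x y) * y + (nu0 x y * y - x) := by ring
          rw [e1]
          exact dvd_add (a1.mul_right _) b1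
        have hp := phase (y * L * q) y L q m rfl x (crt m (L * q) (nu0 x y) Θ) Θ j hmz h1 h3 hc a2
        rw [hp]
        unfold Fy
        rw [← hm]
        ring
      · rw [if_neg h3, phi_zero (y * L * q) y L q m rfl x Θ j hmz (fun h => h3 h.2), mul_zero]
    · rw [if_neg (fun h => h2 h.2)]
      have : Φ m = 0 := by
        by_contra h4
        have := hΦ m h4
        omega
      unfold Fy
      rw [← hm, this]
      ring
  · rw [if_neg (fun h => h1 h.1), phi_zero (y * L * q) y L q m rfl x Θ j hmz (fun h => h1 h.1),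
      mul_zero]

theorem gcd_three (y L q j : ℕ) (hq : 0 < q) :
    Nat.gcd (y * L * q) j ≤ Nat.gcd y j * Nat.gcd L j * q := by
  have h1 : Nat.gcd (y * L * q) j ∣ Nat.gcd (y * L) j * Nat.gcd q j :=
    Nat.gcd_mul_left_dvd_mul_gcd j (y * L) q
  have h2 : Nat.gcd (y * L) j ∣ Nat.gcd y j * Nat.gcd L j :=
    Nat.gcd_mul_left_dvd_mul_gcd j y L
  rcases Nat.eq_zero_or_pos j with hj | hj
  · subst hj
    simp
  · have p1 : 0 < Nat.gcd y j := Nat.gcd_pos_of_pos_right _ hj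
    have p2 : 0 < Nat.gcd L j := Nat.gcd_pos_of_pos_right _ hj
    have p3 : 0 < Nat.gcd q j := Nat.gcd_pos_of_pos_right _ hj
    have p4 : 0 < Nat.gcd (y * L) j := Nat.gcd_pos_of_pos_right _ hj
    calc Nat.gcd (y * L * q) j ≤ Nat.gcd (y * L) j * Nat.gcd q j := Nat.le_of_dvd (by positivity) h1
      _ ≤ (Nat.gcd y j * Nat.gcd L j) * q := by
          apply Nat.mul_le_mul
          · exact Nat.le_of_dvd (by positivity) h2
          · exact Nat.le_of_dvd hq (Nat.gcd_dvd_left _ _)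

/-- **The Weyl sums.** -/
theorem weyl (ε : ℝ) (hε : 0 < ε) : ∃ C : ℝ, 0 < C ∧ ∀ (M L q : ℕ) (Θ j : ℤ) (Φ : ℕ → ℂ) (B : ℝ),
    1 ≤ M → 1 ≤ L → 1 ≤ q → Nat.Coprime L q → (L : ℤ) ∣ Θ ^ 2 + 1 → j ≠ 0 → 0 ≤ B →
    (∀ m, ‖Φ m‖ ≤ B) → (∀ m, Φ m ≠ 0 → M ≤ 2 * m ∧ m ≤ 3 * M) →
    (∀ m m' : ℕ, ‖Φ m - Φ m'‖ ≤ B / M * |(m : ℝ) - m'|) →
    ‖Ws (3 * M) L q Θ j Φ‖ ≤ C * ((M : ℝ) * L * q * |(j : ℝ)|) ^ ε *
      (B * (1 + |(j : ℝ)| / (M * L * q))) * ((q : ℝ) ^ 2 * (M : ℝ) ^ (3 / 4 : ℝ) * Real.sqrt L *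
        Real.sqrt (Nat.gcd L j.natAbs)) := by
  obtain ⟨K, hK, HK⟩ := inner
  set δ : ℝ := ε / 8 with hδ
  have hδ0 : 0 < δ := by positivity
  obtain ⟨C1, hC1, hD⟩ := Pool.Agent.H510R2.divisor_bound δ hδ0
  refine ⟨K * (C1 * C1 * (3 + 1 / δ)) * C1 * 3 * (3 : ℝ) ^ ε, by positivity, ?_⟩
  intro M L q Θ j Φ B hM hL hq hLq hΘ hj hB hΦ hΦ0 hΦ1
  have hMr : (1 : ℝ) ≤ M := by exact_mod_cast hM
  have hLr : (1 : ℝ) ≤ L := by exact_mod_cast hL
  have hqr : (1 : ℝ) ≤ q := by exact_mod_cast hq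
  have hj1 : 1 ≤ j.natAbs := Int.natAbs_pos.2 hj
  have hjr : (1 : ℝ) ≤ |(j : ℝ)| := by
    rw [← Int.cast_abs, Int.abs_eq_natAbs]
    exact_mod_cast hj1
  have hjn : ((j.natAbs : ℕ) : ℝ) = |(j : ℝ)| := by
    rw [← Int.cast_abs, Int.abs_eq_natAbs]
    simp
  set Y : ℕ := Nat.sqrt (3 * M) with hY
  have hYlt : 3 * M < (Y + 1) ^ 2 := Nat.lt_succ_sqrt' (3 * M)
  have hYsq : Y ^ 2 ≤ 3 * M := Nat.sqrt_le' (3 * M)
  refine (Ws_eq (3 * M) Y L q hL hq hYlt Θ j Φ (fun m hm => (hΦ0 m hm).2)).trans ?_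
  set B' : ℝ := B * (1 + |(j : ℝ)| / (M * L * q)) with hB'
  have hB'0 : 0 ≤ B' := by positivity
  set P : ℝ := 3 * M * L * q * |(j : ℝ)| with hP
  have hP1 : 1 ≤ P := by
    have h1 : 1 ≤ (M : ℝ) * L * q * |(j : ℝ)| := by
      have := one_le_mul_of_one_le_of_one_le (one_le_mul_of_one_le_of_one_le
        (one_le_mul_of_one_le_of_one_le hMr hLr) hqr) hjr
      exact this
    have h2 : P = 3 * ((M : ℝ) * L * q * |(j : ℝ)|) := by rw [hP]; ring
    linarith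
  have hPδ : 0 ≤ P ^ δ := by positivity
  -- a single term
  have hterm : ∀ y ∈ Icc 1 Y, (if h : y = 0 then (0 : ℝ) else
      haveI : NeZero (y * L * q) := ⟨Nat.mul_ne_zero (Nat.mul_ne_zero h (by omega)) (by omega)⟩
      ‖∑ x ∈ Ioc (-(y : ℤ)) y, Fy Φ y L q j x * phi (y * L * q) y Θ j ((x : ℤ) : ZMod (y * L * q))‖) ≤
      K * (C1 * C1 * (3 + 1 / δ)) * (P ^ δ * P ^ δ * P ^ δ) * ((q : ℝ) ^ 2 * Real.sqrt Y * Real.sqrt L *
        Real.sqrt (Nat.gcd L j.natAbs)) * B' * Real.sqrt (Int.gcd j y) := by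
    intro y hy
    rw [mem_Icc] at hy
    have hy0 : ¬ y = 0 := by omega
    rw [dif_neg hy0]
    have hNZ : NeZero (y * L * q) := ⟨Nat.mul_ne_zero (Nat.mul_ne_zero hy0 (by omega)) (by omega)⟩
    have hyr : (1 : ℝ) ≤ y := by exact_mod_cast hy.1
    have hy2 : y ^ 2 ≤ 3 * M := (Nat.pow_le_pow_left hy.2 2).trans hYsq
    have hyM : (y : ℝ) ≤ 3 * M := by
      have h1 : y ≤ y ^ 2 := by nlinarith [hy.1]
      exact_mod_cast h1.trans hy2
    have hin := HK Φ M (y * L * q) y L q Θ j B hM hy.1 hL hq hB rfl hLq hΘ hy2 hΦ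
      (fun m hm => (hΦ0 m hm).1) hΦ1
    refine hin.trans ?_
    set N : ℕ := y * L * q with hN
    have hN1 : 1 ≤ N := Nat.pos_of_ne_zero (NeZero.ne N)
    have hNr : (1 : ℝ) ≤ N := by exact_mod_cast hN1
    have hNP : (N : ℝ) ≤ P := by
      rw [hN, hP]
      push_cast
      calc (y : ℝ) * L * q ≤ (3 * M) * L * q := by gcongr
        _ = 3 * M * L * q * 1 := by ring
        _ ≤ 3 * M * L * q * |(j : ℝ)| := by gcongr
    have hLP : (L : ℝ) ≤ P := by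
      rw [hP]
      calc (L : ℝ) = 1 * 1 * L * 1 * 1 := by ring
        _ ≤ 3 * M * L * q * |(j : ℝ)| := by gcongr; norm_num
    have b1 : (L.divisors.card : ℝ) ≤ C1 * P ^ δ := (hD L hL).trans (by gcongr)
    have b2 : (2 : ℝ) ^ N.primeFactors.card ≤ C1 * P ^ δ := by
      have h1 : ((2 ^ N.primeFactors.card : ℕ) : ℝ) ≤ (N.divisors.card : ℝ) := by
        exact_mod_cast Pool.Agent.H262R4.FR.TW1.two_pow_le N (by omega)
      push_cast at h1
      exact h1.trans ((hD N hN1).trans (by gcongr))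
    have b3 : 3 + Real.log N ≤ (3 + 1 / δ) * P ^ δ := by
      have h1 : Real.log N ≤ (N : ℝ) ^ δ / δ := Real.log_le_rpow_div (by linarith) hδ0
      have h2 : (N : ℝ) ^ δ ≤ P ^ δ := by gcongr
      have h3 : 1 ≤ P ^ δ := Real.one_le_rpow hP1 hδ0.le
      calc 3 + Real.log N ≤ 3 * P ^ δ + P ^ δ / δ := by
            apply add_le_add
            · linarith
            · exact h1.trans (div_le_div_of_nonneg_right h2 hδ0.le)
        _ = _ := by ring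
    have b4 : Real.sqrt N ≤ Real.sqrt Y * Real.sqrt L * Real.sqrt q := by
      rw [← Real.sqrt_mul (by positivity), ← Real.sqrt_mul (by positivity)]
      apply Real.sqrt_le_sqrt
      rw [hN]
      push_cast
      have : (y : ℝ) ≤ Y := by exact_mod_cast hy.2
      gcongr
    have b5 : Real.sqrt (Nat.gcd N j.natAbs) ≤ Real.sqrt (Int.gcd j y) *
        Real.sqrt (Nat.gcd L j.natAbs) * Real.sqrt q := by
      rw [← Real.sqrt_mul (by positivity), ← Real.sqrt_mul (by positivity)]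
      apply Real.sqrt_le_sqrt
      have h1 := gcd_three y L q j.natAbs hq
      have h2 : Int.gcd j y = Nat.gcd y j.natAbs := by
        rw [Int.gcd_eq_natAbs, Nat.gcd_comm]
        simp
      rw [h2]
      exact_mod_cast h1
    have hlog0 : 0 ≤ 3 + Real.log N := by
      have := Real.log_nonneg hNr
      linarith
    have hsq : Real.sqrt q * Real.sqrt q = q := Real.mul_self_sqrt (by positivity)
    calc K * (q * L.divisors.card * 2 ^ N.primeFactors.card * Real.sqrt N *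
        Real.sqrt (Nat.gcd N j.natAbs) * (3 + Real.log N)) * B' ≤
        K * (q * (C1 * P ^ δ) * (C1 * P ^ δ) * (Real.sqrt Y * Real.sqrt L * Real.sqrt q) *
        (Real.sqrt (Int.gcd j y) * Real.sqrt (Nat.gcd L j.natAbs) * Real.sqrt q) *
          ((3 + 1 / δ) * P ^ δ)) * B' := by
          gcongr
      _ = K * (C1 * C1 * (3 + 1 / δ)) * (P ^ δ * P ^ δ * P ^ δ) * ((q : ℝ) * (Real.sqrt q * Real.sqrt q) *
          Real.sqrt Y * Real.sqrt L * Real.sqrt (Nat.gcd L j.natAbs)) * B' *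
            Real.sqrt (Int.gcd j y) := by ring
      _ = _ := by rw [hsq]; ring
  refine (Finset.sum_le_sum hterm).trans ?_
  rw [← Finset.mul_sum]
  have hg : ∑ y ∈ Icc 1 Y, Real.sqrt (Int.gcd j y) ≤ Y * (C1 * P ^ δ) := by
    refine (Pool.Agent.H262R4.FR.TW3.part2 j Y hj).trans ?_
    apply mul_le_mul_of_nonneg_left _ (by positivity)
    refine (hD _ hj1).trans ?_
    apply mul_le_mul_of_nonneg_left _ hC1.le
    apply Real.rpow_le_rpow (by positivity) _ hδ0.le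
    rw [hjn, hP]
    calc |(j : ℝ)| = 1 * 1 * 1 * 1 * |(j : ℝ)| := by ring
      _ ≤ 3 * M * L * q * |(j : ℝ)| := by gcongr; norm_num
  have hYY : (Y : ℝ) * Real.sqrt Y ≤ 3 * (M : ℝ) ^ (3 / 4 : ℝ) := by
    have hY0 : (0 : ℝ) ≤ Y := Nat.cast_nonneg _
    have h1 : (Y : ℝ) * Real.sqrt Y = ((Y : ℝ) ^ 2) ^ (3 / 4 : ℝ) := by
      rcases Nat.eq_zero_or_pos Y with h0 | h0
      · rw [h0]
        simp
      · have hYp : (0 : ℝ) < Y := by exact_mod_cast h0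
        rw [Real.sqrt_eq_rpow, ← Real.rpow_natCast, ← Real.rpow_mul hY0]
        conv_lhs => rw [← Real.rpow_one (Y : ℝ)]
        rw [← Real.rpow_mul hY0, ← Real.rpow_add hYp]
        norm_num
    rw [h1]
    have h2 : ((Y : ℝ) ^ 2) ≤ 3 * M := by exact_mod_cast hYsq
    calc ((Y : ℝ) ^ 2) ^ (3 / 4 : ℝ) ≤ (3 * (M : ℝ)) ^ (3 / 4 : ℝ) := by gcongr
      _ = (3 : ℝ) ^ (3 / 4 : ℝ) * (M : ℝ) ^ (3 / 4 : ℝ) := by
          rw [Real.mul_rpow (by norm_num) (by positivity)]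
      _ ≤ (3 : ℝ) ^ (1 : ℝ) * (M : ℝ) ^ (3 / 4 : ℝ) := by
          gcongr
          · norm_num
          · norm_num
      _ = _ := by rw [Real.rpow_one]
  have hPP : P ^ δ * P ^ δ * P ^ δ * P ^ δ ≤ (3 : ℝ) ^ ε * ((M : ℝ) * L * q * |(j : ℝ)|) ^ ε := by
    have hP0 : 0 < P := by linarith
    rw [← Real.rpow_add hP0, ← Real.rpow_add hP0, ← Real.rpow_add hP0,
      ← Real.mul_rpow (by norm_num) (by positivity)]
    have h1 : 3 * ((M : ℝ) * L * q * |(j : ℝ)|) = P := by rw [hP]; ring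
    rw [h1]
    apply Real.rpow_le_rpow_of_exponent_le hP1
    rw [hδ]
    linarith
  calc K * (C1 * C1 * (3 + 1 / δ)) * (P ^ δ * P ^ δ * P ^ δ) * ((q : ℝ) ^ 2 * Real.sqrt Y * Real.sqrt L *
        Real.sqrt (Nat.gcd L j.natAbs)) * B' * ∑ y ∈ Icc 1 Y, Real.sqrt (Int.gcd j y) ≤
      K * (C1 * C1 * (3 + 1 / δ)) * (P ^ δ * P ^ δ * P ^ δ) * ((q : ℝ) ^ 2 * Real.sqrt Y * Real.sqrt L *
        Real.sqrt (Nat.gcd L j.natAbs)) * B' * (Y * (C1 * P ^ δ)) := by gcongr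
    _ = K * (C1 * C1 * (3 + 1 / δ)) * C1 * (P ^ δ * P ^ δ * P ^ δ * P ^ δ) * B' * ((q : ℝ) ^ 2 *
        (Y * Real.sqrt Y) * Real.sqrt L * Real.sqrt (Nat.gcd L j.natAbs)) := by ring
    _ ≤ K * (C1 * C1 * (3 + 1 / δ)) * C1 * ((3 : ℝ) ^ ε * ((M : ℝ) * L * q * |(j : ℝ)|) ^ ε) * B' *
        ((q : ℝ) ^ 2 * (3 * (M : ℝ) ^ (3 / 4 : ℝ)) * Real.sqrt L *
          Real.sqrt (Nat.gcd L j.natAbs)) := by gcongr
    _ = _ := by ring

end Pool.Agent.T2h76
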