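import Pool.Agent.T2h76.Bi2

/-! Estimates for the squared bilinear form. -/

set_option autoImplicit false

namespace Pool.Agent.T2h76

open Finset
open Pool.Agent.H442R2.KF (e norm_e e_add e_congr norm_e_sub_le conj_e)

theorem sum_card_Rt (X : ℕ) : ∑ m ∈ Icc 1 X, ((Rt m).card : ℝ) ≤ 2 * X := by
  classical
  set Y := Nat.sqrt X with hY
  have h1 := sum_roots X Y (Nat.lt_succ_sqrt' X) (fun _ _ => 1) (fun _ _ _ _ => rfl)
  have h2 : ((∑ m ∈ Icc 1 X, ((Rt m).card : ℝ) : ℝ) : ℂ) = ∑ m ∈ Icc 1 X, ∑ ν ∈ Rt m, (1 : ℂ) := by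
    push_cast
    apply Finset.sum_congr rfl
    intro m _
    simp
  have h3 : ∑ m ∈ Icc 1 X, ((Rt m).card : ℝ) ≤ ‖((∑ m ∈ Icc 1 X, ((Rt m).card : ℝ) : ℝ) : ℂ)‖ := by
    rw [Complex.norm_real]
    exact le_abs_self _
  refine h3.trans ?_
  rw [h2, h1]
  have h4 : ∀ y ∈ Icc 1 Y, ‖∑ x ∈ Ioc (-(y : ℤ)) y,
        (if IsCoprime x (y : ℤ) ∧ x ^ 2 + (y : ℤ) ^ 2 ≤ X then (1 : ℂ) else 0)‖ ≤ 2 * Y := by
    intro y hy
    rw [mem_Icc] at hy
    refine (norm_sum_le _ _).trans ?_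
    have h5 : ∀ x ∈ Ioc (-(y : ℤ)) y,
        ‖(if IsCoprime x (y : ℤ) ∧ x ^ 2 + (y : ℤ) ^ 2 ≤ X then (1 : ℂ) else 0)‖ ≤ 1 := by
      intro x _
      split_ifs <;> simp
    refine (Finset.sum_le_sum h5).trans ?_
    rw [Finset.sum_const, Int.card_Ioc, nsmul_eq_mul, mul_one]
    have : ((y : ℤ) - -(y : ℤ)).toNat = 2 * y := by omega
    rw [this]
    push_cast
    have : (y : ℝ) ≤ Y := by exact_mod_cast hy.2
    linarith
  refine (norm_sum_le _ _).trans ((Finset.sum_le_sum h4).trans ?_)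
  rw [Finset.sum_const, Nat.card_Icc, nsmul_eq_mul, Nat.add_sub_cancel]
  have h6 : Y ^ 2 ≤ X := Nat.sqrt_le' X
  have h7 : (Y : ℝ) ^ 2 ≤ X := by exact_mod_cast h6
  nlinarith

theorem Ws_zero (M L q : ℕ) (Θ : ℤ) (Φ : ℕ → ℂ) (hΦ : ∀ m, ‖Φ m‖ ≤ 1) :
    ‖Ws (3 * M) L q Θ 0 Φ‖ ≤ 6 * M := by
  unfold Ws
  refine (norm_sum_le _ _).trans ?_
  have h1 : ∀ m ∈ Icc 1 (3 * M), ‖∑ ν ∈ Rt m, wt L q Θ 0 Φ m ν‖ ≤ ((Rt m).card : ℝ) := by
    intro m _
    refine (norm_sum_le _ _).trans ?_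
    have h2 : ∀ ν ∈ Rt m, ‖wt L q Θ 0 Φ m ν‖ ≤ 1 := by
      intro ν _
      unfold wt
      split_ifs
      · rw [norm_mul, norm_e, mul_one]; exact hΦ m
      · simp
    refine (Finset.sum_le_sum h2).trans ?_
    simp
  refine (Finset.sum_le_sum h1).trans ((sum_card_Rt (3 * M)).trans ?_)
  push_cast
  linarith

theorem sum_pm (H : ℕ) (f : ℕ → ℝ) :
    ∑ h ∈ (Icc (-(H : ℤ)) H).erase 0, f h.natAbs = 2 * ∑ a ∈ Icc 1 H, f a := by
  classical
  have h1 : (Icc (-(H : ℤ)) H).erase 0 = (Icc 1 H).image (fun a : ℕ => (a : ℤ)) ∪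
      (Icc 1 H).image (fun a : ℕ => -(a : ℤ)) := by
    ext h
    rw [mem_erase, mem_Icc, mem_union, mem_image, mem_image]
    constructor
    · rintro ⟨h0, h1, h2⟩
      rcases lt_or_gt_of_ne h0 with h3 | h3
      · right
        refine ⟨h.natAbs, ?_, ?_⟩
        · rw [mem_Icc]; omega
        · omega
      · left
        refine ⟨h.natAbs, ?_, ?_⟩
        · rw [mem_Icc]; omega
        · omega
    · rintro (⟨a, ha, rfl⟩ | ⟨a, ha, rfl⟩)
      · rw [mem_Icc] at ha; omega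
      · rw [mem_Icc] at ha; omega
  have hd : Disjoint ((Icc 1 H).image (fun a : ℕ => (a : ℤ)))
      ((Icc 1 H).image (fun a : ℕ => -(a : ℤ))) := by
    rw [disjoint_left]
    intro h hh hh'
    rw [mem_image] at hh hh'
    obtain ⟨a, ha, rfl⟩ := hh
    obtain ⟨b, hb, hb'⟩ := hh'
    rw [mem_Icc] at ha hb
    omega
  rw [h1, sum_union hd, sum_image, sum_image]
  · simp only [Int.natAbs_natCast, Int.natAbs_neg]
    ring
  · intro a _ b _ hab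
    simpa using hab
  · intro a _ b _ hab
    simpa using hab

theorem jj_zero (k1 k2 : ℕ) (h1 h2 : ℤ) (hk1 : 1 ≤ k1) (hk2 : 1 ≤ k2) (h : jj k1 k2 h1 h2 = 0) :
    h1.natAbs * k2 = h2.natAbs * k1 := by
  unfold jj at h
  set L := Nat.lcm k1 k2 with hL
  have hL1 : 1 ≤ L := lcm_pos' k1 k2 hk1 hk2
  have e1 : ((L / k1 : ℕ) : ℤ) * k1 = L := by exact_mod_cast Nat.div_mul_cancel (Nat.dvd_lcm_left k1 k2)
  have e2 : ((L / k2 : ℕ) : ℤ) * k2 = L := by exact_mod_cast Nat.div_mul_cancel (Nat.dvd_lcm_right k1 k2)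
  have e3 : (h1 * k2) * (L : ℤ) = (h2 * k1) * L := by
    have h3 : h2 * ((L / k2 : ℕ) : ℤ) = h1 * ((L / k1 : ℕ) : ℤ) := by linarith
    calc (h1 * k2) * (L : ℤ) = (h1 * ((L / k1 : ℕ) : ℤ)) * (k1 * k2) := by rw [← e1]; ring
      _ = (h2 * ((L / k2 : ℕ) : ℤ)) * (k1 * k2) := by rw [h3]
      _ = (h2 * k1) * (((L / k2 : ℕ) : ℤ) * k2) := by ring
      _ = _ := by rw [e2]
  have hL0 : (L : ℤ) ≠ 0 := by exact_mod_cast (by omega : L ≠ 0)
  have e4 : h1 * k2 = h2 * k1 := mul_right_cancel₀ hL0 e3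
  have e5 := congrArg Int.natAbs e4
  rwa [Int.natAbs_mul, Int.natAbs_mul, Int.natAbs_natCast, Int.natAbs_natCast] at e5

theorem jj_le (K H k1 k2 : ℕ) (h1 h2 : ℤ) (hK : 1 ≤ K) (hk1 : K ≤ k1) (hk2 : K ≤ k2)
    (hh1 : h1.natAbs ≤ H) (hh2 : h2.natAbs ≤ H) :
    |((jj k1 k2 h1 h2 : ℤ) : ℝ)| ≤ 2 * H * Nat.lcm k1 k2 / K := by
  set L := Nat.lcm k1 k2 with hL
  have hKr : (0 : ℝ) < K := by exact_mod_cast hK
  have a1 : ∀ k : ℕ, K ≤ k → ((L / k : ℕ) : ℝ) ≤ L / K := by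
    intro k hk
    refine (Nat.cast_div_le).trans ?_
    apply div_le_div_of_nonneg_left (Nat.cast_nonneg _) hKr
    exact_mod_cast hk
  have b1 : |(h1 : ℝ)| ≤ H := by
    rw [← Int.cast_abs, Int.abs_eq_natAbs]
    exact_mod_cast hh1
  have b2 : |(h2 : ℝ)| ≤ H := by
    rw [← Int.cast_abs, Int.abs_eq_natAbs]
    exact_mod_cast hh2
  unfold jj
  rw [← hL]
  push_cast
  have e1 : ∀ k : ℕ, ((L : ℤ) / (k : ℤ) : ℤ) = ((L / k : ℕ) : ℤ) := fun k => by push_cast; rfl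
  rw [e1, e1]
  push_cast
  have e2 : ∀ k : ℕ, (((L / k : ℕ) : ℤ) : ℝ) = ((L / k : ℕ) : ℝ) := fun k => by push_cast; rfl
  refine (abs_sub _ _).trans ?_
  rw [abs_mul, abs_mul]
  have c1 := a1 k1 hk1
  have c2 := a1 k2 hk2
  have d1 : |((L / k1 : ℕ) : ℝ)| ≤ L / K := by rw [abs_of_nonneg (Nat.cast_nonneg _)]; exact c1
  have d2 : |((L / k2 : ℕ) : ℝ)| ≤ L / K := by rw [abs_of_nonneg (Nat.cast_nonneg _)]; exact c2
  have f1 := mul_le_mul b2 d2 (abs_nonneg _) (Nat.cast_nonneg H)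
  have f2 := mul_le_mul b1 d1 (abs_nonneg _) (Nat.cast_nonneg H)
  calc _ ≤ (H : ℝ) * (L / K) + H * (L / K) := add_le_add f1 f2
    _ = 2 * H * L / K := by ring

theorem gcd_bd (k1 k2 : ℕ) (h1 h2 : ℤ) (hk1 : 1 ≤ k1) (hk2 : 1 ≤ k2) :
    Nat.lcm k1 k2 * Nat.gcd (Nat.lcm k1 k2) (jj k1 k2 h1 h2).natAbs ≤
      k1 * k2 * (Nat.gcd (k1 / Nat.gcd k1 k2) h1.natAbs * Nat.gcd (k2 / Nat.gcd k1 k2) h2.natAbs) := by
  set g := Nat.gcd k1 k2 with hg
  have hg0 : 0 < g := Nat.gcd_pos_of_pos_left _ hk1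
  obtain ⟨a, ha⟩ : g ∣ k1 := Nat.gcd_dvd_left _ _
  obtain ⟨b, hb⟩ : g ∣ k2 := Nat.gcd_dvd_right _ _
  have ha1 : k1 / g = a := by rw [ha]; exact Nat.mul_div_cancel_left _ hg0
  have hb1 : k2 / g = b := by rw [hb]; exact Nat.mul_div_cancel_left _ hg0
  have hab : Nat.Coprime a b := by
    have := Nat.coprime_div_gcd_div_gcd (m := k1) (n := k2) (by rw [← hg]; exact hg0)
    rwa [← hg, ha1, hb1] at this
  have ha0 : 0 < a := by
    rcases Nat.eq_zero_or_pos a with h | h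
    · rw [h] at ha; omega
    · exact h
  have hb0 : 0 < b := by
    rcases Nat.eq_zero_or_pos b with h | h
    · rw [h] at hb; omega
    · exact h
  have hL : Nat.lcm k1 k2 = g * a * b := by
    unfold Nat.lcm
    rw [← hg, ha, hb]
    have : g * a * (g * b) = g * (g * a * b) := by ring
    rw [this]
    exact Nat.mul_div_cancel_left _ hg0
  have hL1 : Nat.lcm k1 k2 / k1 = b := by
    rw [hL, ha]; exact Nat.mul_div_cancel_left _ (by positivity)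
  have hL2 : Nat.lcm k1 k2 / k2 = a := by
    rw [hL, hb]
    have : g * a * b = (g * b) * a := by ring
    rw [this]; exact Nat.mul_div_cancel_left _ (by positivity)
  have hj : jj k1 k2 h1 h2 = h2 * a - h1 * b := by
    unfold jj
    rw [hL1, hL2]
  set j := jj k1 k2 h1 h2 with hjdef
  have hga : Nat.gcd a j.natAbs ≤ Nat.gcd a h1.natAbs := by
    apply Nat.le_of_dvd (Nat.gcd_pos_of_pos_left _ ha0)
    apply Nat.dvd_gcd (Nat.gcd_dvd_left _ _)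
    have d1 : ((Nat.gcd a j.natAbs : ℕ) : ℤ) ∣ (a : ℤ) := by exact_mod_cast Nat.gcd_dvd_left _ _
    have d2 : ((Nat.gcd a j.natAbs : ℕ) : ℤ) ∣ j := by
      rw [Int.natCast_dvd]
      exact Nat.gcd_dvd_right _ _
    have d3 : ((Nat.gcd a j.natAbs : ℕ) : ℤ) ∣ h1 * b := by
      have e1 : h1 * b = h2 * a - j := by rw [hj]; ring
      rw [e1]
      exact dvd_sub (d1.mul_left _) d2
    have d4 : IsCoprime ((Nat.gcd a j.natAbs : ℕ) : ℤ) (b : ℤ) := by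
      rw [Nat.isCoprime_iff_coprime]
      exact hab.coprime_dvd_left (Nat.gcd_dvd_left _ _)
    have d5 := d4.dvd_of_dvd_mul_right d3
    rwa [Int.natCast_dvd] at d5
  have hgb : Nat.gcd b j.natAbs ≤ Nat.gcd b h2.natAbs := by
    apply Nat.le_of_dvd (Nat.gcd_pos_of_pos_left _ hb0)
    apply Nat.dvd_gcd (Nat.gcd_dvd_left _ _)
    have d1 : ((Nat.gcd b j.natAbs : ℕ) : ℤ) ∣ (b : ℤ) := by exact_mod_cast Nat.gcd_dvd_left _ _
    have d2 : ((Nat.gcd b j.natAbs : ℕ) : ℤ) ∣ j := by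
      rw [Int.natCast_dvd]
      exact Nat.gcd_dvd_right _ _
    have d3 : ((Nat.gcd b j.natAbs : ℕ) : ℤ) ∣ h2 * a := by
      have e1 : h2 * a = j + h1 * b := by rw [hj]; ring
      rw [e1]
      exact dvd_add d2 (d1.mul_left _)
    have d4 : IsCoprime ((Nat.gcd b j.natAbs : ℕ) : ℤ) (a : ℤ) := by
      rw [Nat.isCoprime_iff_coprime]
      exact hab.symm.coprime_dvd_left (Nat.gcd_dvd_left _ _)
    have d5 := d4.dvd_of_dvd_mul_right d3
    rwa [Int.natCast_dvd] at d5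
  rw [ha1, hb1, hL]
  have h3 : Nat.gcd (g * a * b) j.natAbs ≤ g * (Nat.gcd a j.natAbs * Nat.gcd b j.natAbs) := by
    have p0 : 0 < Nat.gcd a j.natAbs := Nat.gcd_pos_of_pos_left _ ha0
    have p1 : 0 < Nat.gcd b j.natAbs := Nat.gcd_pos_of_pos_left _ hb0
    have p2 : 0 < Nat.gcd g j.natAbs := Nat.gcd_pos_of_pos_left _ hg0
    have e1 := Nat.gcd_mul_left_dvd_mul_gcd j.natAbs (g * a) b
    have e2 := Nat.gcd_mul_left_dvd_mul_gcd j.natAbs g a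
    have e3 : Nat.gcd (g * a * b) j.natAbs ∣ Nat.gcd g j.natAbs * Nat.gcd a j.natAbs * Nat.gcd b j.natAbs :=
      e1.trans (Nat.mul_dvd_mul_right e2 _)
    refine (Nat.le_of_dvd (by positivity) e3).trans ?_
    rw [mul_assoc]
    exact Nat.mul_le_mul_right _ (Nat.le_of_dvd hg0 (Nat.gcd_dvd_left _ _))
  calc g * a * b * Nat.gcd (g * a * b) j.natAbs ≤ g * a * b * (g * (Nat.gcd a j.natAbs * Nat.gcd b j.natAbs)) :=
        Nat.mul_le_mul_left _ h3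
    _ ≤ g * a * b * (g * (Nat.gcd a h1.natAbs * Nat.gcd b h2.natAbs)) := by
        apply Nat.mul_le_mul_left
        apply Nat.mul_le_mul_left
        exact Nat.mul_le_mul hga hgb
    _ = k1 * k2 * (Nat.gcd a h1.natAbs * Nat.gcd b h2.natAbs) := by rw [ha, hb]; ring

/-- sum of square roots of greatest common divisors -/
theorem sum_gcd (a H : ℕ) (ha : 1 ≤ a) :
    ∑ h ∈ (Icc (-(H : ℤ)) H).erase 0, Real.sqrt (Nat.gcd a h.natAbs) ≤ 2 * (H * (a.divisors.card : ℝ)) := by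
  rw [sum_pm H (fun n => Real.sqrt (Nat.gcd a n))]
  apply mul_le_mul_of_nonneg_left _ (by norm_num)
  have h1 := Pool.Agent.H262R4.FR.TW3.part2 (a : ℤ) H (by exact_mod_cast (by omega : a ≠ 0))
  rw [Int.natAbs_natCast] at h1
  refine le_trans (le_of_eq ?_) h1
  apply Finset.sum_congr rfl
  intro k _
  rw [Int.gcd_eq_natAbs, Int.natAbs_natCast, Int.natAbs_natCast]

end Pool.Agent.T2h76
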