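import Mathlib
import Pool.Agent.H442R2.KF.Defs

/-! Poisson summation for a Gaussian weight in a residue class. -/

set_option autoImplicit false

namespace Pool.Agent.T2h76

open Finset
open Pool.Agent.H442R2.KF (e norm_e e_add e_congr norm_e_sub_le)

/-- the Gaussian weight -/
noncomputable def gw (Y N0 : ℝ) (n : ℤ) : ℝ := Real.exp (-(Real.pi * (((n : ℝ) - N0) / Y) ^ 2))

theorem gw_pos (Y N0 : ℝ) (n : ℤ) : 0 < gw Y N0 n := Real.exp_pos _

theorem gw_le_one (Y N0 : ℝ) (n : ℤ) : gw Y N0 n ≤ 1 := by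
  unfold gw
  rw [Real.exp_le_one_iff, neg_nonpos]
  positivity

/-- the dual weight -/
noncomputable def gd (t : ℝ) (h : ℤ) : ℝ := Real.exp (-(Real.pi * ((h : ℝ) * t) ^ 2))

theorem gd_pos (t : ℝ) (h : ℤ) : 0 < gd t h := Real.exp_pos _

theorem gd_norm (t : ℝ) (h : ℤ) : ‖gd t h‖ = gd t h := Real.norm_of_nonneg (gd_pos t h).le

theorem poisson (Y N0 : ℝ) (hY : 0 < Y) (D : ℕ) (hD : 1 ≤ D) (c : ℤ) :
    ∑' n : ℤ, (gw Y N0 (c + D * n) : ℂ) =
      ((Y / D : ℝ) : ℂ) * ∑' h : ℤ, (gd (Y / D) h : ℂ) * e (-((h : ℝ) * (c - N0) / D)) := by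
  have hDr : (0 : ℝ) < D := by exact_mod_cast hD
  set t : ℝ := Y / D with ht
  have ht0 : 0 < t := by positivity
  have hq := Complex.tsum_exp_neg_quadratic (a := ((t ^ 2 : ℝ) : ℂ)) (by
    rw [Complex.ofReal_re]; positivity) (-(Complex.I * (((c : ℝ) - N0) / D : ℝ)))
  have hpow : (((t ^ 2 : ℝ) : ℂ)) ^ (1 / 2 : ℂ) = (t : ℂ) := by
    have h1 : (1 / 2 : ℂ) = ((1 / 2 : ℝ) : ℂ) := by push_cast; rfl
    rw [h1, ← Complex.ofReal_cpow (by positivity), ← Real.sqrt_eq_rpow, Real.sqrt_sq ht0.le]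
  rw [hpow] at hq
  have htc : (t : ℂ) ≠ 0 := by exact_mod_cast ht0.ne'
  have hR : ∑' n : ℤ, (gw Y N0 (c + D * n) : ℂ) = ∑' n : ℤ, Complex.exp (-Real.pi / ((t ^ 2 : ℝ) : ℂ) *
      (n + Complex.I * -(Complex.I * (((c : ℝ) - N0) / D : ℝ))) ^ 2) := by
    apply tsum_congr
    intro n
    unfold gw
    rw [Complex.ofReal_exp]
    congr 1
    have h2 : Complex.I * -(Complex.I * ((((c : ℝ) - N0) / D : ℝ) : ℂ)) = ((((c : ℝ) - N0) / D : ℝ) : ℂ) := by
      have : Complex.I * -(Complex.I * ((((c : ℝ) - N0) / D : ℝ) : ℂ)) =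
        -(Complex.I * Complex.I) * ((((c : ℝ) - N0) / D : ℝ) : ℂ) := by ring
      rw [this, Complex.I_mul_I]; ring
    rw [h2, ht]
    have hYc : (Y : ℂ) ≠ 0 := by exact_mod_cast hY.ne'
    have hDc : (D : ℂ) ≠ 0 := by exact_mod_cast hDr.ne'
    push_cast
    field_simp
    ring
  have hL : ∑' n : ℤ, Complex.exp (-Real.pi * ((t ^ 2 : ℝ) : ℂ) * (n : ℂ) ^ 2 +
      2 * Real.pi * -(Complex.I * (((c : ℝ) - N0) / D : ℝ)) * n) =
      ∑' h : ℤ, (gd t h : ℂ) * e (-((h : ℝ) * (c - N0) / D)) := by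
    apply tsum_congr
    intro n
    unfold gd Pool.Agent.H442R2.KF.e
    rw [Complex.ofReal_exp, ← Complex.exp_add]
    congr 1
    push_cast
    ring
  rw [hR, ← hL, hq, ← mul_assoc, mul_one_div_cancel htc, one_mul]

theorem gd_bd (t : ℝ) (ht : 0 < t) (H : ℕ) (h : ℤ) (hh : (H : ℤ) ≤ |h|) (h0 : h ≠ 0) :
    gd t h ≤ Real.exp (-((H : ℝ) * t) ^ 2) * (1 / t ^ 2 * (1 / (h : ℝ) ^ 2)) := by
  unfold gd
  have hpi := Real.pi_gt_three
  have hhr : (H : ℝ) ^ 2 ≤ (h : ℝ) ^ 2 := by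
    have h1 : (H : ℝ) ≤ |(h : ℝ)| := by
      rw [← Int.cast_abs]; exact_mod_cast hh
    rw [← sq_abs (h : ℝ)]
    exact pow_le_pow_left₀ (Nat.cast_nonneg _) h1 2
  have hh0 : (0 : ℝ) < (h : ℝ) ^ 2 := by
    have : (h : ℝ) ≠ 0 := by exact_mod_cast h0
    positivity
  have h2 : Real.exp (-(Real.pi * ((h : ℝ) * t) ^ 2)) ≤
      Real.exp (-((H : ℝ) * t) ^ 2) * Real.exp (-((h : ℝ) * t) ^ 2) := by
    rw [← Real.exp_add, Real.exp_le_exp]
    have h3 : ((H : ℝ) * t) ^ 2 ≤ ((h : ℝ) * t) ^ 2 := by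
      rw [mul_pow, mul_pow]
      exact mul_le_mul_of_nonneg_right hhr (by positivity)
    nlinarith [sq_nonneg ((h : ℝ) * t)]
  refine h2.trans ?_
  apply mul_le_mul_of_nonneg_left _ (Real.exp_pos _).le
  have h4 : 0 < ((h : ℝ) * t) ^ 2 := by
    rw [mul_pow]; positivity
  have h5 : Real.exp (-((h : ℝ) * t) ^ 2) ≤ 1 / ((h : ℝ) * t) ^ 2 := by
    rw [Real.exp_neg, ← one_div]
    apply one_div_le_one_div_of_le h4
    have := Real.add_one_le_exp (((h : ℝ) * t) ^ 2)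
    linarith
  refine h5.trans (le_of_eq ?_)
  rw [mul_pow]
  field_simp

/-- the constant -/
noncomputable def C0 : ℝ := ∑' n : ℤ, 1 / (n : ℝ) ^ 2

theorem C0_nonneg : 0 ≤ C0 := tsum_nonneg fun n => by positivity

theorem sum_C0 : Summable (fun n : ℤ => 1 / (n : ℝ) ^ 2) :=
  Real.summable_one_div_int_pow.2 one_lt_two

theorem gd_summable (t : ℝ) (ht : 0 < t) : Summable (fun h : ℤ => gd t h) := by
  have h1 : Summable (fun h : ℤ => 1 / t ^ 2 * (1 / (h : ℝ) ^ 2)) := sum_C0.mul_left _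
  refine Summable.of_norm_bounded_eventually h1 ?_
  rw [Filter.eventually_cofinite]
  refine (Set.finite_singleton (0 : ℤ)).subset ?_
  intro h hh
  by_contra h0
  apply hh
  rw [gd_norm]
  have := gd_bd t ht 0 h (by simp) h0
  simpa using this

/-- the truncated dual sum -/
theorem trunc (Y N0 : ℝ) (hY : 0 < Y) (D : ℕ) (hD : 1 ≤ D) (c : ℤ) (H : ℕ) :
    ‖(∑' n : ℤ, (gw Y N0 (c + D * n) : ℂ)) - ((Y / D : ℝ) : ℂ) -
      ((Y / D : ℝ) : ℂ) * ∑ h ∈ (Icc (-(H : ℤ)) H).erase 0,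
        (gd (Y / D) h : ℂ) * e (-((h : ℝ) * (c - N0) / D))‖ ≤
      C0 * (D / Y) * Real.exp (-(((H + 1 : ℕ) : ℝ) * (Y / D)) ^ 2) := by
  have hDr : (0 : ℝ) < D := by exact_mod_cast hD
  rw [poisson Y N0 hY D hD c]
  set t : ℝ := Y / D with ht
  have ht0 : 0 < t := by positivity
  set F : ℤ → ℂ := fun h => (gd t h : ℂ) * e (-((h : ℝ) * (c - N0) / D)) with hF
  have hFn : ∀ h, ‖F h‖ = gd t h := by
    intro h
    simp only [hF]
    rw [norm_mul, norm_e, mul_one, Complex.norm_real, gd_norm]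
  have hFs : Summable F := by
    apply Summable.of_norm
    simp only [hFn]
    exact gd_summable t ht0
  have hF0 : F 0 = 1 := by
    simp only [hF]
    unfold gd
    simp [Pool.Agent.H442R2.KF.e_zero]
  have h1 : (t : ℂ) * ∑' h : ℤ, F h - (t : ℂ) - (t : ℂ) * ∑ h ∈ (Icc (-(H : ℤ)) H).erase 0, F h =
      (t : ℂ) * ∑' h : ℤ, (if h ∈ Icc (-(H : ℤ)) H then 0 else F h) := by
    have h2 : ∑' h : ℤ, F h = ∑ h ∈ Icc (-(H : ℤ)) H, F h +
        ∑' h : ℤ, (if h ∈ Icc (-(H : ℤ)) H then 0 else F h) := by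
      have h3 : ∑' h : ℤ, F h = ∑' h : ℤ, ((if h ∈ Icc (-(H : ℤ)) H then F h else 0) +
          (if h ∈ Icc (-(H : ℤ)) H then 0 else F h)) := by
        apply tsum_congr
        intro h
        split_ifs <;> simp
      rw [h3, Summable.tsum_add]
      · congr 1
        rw [tsum_eq_sum (s := Icc (-(H : ℤ)) H)]
        · apply Finset.sum_congr rfl
          intro h hh
          rw [if_pos hh]
        · intro h hh
          rw [if_neg hh]
      · exact summable_of_ne_finset_zero (s := Icc (-(H : ℤ)) H) (fun h hh => if_neg hh)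
      · apply Summable.of_norm_bounded (g := fun h => gd t h) (gd_summable t ht0)
        intro h
        split_ifs
        · rw [norm_zero]; exact (Real.exp_pos _).le
        · exact (hFn h).le
    have h4 : ∑ h ∈ Icc (-(H : ℤ)) H, F h = F 0 + ∑ h ∈ (Icc (-(H : ℤ)) H).erase 0, F h :=
      (Finset.add_sum_erase _ _ (by rw [mem_Icc]; omega)).symm
    rw [h2, h4, hF0]
    ring
  show ‖(t : ℂ) * ∑' h : ℤ, F h - (t : ℂ) - (t : ℂ) * ∑ h ∈ (Icc (-(H : ℤ)) H).erase 0, F h‖ ≤ _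
  rw [h1, norm_mul, Complex.norm_real, Real.norm_of_nonneg ht0.le]
  set E : ℝ := Real.exp (-(((H + 1 : ℕ) : ℝ) * t) ^ 2) with hE
  have hbd : ∀ h : ℤ, ‖(if h ∈ Icc (-(H : ℤ)) H then 0 else F h)‖ ≤
      E * (1 / t ^ 2) * (1 / (h : ℝ) ^ 2) := by
    intro h
    split_ifs with hh
    · rw [norm_zero]; positivity
    · rw [hFn]
      have h5 : h ≠ 0 := by
        rintro rfl
        apply hh
        rw [mem_Icc]
        omega
      have h6 : ((H + 1 : ℕ) : ℤ) ≤ |h| := by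
        rw [mem_Icc] at hh
        push_cast
        rcases abs_cases h with ⟨h7, _⟩ | ⟨h7, _⟩ <;> omega
      have := gd_bd t ht0 (H + 1) h h6 h5
      rw [mul_assoc]
      exact this
  have hsum : Summable (fun h : ℤ => E * (1 / t ^ 2) * (1 / (h : ℝ) ^ 2)) := sum_C0.mul_left _
  have h7 : ‖∑' h : ℤ, (if h ∈ Icc (-(H : ℤ)) H then 0 else F h)‖ ≤ E * (1 / t ^ 2) * C0 := by
    refine (tsum_of_norm_bounded hsum.hasSum hbd).trans (le_of_eq ?_)
    rw [tsum_mul_left]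
    rfl
  calc t * _ ≤ t * (E * (1 / t ^ 2) * C0) := mul_le_mul_of_nonneg_left h7 ht0.le
    _ = C0 * (D / Y) * E := by
        have : (D : ℝ) / Y = 1 / t := by rw [ht, one_div_div]
        rw [this]
        field_simp

end Pool.Agent.T2h76
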