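import Pool.Agent.T2h76.Wl2
import Pool.Agent.T2h76.Po

/-! The weights of the bilinear form. -/

set_option autoImplicit false

namespace Pool.Agent.T2h76

open Finset
open Pool.Agent.H442R2.KF (e norm_e e_add e_congr norm_e_sub_le)

/-- the trapezoid -/
noncomputable def trz (M : ℕ) (m : ℕ) : ℝ :=
  max 0 (min 1 (min (2 * (m : ℝ) / M - 1) (3 - (m : ℝ) / M)))

theorem trz_nonneg (M m : ℕ) : 0 ≤ trz M m := le_max_left _ _

theorem trz_le_one (M m : ℕ) : trz M m ≤ 1 := max_le zero_le_one (min_le_left _ _)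

theorem trz_one (M m : ℕ) (hM : 1 ≤ M) (h1 : M ≤ m) (h2 : m ≤ 2 * M) : trz M m = 1 := by
  have hMr : (0 : ℝ) < M := by exact_mod_cast hM
  have h1r : (M : ℝ) ≤ m := by exact_mod_cast h1
  have h2r : (m : ℝ) ≤ 2 * M := by exact_mod_cast h2
  have a1 : 1 ≤ 2 * (m : ℝ) / M - 1 := by
    have : 2 ≤ 2 * (m : ℝ) / M := by rw [le_div_iff₀ hMr]; linarith
    linarith
  have a2 : 1 ≤ 3 - (m : ℝ) / M := by
    have : (m : ℝ) / M ≤ 2 := by rw [div_le_iff₀ hMr]; linarith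
    linarith
  unfold trz
  rw [min_eq_left (le_min a1 a2), max_eq_right zero_le_one]

theorem trz_supp (M m : ℕ) (hM : 1 ≤ M) (h : trz M m ≠ 0) : M ≤ 2 * m ∧ m ≤ 3 * M := by
  have hMr : (0 : ℝ) < M := by exact_mod_cast hM
  constructor
  · by_contra hc
    push Not at hc
    apply h
    unfold trz
    apply max_eq_left
    refine (min_le_right _ _).trans ((min_le_left _ _).trans ?_)
    have : 2 * (m : ℝ) ≤ M := by exact_mod_cast hc.le
    have : 2 * (m : ℝ) / M ≤ 1 := by rw [div_le_iff₀ hMr]; linarith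
    linarith
  · by_contra hc
    push Not at hc
    apply h
    unfold trz
    apply max_eq_left
    refine (min_le_right _ _).trans ((min_le_right _ _).trans ?_)
    have : 3 * (M : ℝ) ≤ m := by exact_mod_cast hc.le
    have : 3 ≤ (m : ℝ) / M := by rw [le_div_iff₀ hMr]; linarith
    linarith

theorem trz_lip (M m m' : ℕ) (hM : 1 ≤ M) : |trz M m - trz M m'| ≤ 2 / M * |(m : ℝ) - m'| := by
  have hMr : (0 : ℝ) < M := by exact_mod_cast hM
  unfold trz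
  have h1 := abs_max_sub_max_le_max (0 : ℝ) (min 1 (min (2 * (m : ℝ) / M - 1) (3 - (m : ℝ) / M))) 0
    (min 1 (min (2 * (m' : ℝ) / M - 1) (3 - (m' : ℝ) / M)))
  have h2 := abs_min_sub_min_le_max (1 : ℝ) (min (2 * (m : ℝ) / M - 1) (3 - (m : ℝ) / M)) 1
    (min (2 * (m' : ℝ) / M - 1) (3 - (m' : ℝ) / M))
  have h3 := abs_min_sub_min_le_max (2 * (m : ℝ) / M - 1) (3 - (m : ℝ) / M) (2 * (m' : ℝ) / M - 1)
    (3 - (m' : ℝ) / M)
  have e1 : |2 * (m : ℝ) / M - 1 - (2 * (m' : ℝ) / M - 1)| = 2 / M * |(m : ℝ) - m'| := by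
    have : 2 * (m : ℝ) / M - 1 - (2 * (m' : ℝ) / M - 1) = 2 / M * ((m : ℝ) - m') := by ring
    rw [this, abs_mul, abs_of_pos (by positivity)]
  have e2 : |3 - (m : ℝ) / M - (3 - (m' : ℝ) / M)| ≤ 2 / M * |(m : ℝ) - m'| := by
    have : 3 - (m : ℝ) / M - (3 - (m' : ℝ) / M) = (1 / M) * ((m' : ℝ) - m) := by ring
    rw [this, abs_mul, abs_of_pos (by positivity), abs_sub_comm (m' : ℝ)]
    apply mul_le_mul_of_nonneg_right _ (abs_nonneg _)
    apply div_le_div_of_nonneg_right (by norm_num) hMr.le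
  have hpos : 0 ≤ 2 / M * |(m : ℝ) - m'| := by positivity
  have h4 : |min (2 * (m : ℝ) / M - 1) (3 - (m : ℝ) / M) -
      min (2 * (m' : ℝ) / M - 1) (3 - (m' : ℝ) / M)| ≤ 2 / M * |(m : ℝ) - m'| :=
    h3.trans (max_le e1.le e2)
  have h5 := h2.trans (max_le (by rw [sub_self, abs_zero]; exact hpos) h4)
  exact h1.trans (max_le (by rw [sub_self, abs_zero]; exact hpos) h5)

/-- the Gaussian is Lipschitz in the modulus -/
theorem exp_lip (A x x' : ℝ) (hA : 0 ≤ A) (hx : 0 < x) (hxx : x ≤ x') (h6 : x' ≤ 6 * x) :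
    |Real.exp (-(A / x ^ 2)) - Real.exp (-(A / x' ^ 2))| ≤ 7 / x * (x' - x) := by
  have hx' : 0 < x' := by linarith
  set a := A / x ^ 2 with ha
  set b := A / x' ^ 2 with hb
  have hb0 : 0 ≤ b := by positivity
  have hab : b ≤ a := by
    rw [ha, hb]
    apply div_le_div_of_nonneg_left hA (by positivity)
    exact pow_le_pow_left₀ hx.le hxx 2
  have h1 : Real.exp (-a) ≤ Real.exp (-b) := Real.exp_le_exp.2 (by linarith)
  rw [abs_sub_comm, abs_of_nonneg (by linarith)]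
  have h2 : Real.exp (-b) - Real.exp (-a) ≤ Real.exp (-b) * (a - b) := by
    have h3 : Real.exp (-a) = Real.exp (-b) * Real.exp (-(a - b)) := by
      rw [← Real.exp_add]; congr 1; ring
    have h4 : 1 - (a - b) ≤ Real.exp (-(a - b)) := by
      have := Real.add_one_le_exp (-(a - b))
      linarith
    rw [h3]
    nlinarith [Real.exp_pos (-b)]
  have h5 : a - b = b * ((x' ^ 2 - x ^ 2) / x ^ 2) := by
    rw [ha, hb]
    field_simp
  have h7 : Real.exp (-b) * b ≤ 1 := by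
    have h8 := Real.add_one_le_exp b
    rw [Real.exp_neg, ← div_eq_inv_mul, div_le_one (Real.exp_pos _)]
    linarith
  have h9 : (x' ^ 2 - x ^ 2) / x ^ 2 ≤ 7 / x * (x' - x) := by
    rw [div_le_iff₀ (by positivity)]
    have : 7 / x * (x' - x) * x ^ 2 = 7 * x * (x' - x) := by field_simp
    rw [this]
    nlinarith
  have h10 : 0 ≤ (x' ^ 2 - x ^ 2) / x ^ 2 := by
    apply div_nonneg _ (by positivity)
    nlinarith
  calc Real.exp (-b) - Real.exp (-a) ≤ Real.exp (-b) * (a - b) := h2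
    _ = (Real.exp (-b) * b) * ((x' ^ 2 - x ^ 2) / x ^ 2) := by rw [h5]; ring
    _ ≤ 1 * ((x' ^ 2 - x ^ 2) / x ^ 2) := mul_le_mul_of_nonneg_right h7 h10
    _ ≤ _ := by rw [one_mul]; exact h9

theorem gd_lip (Y : ℝ) (M k q m m' : ℕ) (h : ℤ) (hM : 1 ≤ M) (hk : 1 ≤ k) (hq : 1 ≤ q)
    (h1 : M ≤ 2 * m) (h2 : m ≤ 3 * M) (h1' : M ≤ 2 * m') (h2' : m' ≤ 3 * M) :
    |gd (Y / ((m * (k * q) : ℕ) : ℝ)) h - gd (Y / ((m' * (k * q) : ℕ) : ℝ)) h| ≤
      14 / M * |(m : ℝ) - m'| := by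
  have hMr : (0 : ℝ) < M := by exact_mod_cast hM
  have hkr : (0 : ℝ) < k := by exact_mod_cast hk
  have hqr : (0 : ℝ) < q := by exact_mod_cast hq
  have key : ∀ a b : ℕ, M ≤ 2 * a → a ≤ b → b ≤ 3 * M →
      |gd (Y / ((a * (k * q) : ℕ) : ℝ)) h - gd (Y / ((b * (k * q) : ℕ) : ℝ)) h| ≤
        14 / M * |(a : ℝ) - b| := by
    intro a b ha hab hb
    have har : (M : ℝ) ≤ 2 * a := by exact_mod_cast ha
    have habr : (a : ℝ) ≤ b := by exact_mod_cast hab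
    have hbr : (b : ℝ) ≤ 3 * M := by exact_mod_cast hb
    have ha0 : (0 : ℝ) < a := by linarith
    have hb0 : (0 : ℝ) < b := by linarith
    have e1 : ∀ c : ℕ, (0 : ℝ) < c → gd (Y / ((c * (k * q) : ℕ) : ℝ)) h =
        Real.exp (-((Real.pi * ((h : ℝ) * Y / (k * q)) ^ 2) / (c : ℝ) ^ 2)) := by
      intro c hc
      unfold gd
      congr 2
      push_cast
      field_simp
    rw [e1 a ha0, e1 b hb0]
    refine (exp_lip _ _ _ (by positivity) ha0 habr (by linarith)).trans ?_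
    rw [abs_sub_comm, abs_of_nonneg (by linarith)]
    apply mul_le_mul_of_nonneg_right _ (by linarith)
    rw [div_le_div_iff₀ ha0 hMr]
    linarith
  rcases le_total m m' with h3 | h3
  · exact key m m' h1 h3 h2'
  · rw [abs_sub_comm, abs_sub_comm (m : ℝ)]
    exact key m' m h1' h3 h2

theorem ph_lip (N0 : ℝ) (M m m' L q : ℕ) (j : ℤ) (hM : 1 ≤ M) (hL : 1 ≤ L) (hq : 1 ≤ q)
    (h1 : M ≤ 2 * m) (h1' : M ≤ 2 * m') :
    ‖e (-((j : ℝ) * N0 / (m * (L * q)))) - e (-((j : ℝ) * N0 / (m' * (L * q))))‖ ≤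
      (26 * (|(j : ℝ)| * |N0| / (M * L * q))) / M * |(m : ℝ) - m'| := by
  have hMr : (0 : ℝ) < M := by exact_mod_cast hM
  have hLr : (0 : ℝ) < L := by exact_mod_cast hL
  have hqr : (0 : ℝ) < q := by exact_mod_cast hq
  have h1r : (M : ℝ) ≤ 2 * m := by exact_mod_cast h1
  have h1r' : (M : ℝ) ≤ 2 * m' := by exact_mod_cast h1'
  have hm0 : (0 : ℝ) < m := by linarith
  have hm0' : (0 : ℝ) < m' := by linarith
  refine (norm_e_sub_le _ _).trans ?_
  have e1 : -((j : ℝ) * N0 / (m * (L * q))) - -((j : ℝ) * N0 / (m' * (L * q))) =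
      (j : ℝ) * N0 / (L * q) * (((m : ℝ) - m') / (m * m')) := by
    field_simp
    ring
  rw [e1, abs_mul, abs_div, abs_div, abs_mul, abs_of_pos (by positivity : (0 : ℝ) < L * q),
    abs_of_pos (by positivity : (0 : ℝ) < m * m')]
  have hpi : Real.pi ≤ 3.15 := Real.pi_lt_d2.le.trans (by norm_num)
  have h3 : |(m : ℝ) - m'| / (m * m') ≤ 4 / (M * M) * |(m : ℝ) - m'| := by
    have h4 : (M : ℝ) * M ≤ 4 * (m * m') := by nlinarith
    rw [div_mul_eq_mul_div, div_le_div_iff₀ (by positivity) (by positivity)]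
    have := abs_nonneg ((m : ℝ) - m')
    nlinarith
  calc 2 * Real.pi * (|(j : ℝ)| * |N0| / (L * q) * (|(m : ℝ) - m'| / (m * m'))) ≤
      2 * 3.15 * (|(j : ℝ)| * |N0| / (L * q) * (4 / (M * M) * |(m : ℝ) - m'|)) := by gcongr
    _ = (25.2 * (|(j : ℝ)| * |N0| / (M * L * q))) / M * |(m : ℝ) - m'| := by field_simp; ring
    _ ≤ _ := by
        apply mul_le_mul_of_nonneg_right _ (abs_nonneg _)
        apply div_le_div_of_nonneg_right _ hMr.le
        apply mul_le_mul_of_nonneg_right (by norm_num) (by positivity)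

/-- the weight of a quadruple -/
noncomputable def Phi4 (Y N0 : ℝ) (M q k1 k2 L : ℕ) (h1 h2 j : ℤ) (m : ℕ) : ℂ :=
  (trz M m : ℂ) * (((gd (Y / ((m * (k1 * q) : ℕ) : ℝ)) h1 : ℝ) : ℂ) *
    (((gd (Y / ((m * (k2 * q) : ℕ) : ℝ)) h2 : ℝ) : ℂ) * e (-((j : ℝ) * N0 / (m * (L * q))))))

theorem gd_le_one (t : ℝ) (h : ℤ) : gd t h ≤ 1 := by
  unfold gd
  rw [Real.exp_le_one_iff, neg_nonpos]
  positivity

theorem gdc_le (t : ℝ) (h : ℤ) : ‖((gd t h : ℝ) : ℂ)‖ ≤ 1 := by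
  rw [Complex.norm_real, gd_norm]
  exact gd_le_one t h

theorem mul_lip (a b a' b' : ℂ) (x y : ℝ) (h1 : ‖b‖ ≤ 1) (h2 : ‖a'‖ ≤ 1) (h3 : ‖a - a'‖ ≤ x)
    (h4 : ‖b - b'‖ ≤ y) : ‖a * b - a' * b'‖ ≤ x + y := by
  have e1 : a * b - a' * b' = (a - a') * b + a' * (b - b') := by ring
  rw [e1]
  refine (norm_add_le _ _).trans ?_
  rw [norm_mul, norm_mul]
  have hx : 0 ≤ x := (norm_nonneg _).trans h3
  have hy : 0 ≤ y := (norm_nonneg _).trans h4
  have a1 : ‖a - a'‖ * ‖b‖ ≤ x * 1 := mul_le_mul h3 h1 (norm_nonneg _) hx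
  have a2 : ‖a'‖ * ‖b - b'‖ ≤ 1 * y := mul_le_mul h2 h4 (norm_nonneg _) zero_le_one
  linarith

theorem Phi4_bd (Y N0 : ℝ) (M q k1 k2 L : ℕ) (h1 h2 j : ℤ) (hM : 1 ≤ M) (hk1 : 1 ≤ k1)
    (hk2 : 1 ≤ k2) (hL : 1 ≤ L) (hq : 1 ≤ q) :
    (∀ m, ‖Phi4 Y N0 M q k1 k2 L h1 h2 j m‖ ≤ 1) ∧
    (∀ m, Phi4 Y N0 M q k1 k2 L h1 h2 j m ≠ 0 → M ≤ 2 * m ∧ m ≤ 3 * M) ∧
    (∀ m m' : ℕ, ‖Phi4 Y N0 M q k1 k2 L h1 h2 j m - Phi4 Y N0 M q k1 k2 L h1 h2 j m'‖ ≤
      (30 + 26 * (|(j : ℝ)| * |N0| / (M * L * q))) / M * |(m : ℝ) - m'|) := by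
  have hMr : (0 : ℝ) < M := by exact_mod_cast hM
  set V : ℝ := 26 * (|(j : ℝ)| * |N0| / (M * L * q)) with hV
  have hV0 : 0 ≤ V := by positivity
  have htr : ∀ m, ‖(trz M m : ℂ)‖ ≤ 1 := by
    intro m
    rw [Complex.norm_real, Real.norm_of_nonneg (trz_nonneg M m)]
    exact trz_le_one M m
  have htl : ∀ m m', ‖(trz M m : ℂ) - (trz M m' : ℂ)‖ ≤ 2 / M * |(m : ℝ) - m'| := by
    intro m m'
    rw [← Complex.ofReal_sub, Complex.norm_real]
    exact trz_lip M m m' hM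
  set G3 : ℕ → ℂ := fun m => e (-((j : ℝ) * N0 / (m * (L * q)))) with hG3
  set G2 : ℕ → ℂ := fun m => ((gd (Y / ((m * (k2 * q) : ℕ) : ℝ)) h2 : ℝ) : ℂ) with hG2
  set G1 : ℕ → ℂ := fun m => ((gd (Y / ((m * (k1 * q) : ℕ) : ℝ)) h1 : ℝ) : ℂ) with hG1
  have b3 : ∀ m, ‖G3 m‖ ≤ 1 := fun m => (norm_e _).le
  have b2 : ∀ m, ‖G2 m‖ ≤ 1 := fun m => gdc_le _ _
  have b1 : ∀ m, ‖G1 m‖ ≤ 1 := fun m => gdc_le _ _
  have b23 : ∀ m, ‖G2 m * G3 m‖ ≤ 1 := by
    intro m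
    rw [norm_mul]
    exact mul_le_one₀ (b2 m) (norm_nonneg _) (b3 m)
  have b123 : ∀ m, ‖G1 m * (G2 m * G3 m)‖ ≤ 1 := by
    intro m
    rw [norm_mul]
    exact mul_le_one₀ (b1 m) (norm_nonneg _) (b23 m)
  have hPhi : ∀ m, Phi4 Y N0 M q k1 k2 L h1 h2 j m = (trz M m : ℂ) * (G1 m * (G2 m * G3 m)) :=
    fun m => rfl
  have hsupp : ∀ m, (trz M m : ℂ) ≠ 0 → M ≤ 2 * m ∧ m ≤ 3 * M := by
    intro m hm
    apply trz_supp M m hM
    intro h
    apply hm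
    rw [h]
    simp
  refine ⟨?_, ?_, ?_⟩
  · intro m
    rw [hPhi, norm_mul]
    exact mul_le_one₀ (htr m) (norm_nonneg _) (b123 m)
  · intro m hm
    rw [hPhi] at hm
    exact hsupp m (left_ne_zero_of_mul hm)
  · intro m m'
    rw [hPhi, hPhi]
    have hd : 0 ≤ |(m : ℝ) - m'| := abs_nonneg _
    have hmain : (30 + V) / M * |(m : ℝ) - m'| = 2 / M * |(m : ℝ) - m'| +
        (14 / M * |(m : ℝ) - m'| + (14 / M * |(m : ℝ) - m'| + V / M * |(m : ℝ) - m'|)) := by ring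
    have hrest : 0 ≤ 14 / M * |(m : ℝ) - m'| + (14 / M * |(m : ℝ) - m'| + V / M * |(m : ℝ) - m'|) := by
      positivity
    by_cases hm : M ≤ 2 * m ∧ m ≤ 3 * M
    · by_cases hm' : M ≤ 2 * m' ∧ m' ≤ 3 * M
      · rw [hmain]
        apply mul_lip _ _ _ _ _ _ (b123 m) (htr m') (htl m m')
        apply mul_lip _ _ _ _ _ _ (b23 m) (b1 m')
        · simp only [hG1]
          rw [← Complex.ofReal_sub, Complex.norm_real]
          exact gd_lip Y M k1 q m m' h1 hM hk1 hq hm.1 hm.2 hm'.1 hm'.2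
        apply mul_lip _ _ _ _ _ _ (b3 m) (b2 m')
        · simp only [hG2]
          rw [← Complex.ofReal_sub, Complex.norm_real]
          exact gd_lip Y M k2 q m m' h2 hM hk2 hq hm.1 hm.2 hm'.1 hm'.2
        · exact ph_lip N0 M m m' L q j hM hL hq hm.1 hm'.1
      · have h0 : (trz M m' : ℂ) = 0 := by
          by_contra h
          exact hm' (hsupp m' h)
        rw [h0, zero_mul, sub_zero, norm_mul]
        have h3 := htl m m'
        rw [h0, sub_zero] at h3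
        calc ‖(trz M m : ℂ)‖ * ‖G1 m * (G2 m * G3 m)‖ ≤ 2 / M * |(m : ℝ) - m'| * 1 :=
              mul_le_mul h3 (b123 m) (norm_nonneg _) (by positivity)
          _ ≤ _ := by rw [hmain]; linarith
    · have h0 : (trz M m : ℂ) = 0 := by
        by_contra h
        exact hm (hsupp m h)
      rw [h0, zero_mul, zero_sub, norm_neg, norm_mul]
      have h3 := htl m m'
      rw [h0, zero_sub, norm_neg] at h3
      calc ‖(trz M m' : ℂ)‖ * ‖G1 m' * (G2 m' * G3 m')‖ ≤ 2 / M * |(m : ℝ) - m'| * 1 :=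
            mul_le_mul h3 (b123 m') (norm_nonneg _) (by positivity)
        _ ≤ _ := by rw [hmain]; linarith

end Pool.Agent.T2h76
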