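import Pool.Agent.T2h76.Bi1

/-! Squaring out the bilinear form. -/

set_option autoImplicit false

namespace Pool.Agent.T2h76

open Finset
open Pool.Agent.H442R2.KF (e norm_e e_add e_congr norm_e_sub_le conj_e)

/-- one term of the inner sum -/
noncomputable def tk (Y N0 : ℝ) (q : ℕ) (Θ : ℤ) (β : ℕ → ℝ) (k : ℕ) (h : ℤ) (m : ℕ) (ν : ℤ) : ℂ :=
  if Nat.Coprime m (k * q) then
    (β k : ℂ) * (((gd (Y / ((m * (k * q) : ℕ) : ℝ)) h : ℝ) : ℂ) *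
      e (-((h : ℝ) * ((crt m (k * q) ν Θ : ℤ) - N0) / ((m * (k * q) : ℕ) : ℝ)))) else 0

/-- the inner sum -/
noncomputable def TT (Y N0 : ℝ) (q : ℕ) (Θ : ℤ) (β : ℕ → ℝ) (𝒦 : Finset ℕ) (H : ℕ) (m : ℕ) (ν : ℤ) : ℂ :=
  ∑ k ∈ 𝒦, ∑ h ∈ (Icc (-(H : ℤ)) H).erase 0, tk Y N0 q Θ β k h m ν

theorem phase2 (N0 : ℝ) (m k L q : ℕ) (hm : 1 ≤ m) (hk : 1 ≤ k) (hL : 1 ≤ L) (hq : 1 ≤ q) (hkL : k ∣ L)
    (hc : Nat.Coprime m (L * q)) (ν Θ h : ℤ) :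
    e (-((h : ℝ) * ((crt m (k * q) ν Θ : ℤ) - N0) / ((m * (k * q) : ℕ) : ℝ))) =
      e (-(((h * (L / k : ℕ) : ℤ) : ℝ) * ((crt m (L * q) ν Θ : ℤ) - N0) / ((m * (L * q) : ℕ) : ℝ))) := by
  obtain ⟨L', hL'⟩ := hkL
  have hL1 : L / k = L' := by rw [hL']; exact Nat.mul_div_cancel_left _ hk
  rw [hL1]
  have hck : Nat.Coprime m (k * q) := by
    apply hc.coprime_dvd_right
    rw [hL']
    exact ⟨L', by ring⟩
  have hkq : 0 < k * q := Nat.mul_pos hk hq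
  have hLq : 0 < L * q := Nat.mul_pos hL hq
  obtain ⟨a1, a2⟩ := crt_spec m (k * q) hkq hck ν Θ
  obtain ⟨b1, b2⟩ := crt_spec m (L * q) hLq hc ν Θ
  set c1 := crt m (k * q) ν Θ
  set c := crt m (L * q) ν Θ
  have h3 : ((m * (k * q) : ℕ) : ℤ) ∣ c - c1 := by
    push_cast
    have h4 := Nat.isCoprime_iff_coprime.mpr hck
    push_cast at h4
    apply h4.mul_dvd
    · have e1 : c - c1 = (c - ν) - (c1 - ν) := by ring
      rw [e1]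
      exact dvd_sub b1 a1
    · have e1 : c - c1 = (c - Θ) - (c1 - Θ) := by ring
      rw [e1]
      apply dvd_sub
      · refine dvd_trans ?_ b2
        rw [hL']
        push_cast
        exact ⟨L', by ring⟩
      · push_cast at a2
        exact a2
  obtain ⟨t, ht⟩ := h3
  apply e_congr (h * t)
  have hmr : (m : ℝ) ≠ 0 := by exact_mod_cast (by omega : m ≠ 0)
  have hkr : (k : ℝ) ≠ 0 := by exact_mod_cast (by omega : k ≠ 0)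
  have hqr : (q : ℝ) ≠ 0 := by exact_mod_cast (by omega : q ≠ 0)
  have hL'0 : L' ≠ 0 := by rintro rfl; simp at hL'; omega
  have hL'r : (L' : ℝ) ≠ 0 := by exact_mod_cast hL'0
  have htr : (c : ℝ) - c1 = m * (k * q) * t := by
    have : (c : ℤ) - c1 = m * (k * q) * t := by rw [ht]; push_cast; ring
    exact_mod_cast this
  rw [hL']
  push_cast
  field_simp
  linear_combination (h : ℝ) * htr

theorem lcm_pos' (k1 k2 : ℕ) (h1 : 1 ≤ k1) (h2 : 1 ≤ k2) : 1 ≤ Nat.lcm k1 k2 :=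
  Nat.lcm_pos h1 h2

/-- the frequency of a quadruple -/
def jj (k1 k2 : ℕ) (h1 h2 : ℤ) : ℤ := h2 * (Nat.lcm k1 k2 / k2 : ℕ) - h1 * (Nat.lcm k1 k2 / k1 : ℕ)

theorem cop_lcm (m k1 k2 q : ℕ) : Nat.Coprime m (Nat.lcm k1 k2 * q) ↔
    Nat.Coprime m (k1 * q) ∧ Nat.Coprime m (k2 * q) := by
  constructor
  · intro h
    exact ⟨h.coprime_dvd_right (Nat.mul_dvd_mul_right (Nat.dvd_lcm_left _ _) _),
      h.coprime_dvd_right (Nat.mul_dvd_mul_right (Nat.dvd_lcm_right _ _) _)⟩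
  · rintro ⟨h1, h2⟩
    have a1 := Nat.Coprime.coprime_mul_right_right h1
    have a2 := Nat.Coprime.coprime_mul_right_right h2
    have a3 := Nat.Coprime.coprime_mul_left_right h1
    apply Nat.Coprime.mul_right _ a3
    exact (Nat.Coprime.mul_right a1 a2).coprime_dvd_right (Nat.lcm_dvd_mul k1 k2)

theorem quad_term (Y N0 : ℝ) (M q : ℕ) (Θ : ℤ) (β : ℕ → ℝ) (k1 k2 : ℕ) (h1 h2 : ℤ) (m : ℕ) (ν : ℤ)
    (hm : 1 ≤ m) (hk1 : 1 ≤ k1) (hk2 : 1 ≤ k2) (hq : 1 ≤ q) :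
    (trz M m : ℂ) * (tk Y N0 q Θ β k1 h1 m ν * (starRingEnd ℂ) (tk Y N0 q Θ β k2 h2 m ν)) =
      (β k1 : ℂ) * (β k2 : ℂ) *
        wt (Nat.lcm k1 k2) q Θ (jj k1 k2 h1 h2)
          (Phi4 Y N0 M q k1 k2 (Nat.lcm k1 k2) h1 h2 (jj k1 k2 h1 h2)) m ν := by
  set L := Nat.lcm k1 k2 with hL
  have hL1 : 1 ≤ L := lcm_pos' k1 k2 hk1 hk2
  have hcop := cop_lcm m k1 k2 q
  rw [← hL] at hcop
  unfold wt
  by_cases hc : Nat.Coprime m (L * q)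
  · rw [if_pos hc]
    obtain ⟨c1, c2⟩ := hcop.1 hc
    unfold tk
    rw [if_pos c1, if_pos c2, phase2 N0 m k1 L q hm hk1 hL1 hq (Nat.dvd_lcm_left _ _) hc ν Θ h1,
      phase2 N0 m k2 L q hm hk2 hL1 hq (Nat.dvd_lcm_right _ _) hc ν Θ h2]
    rw [map_mul, map_mul, Complex.conj_ofReal, Complex.conj_ofReal, conj_e]
    unfold Phi4
    set c := crt m (L * q) ν Θ
    have hmr : (m : ℝ) ≠ 0 := by exact_mod_cast (by omega : m ≠ 0)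
    have hLr : (L : ℝ) ≠ 0 := by exact_mod_cast (by omega : L ≠ 0)
    have hqr : (q : ℝ) ≠ 0 := by exact_mod_cast (by omega : q ≠ 0)
    have he : e (-(((h1 * (L / k1 : ℕ) : ℤ) : ℝ) * ((c : ℤ) - N0) / ((m * (L * q) : ℕ) : ℝ))) *
        e (- -(((h2 * (L / k2 : ℕ) : ℤ) : ℝ) * ((c : ℤ) - N0) / ((m * (L * q) : ℕ) : ℝ))) =
        e (-(((jj k1 k2 h1 h2 : ℤ) : ℝ) * N0 / (m * (L * q)))) *
          e (((jj k1 k2 h1 h2 : ℤ) : ℝ) * c / (m * (L * q))) := by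
      rw [← e_add, ← e_add]
      congr 1
      unfold jj
      rw [← hL]
      push_cast
      field_simp
      ring
    calc _ = (β k1 : ℂ) * (β k2 : ℂ) * ((trz M m : ℂ) *
          (((gd (Y / ((m * (k1 * q) : ℕ) : ℝ)) h1 : ℝ) : ℂ) *
            ((gd (Y / ((m * (k2 * q) : ℕ) : ℝ)) h2 : ℝ) : ℂ))) *
          (e (-(((h1 * (L / k1 : ℕ) : ℤ) : ℝ) * ((c : ℤ) - N0) / ((m * (L * q) : ℕ) : ℝ))) *
        e (- -(((h2 * (L / k2 : ℕ) : ℤ) : ℝ) * ((c : ℤ) - N0) / ((m * (L * q) : ℕ) : ℝ)))) := by ring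
      _ = _ := by rw [he]; ring
  · rw [if_neg hc, mul_zero]
    unfold tk
    by_cases c1 : Nat.Coprime m (k1 * q)
    · have c2 : ¬ Nat.Coprime m (k2 * q) := fun h => hc (hcop.2 ⟨c1, h⟩)
      rw [if_neg c2, map_zero, mul_zero, mul_zero]
    · rw [if_neg c1, zero_mul, mul_zero]

/-- **Squaring out.** -/
theorem square_out (Y N0 : ℝ) (M q : ℕ) (Θ : ℤ) (β : ℕ → ℝ) (𝒦 : Finset ℕ) (H : ℕ)
    (h𝒦 : ∀ k ∈ 𝒦, 1 ≤ k) (hq : 1 ≤ q) :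
    ∑ m ∈ Icc 1 (3 * M), ∑ ν ∈ Rt m, trz M m * ‖TT Y N0 q Θ β 𝒦 H m ν‖ ^ 2 ≤
      ∑ k1 ∈ 𝒦, ∑ h1 ∈ (Icc (-(H : ℤ)) H).erase 0, ∑ k2 ∈ 𝒦, ∑ h2 ∈ (Icc (-(H : ℤ)) H).erase 0,
        |β k1| * |β k2| * ‖Ws (3 * M) (Nat.lcm k1 k2) q Θ (jj k1 k2 h1 h2)
          (Phi4 Y N0 M q k1 k2 (Nat.lcm k1 k2) h1 h2 (jj k1 k2 h1 h2))‖ := by
  have h1 : ((∑ m ∈ Icc 1 (3 * M), ∑ ν ∈ Rt m, trz M m * ‖TT Y N0 q Θ β 𝒦 H m ν‖ ^ 2 : ℝ) : ℂ) =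
      ∑ k1 ∈ 𝒦, ∑ h1 ∈ (Icc (-(H : ℤ)) H).erase 0, ∑ k2 ∈ 𝒦, ∑ h2 ∈ (Icc (-(H : ℤ)) H).erase 0,
        (β k1 : ℂ) * (β k2 : ℂ) * Ws (3 * M) (Nat.lcm k1 k2) q Θ (jj k1 k2 h1 h2)
          (Phi4 Y N0 M q k1 k2 (Nat.lcm k1 k2) h1 h2 (jj k1 k2 h1 h2)) := by
    have h2 : ∀ m ∈ Icc 1 (3 * M), ∀ ν ∈ Rt m, ((trz M m * ‖TT Y N0 q Θ β 𝒦 H m ν‖ ^ 2 : ℝ) : ℂ) =
        ∑ k1 ∈ 𝒦, ∑ h1 ∈ (Icc (-(H : ℤ)) H).erase 0, ∑ k2 ∈ 𝒦,
          ∑ h2 ∈ (Icc (-(H : ℤ)) H).erase 0,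
          (β k1 : ℂ) * (β k2 : ℂ) * wt (Nat.lcm k1 k2) q Θ (jj k1 k2 h1 h2)
            (Phi4 Y N0 M q k1 k2 (Nat.lcm k1 k2) h1 h2 (jj k1 k2 h1 h2)) m ν := by
      intro m hm ν _
      rw [mem_Icc] at hm
      have h3 : ((trz M m * ‖TT Y N0 q Θ β 𝒦 H m ν‖ ^ 2 : ℝ) : ℂ) =
          (trz M m : ℂ) * (TT Y N0 q Θ β 𝒦 H m ν * (starRingEnd ℂ) (TT Y N0 q Θ β 𝒦 H m ν)) := by
        rw [Complex.mul_conj, Complex.normSq_eq_norm_sq]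
        push_cast
        ring
      rw [h3]
      unfold TT
      rw [map_sum, Finset.sum_mul, Finset.mul_sum]
      apply Finset.sum_congr rfl
      intro k1 hk1
      rw [Finset.sum_mul, Finset.mul_sum]
      apply Finset.sum_congr rfl
      intro h1 _
      rw [Finset.mul_sum, Finset.mul_sum]
      apply Finset.sum_congr rfl
      intro k2 hk2
      rw [map_sum, Finset.mul_sum, Finset.mul_sum]
      apply Finset.sum_congr rfl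
      intro h2 _
      exact quad_term Y N0 M q Θ β k1 k2 h1 h2 m ν hm.1 (h𝒦 k1 hk1) (h𝒦 k2 hk2) hq
    push_cast
    have h3 : ∑ m ∈ Icc 1 (3 * M), ∑ ν ∈ Rt m, (trz M m : ℂ) * (‖TT Y N0 q Θ β 𝒦 H m ν‖ : ℂ) ^ 2 =
        ∑ m ∈ Icc 1 (3 * M), ∑ ν ∈ Rt m, ∑ k1 ∈ 𝒦, ∑ h1 ∈ (Icc (-(H : ℤ)) H).erase 0, ∑ k2 ∈ 𝒦,
          ∑ h2 ∈ (Icc (-(H : ℤ)) H).erase 0,
          (β k1 : ℂ) * (β k2 : ℂ) * wt (Nat.lcm k1 k2) q Θ (jj k1 k2 h1 h2)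
            (Phi4 Y N0 M q k1 k2 (Nat.lcm k1 k2) h1 h2 (jj k1 k2 h1 h2)) m ν := by
      apply Finset.sum_congr rfl
      intro m hm
      apply Finset.sum_congr rfl
      intro ν hν
      rw [← h2 m hm ν hν]
      push_cast
      rfl
    rw [h3]
    have h4 : ∀ m ∈ Icc 1 (3 * M), ∑ ν ∈ Rt m, ∑ k1 ∈ 𝒦, ∑ h1 ∈ (Icc (-(H : ℤ)) H).erase 0,
          ∑ k2 ∈ 𝒦, ∑ h2 ∈ (Icc (-(H : ℤ)) H).erase 0,
          (β k1 : ℂ) * (β k2 : ℂ) * wt (Nat.lcm k1 k2) q Θ (jj k1 k2 h1 h2)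
            (Phi4 Y N0 M q k1 k2 (Nat.lcm k1 k2) h1 h2 (jj k1 k2 h1 h2)) m ν =
          ∑ k1 ∈ 𝒦, ∑ h1 ∈ (Icc (-(H : ℤ)) H).erase 0, ∑ k2 ∈ 𝒦,
          ∑ h2 ∈ (Icc (-(H : ℤ)) H).erase 0, ∑ ν ∈ Rt m,
          (β k1 : ℂ) * (β k2 : ℂ) * wt (Nat.lcm k1 k2) q Θ (jj k1 k2 h1 h2)
            (Phi4 Y N0 M q k1 k2 (Nat.lcm k1 k2) h1 h2 (jj k1 k2 h1 h2)) m ν := by
      intro m _
      rw [Finset.sum_comm]
      apply Finset.sum_congr rfl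
      intro k1 _
      rw [Finset.sum_comm]
      apply Finset.sum_congr rfl
      intro h1 _
      rw [Finset.sum_comm]
      apply Finset.sum_congr rfl
      intro k2 _
      rw [Finset.sum_comm]
    rw [Finset.sum_congr rfl h4, Finset.sum_comm]
    apply Finset.sum_congr rfl
    intro k1 _
    rw [Finset.sum_comm]
    apply Finset.sum_congr rfl
    intro h1 _
    rw [Finset.sum_comm]
    apply Finset.sum_congr rfl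
    intro k2 _
    rw [Finset.sum_comm]
    apply Finset.sum_congr rfl
    intro h2 _
    unfold Ws
    rw [Finset.mul_sum]
    apply Finset.sum_congr rfl
    intro m _
    rw [Finset.mul_sum]
  set S : ℝ := ∑ m ∈ Icc 1 (3 * M), ∑ ν ∈ Rt m, trz M m * ‖TT Y N0 q Θ β 𝒦 H m ν‖ ^ 2 with hS
  have h2 : S ≤ ‖(S : ℂ)‖ := by
    rw [Complex.norm_real]
    exact le_abs_self S
  refine h2.trans ?_
  rw [h1]
  refine (norm_sum_le _ _).trans (Finset.sum_le_sum fun k1 _ => ?_)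
  refine (norm_sum_le _ _).trans (Finset.sum_le_sum fun h1 _ => ?_)
  refine (norm_sum_le _ _).trans (Finset.sum_le_sum fun k2 _ => ?_)
  refine (norm_sum_le _ _).trans (Finset.sum_le_sum fun h2 _ => ?_)
  rw [norm_mul, norm_mul, Complex.norm_real, Complex.norm_real]
  rfl

end Pool.Agent.T2h76
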