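import Pool.Agent.T2h76.Bi3

/-! The dispersion estimate. -/

set_option autoImplicit false

namespace Pool.Agent.T2h76

open Finset
open Pool.Agent.H442R2.KF (e norm_e e_add e_congr norm_e_sub_le conj_e)

theorem diag_count (ε : ℝ) (hε : 0 < ε) : ∃ C : ℝ, 0 < C ∧ ∀ (K H : ℕ) (𝒦 : Finset ℕ), 1 ≤ K →
    1 ≤ H → (∀ k ∈ 𝒦, K ≤ k ∧ k ≤ 2 * K) →
    ∑ k1 ∈ 𝒦, ∑ h1 ∈ (Icc (-(H : ℤ)) H).erase 0, ∑ k2 ∈ 𝒦, ∑ h2 ∈ (Icc (-(H : ℤ)) H).erase 0,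
      (if h1.natAbs * k2 = h2.natAbs * k1 then (1 : ℝ) else 0) ≤ C * ((K : ℝ) * H) ^ (1 + ε) := by
  obtain ⟨C, hC, HC⟩ := Pool.Agent.H262R4.FR.TW3.part1 ε hε
  refine ⟨4 * (C * 2 ^ (1 + ε)), by positivity, ?_⟩
  intro K H 𝒦 hK hH h𝒦
  have h1 : ∑ k1 ∈ 𝒦, ∑ h1 ∈ (Icc (-(H : ℤ)) H).erase 0, ∑ k2 ∈ 𝒦,
      ∑ h2 ∈ (Icc (-(H : ℤ)) H).erase 0, (if h1.natAbs * k2 = h2.natAbs * k1 then (1 : ℝ) else 0) =
      ∑ k1 ∈ 𝒦, ∑ k2 ∈ 𝒦, 4 * ∑ a ∈ Icc 1 H, ∑ b ∈ Icc 1 H,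
        (if a * k2 = b * k1 then (1 : ℝ) else 0) := by
    apply Finset.sum_congr rfl
    intro k1 _
    rw [Finset.sum_comm]
    apply Finset.sum_congr rfl
    intro k2 _
    have e1 : ∀ h1 ∈ (Icc (-(H : ℤ)) H).erase 0, ∑ h2 ∈ (Icc (-(H : ℤ)) H).erase 0,
        (if h1.natAbs * k2 = h2.natAbs * k1 then (1 : ℝ) else 0) =
        2 * ∑ b ∈ Icc 1 H, (if h1.natAbs * k2 = b * k1 then (1 : ℝ) else 0) := by
      intro h1 _
      exact sum_pm H (fun b => if h1.natAbs * k2 = b * k1 then (1 : ℝ) else 0)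
    rw [Finset.sum_congr rfl e1,
      sum_pm H (fun a => 2 * ∑ b ∈ Icc 1 H, (if a * k2 = b * k1 then (1 : ℝ) else 0)),
      ← Finset.mul_sum]
    ring
  rw [h1]
  have h2 : ∑ k1 ∈ 𝒦, ∑ k2 ∈ 𝒦, 4 * ∑ a ∈ Icc 1 H, ∑ b ∈ Icc 1 H,
        (if a * k2 = b * k1 then (1 : ℝ) else 0) ≤
      ∑ k1 ∈ Icc 1 (2 * K), ∑ k2 ∈ Icc 1 (2 * K), 4 * ∑ a ∈ Icc 1 H, ∑ b ∈ Icc 1 H,
        (if a * k2 = b * k1 then (1 : ℝ) else 0) := by
    have hsub : 𝒦 ⊆ Icc 1 (2 * K) := by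
      intro k hk
      have := h𝒦 k hk
      rw [mem_Icc]; omega
    have hpos : ∀ k1 k2 : ℕ, 0 ≤ 4 * ∑ a ∈ Icc 1 H, ∑ b ∈ Icc 1 H,
        (if a * k2 = b * k1 then (1 : ℝ) else 0) := by
      intro k1 k2
      apply mul_nonneg (by norm_num)
      apply Finset.sum_nonneg
      intro a _
      apply Finset.sum_nonneg
      intro b _
      split_ifs <;> norm_num
    refine (Finset.sum_le_sum fun k1 _ => Finset.sum_le_sum_of_subset_of_nonneg hsub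
      (fun k2 _ _ => hpos k1 k2)).trans ?_
    exact Finset.sum_le_sum_of_subset_of_nonneg hsub
      (fun k1 _ _ => Finset.sum_nonneg fun k2 _ => hpos k1 k2)
  refine h2.trans ?_
  have h3 := HC (2 * K) H (by omega) hH
  have h4 : ∑ k1 ∈ Icc 1 (2 * K), ∑ k2 ∈ Icc 1 (2 * K), 4 * ∑ a ∈ Icc 1 H, ∑ b ∈ Icc 1 H,
        (if a * k2 = b * k1 then (1 : ℝ) else 0) =
      4 * ((((Icc 1 (2 * K) ×ˢ Icc 1 (2 * K)) ×ˢ (Icc 1 H ×ˢ Icc 1 H)).filter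
      (fun x : (ℕ × ℕ) × (ℕ × ℕ) => x.2.1 * x.1.2 = x.2.2 * x.1.1)).card : ℝ) := by
    rw [Finset.card_filter]
    push_cast
    rw [Finset.sum_product, Finset.sum_product, Finset.mul_sum]
    apply Finset.sum_congr rfl
    intro k1 _
    rw [Finset.mul_sum]
    apply Finset.sum_congr rfl
    intro k2 _
    rw [Finset.sum_product]
  rw [h4]
  have h5 : (((2 * K : ℕ) : ℝ) * H) ^ (1 + ε) = 2 ^ (1 + ε) * ((K : ℝ) * H) ^ (1 + ε) := by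
    rw [← Real.mul_rpow (by norm_num) (by positivity)]
    congr 1
    push_cast
    ring
  rw [h5] at h3
  calc _ ≤ 4 * (C * (2 ^ (1 + ε) * ((K : ℝ) * H) ^ (1 + ε))) := mul_le_mul_of_nonneg_left h3 (by norm_num)
    _ = _ := by ring

/-- **The dispersion estimate.** -/
theorem block (ε : ℝ) (hε : 0 < ε) : ∃ C : ℝ, 0 < C ∧ ∀ (Y N0 : ℝ) (M K H q R : ℕ) (Θ : ℤ)
    (β : ℕ → ℝ) (B1 : ℝ) (𝒦 : Finset ℕ), 1 ≤ M → 1 ≤ K → 1 ≤ H → 1 ≤ q → 1 ≤ R → Nat.Coprime R q →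
    (R : ℤ) ∣ Θ ^ 2 + 1 → (∀ k ∈ 𝒦, k ∣ R ∧ K ≤ k ∧ k ≤ 2 * K) → 0 ≤ B1 → (∀ k, |β k| ≤ B1) →
    ∑ m ∈ Icc 1 (3 * M), ∑ ν ∈ Rt m, trz M m * ‖TT Y N0 q Θ β 𝒦 H m ν‖ ^ 2 ≤
      C * ((M : ℝ) * K * H * q) ^ ε * B1 ^ 2 * ((M : ℝ) * K * H +
        (1 + H * |N0| / (K * M * q)) * (1 + H / (K * M * q)) *
          ((q : ℝ) ^ 2 * (M : ℝ) ^ (3 / 4 : ℝ) * (K : ℝ) ^ 3 * (H : ℝ) ^ 2)) := by
  set δ : ℝ := ε / 8 with hδ
  have hδ0 : 0 < δ := by positivity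
  obtain ⟨C1, hC1, HW⟩ := weyl δ hδ0
  obtain ⟨C2, hC2, HD⟩ := diag_count ε hε
  obtain ⟨C3, hC3, hD⟩ := Pool.Agent.H510R2.divisor_bound δ hδ0
  refine ⟨6 * C2 + C1 * 32 ^ δ * 104 * 32 * C3 ^ 2 * 4 ^ δ, by positivity, ?_⟩
  intro Y N0 M K H q R Θ β B1 𝒦 hM hK hH hq hR hRq hΘ h𝒦 hB1 hβ
  have hMr : (1 : ℝ) ≤ M := by exact_mod_cast hM
  have hKr : (1 : ℝ) ≤ K := by exact_mod_cast hK
  have hHr : (1 : ℝ) ≤ H := by exact_mod_cast hH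
  have hqr : (1 : ℝ) ≤ q := by exact_mod_cast hq
  set P : ℝ := (M : ℝ) * K * H * q with hP
  have hP1 : 1 ≤ P := one_le_mul_of_one_le_of_one_le (one_le_mul_of_one_le_of_one_le
    (one_le_mul_of_one_le_of_one_le hMr hKr) hHr) hqr
  have hP0 : 0 < P := by linarith
  have h𝒦1 : ∀ k ∈ 𝒦, 1 ≤ k := fun k hk => hK.trans (h𝒦 k hk).2.1
  refine (square_out Y N0 M q Θ β 𝒦 H h𝒦1 hq).trans ?_
  set V : ℝ := H * |N0| / (K * M * q) with hV
  set U : ℝ := H / (K * M * q) with hU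
  have hV0 : 0 ≤ V := by positivity
  have hU0 : 0 ≤ U := by positivity
  set W0 : ℝ := C1 * (32 ^ δ * (P ^ δ * P ^ δ * P ^ δ)) * (104 * ((1 + V) * (1 + U))) *
    ((q : ℝ) ^ 2 * (M : ℝ) ^ (3 / 4 : ℝ)) with hW0
  have hW00 : 0 ≤ W0 := by positivity
  -- a single quadruple
  have hquad : ∀ k1 ∈ 𝒦, ∀ h1 ∈ (Icc (-(H : ℤ)) H).erase 0, ∀ k2 ∈ 𝒦,
      ∀ h2 ∈ (Icc (-(H : ℤ)) H).erase 0,
      |β k1| * |β k2| * ‖Ws (3 * M) (Nat.lcm k1 k2) q Θ (jj k1 k2 h1 h2)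
          (Phi4 Y N0 M q k1 k2 (Nat.lcm k1 k2) h1 h2 (jj k1 k2 h1 h2))‖ ≤
        B1 ^ 2 * (6 * M * (if h1.natAbs * k2 = h2.natAbs * k1 then (1 : ℝ) else 0) +
          W0 * (2 * K * (Real.sqrt (Nat.gcd (k1 / Nat.gcd k1 k2) h1.natAbs) *
            Real.sqrt (Nat.gcd (k2 / Nat.gcd k1 k2) h2.natAbs)))) := by
    intro k1 hk1 h1 hh1 k2 hk2 h2 hh2
    obtain ⟨r1, r2, r3⟩ := h𝒦 k1 hk1
    obtain ⟨s1, s2, s3⟩ := h𝒦 k2 hk2
    have hk11 := h𝒦1 k1 hk1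
    have hk21 := h𝒦1 k2 hk2
    rw [mem_erase, mem_Icc] at hh1 hh2
    have hh1' : h1.natAbs ≤ H := by omega
    have hh2' : h2.natAbs ≤ H := by omega
    set L := Nat.lcm k1 k2 with hL
    set j := jj k1 k2 h1 h2 with hj
    have hL1 : 1 ≤ L := lcm_pos' k1 k2 hk11 hk21
    have hLr : (1 : ℝ) ≤ L := by exact_mod_cast hL1
    have hLR : L ∣ R := Nat.lcm_dvd r1 s1
    have hLq : Nat.Coprime L q := hRq.coprime_dvd_left hLR
    have hLΘ : (L : ℤ) ∣ Θ ^ 2 + 1 := (by exact_mod_cast hLR : (L : ℤ) ∣ (R : ℤ)).trans hΘ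
    obtain ⟨p1, p2, p3⟩ := Phi4_bd Y N0 M q k1 k2 L h1 h2 j hM hk11 hk21 hL1 hq
    have hβ2 : |β k1| * |β k2| ≤ B1 ^ 2 := by
      rw [sq]
      exact mul_le_mul (hβ k1) (hβ k2) (abs_nonneg _) hB1
    have hSec0 : 0 ≤ W0 * (2 * K * (Real.sqrt (Nat.gcd (k1 / Nat.gcd k1 k2) h1.natAbs) *
            Real.sqrt (Nat.gcd (k2 / Nat.gcd k1 k2) h2.natAbs))) := by positivity
    apply mul_le_mul hβ2 _ (norm_nonneg _) (by positivity)
    by_cases hj0 : j = 0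
    · rw [if_pos (jj_zero k1 k2 h1 h2 hk11 hk21 hj0), mul_one]
      have := Ws_zero M L q Θ (Phi4 Y N0 M q k1 k2 L h1 h2 j) p1
      rw [hj0] at this ⊢
      linarith
    · have hj1 := jj_le K H k1 k2 h1 h2 hK r2 s2 hh1' hh2'
      rw [← hL, ← hj] at hj1
      set V' : ℝ := 30 + 26 * (|(j : ℝ)| * |N0| / (M * L * q)) with hV'
      have hV'0 : 1 ≤ V' := by
        have : 0 ≤ 26 * (|(j : ℝ)| * |N0| / (M * L * q)) := by positivity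
        linarith
      have hw := HW M L q Θ j (Phi4 Y N0 M q k1 k2 L h1 h2 j) V' hM hL1 hq hLq hLΘ hj0 (by linarith)
        (fun m => (p1 m).trans hV'0) p2 p3
      have e1 : |(j : ℝ)| / (M * L * q) ≤ 2 * U := by
        rw [div_le_iff₀ (by positivity)]
        refine hj1.trans (le_of_eq ?_)
        rw [hU]
        field_simp
      have e2 : V' ≤ 52 * (1 + V) := by
        have : |(j : ℝ)| * |N0| / (M * L * q) ≤ 2 * V := by
          calc |(j : ℝ)| * |N0| / (M * L * q) = |(j : ℝ)| / (M * L * q) * |N0| := by ring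
            _ ≤ 2 * U * |N0| := mul_le_mul_of_nonneg_right e1 (abs_nonneg _)
            _ = 2 * V := by rw [hU, hV]; ring
        linarith
      have hjr : (1 : ℝ) ≤ |(j : ℝ)| := by
        rw [← Int.cast_abs, Int.abs_eq_natAbs]
        have : 1 ≤ j.natAbs := Int.natAbs_pos.2 hj0
        exact_mod_cast this
      have hLK : (L : ℝ) ≤ 4 * K ^ 2 := by
        have h3 : L ≤ k1 * k2 := Nat.le_of_dvd (Nat.mul_pos hk11 hk21) (Nat.lcm_dvd_mul k1 k2)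
        have h4 : k1 * k2 ≤ (2 * K) * (2 * K) := Nat.mul_le_mul r3 s3
        have h5 : L ≤ (2 * K) * (2 * K) := h3.trans h4
        have h6 : (L : ℝ) ≤ (2 * K) * (2 * K) := by exact_mod_cast h5
        nlinarith
      have hjK : |(j : ℝ)| ≤ 8 * K * H := by
        refine hj1.trans ?_
        rw [div_le_iff₀ (by linarith)]
        nlinarith
      have e3 : ((M : ℝ) * L * q * |(j : ℝ)|) ^ δ ≤ 32 ^ δ * (P ^ δ * P ^ δ * P ^ δ) := by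
        rw [← Real.mul_rpow hP0.le hP0.le, ← Real.mul_rpow (by positivity) hP0.le,
          ← Real.mul_rpow (by norm_num) (by positivity)]
        apply Real.rpow_le_rpow (by positivity) _ hδ0.le
        calc (M : ℝ) * L * q * |(j : ℝ)| ≤ M * (4 * K ^ 2) * q * (8 * K * H) := by gcongr
          _ = 32 * ((M : ℝ) * (K * K * K) * H * q) := by ring
          _ ≤ 32 * (P * P * P) := by
              apply mul_le_mul_of_nonneg_left _ (by norm_num)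
              have e : P * P * P = (M * (K * K * K) * H * q) * ((M * M) * (H * H) * (q * q)) := by
                rw [hP]; ring
              rw [e]
              apply le_mul_of_one_le_right (by positivity)
              exact one_le_mul_of_one_le_of_one_le (one_le_mul_of_one_le_of_one_le
                (one_le_mul_of_one_le_of_one_le hMr hMr) (one_le_mul_of_one_le_of_one_le hHr hHr))
                (one_le_mul_of_one_le_of_one_le hqr hqr)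
      have e4 : Real.sqrt L * Real.sqrt (Nat.gcd L j.natAbs) ≤
          2 * K * (Real.sqrt (Nat.gcd (k1 / Nat.gcd k1 k2) h1.natAbs) *
            Real.sqrt (Nat.gcd (k2 / Nat.gcd k1 k2) h2.natAbs)) := by
        have h3 := gcd_bd k1 k2 h1 h2 hk11 hk21
        rw [← hL, ← hj] at h3
        have h4 : (L : ℝ) * (Nat.gcd L j.natAbs : ℕ) ≤ (k1 * k2 : ℝ) *
            ((Nat.gcd (k1 / Nat.gcd k1 k2) h1.natAbs : ℕ) *
              (Nat.gcd (k2 / Nat.gcd k1 k2) h2.natAbs : ℕ)) := by exact_mod_cast h3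
        rw [← Real.sqrt_mul (by positivity), ← Real.sqrt_mul (by positivity)]
        refine (Real.sqrt_le_sqrt h4).trans ?_
        rw [Real.sqrt_mul (by positivity)]
        apply mul_le_mul_of_nonneg_right _ (Real.sqrt_nonneg _)
        rw [show (2 * (K : ℝ)) = Real.sqrt ((2 * K) * (2 * K)) from
          (Real.sqrt_mul_self (by positivity)).symm]
        apply Real.sqrt_le_sqrt
        have a1 : (k1 : ℝ) ≤ 2 * K := by exact_mod_cast r3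
        have a2 : (k2 : ℝ) ≤ 2 * K := by exact_mod_cast s3
        exact mul_le_mul a1 a2 (Nat.cast_nonneg _) (by positivity)
      have hfirst : 0 ≤ 6 * (M : ℝ) * (if h1.natAbs * k2 = h2.natAbs * k1 then (1 : ℝ) else 0) := by
        split_ifs
        · positivity
        · simp
      refine le_trans ?_ (le_add_of_nonneg_left hfirst)
      refine hw.trans ?_
      calc C1 * ((M : ℝ) * L * q * |(j : ℝ)|) ^ δ * (V' * (1 + |(j : ℝ)| / (M * L * q))) *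
            ((q : ℝ) ^ 2 * (M : ℝ) ^ (3 / 4 : ℝ) * Real.sqrt L * Real.sqrt (Nat.gcd L j.natAbs)) ≤
          C1 * (32 ^ δ * (P ^ δ * P ^ δ * P ^ δ)) * (52 * (1 + V) * (1 + 2 * U)) *
            ((q : ℝ) ^ 2 * (M : ℝ) ^ (3 / 4 : ℝ) * Real.sqrt L * Real.sqrt (Nat.gcd L j.natAbs)) := by
            gcongr
        _ ≤ C1 * (32 ^ δ * (P ^ δ * P ^ δ * P ^ δ)) * (104 * ((1 + V) * (1 + U))) *
            ((q : ℝ) ^ 2 * (M : ℝ) ^ (3 / 4 : ℝ) * Real.sqrt L * Real.sqrt (Nat.gcd L j.natAbs)) := by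
            apply mul_le_mul_of_nonneg_right _ (by positivity)
            apply mul_le_mul_of_nonneg_left _ (by positivity)
            nlinarith
        _ = W0 * (Real.sqrt L * Real.sqrt (Nat.gcd L j.natAbs)) := by rw [hW0]; ring
        _ ≤ _ := mul_le_mul_of_nonneg_left e4 hW00
  refine (Finset.sum_le_sum fun k1 hk1 => Finset.sum_le_sum fun h1 hh1 =>
    Finset.sum_le_sum fun k2 hk2 => Finset.sum_le_sum fun h2 hh2 =>
    hquad k1 hk1 h1 hh1 k2 hk2 h2 hh2).trans ?_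
  -- the two sums
  have hDg := HD K H 𝒦 hK hH (fun k hk => (h𝒦 k hk).2)
  have hcard : (𝒦.card : ℝ) ≤ 2 * K := by
    have h3 : 𝒦 ⊆ Icc K (2 * K) := by
      intro k hk
      rw [mem_Icc]
      exact (h𝒦 k hk).2
    have h4 := Finset.card_le_card h3
    rw [Nat.card_Icc] at h4
    have h5 : 𝒦.card ≤ 2 * K := by omega
    exact_mod_cast h5
  have hoff : ∑ k1 ∈ 𝒦, ∑ h1 ∈ (Icc (-(H : ℤ)) H).erase 0, ∑ k2 ∈ 𝒦,
      ∑ h2 ∈ (Icc (-(H : ℤ)) H).erase 0,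
      (Real.sqrt (Nat.gcd (k1 / Nat.gcd k1 k2) h1.natAbs) *
            Real.sqrt (Nat.gcd (k2 / Nat.gcd k1 k2) h2.natAbs)) ≤
      (2 * K) ^ 2 * (2 * (H * (C3 * (2 * K : ℝ) ^ δ))) ^ 2 := by
    have h3 : ∀ k1 ∈ 𝒦, ∑ h1 ∈ (Icc (-(H : ℤ)) H).erase 0, ∑ k2 ∈ 𝒦,
      ∑ h2 ∈ (Icc (-(H : ℤ)) H).erase 0,
      (Real.sqrt (Nat.gcd (k1 / Nat.gcd k1 k2) h1.natAbs) *
            Real.sqrt (Nat.gcd (k2 / Nat.gcd k1 k2) h2.natAbs)) ≤
        2 * K * (2 * (H * (C3 * (2 * K : ℝ) ^ δ))) ^ 2 := by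
      intro k1 hk1
      rw [Finset.sum_comm]
      have h4 : ∀ k2 ∈ 𝒦, ∑ h1 ∈ (Icc (-(H : ℤ)) H).erase 0, ∑ h2 ∈ (Icc (-(H : ℤ)) H).erase 0,
          (Real.sqrt (Nat.gcd (k1 / Nat.gcd k1 k2) h1.natAbs) *
            Real.sqrt (Nat.gcd (k2 / Nat.gcd k1 k2) h2.natAbs)) ≤
          (2 * (H * (C3 * (2 * K : ℝ) ^ δ))) ^ 2 := by
        intro k2 hk2
        rw [← Finset.sum_mul_sum, sq]
        have hg : 0 < Nat.gcd k1 k2 := Nat.gcd_pos_of_pos_left _ (h𝒦1 k1 hk1)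
        have d1 : 1 ≤ k1 / Nat.gcd k1 k2 :=
          Nat.div_pos (Nat.le_of_dvd (h𝒦1 k1 hk1) (Nat.gcd_dvd_left _ _)) hg
        have d2 : 1 ≤ k2 / Nat.gcd k1 k2 :=
          Nat.div_pos (Nat.le_of_dvd (h𝒦1 k2 hk2) (Nat.gcd_dvd_right _ _)) hg
        have hτ : ∀ k a : ℕ, k ∈ 𝒦 → 1 ≤ a → a ≤ k → (a.divisors.card : ℝ) ≤ C3 * (2 * K : ℝ) ^ δ := by
          intro k a hk ha hak
          refine (hD a ha).trans ?_
          apply mul_le_mul_of_nonneg_left _ hC3.le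
          apply Real.rpow_le_rpow (by positivity) _ hδ0.le
          have := (hak.trans (h𝒦 k hk).2.2)
          exact_mod_cast this
        apply mul_le_mul
        · refine (sum_gcd _ H d1).trans ?_
          gcongr
          exact hτ k1 _ hk1 d1 (Nat.div_le_self _ _)
        · refine (sum_gcd _ H d2).trans ?_
          gcongr
          exact hτ k2 _ hk2 d2 (Nat.div_le_self _ _)
        · exact Finset.sum_nonneg fun h _ => Real.sqrt_nonneg _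
        · positivity
      refine (Finset.sum_le_sum h4).trans ?_
      rw [Finset.sum_const, nsmul_eq_mul]
      exact mul_le_mul_of_nonneg_right hcard (by positivity)
    refine (Finset.sum_le_sum h3).trans ?_
    rw [Finset.sum_const, nsmul_eq_mul]
    calc (𝒦.card : ℝ) * (2 * K * (2 * (H * (C3 * (2 * K : ℝ) ^ δ))) ^ 2) ≤
        (2 * K) * (2 * K * (2 * (H * (C3 * (2 * K : ℝ) ^ δ))) ^ 2) :=
          mul_le_mul_of_nonneg_right hcard (by positivity)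
      _ = _ := by ring
  have hsplit : ∑ k1 ∈ 𝒦, ∑ h1 ∈ (Icc (-(H : ℤ)) H).erase 0, ∑ k2 ∈ 𝒦,
      ∑ h2 ∈ (Icc (-(H : ℤ)) H).erase 0,
      B1 ^ 2 * (6 * M * (if h1.natAbs * k2 = h2.natAbs * k1 then (1 : ℝ) else 0) +
          W0 * (2 * K * (Real.sqrt (Nat.gcd (k1 / Nat.gcd k1 k2) h1.natAbs) *
            Real.sqrt (Nat.gcd (k2 / Nat.gcd k1 k2) h2.natAbs)))) =
      B1 ^ 2 * (6 * M * (∑ k1 ∈ 𝒦, ∑ h1 ∈ (Icc (-(H : ℤ)) H).erase 0, ∑ k2 ∈ 𝒦,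
        ∑ h2 ∈ (Icc (-(H : ℤ)) H).erase 0,
          (if h1.natAbs * k2 = h2.natAbs * k1 then (1 : ℝ) else 0)) +
        W0 * (2 * K * ∑ k1 ∈ 𝒦, ∑ h1 ∈ (Icc (-(H : ℤ)) H).erase 0, ∑ k2 ∈ 𝒦,
          ∑ h2 ∈ (Icc (-(H : ℤ)) H).erase 0,
          (Real.sqrt (Nat.gcd (k1 / Nat.gcd k1 k2) h1.natAbs) *
            Real.sqrt (Nat.gcd (k2 / Nat.gcd k1 k2) h2.natAbs)))) := by
    simp only [Finset.mul_sum, ← Finset.sum_add_distrib, mul_add]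
  rw [hsplit]
  have hKH : ((K : ℝ) * H) ^ (1 + ε) ≤ P ^ ε * (K * H) := by
    rw [Real.rpow_add (by positivity), Real.rpow_one, mul_comm]
    apply mul_le_mul_of_nonneg_right _ (by positivity)
    apply Real.rpow_le_rpow (by positivity) _ hε.le
    calc (K : ℝ) * H = 1 * K * H * 1 := by ring
      _ ≤ M * K * H * q := by gcongr
  have hPd : (32 ^ δ * (P ^ δ * P ^ δ * P ^ δ)) * ((2 * K : ℝ) ^ δ) ^ 2 ≤ 32 ^ δ * 4 ^ δ * P ^ ε := by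
    have h3 : ((2 * K : ℝ) ^ δ) ^ 2 ≤ 4 ^ δ * (P ^ δ * P ^ δ) := by
      rw [← Real.mul_rpow hP0.le hP0.le, ← Real.mul_rpow (by norm_num) (by positivity), sq,
        ← Real.mul_rpow (by positivity) (by positivity)]
      apply Real.rpow_le_rpow (by positivity) _ hδ0.le
      have : (K : ℝ) ≤ P := by
        rw [hP]
        calc (K : ℝ) = 1 * K * 1 * 1 := by ring
          _ ≤ M * K * H * q := by gcongr
      nlinarith
    have h4 : P ^ δ * P ^ δ * P ^ δ * (P ^ δ * P ^ δ) ≤ P ^ ε := by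
      rw [← Real.rpow_add hP0, ← Real.rpow_add hP0, ← Real.rpow_add hP0]
      apply Real.rpow_le_rpow_of_exponent_le hP1
      rw [hδ]; linarith
    calc (32 ^ δ * (P ^ δ * P ^ δ * P ^ δ)) * ((2 * K : ℝ) ^ δ) ^ 2 ≤
        (32 ^ δ * (P ^ δ * P ^ δ * P ^ δ)) * (4 ^ δ * (P ^ δ * P ^ δ)) :=
          mul_le_mul_of_nonneg_left h3 (by positivity)
      _ = 32 ^ δ * 4 ^ δ * (P ^ δ * P ^ δ * P ^ δ * (P ^ δ * P ^ δ)) := by ring
      _ ≤ _ := mul_le_mul_of_nonneg_left h4 (by positivity)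
  have hA : 6 * M * (∑ k1 ∈ 𝒦, ∑ h1 ∈ (Icc (-(H : ℤ)) H).erase 0, ∑ k2 ∈ 𝒦,
        ∑ h2 ∈ (Icc (-(H : ℤ)) H).erase 0,
          (if h1.natAbs * k2 = h2.natAbs * k1 then (1 : ℝ) else 0)) ≤
      6 * C2 * P ^ ε * ((M : ℝ) * K * H) := by
    calc _ ≤ 6 * (M : ℝ) * (C2 * (P ^ ε * (K * H))) := by
          apply mul_le_mul_of_nonneg_left _ (by positivity)
          exact hDg.trans (mul_le_mul_of_nonneg_left hKH hC2.le)
      _ = _ := by ring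
  set Q : ℝ := (1 + V) * (1 + U) * ((q : ℝ) ^ 2 * (M : ℝ) ^ (3 / 4 : ℝ) * (K : ℝ) ^ 3 * (H : ℝ) ^ 2) with hQ
  have hQ0 : 0 ≤ Q := by positivity
  have hB : W0 * (2 * K * ∑ k1 ∈ 𝒦, ∑ h1 ∈ (Icc (-(H : ℤ)) H).erase 0, ∑ k2 ∈ 𝒦,
          ∑ h2 ∈ (Icc (-(H : ℤ)) H).erase 0,
          (Real.sqrt (Nat.gcd (k1 / Nat.gcd k1 k2) h1.natAbs) *
            Real.sqrt (Nat.gcd (k2 / Nat.gcd k1 k2) h2.natAbs))) ≤
      C1 * 32 ^ δ * 104 * 32 * C3 ^ 2 * 4 ^ δ * P ^ ε * Q := by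
    calc _ ≤ W0 * (2 * K * ((2 * K) ^ 2 * (2 * (H * (C3 * (2 * K : ℝ) ^ δ))) ^ 2)) := by gcongr
      _ = C1 * 104 * 32 * C3 ^ 2 * ((32 ^ δ * (P ^ δ * P ^ δ * P ^ δ)) * ((2 * K : ℝ) ^ δ) ^ 2) * Q := by
          rw [hW0, hQ]; ring
      _ ≤ C1 * 104 * 32 * C3 ^ 2 * (32 ^ δ * 4 ^ δ * P ^ ε) * Q := by gcongr
      _ = _ := by ring
  have hMKH : 0 ≤ (M : ℝ) * K * H := by positivity
  have hPε : 0 ≤ P ^ ε := by positivity
  calc B1 ^ 2 * _ ≤ B1 ^ 2 * (6 * C2 * P ^ ε * ((M : ℝ) * K * H) +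
        C1 * 32 ^ δ * 104 * 32 * C3 ^ 2 * 4 ^ δ * P ^ ε * Q) := by
        apply mul_le_mul_of_nonneg_left (add_le_add hA hB) (by positivity)
    _ ≤ B1 ^ 2 * ((6 * C2 + C1 * 32 ^ δ * 104 * 32 * C3 ^ 2 * 4 ^ δ) * P ^ ε * ((M : ℝ) * K * H + Q)) := by
        apply mul_le_mul_of_nonneg_left _ (by positivity)
        have c1 : 0 ≤ C1 * 32 ^ δ * 104 * 32 * C3 ^ 2 * 4 ^ δ * P ^ ε * ((M : ℝ) * K * H) := by positivity
        have c2 : 0 ≤ 6 * C2 * P ^ ε * Q := by positivity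
        nlinarith
    _ = _ := by ring

end Pool.Agent.T2h76
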