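import Pool.Agent.T2h76.Sv6

/-! Universal weights of the weighted linear sieve with a bilinear remainder. -/

set_option autoImplicit false

namespace Pool.Agent.T2h76

open Finset Filter
open Pool.Agent.W23.DC
open Pool.Agent.Y882 (flw exJ VV VV_union VV_mu VV_sub VV_add tt_lt)
open Pool.Agent.Y844.BT (cel cel_spec)

theorem mer_cel (X : ℕ) (hX : 2 ≤ X) (h : ℕ → ℝ) (τ ζ υ μ ν γ ε₁ η ϖ δ0 : ℝ)
    (nε nz nυ n0 K x y : ℕ) (hP : PD τ ζ υ μ ν γ ε₁ η ϖ δ0 nε nz nυ n0 K x y) (hε0 : 0 < ε₁)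
    (hυ : υ ≤ 1) (hh1' : ∀ p ∈ pr X (ε₁ / 2) 1, 0 ≤ h p)
    (hMer : Mer (pr X (ε₁ / 2) 1) (tt X) h (ε₁ / 2) 1 (η / 4)) :
    Mer (Ce X ϖ nε nυ) (fun p => ϖ * (cel X ϖ p + 1) + δ0 * (p / (X + 1))) h ε₁ υ η := by
  have hϖ0 := hP.ϖp
  have hδ00 := hP.δp
  have hsm2 := hP.δs2
  have enυ := hP.eυ
  have enε := hP.eε
  apply mer_round X h _ ε₁ υ (ϖ + δ0) η hε0 hυ (by positivity) hP.r1 hP.r2 hh1' hMer
  · intro p hp hpX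
    exact rnd_spec X hX ϖ δ0 hϖ0 hδ00.le p hp hpX
  · intro p hp
    rw [mem_Ce] at hp
    exact ⟨hp.2.1, hp.1.2⟩
  · intro p hp hpX h6 h7
    obtain ⟨_, _, h8, h9⟩ := cel_spec X hX ϖ hϖ0 p hp.one_le
    have hq0 : 0 ≤ (p : ℝ) / (X + 1) := by positivity
    have hq1 : (p : ℝ) / (X + 1) ≤ 1 := by
      rw [div_le_one (by positivity)]
      have : (p : ℝ) ≤ X := by exact_mod_cast hpX
      linarith
    have hd1 : δ0 * ((p : ℝ) / (X + 1)) ≤ δ0 := by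
      have := mul_le_mul_of_nonneg_left hq1 hδ00.le
      linarith
    have hd0 : 0 ≤ δ0 * ((p : ℝ) / (X + 1)) := mul_nonneg hδ00.le hq0
    rw [mem_Ce]
    refine ⟨⟨hp.one_le, hpX⟩, hp, ?_, ?_⟩
    · by_contra hcon
      push Not at hcon
      have h11 : (cel X ϖ p : ℝ) + 1 ≤ nε := by exact_mod_cast hcon
      have h12 := mul_le_mul_of_nonneg_left h11 hϖ0.le
      have h13 : ϖ * ((nε : ℝ) + 1 / 2) = ϖ * nε + ϖ / 2 := by ring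
      linarith
    · by_contra hcon
      push Not at hcon
      have h11 : (nυ : ℝ) ≤ cel X ϖ p := by exact_mod_cast hcon
      have h12 := mul_le_mul_of_nonneg_left h11 hϖ0.le
      have h13 : ϖ * ((nυ : ℝ) + 1 / 2) = ϖ * nυ + ϖ / 2 := by ring
      have h14 : ϖ * ((cel X ϖ p : ℝ) + 1) = ϖ * cel X ϖ p + ϖ := by ring
      linarith

open Classical in
theorem core5 (κ : ℕ) (r1 r2 r3 : ℕ) (o1 : Odd r1) (o2 : Odd r2) (o3 : Odd r3) (u a b μ ν : ℝ)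
    (hu : 0 < u) (h12 : 2 * r2 < r1) (h5 : r1 ≤ 5 * r2) (hτ : r1 * u ≤ 1) (h23 : r2 ≤ r3)
    (h31 : r3 < r1) (ha : 0 ≤ a) (hb : 0 ≤ b) (hab : b * (r3 * u) ≤ a)
    (hJ : ∫ x in (r2 * u)..(r3 * u), (a - b * x) / (r1 * u - x) * cor ((r1 * u - x) / (r2 * u)) / x <
      Real.log ((r1 * u) / (r2 * u) - 1) / (r1 * u))
    (hν : 0 < ν) (hν2 : ν ≤ (r1 - r3) * u) (hμν : r1 * u < μ + ν) (ϖ2 : ℝ) (hϖ2 : 0 < ϖ2) :
    ∃ (ε₁ η f A ϖ : ℝ) (nε nz nυ : ℕ), 0 < ε₁ ∧ ε₁ ≤ r2 * u ∧ 0 < η ∧ 0 < f ∧ 0 < A ∧ 0 < ϖ ∧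
      ϖ ≤ ϖ2 ∧ ϖ * (nε + 1 / 2) = ε₁ ∧ ϖ * (nz + 1 / 2) = r2 * u ∧ ϖ * (nυ + 1 / 2) = r3 * u ∧
      ∃ X0 : ℕ, ∀ X : ℕ, X0 ≤ X → ∃ c : Finset ℕ → ℝ,
      (∀ N : ℕ, VV (Ce X ϖ 0 nυ) c (fun p => if p ∣ N then 1 else 0) ≤ WWc X ϖ a b nz nυ N) ∧
      (∀ (r : ℕ → ℝ) (E : ℝ), (∀ a b : ℕ → ℝ, (∀ m, |a m| ≤ 1) → (∀ k, |b k| ≤ 1) →
          (∀ k, b k ≠ 0 → Squarefree k) →
          |∑ m ∈ Icc 1 ⌊(X : ℝ) ^ μ⌋₊, ∑ k ∈ Icc 1 ⌊(X : ℝ) ^ ν⌋₊,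
            if Nat.Coprime m k then a m * (b k * r (m * k)) else 0| ≤ E) →
          |∑ T ∈ (Ce X ϖ 0 nυ).powerset, c T * r (∏ p ∈ T, p)| ≤ A * Real.log X * E) ∧
      ∀ h : ℕ → ℝ, (∀ p ∈ Ce X ϖ 0 nυ, 0 ≤ h p) → (∀ p ∈ pr X (ε₁ / 2) 1, 0 ≤ h p) →
        (∀ p ∈ Ce X ϖ 0 nε, h p ≤ 1) → (∀ p ∈ Ce X ϖ 0 nε, κ < p → h p ≤ κ / ((p : ℝ) - 1)) →
        Mer (pr X (ε₁ / 2) 1) (tt X) h (ε₁ / 2) 1 η →
        f * ∏ p ∈ Ce X ϖ 0 nε, (1 - h p) ≤ VV (Ce X ϖ 0 nυ) c h := by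
  have r2n : 1 ≤ r2 := by
    obtain ⟨k, hk⟩ := o2
    omega
  have r2pos : (1 : ℝ) ≤ r2 := by exact_mod_cast r2n
  have h12r : 2 * (r2 : ℝ) < r1 := by exact_mod_cast h12
  have h5r : (r1 : ℝ) ≤ 5 * r2 := by exact_mod_cast h5
  have h23r : (r2 : ℝ) ≤ r3 := by exact_mod_cast h23
  have h31r : (r3 : ℝ) + 1 ≤ r1 := by exact_mod_cast h31
  have hζ : 0 < (r2 : ℝ) * u := by positivity
  have h2τ : 2 * ((r2 : ℝ) * u) < r1 * u := by nlinarith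
  have h4τ : (r1 : ℝ) * u ≤ 5 * (r2 * u) := by nlinarith
  have hζυ : (r2 : ℝ) * u ≤ r3 * u := mul_le_mul_of_nonneg_right h23r hu.le
  have hυτ' : (r3 : ℝ) * u + u ≤ r1 * u := by nlinarith
  have hυτ : (r3 : ℝ) * u < r1 * u := by linarith
  obtain ⟨C, hC1, HF⟩ := flw
  obtain ⟨f0, F0, hf0, hF0, HL⟩ := lswc (r1 * u) (r2 * u) (r3 * u) a b hζ h2τ h4τ hτ hζυ hυτ ha hb
    hab hJ
  obtain ⟨bb, hb1, hb2⟩ : ∃ bb : ℕ, C * (κ + 1) ≤ bb ∧ 2 * (1 / 2 : ℝ) ^ bb * F0 ≤ f0 / 2 := by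
    obtain ⟨m, hm⟩ := exists_pow_lt_of_lt_one (show 0 < f0 / (4 * F0) by positivity)
      (show (1 / 2 : ℝ) < 1 by norm_num)
    refine ⟨max m (C * (κ + 1)), le_max_right _ _, ?_⟩
    have h6 : (1 / 2 : ℝ) ^ (max m (C * (κ + 1))) ≤ (1 / 2) ^ m :=
      pow_le_pow_of_le_one (by norm_num) (by norm_num) (le_max_left _ _)
    have h7 := h6.trans hm.le
    rw [le_div_iff₀ (by positivity)] at h7
    linarith
  set γ : ℝ := μ + ν - r1 * u with hγ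
  have hγ0 : 0 < γ := by linarith
  -- the choice of ε₁
  obtain ⟨i, hi⟩ := exists_nat_ge (16 * ((C * bb : ℕ) : ℝ) * u / γ)
  have hir : (0 : ℝ) ≤ i := Nat.cast_nonneg _
  have hs1 : (1 : ℝ) ≤ 2 * (i : ℝ) + 1 := by linarith
  set ε₁ : ℝ := u / (2 * i + 1) with hε₁
  have hε0 : 0 < ε₁ := by positivity
  have hεu : ε₁ ≤ u := div_le_self hu.le hs1
  have hεζ : ε₁ ≤ (r2 : ℝ) * u := by
    refine hεu.trans ?_
    exact le_mul_of_one_le_left hu.le r2pos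
  have hετ : ε₁ ≤ (r1 : ℝ) * u - r3 * u := by linarith
  have hεb : 2 * ε₁ * ((C * bb : ℕ) : ℝ) ≤ γ / 4 := by
    have h6 : 16 * ((C * bb : ℕ) : ℝ) * u ≤ γ * (2 * i + 1) := by
      rw [div_le_iff₀ hγ0] at hi
      nlinarith
    have h7 : 2 * ε₁ * ((C * bb : ℕ) : ℝ) = (2 * ((C * bb : ℕ) : ℝ) * u) / (2 * i + 1) := by
      rw [hε₁]; ring
    rw [h7, div_le_iff₀ (by linarith)]
    have : 0 < γ * (2 * i + 1) := by positivity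
    nlinarith
  obtain ⟨η, ϖ1, K, hη, hϖ1, hK1, HL'⟩ := HL ε₁ hε0 hεζ hετ
  obtain ⟨ϖ, δ0, nε, nz, nυ, n0, x, y, hϖϖm, hP⟩ := params r1 r2 r3 i o1 o2 o3 u μ ν η (min ϖ1 ϖ2) K
    hu r2n h23 h31 hν hν2 hμν hη (lt_min hϖ1 hϖ2)
  have hϖϖ1 : ϖ ≤ ϖ1 := hϖϖm.trans (min_le_left _ _)
  have hϖϖ2 : ϖ ≤ ϖ2 := hϖϖm.trans (min_le_right _ _)
  rw [← hγ, ← hε₁] at hP
  have hϖ0 := hP.ϖp
  obtain ⟨Y2, hJJ⟩ := exJ ε₁ hε0
  set z0 : ℕ := C * (κ + 1) with hz0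
  set B : ℕ := ∏ p ∈ (Icc 1 z0), p with hB
  have ev1 : ∀ᶠ Y : ℕ in atTop, (B : ℝ) ≤ (Y : ℝ) ^ (γ / 4) :=
    tendsto_natCast_atTop_atTop.eventually
      ((tendsto_rpow_atTop (by linarith)).eventually_ge_atTop _)
  have ev5 : ∀ᶠ Y : ℕ in atTop, 3 + a ≤ Real.log Y :=
    (Real.tendsto_log_atTop.comp tendsto_natCast_atTop_atTop).eventually_ge_atTop _
  obtain ⟨Y3, hY3⟩ := eventually_atTop.1 (ev1.and (ev5.and (eventually_ge_atTop 3)))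
  refine ⟨ε₁, η / 4, f0 * ε₁ / 2, 5 * (TT0 n0 nυ).card + 1, ϖ, nε, nz, nυ, hε0, hεζ, by positivity,
    by positivity, by positivity, hϖ0, hϖϖ2, hP.eε, hP.ez, hP.eυ, max Y2 Y3, ?_⟩
  intro X hX
  have hXX2 : Y2 ≤ X := (le_max_left _ _).trans hX
  obtain ⟨e1, e5, e4⟩ := hY3 X ((le_max_right _ _).trans hX)
  obtain ⟨J, hJ1, hJ2⟩ := hJJ X hXX2
  have hX2 : 2 ≤ X := by omega
  have hXr : (3 : ℝ) ≤ X := by exact_mod_cast e4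
  have hX0 : (0 : ℝ) < X := by linarith
  have hX1r : (1 : ℝ) ≤ X := by linarith
  have hlX : 0 < Real.log X := Real.log_pos (by linarith)
  have hlog2 : 0.69 < Real.log 2 := by linarith [Real.log_two_gt_d9]
  have hJc : (J : ℝ) + 3 + a ≤ 5 * Real.log X := by
    have h9 : (2 : ℝ) ^ J * Real.log 2 ≤ 2 * ε₁ * Real.log X := by
      have h6 := Real.log_le_log (by positivity) hJ2
      rw [Real.log_rpow (by linarith), Real.log_pow] at h6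
      push_cast at h6
      exact h6
    have h6 : (J : ℝ) ≤ 2 ^ J := by exact_mod_cast Nat.lt_two_pow_self.le
    have h7 : (2 : ℝ) ^ J * 0.69 ≤ 2 * ε₁ * Real.log X := by
      refine le_trans ?_ h9
      apply mul_le_mul_of_nonneg_left hlog2.le (by positivity)
    have h8 : ε₁ * Real.log X ≤ 1 / 2 * Real.log X := by
      apply mul_le_mul_of_nonneg_right _ hlX.le
      linarith
    linarith
  -- the sets of primes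
  have hPR : Ce X ϖ nε nz ∪ Ce X ϖ nz nυ = Ce X ϖ nε nυ := Ce_union X ϖ nε nz nυ hP.m1 hP.m2
  have hall : Ce X ϖ 0 nε ∪ Ce X ϖ nε nυ = Ce X ϖ 0 nυ :=
    Ce_union X ϖ 0 nε nυ (Nat.zero_le _) (hP.m1.trans hP.m2)
  have hPζ : Ce X ϖ 0 nε ∪ Ce X ϖ nε nz = Ce X ϖ 0 nz := Ce_union X ϖ 0 nε nz (Nat.zero_le _) hP.m1
  have hd2 : Disjoint (Ce X ϖ 0 nε) (Ce X ϖ nε nυ) := Ce_disj X ϖ 0 nε nε nυ le_rfl
  have hQ0p : ∀ p ∈ Ce X ϖ 0 nε, p.Prime ∧ p ≤ X ∧ (p : ℝ) < (X : ℝ) ^ ε₁ := by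
    intro p hp
    rw [mem_Ce] at hp
    obtain ⟨⟨h6, h7⟩, h8, _, h9⟩ := hp
    refine ⟨h8, h7, (cel_spec X hX2 ϖ hϖ0 p h6).2.1.trans_le ?_⟩
    apply Real.rpow_le_rpow_of_exponent_le hX1r
    have h10 := hP.eε
    have h11 : (cel X ϖ p : ℝ) + 1 ≤ nε := by exact_mod_cast h9
    have h12 := mul_le_mul_of_nonneg_left h11 hϖ0.le
    have h13 : ϖ * ((nε : ℝ) + 1 / 2) = ϖ * nε + ϖ / 2 := by ring
    linarith
  obtain ⟨P0, hP0⟩ : ∃ P0, P0 = (Ce X ϖ 0 nε).filter (fun p => p ≤ z0) := ⟨_, rfl⟩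
  obtain ⟨P1, hP1⟩ : ∃ P1, P1 = (Ce X ϖ 0 nε).filter (fun p => ¬ p ≤ z0) := ⟨_, rfl⟩
  have hQ : P0 ∪ P1 = Ce X ϖ 0 nε := by rw [hP0, hP1]; exact filter_union_filter_not_eq _ _
  have hd01 : Disjoint P0 P1 := by rw [hP0, hP1]; exact disjoint_filter_filter_not _ _ _
  obtain ⟨cU, cL, g1, g2, g3, g4⟩ := HF κ bb J z0 P1 hb1 le_rfl (by
    intro p hp
    rw [hP1, mem_filter] at hp
    have h6 := (hQ0p p hp.1).2.2.trans_le hJ1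
    have h7 : p < 2 ^ 2 ^ J := by exact_mod_cast h6
    exact ⟨(hQ0p p hp.1).1, by omega, h7.le⟩)
  -- the data of the cells
  have hCD := cd_nat X hX2 ϖ δ0 (r1 * u) (r2 * u) (r3 * u) ε₁ nε nz nυ n0 K hϖ0 hP.δp hP.δs hP.e0
    hP.ez hP.eυ hP.eε
  obtain ⟨k1, k2, k3, k4⟩ := HL' _ _ _ (cel X ϖ) ϖ δ0 n0 nz hCD hϖϖ1
  rw [hPR] at k1 k2 k3 k4
  obtain ⟨zU, hzU⟩ : ∃ zU : Finset ℕ → ℝ, zU = fun T => yU n0 nz K (ty (cel X ϖ) T) := ⟨_, rfl⟩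
  obtain ⟨zL, hzL⟩ : ∃ zL : Finset ℕ → ℝ, zL = fun T => yL n0 nz K ϖ a b (ty (cel X ϖ) T) := ⟨_, rfl⟩
  rw [← hzU, ← hzL] at k3 k4
  refine ⟨fun T => Wc P0 P1 (Ce X ϖ 0 nε) (Ce X ϖ nε nυ) cL zU T +
    Wc P0 P1 (Ce X ϖ 0 nε) (Ce X ϖ nε nυ) cU zL T - Wc P0 P1 (Ce X ϖ 0 nε) (Ce X ϖ nε nυ) cU zU T,
    ?_, ?_, ?_⟩
  · intro N
    have hS0 : 0 ≤ ∑ q ∈ Ce X ϖ nz nυ, (a - b * (ϖ * cel X ϖ q)) * (if q ∣ N then (1 : ℝ) else 0) := by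
      apply sum_nonneg
      intro q hq
      have h6 := (hCD.onR q hq).2.2
      have h6' := (hCD.cel q (mem_union_right _ hq)).1
      have h7 : ϖ * (cel X ϖ q : ℝ) ≤ r3 * u := by
        have : ϖ * ((cel X ϖ q : ℝ) + 1) = ϖ * cel X ϖ q + ϖ := by ring
        linarith
      have h8 : b * (ϖ * cel X ϖ q) ≤ b * (r3 * u) := mul_le_mul_of_nonneg_left h7 hb
      apply mul_nonneg (by linarith)
      split_ifs <;> norm_num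
    have h6 := comb_ind P0 P1 (Ce X ϖ 0 nε) (Ce X ϖ nε nυ) (Ce X ϖ nε nz) hQ hd01 hd2 cU cL zU zL N
      _ hS0 (g3 N).1 (g3 N).2 (k3 N).1 (k3 N).2
    rw [hall, hPζ] at h6
    exact h6
  · intro r E hr
    have hE : 0 ≤ E := by
      have := hr (fun _ => 0) (fun _ => 0) (by simp) (by simp) (by simp)
      exact (abs_nonneg _).trans this
    have hsmall : ∀ U ⊆ Ce X ϖ 0 nε, (cU (U ∩ P1) ≠ 0 ∨ cL (U ∩ P1) ≠ 0) →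
        ((∏ p ∈ U, p : ℕ) : ℝ) ≤ (X : ℝ) ^ (γ / 2) := by
      intro U hU hne
      have h6 := g2 _ inter_subset_right hne
      rw [hP1] at h6
      exact small_size X J (C * bb) z0 B γ ε₁ (by omega) hB e1 hJ2 hεb (Ce X ϖ 0 nε)
        (fun p hp => (hQ0p p hp).1) U hU h6
    have hsp : ∀ S ⊆ Ce X ϖ nε nυ, (yU n0 nz K (ty (cel X ϖ) S) ≠ 0 ∨
        yL n0 nz K ϖ a b (ty (cel X ϖ) S) ≠ 0) →
        ∃ T1 ⊆ S, ∑ q ∈ T1, (cel X ϖ q + 1) ≤ x ∧ ∑ q ∈ S \ T1, (cel X ϖ q + 1) ≤ y := by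
      intro S hS hne
      apply k2 S hS hne x y hP.xy
      intro q hq
      rw [mem_Ce] at hq
      have := hP.m3
      omega
    have t1 := rem_one X hX2 ϖ hϖ0 nε nυ n0 x y hP.xy hP.m3 μ ν γ hP.sx hP.sy P0 P1 cL (yU n0 nz K)
      (J + 1) 1 E (by positivity) zero_le_one (fun U => (g1 U).2)
      (fun U hU h6 => hsmall U hU (Or.inr h6)) (fun S hS => (k1 S hS).1)
      (fun S hS h6 => hsp S hS (Or.inl h6)) r hr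
    have t2 := rem_one X hX2 ϖ hϖ0 nε nυ n0 x y hP.xy hP.m3 μ ν γ hP.sx hP.sy P0 P1 cU
      (yL n0 nz K ϖ a b) 1 (1 + a) E one_pos (by linarith) (fun U => (g1 U).1)
      (fun U hU h6 => hsmall U hU (Or.inl h6)) (fun S hS => (k1 S hS).2)
      (fun S hS h6 => hsp S hS (Or.inr h6)) r hr
    have t3 := rem_one X hX2 ϖ hϖ0 nε nυ n0 x y hP.xy hP.m3 μ ν γ hP.sx hP.sy P0 P1 cU (yU n0 nz K)
      1 1 E one_pos zero_le_one (fun U => (g1 U).1)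
      (fun U hU h6 => hsmall U hU (Or.inl h6)) (fun S hS => (k1 S hS).1)
      (fun S hS h6 => hsp S hS (Or.inl h6)) r hr
    rw [← hzU, hall] at t1 t3
    rw [← hzL, hall] at t2
    have e7 : ∑ T ∈ (Ce X ϖ 0 nυ).powerset, (Wc P0 P1 (Ce X ϖ 0 nε) (Ce X ϖ nε nυ) cL zU T +
        Wc P0 P1 (Ce X ϖ 0 nε) (Ce X ϖ nε nυ) cU zL T - Wc P0 P1 (Ce X ϖ 0 nε) (Ce X ϖ nε nυ) cU zU T) *
          r (∏ p ∈ T, p) =
        ∑ T ∈ (Ce X ϖ 0 nυ).powerset, Wc P0 P1 (Ce X ϖ 0 nε) (Ce X ϖ nε nυ) cL zU T * r (∏ p ∈ T, p) +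
        ∑ T ∈ (Ce X ϖ 0 nυ).powerset, Wc P0 P1 (Ce X ϖ 0 nε) (Ce X ϖ nε nυ) cU zL T * r (∏ p ∈ T, p) -
        ∑ T ∈ (Ce X ϖ 0 nυ).powerset, Wc P0 P1 (Ce X ϖ 0 nε) (Ce X ϖ nε nυ) cU zU T * r (∏ p ∈ T, p) := by
      rw [← sum_add_distrib, ← sum_sub_distrib]
      apply sum_congr rfl
      intro T _
      ring
    rw [e7]
    generalize ∑ T ∈ (Ce X ϖ 0 nυ).powerset,
      Wc P0 P1 (Ce X ϖ 0 nε) (Ce X ϖ nε nυ) cL zU T * r (∏ p ∈ T, p) = S1 at t1 ⊢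
    generalize ∑ T ∈ (Ce X ϖ 0 nυ).powerset,
      Wc P0 P1 (Ce X ϖ 0 nε) (Ce X ϖ nε nυ) cU zL T * r (∏ p ∈ T, p) = S2 at t2 ⊢
    generalize ∑ T ∈ (Ce X ϖ 0 nυ).powerset,
      Wc P0 P1 (Ce X ϖ 0 nε) (Ce X ϖ nε nυ) cU zU T * r (∏ p ∈ T, p) = S3 at t3 ⊢
    have hNN0 : (0 : ℝ) ≤ ((TT0 n0 nυ).card : ℝ) := Nat.cast_nonneg _
    generalize ((TT0 n0 nυ).card : ℝ) = NN at t1 t2 t3 hNN0 ⊢
    have e8 : |S1 + S2 - S3| ≤ |S1| + |S2| + |S3| := by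
      have h6 := abs_sub (S1 + S2) S3
      have h7 := abs_add_le S1 S2
      linarith
    have e9 : NN * ((J + 1) * 1 * E) + NN * (1 * (1 + a) * E) + NN * (1 * 1 * E) =
        NN * ((J + 3 + a) * E) := by ring
    have e10 : NN * ((J + 3 + a) * E) ≤ NN * (5 * Real.log X * E) := by
      apply mul_le_mul_of_nonneg_left _ hNN0
      exact mul_le_mul_of_nonneg_right hJc hE
    have e11 : 0 ≤ Real.log X * E := mul_nonneg hlX.le hE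
    have e12 : (5 * NN + 1) * Real.log X * E = NN * (5 * Real.log X * E) + Real.log X * E := by ring
    rw [e12]
    linarith
  · intro h hh0 hh1' hh1 hhκ hMer
    have hzκ : κ ≤ z0 := by
      rw [hz0]
      calc κ ≤ 1 * (κ + 1) := by omega
        _ ≤ C * (κ + 1) := Nat.mul_le_mul_right _ hC1
    have hgn0 : ∀ p ∈ P1, 0 ≤ h p ∧ h p ≤ (κ : ℝ) / ((p : ℝ) - 1) := by
      intro p hp
      rw [hP1, mem_filter] at hp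
      exact ⟨hh0 p (by rw [← hall]; exact mem_union_left _ hp.1), hhκ p hp.1 (by omega)⟩
    obtain ⟨a1, a2, a3, a4⟩ := g4 h hgn0
    have hMr := mer_cel X hX2 h _ _ _ _ _ _ _ _ _ _ _ _ _ _ _ _ _ hP hε0 (by linarith) hh1' hMer
    obtain ⟨a5, a6⟩ := k4 h (fun p hp => hh0 p (by rw [← hall]; exact mem_union_right _ hp)) hMr
    have hVV : ∏ p ∈ Ce X ϖ 0 nε, (1 - h p) = (∏ p ∈ P0, (1 - h p)) * ∏ p ∈ P1, (1 - h p) := by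
      rw [← hQ, prod_union hd01]
    have hfac : ∀ p ∈ Ce X ϖ 0 nε, 0 ≤ 1 - h p := fun p hp => by linarith [hh1 p hp]
    have hV0 : 0 ≤ ∏ p ∈ P0, (1 - h p) :=
      prod_nonneg fun p hp => hfac p (by rw [← hQ]; exact mem_union_left _ hp)
    have hV1 : 0 ≤ ∏ p ∈ P1, (1 - h p) :=
      prod_nonneg fun p hp => hfac p (by rw [← hQ]; exact mem_union_right _ hp)
    have h6 := comb_main _ _ _ _ _ _ ε₁ f0 F0 ((1 / 2 : ℝ) ^ bb) hV0 hV1 hε0 hf0 hF0 hb2 (by positivity)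
      a1 a2 a3 a4 a5 a6
    rw [hVV]
    refine h6.trans (le_of_eq ?_)
    rw [← hall, VV_sub, VV_add, VV_Wc P0 P1 _ _ hQ hd01 hd2, VV_Wc P0 P1 _ _ hQ hd01 hd2,
      VV_Wc P0 P1 _ _ hQ hd01 hd2]

end Pool.Agent.T2h76
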