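import Pool.Agent.T2h76.Sv1
import Pool.Agent.Y882.KW.Num

/-! The numerical condition of the weighted sieve. -/

set_option autoImplicit false

namespace Pool.Agent.T2h76

open Real
open Pool.Agent.Y882.KW (int_eval)

theorem log_up (x : ℝ) (n m : ℕ) (hx : 0 < x) (hn : 0 < n) (h : x ^ n ≤ 2 ^ m) :
    log x ≤ m / n * log 2 := by
  have h1 := Real.log_le_log (by positivity) h
  rw [Real.log_pow, Real.log_pow] at h1
  have hn' : (0 : ℝ) < n := by exact_mod_cast hn
  rw [div_mul_eq_mul_div, le_div_iff₀ hn']
  linarith

theorem log_lo (x : ℝ) (n m : ℕ) (hx : 0 < x) (hn : 0 < n) (h : 2 ^ m ≤ x ^ n) :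
    m / n * log 2 ≤ log x := by
  have h1 := Real.log_le_log (by positivity) h
  rw [Real.log_pow, Real.log_pow] at h1
  have hn' : (0 : ℝ) < n := by exact_mod_cast hn
  rw [div_mul_eq_mul_div, div_le_iff₀ hn']
  linarith

theorem num49 : 1.0172 * (log (45 / 11) - 4 / 45 * log (19 / 2) + 0.007626) < log (38 / 11) := by
  have h2 := Real.log_two_gt_d9
  have h2' := Real.log_two_lt_d9
  have h1 := log_up (45 / 11) 92 187 (by norm_num) (by norm_num) (by norm_num)
  have h3 := log_lo (19 / 2) 57 185 (by norm_num) (by norm_num) (by norm_num)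
  have h4 := log_lo (38 / 11) 52 93 (by norm_num) (by norm_num) (by norm_num)
  push_cast at h1 h3 h4
  linarith

/-- the condition of the weighted sieve with `τ = 49 u`, `ζ = 11 u`, `υ = 45 u` -/
theorem cond49 (u : ℝ) (hu : 0 < u) (hu1 : 49 * u ≤ 1) :
    ∫ x in (11 * u)..(45 * u), (1.0172 - 1.0172 / (45 * u) * x) / (49 * u - x) *
      cor ((49 * u - x) / (11 * u)) / x < log ((49 * u) / (11 * u) - 1) / (49 * u) := by
  set a : ℝ := 1.0172 with ha
  have ha0 : 0 < a := by rw [ha]; norm_num
  have hle : 11 * u ≤ 45 * u := by linarith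
  have hcon0 : ContinuousOn (fun x : ℝ => (a - a / (45 * u) * x) / (49 * u - x) / x)
      (Set.Icc (11 * u) (45 * u)) := by
    apply ContinuousOn.div
    · apply ContinuousOn.div
      · fun_prop
      · fun_prop
      · intro x hx
        linarith [hx.2]
    · fun_prop
    · intro x hx
      linarith [hx.1]
  set K : ℝ := a * (34 / 45) / (418 * u ^ 2) / 4 with hK
  have hpt : ∀ x ∈ Set.Icc (11 * u) (45 * u), (a - a / (45 * u) * x) / (49 * u - x) *
      cor ((49 * u - x) / (11 * u)) / x ≤ (a - a / (45 * u) * x) / (49 * u - x) / x +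
        K * (max ((16 * u - x) / (11 * u)) 0) ^ 2 := by
    intro x hx
    obtain ⟨x1, x2⟩ := hx
    have hx0 : 0 < x := by linarith
    have hx3 : 0 < 49 * u - x := by linarith
    have e1 : (49 * u - x) / (11 * u) - 3 = (16 * u - x) / (11 * u) := by
      field_simp
      ring
    unfold cor
    rw [e1]
    have e2 : (a - a / (45 * u) * x) / (49 * u - x) * (1 + max ((16 * u - x) / (11 * u)) 0 ^ 2 / 4) / x =
        (a - a / (45 * u) * x) / (49 * u - x) / x +
        ((a - a / (45 * u) * x) / (49 * u - x) / x / 4) * (max ((16 * u - x) / (11 * u)) 0) ^ 2 := by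
      field_simp
    rw [e2]
    have h3 : ((a - a / (45 * u) * x) / (49 * u - x) / x / 4) * (max ((16 * u - x) / (11 * u)) 0) ^ 2 ≤
        K * (max ((16 * u - x) / (11 * u)) 0) ^ 2 := by
      rcases le_or_gt (16 * u) x with h | h
      · have h4 : max ((16 * u - x) / (11 * u)) 0 = 0 := by
          apply max_eq_right
          apply div_nonpos_of_nonpos_of_nonneg (by linarith) (by positivity)
        rw [h4]
        simp
      · apply mul_le_mul_of_nonneg_right _ (by positivity)
        rw [hK]
        apply div_le_div_of_nonneg_right _ (by norm_num)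
        rw [div_div]
        apply div_le_div₀ (by positivity)
        · have h5 : a / (45 * u) * x = a * (x / (45 * u)) := by ring
          rw [h5]
          have h6 : 11 / 45 ≤ x / (45 * u) := by
            rw [div_le_div_iff₀ (by norm_num) (by positivity)]
            linarith
          nlinarith
        · positivity
        · nlinarith
    linarith
  have hint0 : IntervalIntegrable (fun x : ℝ => (a - a / (45 * u) * x) / (49 * u - x) / x)
      MeasureTheory.volume (11 * u) (45 * u) := by
    apply ContinuousOn.intervalIntegrable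
    rw [Set.uIcc_of_le hle]
    exact hcon0
  have hint1 : IntervalIntegrable (fun x : ℝ => K * (max ((16 * u - x) / (11 * u)) 0) ^ 2)
      MeasureTheory.volume (11 * u) (45 * u) := by
    apply Continuous.intervalIntegrable
    fun_prop
  have hint2 : IntervalIntegrable (fun x : ℝ => (a - a / (45 * u) * x) / (49 * u - x) *
      cor ((49 * u - x) / (11 * u)) / x) MeasureTheory.volume (11 * u) (45 * u) := by
    apply ContinuousOn.intervalIntegrable
    rw [Set.uIcc_of_le hle]
    apply ContinuousOn.div
    · apply ContinuousOn.mul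
      · apply ContinuousOn.div
        · fun_prop
        · fun_prop
        · intro x hx
          linarith [hx.2]
      · exact (cor_cont.comp (by fun_prop)).continuousOn
    · fun_prop
    · intro x hx
      linarith [hx.1]
  have h1 := intervalIntegral.integral_mono_on hle hint2 (hint0.add hint1) hpt
  rw [intervalIntegral.integral_add hint0 hint1, int_eval a (a / (45 * u)) (49 * u) (11 * u) (45 * u)
    (by linarith) hle (by linarith)] at h1
  have h2 : ∫ x in (11 * u)..(45 * u), K * (max ((16 * u - x) / (11 * u)) 0) ^ 2 =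
      K * (125 * u / 363) := by
    rw [intervalIntegral.integral_const_mul]
    congr 1
    have hf : Continuous (fun x : ℝ => (max ((16 * u - x) / (11 * u)) 0) ^ 2) := by fun_prop
    rw [← intervalIntegral.integral_add_adjacent_intervals (b := 16 * u)
      (hf.intervalIntegrable _ _) (hf.intervalIntegrable _ _)]
    have e1 : ∫ x in (16 * u)..(45 * u), (max ((16 * u - x) / (11 * u)) 0) ^ 2 = 0 := by
      have : ∫ x in (16 * u)..(45 * u), (max ((16 * u - x) / (11 * u)) 0) ^ 2 =
          ∫ _x in (16 * u)..(45 * u), (0 : ℝ) := by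
        apply intervalIntegral.integral_congr
        intro x hx
        rw [Set.uIcc_of_le (by linarith)] at hx
        have h4 : max ((16 * u - x) / (11 * u)) 0 = 0 := by
          apply max_eq_right
          apply div_nonpos_of_nonpos_of_nonneg (by linarith [hx.1]) (by positivity)
        simp only [h4]
        norm_num
      rw [this]
      simp
    have e2 : ∫ x in (11 * u)..(16 * u), (max ((16 * u - x) / (11 * u)) 0) ^ 2 =
        ∫ x in (11 * u)..(16 * u), (1 / (121 * u ^ 2)) * (16 * u - x) ^ 2 := by
      apply intervalIntegral.integral_congr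
      intro x hx
      rw [Set.uIcc_of_le (by linarith)] at hx
      have h4 : max ((16 * u - x) / (11 * u)) 0 = (16 * u - x) / (11 * u) := by
        apply max_eq_left
        apply div_nonneg (by linarith [hx.2]) (by positivity)
      simp only [h4]
      field_simp
      ring
    rw [e1, e2, intervalIntegral.integral_const_mul, add_zero,
      intervalIntegral.integral_comp_sub_left (fun x => x ^ 2) (16 * u), integral_pow]
    field_simp
    ring
  rw [h2] at h1
  refine lt_of_le_of_lt h1 ?_
  have e3 : (45 * u) / (11 * u) = 45 / 11 := by field_simp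
  have e4 : (49 * u - 11 * u) / (49 * u - 45 * u) = 19 / 2 := by
    have : 49 * u - 11 * u = 38 * u := by ring
    have h' : 49 * u - 45 * u = 4 * u := by ring
    rw [this, h']
    field_simp
    norm_num
  have e5 : (49 * u) / (11 * u) - 1 = 38 / 11 := by
    field_simp
    norm_num
  rw [e3, e4, e5, lt_div_iff₀ (by linarith)]
  have e6 : (a / (49 * u) * log (45 / 11) + (a / (49 * u) - a / (45 * u)) * log (19 / 2) +
      K * (125 * u / 363)) * (49 * u) = a * (log (45 / 11) - 4 / 45 * log (19 / 2) +
        (34 / 45) / 418 / 4 * (125 / 363) * 49) := by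
    rw [hK]
    field_simp
    ring
  rw [e6]
  have h7 := num49
  have h8 : (34 / 45 : ℝ) / 418 / 4 * (125 / 363) * 49 ≤ 0.007626 := by norm_num
  have h9 : a * (log (45 / 11) - 4 / 45 * log (19 / 2) + (34 / 45) / 418 / 4 * (125 / 363) * 49) ≤
      a * (log (45 / 11) - 4 / 45 * log (19 / 2) + 0.007626) := by
    apply mul_le_mul_of_nonneg_left _ ha0.le
    linarith
  rw [ha] at h9 ⊢
  linarith

end Pool.Agent.T2h76
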