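import Pool.Agent.T2h76.Rm5
import Pool.Agent.T2h76.Sv7
import Pool.Agent.T2h76.Sv8
import Pool.Agent.Y882.SI.Quad
import Pool.Agent.Y882.MG.Quad2

/-! The densities, and the sums over all integers. -/

set_option autoImplicit false

namespace Pool.Agent.T2h76

open Finset Filter
open Pool.Agent.W23.DC
open Pool.Agent.Y882.PX (ro ro_eq)
open Pool.Agent.Y882.SI (QF QF_eval ro_quad_le ro_quad_two mer_quad lo_quad lo)
open Pool.Agent.Y882 (VV tt_lt)
open Pool.Agent.Y844.BT (cel cel_spec)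

theorem notsq1 : ¬ IsSquare (-(1 : ℤ)) := by
  rintro ⟨r, hr⟩
  nlinarith [mul_self_nonneg r]

theorem card_Rt_ro (p : ℕ) : (Rt p).card = ro (QF 1) 0 p := by
  rw [ro_eq]
  symm
  apply Finset.card_bij (fun (n : ℕ) _ => (n : ℤ))
  · intro n hn
    rw [mem_filter, mem_range, QF_eval, add_zero] at hn
    rw [mem_Rt]
    refine ⟨by positivity, by exact_mod_cast hn.1, hn.2⟩
  · intro a _ b _ h
    exact_mod_cast h
  · intro b hb
    obtain ⟨h1, h2, h3⟩ := mem_Rt.1 hb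
    refine ⟨b.toNat, ?_, Int.toNat_of_nonneg h1⟩
    rw [mem_filter, mem_range, QF_eval, add_zero, Int.toNat_of_nonneg h1]
    refine ⟨?_, h3⟩
    zify
    rw [Int.toNat_of_nonneg h1]
    exact h2

theorem card_prod (T : Finset ℕ) (hT : ∀ p ∈ T, p.Prime) :
    (Rt (∏ p ∈ T, p)).card = ∏ p ∈ T, (Rt p).card := by
  classical
  induction T using Finset.induction_on with
  | empty => simp [card_one]
  | insert p T hp ih =>
    rw [prod_insert hp, prod_insert hp, card_mul p _ (hT p (mem_insert_self _ _)).one_le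
      (prod_pos fun q hq => (hT q (mem_insert_of_mem hq)).pos), ih (fun q hq => hT q (mem_insert_of_mem hq))]
    rw [Nat.coprime_prod_right_iff]
    intro q hq
    rw [Nat.coprime_primes (hT p (mem_insert_self _ _)) (hT q (mem_insert_of_mem hq))]
    rintro rfl
    exact hp hq

open Classical in
/-- the density -/
noncomputable def hq (q : ℕ) (p : ℕ) : ℝ := if p ∣ q then 0 else ((Rt p).card : ℝ) / p

theorem hq_nonneg (q p : ℕ) : 0 ≤ hq q p := by
  unfold hq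
  split_ifs
  · exact le_rfl
  · positivity

theorem hq_le (q p : ℕ) : hq q p ≤ (ro (QF 1) 0 p : ℝ) / p := by
  unfold hq
  rw [card_Rt_ro]
  split_ifs
  · positivity
  · exact le_rfl

/-- the primes dividing the modulus are negligible -/
theorem mer_hq (ε η : ℝ) (hε : 0 < ε) (hη : 0 < η) : ∃ X0 : ℕ, ∀ X : ℕ, X0 ≤ X → ∀ q : ℕ, 1 ≤ q →
    q ≤ X → Mer (pr X ε 1) (tt X) (hq q) ε 1 η := by
  classical
  obtain ⟨Y0, hY0⟩ := mer_quad 1 notsq1 ε 1 (η / 2) hε le_rfl (by linarith)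
  obtain ⟨C, hC, hD⟩ := Pool.Agent.H510R2.divisor_bound (ε / 2) (by linarith)
  have ev1 : ∀ᶠ Y : ℕ in atTop, 4 * C / η ≤ (Y : ℝ) ^ (ε / 2) :=
    tendsto_natCast_atTop_atTop.eventually
      ((tendsto_rpow_atTop (by linarith)).eventually_ge_atTop _)
  obtain ⟨Y1, hY1⟩ := eventually_atTop.1 (ev1.and (eventually_ge_atTop 2))
  refine ⟨max Y0 Y1, ?_⟩
  intro X hX q hq1 hqX
  obtain ⟨e1, e2⟩ := hY1 X ((le_max_right _ _).trans hX)
  have hX0 : (0 : ℝ) < X := by exact_mod_cast (by omega : 0 < X)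
  have h1 := hY0 X ((le_max_left _ _).trans hX)
  have h2 := mer_diff (pr X ε 1) (tt X) _ (hq q) ε 1 (η / 2) (η / 2) h1 (by
    have h3 : ∀ p ∈ pr X ε 1, |hq q p - (ro (QF 1) 0 p : ℝ) / p| ≤
        if p ∣ q then 2 / (X : ℝ) ^ ε else 0 := by
      intro p hp
      obtain ⟨h4, h5, _⟩ := Pool.Agent.Y882.PX.pr_mem X p ε 1 e2 hp
      unfold hq
      rw [card_Rt_ro]
      split_ifs
      · rw [zero_sub, abs_neg, abs_of_nonneg (by positivity)]
        have h6 : (ro (QF 1) 0 p : ℝ) ≤ 2 := by exact_mod_cast ro_quad_le 1 p h4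
        exact div_le_div₀ (by norm_num) h6 (by positivity) h5
      · rw [sub_self, abs_zero]
    refine (sum_le_sum h3).trans ?_
    rw [← sum_filter, sum_const, nsmul_eq_mul]
    have h4 : (((pr X ε 1).filter (fun p => p ∣ q)).card : ℝ) ≤ C * (X : ℝ) ^ (ε / 2) := by
      have h5 : ((pr X ε 1).filter (fun p => p ∣ q)) ⊆ q.divisors := by
        intro p hp
        rw [mem_filter] at hp
        rw [Nat.mem_divisors]
        exact ⟨hp.2, by omega⟩
      have h6 : (((pr X ε 1).filter (fun p => p ∣ q)).card : ℝ) ≤ q.divisors.card := by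
        exact_mod_cast card_le_card h5
      refine h6.trans ((hD q hq1).trans ?_)
      gcongr
    have h7 : (X : ℝ) ^ ε = (X : ℝ) ^ (ε / 2) * (X : ℝ) ^ (ε / 2) := by
      rw [← Real.rpow_add hX0]
      congr 1
      ring
    have h8 : 0 < (X : ℝ) ^ (ε / 2) := by positivity
    calc (((pr X ε 1).filter (fun p => p ∣ q)).card : ℝ) * (2 / (X : ℝ) ^ ε) ≤
        (C * (X : ℝ) ^ (ε / 2)) * (2 / (X : ℝ) ^ ε) := by
          apply mul_le_mul_of_nonneg_right h4 (by positivity)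
      _ = 2 * C / (X : ℝ) ^ (ε / 2) := by
          rw [h7]
          field_simp
      _ ≤ η / 2 := by
          rw [div_le_iff₀ hη] at e1
          rw [div_le_iff₀ h8]
          linarith)
  rw [add_halves] at h2
  exact h2

/-- the product over the small primes -/
theorem prod_hq : ∃ c : ℝ, 0 < c ∧ ∀ (X : ℕ) (ϖ : ℝ) (n q : ℕ), 3 ≤ X →
    c / Real.log X ≤ ∏ p ∈ Ce X ϖ 0 n, (1 - hq q p) := by
  classical
  obtain ⟨c, hc, H⟩ := lo_quad 1 notsq1
  refine ⟨c, hc, fun X ϖ n q hX => (H X hX).trans ?_⟩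
  unfold lo
  have hsub : Ce X ϖ 0 n ⊆ (Icc 1 X).filter Nat.Prime := by
    intro p hp
    rw [mem_Ce] at hp
    rw [mem_filter, mem_Icc]
    exact ⟨hp.1, hp.2.1⟩
  have h01 : ∀ p ∈ (Icc 1 X).filter Nat.Prime,
      0 ≤ 1 - (ro (QF 1) 0 p : ℝ) / p ∧ 1 - (ro (QF 1) 0 p : ℝ) / p ≤ 1 := by
    intro p hp
    have hpp := (mem_filter.1 hp).2
    have hp0 : (0 : ℝ) < p := by exact_mod_cast hpp.pos
    have h1 : (ro (QF 1) 0 p : ℝ) ≤ p := by exact_mod_cast Pool.Agent.Y882.PX.ro_le_self _ _ _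
    constructor
    · rw [sub_nonneg, div_le_one hp0]
      exact h1
    · have : 0 ≤ (ro (QF 1) 0 p : ℝ) / p := by positivity
      linarith
  rw [← prod_sdiff hsub]
  calc (∏ p ∈ (Icc 1 X).filter Nat.Prime \ Ce X ϖ 0 n, (1 - (ro (QF 1) 0 p : ℝ) / p)) *
      ∏ p ∈ Ce X ϖ 0 n, (1 - (ro (QF 1) 0 p : ℝ) / p) ≤
      1 * ∏ p ∈ Ce X ϖ 0 n, (1 - (ro (QF 1) 0 p : ℝ) / p) := by
        apply mul_le_mul_of_nonneg_right
        · apply prod_le_one
          · intro p hp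
            exact (h01 p (mem_sdiff.1 hp).1).1
          · intro p hp
            exact (h01 p (mem_sdiff.1 hp).1).2
        · exact prod_nonneg fun p hp => (h01 p (hsub hp)).1
    _ = ∏ p ∈ Ce X ϖ 0 n, (1 - (ro (QF 1) 0 p : ℝ) / p) := one_mul _
    _ ≤ _ := by
        apply Finset.prod_le_prod
        · intro p hp
          exact (h01 p (hsub hp)).1
        · intro p _
          have := hq_le q p
          linarith

/-- the remainder with the primes of the modulus removed -/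
noncomputable def rr (Y N0 : ℝ) (q : ℕ) (u : ℤ) (d : ℕ) : ℝ :=
  if Nat.Coprime d q then rmd Y N0 q u d else 0

theorem cntq_eq (Y N0 : ℝ) (q : ℕ) (u : ℤ) (hu : ∀ p : ℕ, p.Prime → p ∣ q → ¬ (p : ℤ) ∣ u ^ 2 + 1)
    (T : Finset ℕ) (hT : ∀ p ∈ T, p.Prime) :
    cntq Y N0 q u (∏ p ∈ T, p) = Y / q * ∏ p ∈ T, hq q p + rr Y N0 q u (∏ p ∈ T, p) := by
  classical
  unfold rr
  by_cases hc : Nat.Coprime (∏ p ∈ T, p) q
  · rw [if_pos hc]
    unfold rmd
    have h1 : ∏ p ∈ T, hq q p = ((Rt (∏ p ∈ T, p)).card : ℝ) / ((∏ p ∈ T, p : ℕ) : ℝ) := by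
      rw [card_prod T hT]
      push_cast
      rw [← prod_div_distrib]
      apply prod_congr rfl
      intro p hp
      unfold hq
      rw [if_neg]
      intro hpq
      rw [Nat.coprime_prod_left_iff] at hc
      exact (hT p hp).one_lt.ne' (Nat.eq_one_of_dvd_coprimes (hc p hp) dvd_rfl hpq)
    rw [h1]
    have h2 : (0 : ℝ) < ((∏ p ∈ T, p : ℕ) : ℝ) := by
      have : 0 < ∏ p ∈ T, p := prod_pos fun p hp => (hT p hp).pos
      exact_mod_cast this
    by_cases hq0 : (q : ℝ) = 0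
    · rw [hq0]
      simp
    · field_simp
      ring
  · rw [if_neg hc]
    have h1 : ∃ p ∈ T, p ∣ q := by
      rw [Nat.coprime_prod_left_iff] at hc
      push Not at hc
      obtain ⟨p, hp, h2⟩ := hc
      refine ⟨p, hp, ?_⟩
      by_contra h3
      exact h2 ((Nat.Prime.coprime_iff_not_dvd (hT p hp)).2 h3)
    obtain ⟨p, hp, hpq⟩ := h1
    have h2 : ∏ p ∈ T, hq q p = 0 := by
      apply prod_eq_zero hp
      unfold hq
      rw [if_pos hpq]
    rw [h2, mul_zero, add_zero]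
    unfold cntq
    have h3 : ∀ n : ℤ, ¬ ((q : ℤ) ∣ n - u ∧ ((∏ p ∈ T, p : ℕ) : ℤ) ∣ n ^ 2 + 1) := by
      rintro n ⟨h4, h5⟩
      apply hu p (hT p hp) hpq
      have h6 : (p : ℤ) ∣ n - u := dvd_trans (by exact_mod_cast hpq) h4
      have h7 : (p : ℤ) ∣ n ^ 2 + 1 := by
        refine dvd_trans ?_ h5
        have : p ∣ ∏ p ∈ T, p := dvd_prod_of_mem (fun p => p) hp
        exact_mod_cast this
      have h8 : u ^ 2 + 1 = (n ^ 2 + 1) - (n - u) * (n + u) := by ring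
      rw [h8]
      exact dvd_sub h7 (h6.mul_right _)
    have h4 : ∀ n : ℤ, gw Y N0 n * (if (q : ℤ) ∣ n - u ∧ ((∏ p ∈ T, p : ℕ) : ℤ) ∣ n ^ 2 + 1 then (1 : ℝ)
        else 0) = 0 := by
      intro n
      rw [if_neg (h3 n), mul_zero]
    simp only [h4, tsum_zero]

theorem VV_ind (P : Finset ℕ) (hP : ∀ p ∈ P, p.Prime) (c : Finset ℕ → ℝ) (N : ℕ) :
    VV P c (fun p => if p ∣ N then 1 else 0) =
      ∑ T ∈ P.powerset, c T * (if (∏ p ∈ T, p) ∣ N then 1 else 0) := by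
  unfold VV
  apply sum_congr rfl
  intro T hT
  rw [mem_powerset] at hT
  rw [Pool.Agent.Y882.PX.prod_ind T (fun p hp => hP p (hT hp))]

theorem tsum_VV (Y N0 : ℝ) (hY : 0 < Y) (q : ℕ) (u : ℤ) (P : Finset ℕ) (hP : ∀ p ∈ P, p.Prime)
    (c : Finset ℕ → ℝ) :
    Summable (fun n : ℤ => gw Y N0 n * ((if (q : ℤ) ∣ n - u then 1 else 0) *
      VV P c (fun p => if p ∣ (n ^ 2 + 1).natAbs then 1 else 0))) ∧
    ∑' n : ℤ, gw Y N0 n * ((if (q : ℤ) ∣ n - u then 1 else 0) *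
      VV P c (fun p => if p ∣ (n ^ 2 + 1).natAbs then 1 else 0)) =
      ∑ T ∈ P.powerset, c T * cntq Y N0 q u (∏ p ∈ T, p) := by
  classical
  have h1 : ∀ n : ℤ, gw Y N0 n * ((if (q : ℤ) ∣ n - u then (1 : ℝ) else 0) *
      VV P c (fun p => if p ∣ (n ^ 2 + 1).natAbs then 1 else 0)) =
      ∑ T ∈ P.powerset, c T * (gw Y N0 n * (if (q : ℤ) ∣ n - u ∧ ((∏ p ∈ T, p : ℕ) : ℤ) ∣ n ^ 2 + 1
        then (1 : ℝ) else 0)) := by
    intro n
    rw [VV_ind P hP c, mul_sum, mul_sum]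
    apply sum_congr rfl
    intro T _
    have h2 : (∏ p ∈ T, p) ∣ (n ^ 2 + 1).natAbs ↔ ((∏ p ∈ T, p : ℕ) : ℤ) ∣ n ^ 2 + 1 :=
      Int.natCast_dvd.symm
    by_cases h3 : (q : ℤ) ∣ n - u
    · by_cases h4 : ((∏ p ∈ T, p : ℕ) : ℤ) ∣ n ^ 2 + 1
      · rw [if_pos h3, if_pos (h2.2 h4), if_pos ⟨h3, h4⟩]
        ring
      · rw [if_pos h3, if_neg (fun h => h4 (h2.1 h)), if_neg (fun h => h4 h.2)]
        ring
    · have h5 : ¬ ((q : ℤ) ∣ n - u ∧ ((∏ p ∈ T, p : ℕ) : ℤ) ∣ n ^ 2 + 1) := fun h => h3 h.1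
      rw [if_neg h3, if_neg h5]
      ring
  have h2 : ∀ T ∈ P.powerset, Summable (fun n : ℤ => c T * (gw Y N0 n *
      (if (q : ℤ) ∣ n - u ∧ ((∏ p ∈ T, p : ℕ) : ℤ) ∣ n ^ 2 + 1 then (1 : ℝ) else 0))) := by
    intro T _
    apply Summable.mul_left
    apply Summable.of_norm_bounded (gw_summable Y N0 hY)
    intro n
    have h3 := (gw_pos Y N0 n).le
    rw [norm_mul, Real.norm_of_nonneg h3]
    split_ifs
    · rw [norm_one, mul_one]
    · rw [norm_zero, mul_zero]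
      exact h3
  constructor
  · rw [funext h1]
    exact summable_sum h2
  · rw [tsum_congr h1, Summable.tsum_finsetSum h2]
    apply sum_congr rfl
    intro T _
    rw [tsum_mul_left]
    rfl

end Pool.Agent.T2h76
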