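import Pool.Agent.T2h76.Gm1

/-! The lower bound for the number of the arguments with positive weight. -/

set_option autoImplicit false

namespace Pool.Agent.T2h76

open Finset Filter
open Pool.Agent.W23.DC
open Pool.Agent.Y882 (VV tt_lt)
open Pool.Agent.Y844.BT (cel cel_spec)

theorem WWc_le_one (X : ℕ) (hX : 2 ≤ X) (ϖ a b υ : ℝ) (nz nυ : ℕ) (hϖ : 0 < ϖ) (hb : 0 ≤ b)
    (hυ : ϖ * (nυ + 1 / 2) = υ) (hab : b * υ ≤ a) (N : ℕ) : WWc X ϖ a b nz nυ N ≤ 1 := by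
  classical
  have hS0 : 0 ≤ ∑ q ∈ Ce X ϖ nz nυ, (a - b * (ϖ * cel X ϖ q)) * (if q ∣ N then (1 : ℝ) else 0) := by
    apply sum_nonneg
    intro q hq
    rw [mem_Ce] at hq
    have h7 : ϖ * (cel X ϖ q : ℝ) ≤ υ := by
      have h8 : (cel X ϖ q : ℝ) ≤ nυ := by exact_mod_cast hq.2.2.2.le
      have h9 := mul_le_mul_of_nonneg_left h8 hϖ.le
      have h10 : ϖ * ((nυ : ℝ) + 1 / 2) = ϖ * nυ + ϖ / 2 := by ring
      linarith
    have h8 : b * (ϖ * cel X ϖ q) ≤ b * υ := mul_le_mul_of_nonneg_left h7 hb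
    apply mul_nonneg (by linarith)
    split_ifs <;> norm_num
  unfold WWc
  split_ifs
  · linarith
  · simp

/-- the sum of the weights over the arguments with positive weight, in terms of universal weights -/
theorem low_aux (Y N0 : ℝ) (hY : 0 < Y) (q : ℕ) (u : ℤ)
    (hu : ∀ p : ℕ, p.Prime → p ∣ q → ¬ (p : ℤ) ∣ u ^ 2 + 1) (X : ℕ) (hX : 2 ≤ X) (ϖ a b υ : ℝ)
    (nz nυ : ℕ) (hϖ : 0 < ϖ) (hb : 0 ≤ b) (hυ : ϖ * (nυ + 1 / 2) = υ) (hab : b * υ ≤ a)
    (c : Finset ℕ → ℝ)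
    (hc : ∀ N : ℕ, VV (Ce X ϖ 0 nυ) c (fun p => if p ∣ N then 1 else 0) ≤ WWc X ϖ a b nz nυ N)
    (E : ℝ) (hE : |∑ T ∈ (Ce X ϖ 0 nυ).powerset, c T * rr Y N0 q u (∏ p ∈ T, p)| ≤ E) :
    Y / q * VV (Ce X ϖ 0 nυ) c (hq q) - E ≤
      ∑' n : ℤ, gw Y N0 n * (if (q : ℤ) ∣ n - u ∧ 0 < WWc X ϖ a b nz nυ (n ^ 2 + 1).natAbs then 1 else 0) := by
  classical
  have hP : ∀ p ∈ Ce X ϖ 0 nυ, p.Prime := fun p hp => (mem_Ce.1 hp).2.1
  obtain ⟨h1, h2⟩ := tsum_VV Y N0 hY q u (Ce X ϖ 0 nυ) hP c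
  have h3 : ∑ T ∈ (Ce X ϖ 0 nυ).powerset, c T * cntq Y N0 q u (∏ p ∈ T, p) =
      Y / q * VV (Ce X ϖ 0 nυ) c (hq q) +
      ∑ T ∈ (Ce X ϖ 0 nυ).powerset, c T * rr Y N0 q u (∏ p ∈ T, p) := by
    unfold VV
    rw [mul_sum, ← sum_add_distrib]
    apply sum_congr rfl
    intro T hT
    rw [mem_powerset] at hT
    rw [cntq_eq Y N0 q u hu T (fun p hp => hP p (hT hp))]
    ring
  have h4 : ∑' n : ℤ, gw Y N0 n * ((if (q : ℤ) ∣ n - u then 1 else 0) *
      VV (Ce X ϖ 0 nυ) c (fun p => if p ∣ (n ^ 2 + 1).natAbs then 1 else 0)) ≤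
      ∑' n : ℤ, gw Y N0 n * (if (q : ℤ) ∣ n - u ∧ 0 < WWc X ϖ a b nz nυ (n ^ 2 + 1).natAbs then 1 else 0) := by
    apply Summable.tsum_le_tsum _ h1
    · apply Summable.of_norm_bounded (gw_summable Y N0 hY)
      intro n
      have h3 := (gw_pos Y N0 n).le
      rw [norm_mul, Real.norm_of_nonneg h3]
      split_ifs
      · rw [norm_one, mul_one]
      · rw [norm_zero, mul_zero]
        exact h3
    · intro n
      apply mul_le_mul_of_nonneg_left _ (gw_pos Y N0 n).le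
      have h5 := hc (n ^ 2 + 1).natAbs
      have h6 := WWc_le_one X hX ϖ a b υ nz nυ hϖ hb hυ hab (n ^ 2 + 1).natAbs
      by_cases h7 : (q : ℤ) ∣ n - u
      · rw [if_pos h7, one_mul]
        by_cases h8 : 0 < WWc X ϖ a b nz nυ (n ^ 2 + 1).natAbs
        · rw [if_pos ⟨h7, h8⟩]
          exact h5.trans h6
        · rw [if_neg (fun h => h8 h.2)]
          exact h5.trans (not_lt.1 h8)
      · rw [if_neg h7, zero_mul, if_neg (fun h => h7 h.1)]
  rw [h2, h3] at h4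
  have h5 := (abs_le.1 hE).1
  linarith

/-- the unit -/
noncomputable def u0 : ℝ := 1102 / 100000

/-- the lower bound -/
theorem low (ϖ2 : ℝ) (hϖ2 : 0 < ϖ2) : ∃ (ϖ : ℝ) (nz nυ : ℕ) (c0 : ℝ) (N1 : ℕ), 0 < ϖ ∧ ϖ ≤ ϖ2 ∧
    ϖ * (nz + 1 / 2) = 11 * u0 ∧ ϖ * (nυ + 1 / 2) = 45 * u0 ∧ 0 < c0 ∧
    ∀ N : ℕ, N1 ≤ N → ∀ N0 : ℝ, |N0| ≤ 3 * N → ∀ (q : ℕ) (u : ℤ), 1 ≤ q →
      (q : ℝ) ≤ (N : ℝ) ^ (1 / 50000 : ℝ) → (∀ p : ℕ, p.Prime → p ∣ q → ¬ (p : ℤ) ∣ u ^ 2 + 1) →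
      c0 * ((N : ℝ) ^ (9989 / 10000 : ℝ) / (q * Real.log N)) ≤
      ∑' n : ℤ, gw ((N : ℝ) ^ (9989 / 10000 : ℝ)) N0 n *
        (if (q : ℤ) ∣ n - u ∧ 0 < WWc (N ^ 2) ϖ 1.0172 (1.0172 / (45 * u0)) nz nυ (n ^ 2 + 1).natAbs
          then 1 else 0) := by
  classical
  have hu0 : (0 : ℝ) < u0 := by unfold u0; norm_num
  have hJ := cond49 u0 hu0 (by unfold u0; norm_num)
  obtain ⟨ε₁, η, f, A, ϖ, nε, nz, nυ, hε₁, hε₁ζ, hη, hf, hA, hϖ, hϖϖ2, eε, ez, eυ, X0, HC⟩ :=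
    core5 2 49 11 45 (by decide) (by decide) (by decide) u0 1.0172 (1.0172 / (45 * u0)) (4991 / 10000)
      (411 / 10000) hu0 (by norm_num) (by norm_num) (by unfold u0; norm_num) (by norm_num) (by norm_num)
      (by norm_num) (by positivity) (by
        push_cast
        rw [div_mul_cancel₀ _ (by positivity)]) (by
        push_cast
        exact hJ) (by norm_num) (by unfold u0; norm_num) (by unfold u0; norm_num) ϖ2 hϖ2
  push_cast at ez eυ hε₁ζ
  obtain ⟨c, hc, HP⟩ := prod_hq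
  obtain ⟨Cb, hCb, HB⟩ := bil (1 / 2000) (12 / 10000) (by norm_num) (by norm_num) (by norm_num)
  obtain ⟨X1, HM⟩ := mer_hq (ε₁ / 2) η (by positivity) hη
  have hN : Tendsto (fun N : ℕ => (N : ℝ)) atTop atTop := tendsto_natCast_atTop_atTop
  have ev1 : ∀ᶠ N : ℕ in atTop, (3 : ℝ) ≤ (N : ℝ) ^ (9868 / 100000000 : ℝ) :=
    hN.eventually ((tendsto_rpow_atTop (by norm_num)).eventually_ge_atTop _)
  have ev2 : ∀ᶠ N : ℕ in atTop, 8 * A * Cb * Real.log N ^ 2 ≤ f * c * (N : ℝ) ^ (1 / 50000 : ℝ) := by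
    have h1 : Tendsto (fun x : ℝ => Real.log x ^ ((2 : ℕ) : ℝ) / x ^ (1 / 50000 : ℝ)) atTop (nhds 0) := by
      have := isLittleO_log_rpow_rpow_atTop (((2 : ℕ) : ℝ)) (show (0 : ℝ) < 1 / 50000 by norm_num)
      exact this.tendsto_div_nhds_zero
    have h2 := h1.eventually_le_const (show (0 : ℝ) < f * c / (8 * A * Cb) by positivity)
    have h3 := hN.eventually (h2.and (eventually_gt_atTop (0 : ℝ)))
    filter_upwards [h3] with X hX
    obtain ⟨h4, h5⟩ := hX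
    have h6 : (0 : ℝ) < (X : ℝ) ^ (1 / 50000 : ℝ) := by positivity
    rw [div_le_div_iff₀ h6 (by positivity), Real.rpow_natCast] at h4
    linarith
  have ev3 : ∀ᶠ N : ℕ in atTop, max X0 X1 ≤ N ^ 2 := by
    filter_upwards [eventually_ge_atTop (max X0 X1)] with N hN'
    nlinarith
  obtain ⟨N1, hN1⟩ := eventually_atTop.1 (ev1.and (ev2.and (ev3.and (eventually_ge_atTop 3))))
  refine ⟨ϖ, nz, nυ, f * c / 4, N1, hϖ, hϖϖ2, ez, eυ, by positivity, ?_⟩
  intro N hNN N0 hN0 q u hq1 hqN hu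
  obtain ⟨e1, e2, e3, e4⟩ := hN1 N hNN
  have hNr : (3 : ℝ) ≤ N := by exact_mod_cast e4
  have hNp : (0 : ℝ) < N := by linarith
  have hN1r : (1 : ℝ) ≤ N := by linarith
  have hlN : 0 < Real.log N := Real.log_pos (by linarith)
  have hqr : (1 : ℝ) ≤ q := by exact_mod_cast hq1
  have hX2 : 2 ≤ N ^ 2 := by nlinarith
  have hX3 : 3 ≤ N ^ 2 := by nlinarith
  obtain ⟨cc, C1, C2, C3⟩ := HC (N ^ 2) ((le_max_left _ _).trans e3)
  set Y : ℝ := (N : ℝ) ^ (9989 / 10000 : ℝ) with hY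
  have hY1 : 1 ≤ Y := Real.one_le_rpow hN1r (by norm_num)
  have hY0 : 0 < Y := by linarith
  have hYp : ∀ s : ℝ, Y ^ s = (N : ℝ) ^ (9989 / 10000 * s) := by
    intro s
    rw [hY, ← Real.rpow_mul hNp.le]
  have hXp : ∀ s : ℝ, ((N ^ 2 : ℕ) : ℝ) ^ s = (N : ℝ) ^ (2 * s) := by
    intro s
    push_cast
    rw [← Real.rpow_natCast, ← Real.rpow_mul hNp.le]
    norm_num
  have hlX : Real.log ((N ^ 2 : ℕ) : ℝ) = 2 * Real.log N := by
    push_cast
    rw [Real.log_pow]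
    norm_num
  -- the remainder
  have hrem := C2 (rr Y N0 q u) (Cb * Y ^ (1 - 1 / 2000 / 12 : ℝ)) (by
    intro a b ha hb hbs
    have h1 := HB Y N0 ⌊((N ^ 2 : ℕ) : ℝ) ^ (4991 / 10000 : ℝ)⌋₊ ⌊((N ^ 2 : ℕ) : ℝ) ^ (411 / 10000 : ℝ)⌋₊ q u
      a (fun k => if Nat.Coprime k q then b k else 0) hY1 hq1 ha (by
        intro k
        show |if Nat.Coprime k q then b k else 0| ≤ 1
        split_ifs
        · exact hb k
        · simp) (by
        intro k hk
        have hk' : (if Nat.Coprime k q then b k else 0) ≠ 0 := hk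
        split_ifs at hk' with h2
        · exact ⟨hbs k hk', h2⟩
        · exact absurd rfl hk') (by
        refine hN0.trans ?_
        rw [hYp]
        have : (9989 / 10000 * (1 + 12 / 10000) : ℝ) = 1 + 9868 / 100000000 := by norm_num
        rw [this, Real.rpow_add hNp, Real.rpow_one]
        calc (3 : ℝ) * N = N * 3 := by ring
          _ ≤ _ := mul_le_mul_of_nonneg_left e1 hNp.le) (by
        refine hqN.trans ?_
        rw [hYp]
        apply Real.rpow_le_rpow_of_exponent_le hN1r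
        norm_num) (by
        refine (Nat.floor_le (by positivity)).trans ?_
        rw [hYp, hXp]
        apply Real.rpow_le_rpow_of_exponent_le hN1r
        norm_num) (by
        refine (Nat.floor_le (by positivity)).trans ?_
        rw [hYp, hXp]
        apply Real.rpow_le_rpow_of_exponent_le hN1r
        norm_num)
    refine le_trans (le_of_eq ?_) h1
    congr 1
    apply sum_congr rfl
    intro m _
    apply sum_congr rfl
    intro k _
    unfold rr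
    by_cases h2 : Nat.Coprime m k
    · rw [if_pos h2]
      by_cases h3 : Nat.Coprime m q
      · rw [if_pos (Nat.Coprime.mul_right h2 h3)]
        by_cases h4 : Nat.Coprime k q
        · rw [if_pos h4, if_pos (Nat.Coprime.mul_left h3 h4)]
        · rw [if_neg h4, if_neg (fun h => h4 (Nat.Coprime.coprime_mul_left h))]
          ring
      · rw [if_neg (fun h => h3 (Nat.Coprime.coprime_mul_left_right h)),
          if_neg (fun h => h3 (Nat.Coprime.coprime_mul_right h))]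
        ring
    · rw [if_neg h2, if_neg (fun h => h2 (Nat.Coprime.coprime_mul_right_right h))])
  have hlow := low_aux Y N0 hY0 q u hu (N ^ 2) hX2 ϖ 1.0172 (1.0172 / (45 * u0)) (45 * u0) nz nυ hϖ
    (by positivity) eυ (by rw [div_mul_cancel₀ _ (by positivity)]) cc C1 _ hrem
  refine le_trans ?_ hlow
  -- the main term
  have hmain := C3 (hq q) (fun p _ => hq_nonneg q p) (fun p _ => hq_nonneg q p) (by
    intro p hp
    have hpp := (mem_Ce.1 hp).2.1
    have hp0 : (0 : ℝ) < p := by exact_mod_cast hpp.pos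
    refine (hq_le q p).trans ?_
    rw [div_le_one hp0]
    exact_mod_cast Pool.Agent.Y882.PX.ro_le_self _ _ _) (by
    intro p hp _
    have hpp := (mem_Ce.1 hp).2.1
    have hp0 : (2 : ℝ) ≤ p := by exact_mod_cast hpp.two_le
    refine (hq_le q p).trans ?_
    have h1 : (Pool.Agent.Y882.PX.ro (Pool.Agent.Y882.SI.QF 1) 0 p : ℝ) ≤ ((2 : ℕ) : ℝ) := by
      exact_mod_cast Pool.Agent.Y882.SI.ro_quad_le 1 p hpp
    exact div_le_div₀ (by positivity) h1 (by linarith) (by linarith)) (by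
    apply HM (N ^ 2) ((le_max_right _ _).trans e3) q hq1
    have h1 : (q : ℝ) ≤ N ^ 2 := by
      calc (q : ℝ) ≤ (N : ℝ) ^ (1 / 50000 : ℝ) := hqN
        _ ≤ (N : ℝ) ^ ((2 : ℕ) : ℝ) := by
            apply Real.rpow_le_rpow_of_exponent_le hN1r
            norm_num
        _ = (N : ℝ) ^ 2 := Real.rpow_natCast _ 2
    exact_mod_cast h1)
  have hprod := HP (N ^ 2) ϖ nε q hX3
  rw [hlX] at hprod
  have h1 : f * (c / (2 * Real.log N)) ≤ VV (Ce (N ^ 2) ϖ 0 nυ) cc (hq q) :=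
    (mul_le_mul_of_nonneg_left hprod hf.le).trans hmain
  have h2 : Y / q * (f * (c / (2 * Real.log N))) ≤ Y / q * VV (Ce (N ^ 2) ϖ 0 nυ) cc (hq q) :=
    mul_le_mul_of_nonneg_left h1 (by positivity)
  rw [hlX]
  have h3 : A * (2 * Real.log N) * (Cb * Y ^ (1 - 1 / 2000 / 12 : ℝ)) ≤
      f * c / 4 * (Y / (q * Real.log N)) := by
    have h4 : Y ^ (1 - 1 / 2000 / 12 : ℝ) = Y / Y ^ (1 / 24000 : ℝ) := by
      have : (1 - 1 / 2000 / 12 : ℝ) = 1 - 1 / 24000 := by norm_num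
      rw [this, Real.rpow_sub hY0, Real.rpow_one]
    have h5 : (N : ℝ) ^ (1 / 50000 : ℝ) * (N : ℝ) ^ (1 / 50000 : ℝ) ≤ Y ^ (1 / 24000 : ℝ) := by
      rw [hYp, ← Real.rpow_add hNp]
      apply Real.rpow_le_rpow_of_exponent_le hN1r
      norm_num
    set Z : ℝ := Y ^ (1 / 24000 : ℝ) with hZ
    set V : ℝ := (N : ℝ) ^ (1 / 50000 : ℝ) with hV
    have hV0 : 0 < V := by positivity
    have hZ0 : 0 < Z := by positivity
    rw [h4]
    have h6 : 8 * A * Cb * Real.log N ^ 2 * q ≤ f * c * Z := by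
      calc 8 * A * Cb * Real.log N ^ 2 * q ≤ (f * c * V) * V := by
            apply mul_le_mul e2 hqN (by positivity) (by positivity)
        _ = f * c * (V * V) := by ring
        _ ≤ f * c * Z := mul_le_mul_of_nonneg_left h5 (by positivity)
    have h7 : A * (2 * Real.log N) * (Cb * (Y / Z)) =
        (8 * A * Cb * Real.log N ^ 2 * q) * (Y / (4 * q * Real.log N * Z)) := by
      field_simp
      ring
    have h8 : f * c / 4 * (Y / (q * Real.log N)) = (f * c * Z) * (Y / (4 * q * Real.log N * Z)) := by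
      field_simp
    rw [h7, h8]
    exact mul_le_mul_of_nonneg_right h6 (by positivity)
  have h9 : Y / q * (f * (c / (2 * Real.log N))) = 2 * (f * c / 4 * (Y / (q * Real.log N))) := by
    field_simp
    ring
  linarith

end Pool.Agent.T2h76
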