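import Pool.Agent.T2h76.Gm2
import Pool.Agent.Y882.KW.Alm
import Pool.Agent.Y882.MG.Quad2

/-! The number of the arguments in a short interval with positive weight. -/

set_option autoImplicit false

namespace Pool.Agent.T2h76

open Finset Filter
open Pool.Agent.W23.DC
open Pool.Agent.Y882 (PZ tt_lt)
open Pool.Agent.Y882.KW (WW)
open Pool.Agent.Y844.BT (cel cel_spec)

/-- the total mass of a Gaussian weight -/
theorem gsum (Y N0 : ℝ) (hY : 1 ≤ Y) : ∑' n : ℤ, gw Y N0 n ≤ Y + C0 := by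
  have hY0 : 0 < Y := by linarith
  have h1 := trunc Y N0 hY0 1 le_rfl 0 0
  have h2 : ((Icc (-((0 : ℕ) : ℤ)) ((0 : ℕ) : ℤ)).erase 0 : Finset ℤ) = ∅ := by decide
  rw [h2, sum_empty, mul_zero, sub_zero] at h1
  have h3 : ∀ n : ℤ, (gw Y N0 (0 + ((1 : ℕ) : ℤ) * n) : ℂ) = ((gw Y N0 n : ℝ) : ℂ) := by
    intro n
    congr 2
    push_cast
    ring
  simp only [h3] at h1
  rw [← Complex.ofReal_tsum, ← Complex.ofReal_sub, Complex.norm_real, Real.norm_eq_abs] at h1
  push_cast at h1
  rw [div_one] at h1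
  have h4 := (le_abs_self _).trans h1
  have h5 : C0 * (1 / Y) * Real.exp (-((0 + 1) * Y) ^ 2) ≤ C0 * 1 * 1 := by
    apply mul_le_mul
    · apply mul_le_mul_of_nonneg_left _ C0_nonneg
      rw [div_le_one hY0]
      exact hY
    · rw [Real.exp_le_one_iff, neg_nonpos]
      positivity
    · positivity
    · exact mul_nonneg C0_nonneg zero_le_one
  linarith

theorem cent (Y c : ℝ) (hY : 0 < Y) (J : ℕ) (n : ℤ) :
    ∑ j ∈ range J, gw Y (c + j * Y) n ≤ 1 + C0 := by
  set x : ℝ := ((n : ℝ) - c) / Y with hx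
  have h1 : ∀ j : ℕ, gw Y (c + j * Y) n = gw 1 x (j : ℤ) := by
    intro j
    unfold gw
    congr 3
    rw [hx]
    push_cast
    field_simp
    ring
  simp only [h1]
  have h2 := gsum 1 x le_rfl
  have h3 : ∑ j ∈ range J, gw 1 x (j : ℤ) = ∑ j ∈ (range J).map Nat.castEmbedding, gw 1 x j := by
    rw [sum_map]
    rfl
  rw [h3]
  refine le_trans ?_ h2
  exact (gw_summable 1 x one_pos).sum_le_tsum _ (fun n _ => (gw_pos 1 x n).le)

theorem gw_tail (Y c L : ℝ) (hY : 0 < Y) (hL : 0 ≤ L) (n : ℤ) (hn : Y * L ≤ |(n : ℝ) - c|) :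
    gw Y c n ≤ Real.exp (-(Real.pi / 2 * L ^ 2)) * gw (2 * Y) c n := by
  unfold gw
  rw [← Real.exp_add, Real.exp_le_exp]
  have h1 : (Y * L) ^ 2 ≤ ((n : ℝ) - c) ^ 2 := by
    rw [← sq_abs ((n : ℝ) - c)]
    exact pow_le_pow_left₀ (by positivity) hn 2
  have h2 : L ^ 2 ≤ (((n : ℝ) - c) / Y) ^ 2 := by
    rw [div_pow, le_div_iff₀ (by positivity)]
    calc L ^ 2 * Y ^ 2 = (Y * L) ^ 2 := by ring
      _ ≤ _ := h1
  have h3 : (((n : ℝ) - c) / (2 * Y)) ^ 2 = (((n : ℝ) - c) / Y) ^ 2 / 4 := by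
    field_simp
    ring
  rw [h3]
  have hpi := Real.pi_pos
  have h4 : Real.pi * L ^ 2 ≤ Real.pi * (((n : ℝ) - c) / Y) ^ 2 := mul_le_mul_of_nonneg_left h2 hpi.le
  have h5 : 0 ≤ Real.pi * (((n : ℝ) - c) / Y) ^ 2 := by positivity
  nlinarith

open Classical in
/-- from the weighted sums to the number of elements of an interval -/
theorem to_count (N H : ℕ) (Y L : ℝ) (hY : 1 ≤ Y) (hL : 0 ≤ L) (J : ℕ)
    (hJ : 2 * (Y * L) + J * Y ≤ H) (F : ℤ → Prop) (A : ℝ)
    (hA : ∀ j < J, A ≤ ∑' n : ℤ, gw Y ((N : ℝ) + Y * L + j * Y) n * (if F n then 1 else 0)) :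
    J * (A - Real.exp (-(Real.pi / 2 * L ^ 2)) * (2 * Y + C0)) ≤
      (1 + C0) * (((Ioc (N : ℤ) (N + H)).filter F).card : ℝ) := by
  have hY0 : 0 < Y := by linarith
  set I : Finset ℤ := Ioc (N : ℤ) (N + H) with hI
  have h1 : ∀ j < J, A - Real.exp (-(Real.pi / 2 * L ^ 2)) * (2 * Y + C0) ≤
      ∑ n ∈ I, gw Y ((N : ℝ) + Y * L + j * Y) n * (if F n then 1 else 0) := by
    intro j hj
    set c : ℝ := (N : ℝ) + Y * L + j * Y with hc
    have hs := gw_summable Y c hY0
    have hs2 := gw_summable (2 * Y) c (by positivity)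
    have hjJ : (j : ℝ) + 1 ≤ J := by exact_mod_cast hj
    have h2 : ∀ n : ℤ, gw Y c n * (if F n then 1 else 0) ≤
        (if n ∈ I then gw Y c n * (if F n then 1 else 0) else 0) +
          Real.exp (-(Real.pi / 2 * L ^ 2)) * gw (2 * Y) c n := by
      intro n
      by_cases hn : n ∈ I
      · rw [if_pos hn]
        have := (gw_pos (2 * Y) c n).le
        have := (Real.exp_pos (-(Real.pi / 2 * L ^ 2))).le
        have : 0 ≤ Real.exp (-(Real.pi / 2 * L ^ 2)) * gw (2 * Y) c n := by positivity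
        linarith
      · rw [if_neg hn, zero_add]
        have h3 : gw Y c n * (if F n then 1 else 0) ≤ gw Y c n := by
          split_ifs
          · rw [mul_one]
          · rw [mul_zero]
            exact (gw_pos Y c n).le
        refine h3.trans (gw_tail Y c L hY0 hL n ?_)
        rw [hI, mem_Ioc, not_and_or, not_lt, not_le] at hn
        rcases hn with hn | hn
        · have h4 : (n : ℝ) ≤ N := by exact_mod_cast hn
          rw [abs_sub_comm]
          refine le_trans ?_ (le_abs_self _)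
          rw [hc]
          have : 0 ≤ (j : ℝ) * Y := by positivity
          linarith
        · have h4 : (N : ℝ) + H ≤ n := by exact_mod_cast hn.le
          refine le_trans ?_ (le_abs_self _)
          rw [hc]
          have : ((j : ℝ) + 1) * Y ≤ J * Y := mul_le_mul_of_nonneg_right hjJ hY0.le
          nlinarith
    have hs1 : Summable (fun n : ℤ => if n ∈ I then gw Y c n * (if F n then 1 else 0) else 0) :=
      summable_of_ne_finset_zero (s := I) (fun n hn => if_neg hn)
    have hs3 : Summable (fun n : ℤ => gw Y c n * (if F n then 1 else 0)) := by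
      apply Summable.of_norm_bounded hs
      intro n
      rw [norm_mul, Real.norm_of_nonneg (gw_pos Y c n).le]
      split_ifs
      · rw [norm_one, mul_one]
      · rw [norm_zero, mul_zero]
        exact (gw_pos Y c n).le
    have h3 := Summable.tsum_le_tsum h2 hs3 (hs1.add (hs2.mul_left _))
    rw [Summable.tsum_add hs1 (hs2.mul_left _), tsum_mul_left,
      tsum_eq_sum (s := I) (fun n hn => if_neg hn)] at h3
    have h4 : ∑ n ∈ I, (if n ∈ I then gw Y c n * (if F n then 1 else 0) else 0) =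
        ∑ n ∈ I, gw Y c n * (if F n then 1 else 0) :=
      sum_congr rfl (fun n hn => if_pos hn)
    rw [h4] at h3
    have h5 := gsum (2 * Y) c (by linarith)
    have h6 : Real.exp (-(Real.pi / 2 * L ^ 2)) * ∑' n : ℤ, gw (2 * Y) c n ≤
        Real.exp (-(Real.pi / 2 * L ^ 2)) * (2 * Y + C0) :=
      mul_le_mul_of_nonneg_left h5 (Real.exp_pos _).le
    have h7 := hA j hj
    linarith
  have h2 : ∑ j ∈ range J, (A - Real.exp (-(Real.pi / 2 * L ^ 2)) * (2 * Y + C0)) ≤
      ∑ j ∈ range J, ∑ n ∈ I, gw Y ((N : ℝ) + Y * L + j * Y) n * (if F n then 1 else 0) :=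
    sum_le_sum (fun j hj => h1 j (mem_range.1 hj))
  rw [sum_const, card_range, nsmul_eq_mul, sum_comm] at h2
  refine h2.trans ?_
  have h3 : ∀ n ∈ I, ∑ j ∈ range J, gw Y ((N : ℝ) + Y * L + j * Y) n * (if F n then 1 else 0) ≤
      (1 + C0) * (if F n then 1 else 0) := by
    intro n _
    rw [← sum_mul]
    apply mul_le_mul_of_nonneg_right (cent Y _ hY0 J n)
    split_ifs <;> norm_num
  refine (sum_le_sum h3).trans (le_of_eq ?_)
  rw [← mul_sum, sum_boole]

end Pool.Agent.T2h76
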