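import Pool.Agent.T2h76.Gm3

/-! Products of at most two primes among the values of `n² + 1` in short intervals. -/

set_option autoImplicit false

namespace Pool.Agent.T2h76

open Finset Filter
open Pool.Agent.W23.DC
open Pool.Agent.Y882 (PZ tt_lt)
open Pool.Agent.Y882.KW (WW)
open Pool.Agent.Y882.SI (QF QF_eval)
open Pool.Agent.Y844.BT (cel cel_spec)

open Classical in
theorem sq_bad (N H : ℕ) (P : Finset ℕ) (z : ℝ) (hz : 3 ≤ z) (M : ℕ)
    (hP : ∀ p ∈ P, p.Prime ∧ z ≤ p ∧ p ≤ M) :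
    (((Ioc (N : ℤ) (N + H)).filter (fun n => ∃ p ∈ P, ((p ^ 2 : ℕ) : ℤ) ∣ n ^ 2 + 1)).card : ℝ) ≤
      2 * H * ((1 + Real.log M) / z) + 2 * P.card := by
  have hz0 : 0 < z := by linarith
  have h1 : (Ioc (N : ℤ) (N + H)).filter (fun n => ∃ p ∈ P, ((p ^ 2 : ℕ) : ℤ) ∣ n ^ 2 + 1) ⊆
      P.biUnion (fun p => ((Icc 1 H).filter (fun j : ℕ => ((p ^ 2 : ℕ) : ℤ) ∣
        (QF 1).eval ((N + j : ℕ) : ℤ))).image (fun j : ℕ => ((N + j : ℕ) : ℤ))) := by
    intro n hn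
    rw [mem_filter, mem_Ioc] at hn
    obtain ⟨⟨h2, h3⟩, p, hp, h4⟩ := hn
    rw [mem_biUnion]
    refine ⟨p, hp, ?_⟩
    rw [mem_image]
    refine ⟨(n - N).toNat, ?_, ?_⟩
    · rw [mem_filter, mem_Icc]
      refine ⟨⟨by omega, by omega⟩, ?_⟩
      have h5 : ((N + (n - N).toNat : ℕ) : ℤ) = n := by
        push_cast
        rw [Int.toNat_of_nonneg (by omega)]
        ring
      rw [h5, QF_eval]
      exact h4
    · push_cast
      rw [Int.toNat_of_nonneg (by omega)]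
      ring
  have h2 : (((Ioc (N : ℤ) (N + H)).filter (fun n => ∃ p ∈ P, ((p ^ 2 : ℕ) : ℤ) ∣ n ^ 2 + 1)).card : ℝ) ≤
      ∑ p ∈ P, (2 : ℝ) * (H * (1 / (p : ℝ) ^ 2) + 1) := by
    calc (((Ioc (N : ℤ) (N + H)).filter (fun n => ∃ p ∈ P, ((p ^ 2 : ℕ) : ℤ) ∣ n ^ 2 + 1)).card : ℝ) ≤
        ((∑ p ∈ P, (((Icc 1 H).filter (fun j : ℕ => ((p ^ 2 : ℕ) : ℤ) ∣
        (QF 1).eval ((N + j : ℕ) : ℤ))).image (fun j : ℕ => ((N + j : ℕ) : ℤ))).card : ℕ) : ℝ) := by
          exact_mod_cast (card_le_card h1).trans card_biUnion_le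
      _ = ∑ p ∈ P, ((((Icc 1 H).filter (fun j : ℕ => ((p ^ 2 : ℕ) : ℤ) ∣
        (QF 1).eval ((N + j : ℕ) : ℤ))).image (fun j : ℕ => ((N + j : ℕ) : ℤ))).card : ℝ) := by
          push_cast
          rfl
      _ ≤ _ := by
          apply sum_le_sum
          intro p hp
          obtain ⟨hpp, hpz, _⟩ := hP p hp
          have hp3 : 3 ≤ p := by exact_mod_cast hz.trans hpz
          have h3 := Pool.Agent.Y882.MG.sq_countS 1 (by norm_num) p hpp (by
            show (1 : ℤ).natAbs < p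
            rw [show (1 : ℤ).natAbs = 1 by rfl]
            omega) (by omega) N H
          refine le_trans ?_ h3
          exact_mod_cast card_image_le
  refine h2.trans ?_
  rw [← mul_sum, sum_add_distrib, sum_const, nsmul_eq_mul, mul_one, ← mul_sum]
  have h3 : ∑ p ∈ P, 1 / (p : ℝ) ^ 2 ≤ (1 + Real.log M) / z := by
    have h4 : ∀ p ∈ P, 1 / (p : ℝ) ^ 2 ≤ 1 / z * (1 / (p : ℝ)) := by
      intro p hp
      obtain ⟨hpp, hpz, _⟩ := hP p hp
      have hp0 : (0 : ℝ) < p := by exact_mod_cast hpp.pos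
      rw [pow_two, one_div, mul_inv, ← one_div]
      apply mul_le_mul_of_nonneg_right
      · exact one_div_le_one_div_of_le hz0 hpz
      · positivity
    have h5 : ∑ p ∈ P, 1 / (p : ℝ) ≤ 1 + Real.log M := by
      have h6 : ∑ p ∈ P, 1 / (p : ℝ) ≤ ∑ p ∈ Icc 1 M, 1 / (p : ℝ) := by
        apply sum_le_sum_of_subset_of_nonneg
        · intro p hp
          obtain ⟨hpp, _, h7⟩ := hP p hp
          rw [mem_Icc]
          exact ⟨hpp.one_le, h7⟩
        · intro p _ _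
          positivity
      refine h6.trans ?_
      have h7 := harmonic_le_one_add_log M
      rw [harmonic_eq_sum_Icc] at h7
      push_cast at h7
      simpa [one_div] using h7
    calc ∑ p ∈ P, 1 / (p : ℝ) ^ 2 ≤ ∑ p ∈ P, 1 / z * (1 / (p : ℝ)) := sum_le_sum h4
      _ = 1 / z * ∑ p ∈ P, 1 / (p : ℝ) := by rw [mul_sum]
      _ ≤ 1 / z * (1 + Real.log M) := mul_le_mul_of_nonneg_left h5 (by positivity)
      _ = _ := by ring
  have h4 : (H : ℝ) * ∑ p ∈ P, 1 / (p : ℝ) ^ 2 ≤ H * ((1 + Real.log M) / z) :=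
    mul_le_mul_of_nonneg_left h3 (Nat.cast_nonneg _)
  linarith

theorem Ce_pr (X : ℕ) (hX : 2 ≤ X) (ϖ : ℝ) (hϖ : 0 < ϖ) (n m : ℕ) :
    Ce X ϖ n m = pr X (ϖ * n) (ϖ * m) := by
  have hlX : 0 < Real.log X := Real.log_pos (by exact_mod_cast (by omega : 1 < X))
  ext p
  rw [mem_Ce]
  unfold pr
  rw [mem_filter, mem_Icc]
  constructor
  · rintro ⟨h1, h2, h3, h4⟩
    have h0 : 0 ≤ tt X p := by
      unfold tt
      have : 0 ≤ Real.log p := Real.log_natCast_nonneg p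
      positivity
    refine ⟨h1, h2, ?_, ?_⟩
    · unfold cel at h3
      rw [Nat.le_floor_iff (by positivity), le_div_iff₀ hϖ] at h3
      linarith
    · unfold cel at h4
      rw [Nat.floor_lt (by positivity), div_lt_iff₀ hϖ] at h4
      linarith
  · rintro ⟨h1, h2, h3, h4⟩
    have h0 : 0 ≤ tt X p := by
      unfold tt
      have : 0 ≤ Real.log p := Real.log_natCast_nonneg p
      positivity
    refine ⟨h1, h2, ?_, ?_⟩
    · unfold cel
      rw [Nat.le_floor_iff (by positivity), le_div_iff₀ hϖ]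
      linarith
    · unfold cel
      rw [Nat.floor_lt (by positivity), div_lt_iff₀ hϖ]
      linarith

theorem Ce_PZ (X : ℕ) (hX : 2 ≤ X) (ϖ : ℝ) (hϖ : 0 < ϖ) (m : ℕ) :
    Ce X ϖ 0 m = PZ X (ϖ * m) := by
  have hlX : 0 < Real.log X := Real.log_pos (by exact_mod_cast (by omega : 1 < X))
  rw [Ce_pr X hX ϖ hϖ]
  ext p
  unfold pr PZ
  rw [mem_filter, mem_filter]
  constructor
  · rintro ⟨h1, h2, h3, h4⟩
    exact ⟨h1, h2, h4⟩
  · rintro ⟨h1, h2, h4⟩
    refine ⟨h1, h2, ?_, h4⟩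
    rw [Nat.cast_zero, mul_zero]
    unfold tt
    have : 0 ≤ Real.log p := Real.log_natCast_nonneg p
    positivity

theorem WWc_imp (X : ℕ) (hX : 2 ≤ X) (ϖ : ℝ) (hϖ : 0 < ϖ) (nz nυ : ℕ) (hnυ : 1 ≤ nυ) (a υ : ℝ)
    (hυ : ϖ * (nυ + 1 / 2) = υ) (ha : 0 < a) (N : ℕ) (hW : 0 < WWc X ϖ a (a / υ) nz nυ N) :
    0 < WW X (ϖ * nz) (ϖ * nυ) a (a / (ϖ * nυ)) N := by
  classical
  have hnr : (1 : ℝ) ≤ nυ := by exact_mod_cast hnυ
  have hυ0 : 0 < ϖ * nυ := by positivity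
  have hυυ : ϖ * nυ ≤ υ := by
    rw [← hυ]
    apply mul_le_mul_of_nonneg_left _ hϖ.le
    linarith
  have hlX : 0 < Real.log X := Real.log_pos (by exact_mod_cast (by omega : 1 < X))
  unfold WWc at hW
  unfold WW
  rw [← Ce_PZ X hX ϖ hϖ nz, ← Ce_pr X hX ϖ hϖ nz nυ]
  split_ifs at hW with h
  · rw [if_pos h]
    refine lt_of_lt_of_le hW ?_
    apply mul_le_mul_of_nonneg_left _ zero_le_one
    have h1 : ∑ q ∈ Ce X ϖ nz nυ, (a - a / (ϖ * nυ) * tt X q) * (if q ∣ N then (1 : ℝ) else 0) ≤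
        ∑ q ∈ Ce X ϖ nz nυ, (a - a / υ * (ϖ * cel X ϖ q)) * (if q ∣ N then (1 : ℝ) else 0) := by
      apply sum_le_sum
      intro q hq
      rw [mem_Ce] at hq
      apply mul_le_mul_of_nonneg_right
      · have h2 := (cel_spec X hX ϖ hϖ q hq.1.1).2.2.1
        have h3 : a / υ ≤ a / (ϖ * nυ) := div_le_div_of_nonneg_left ha.le hυ0 hυυ
        have h4 : 0 ≤ ϖ * (cel X ϖ q : ℝ) := by positivity
        have h5 : a / υ * (ϖ * cel X ϖ q) ≤ a / (ϖ * nυ) * tt X q := by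
          apply mul_le_mul h3 h2 h4
          positivity
        linarith
      · split_ifs <;> norm_num
    linarith
  · simp at hW

end Pool.Agent.T2h76
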