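import Pool.Agent.TH43.LK.KlGcd
import Pool.Agent.H262R4.FR.W1

/-! Restricting complete sums to residue classes. -/

set_option autoImplicit false

namespace Pool.Agent.T2h76

open Finset Pool.Agent.H442R2.KF.TaskB

theorem char_down (N d : ℕ) [NeZero N] [NeZero d] (hd : d ∣ N) (x : ℤ) :
    (ZMod.stdAddChar ((x : ℤ) : ZMod d) : ℂ) = ZMod.stdAddChar ((((N / d : ℕ) * x : ℤ)) : ZMod N) := by
  obtain ⟨k, hk⟩ := hd
  have h1 : N / d = k := by
    rw [hk]
    exact Nat.mul_div_cancel_left _ (Nat.pos_of_ne_zero (NeZero.ne d))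
  rw [h1, ZMod.stdAddChar_coe, ZMod.stdAddChar_coe]
  congr 1
  have n1 : (d : ℂ) ≠ 0 := by exact_mod_cast NeZero.ne d
  have n2 : (N : ℂ) ≠ 0 := by exact_mod_cast NeZero.ne N
  have h : (N : ℂ) = d * k := by exact_mod_cast hk
  push_cast
  rw [div_eq_div_iff n1 n2, h]
  ring

theorem restrict (N d : ℕ) [NeZero N] [NeZero d] (hd : d ∣ N) (F : ZMod N → ℂ) (W : ℝ)
    (hW : ∀ b : ZMod N, ‖∑ X : ZMod N, F X * ZMod.stdAddChar (b * X)‖ ≤ W) (r : ZMod d)
    (b : ZMod N) :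
    ‖∑ X : ZMod N, (if ZMod.castHom hd (ZMod d) X = r then F X else 0) *
      ZMod.stdAddChar (b * X)‖ ≤ W := by
  classical
  have hd0 : (d : ℂ) ≠ 0 := by exact_mod_cast NeZero.ne d
  have hdr : (0 : ℝ) < d := by exact_mod_cast Nat.pos_of_ne_zero (NeZero.ne d)
  have h1 : ∀ X : ZMod N, (if ZMod.castHom hd (ZMod d) X = r then F X else 0) *
      ZMod.stdAddChar (b * X) = (d : ℂ)⁻¹ * ∑ t : ZMod d, ZMod.stdAddChar (-(t * r)) *
        (F X * ZMod.stdAddChar ((b + (((N / d : ℕ) * (t.val : ℤ) : ℤ) : ZMod N)) * X)) := by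
    intro X
    have h2 : ∀ t : ZMod d, ZMod.stdAddChar (-(t * r)) *
        (F X * ZMod.stdAddChar ((b + (((N / d : ℕ) * (t.val : ℤ) : ℤ) : ZMod N)) * X)) =
        (F X * ZMod.stdAddChar (b * X)) *
          ZMod.stdAddChar (t * (ZMod.castHom hd (ZMod d) X - r)) := by
      intro t
      obtain ⟨x, rfl⟩ := ZMod.intCast_surjective X
      have h3 : (ZMod.stdAddChar ((((N / d : ℕ) * (t.val : ℤ) : ℤ) : ZMod N) * (x : ZMod N)) : ℂ) =
          ZMod.stdAddChar (t * ZMod.castHom hd (ZMod d) (x : ZMod N)) := by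
        rw [map_intCast]
        have h4 : t * ((x : ℤ) : ZMod d) = (((t.val : ℤ) * x : ℤ) : ZMod d) := by
          push_cast
          rw [ZMod.natCast_zmod_val]
        rw [h4, char_down N d hd]
        congr 1
        push_cast
        ring
      rw [add_mul, AddChar.map_add_eq_mul, h3, mul_sub, sub_eq_add_neg, AddChar.map_add_eq_mul]
      ring
    rw [Finset.sum_congr rfl (fun t _ => h2 t), ← Finset.mul_sum,
      AddChar.sum_mulShift _ (ZMod.isPrimitive_stdAddChar d)]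
    by_cases h5 : ZMod.castHom hd (ZMod d) X = r
    · rw [if_pos h5, if_pos (sub_eq_zero.2 h5), ZMod.card]
      field_simp
    · rw [if_neg h5, if_neg (fun h => h5 (sub_eq_zero.1 h))]
      simp
  rw [Finset.sum_congr rfl (fun X _ => h1 X), ← Finset.mul_sum, Finset.sum_comm, norm_mul, norm_inv,
    Complex.norm_natCast]
  have h6 : ‖∑ t : ZMod d, ∑ X : ZMod N, ZMod.stdAddChar (-(t * r)) *
        (F X * ZMod.stdAddChar ((b + (((N / d : ℕ) * (t.val : ℤ) : ℤ) : ZMod N)) * X))‖ ≤ d * W := by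
    refine (norm_sum_le _ _).trans ?_
    have h7 : ∀ t : ZMod d, ‖∑ X : ZMod N, ZMod.stdAddChar (-(t * r)) *
        (F X * ZMod.stdAddChar ((b + (((N / d : ℕ) * (t.val : ℤ) : ℤ) : ZMod N)) * X))‖ ≤ W := by
      intro t
      rw [← Finset.mul_sum, norm_mul, AddChar.norm_apply, one_mul]
      exact hW _
    refine (Finset.sum_le_sum (fun t _ => h7 t)).trans ?_
    rw [Finset.sum_const, Finset.card_univ, ZMod.card, nsmul_eq_mul]
  calc (d : ℝ)⁻¹ * _ ≤ (d : ℝ)⁻¹ * (d * W) := mul_le_mul_of_nonneg_left h6 (by positivity)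
    _ = W := by field_simp

theorem isUnit_iff_gcd (L : ℕ) [NeZero L] (x : ℤ) : IsUnit ((x : ℤ) : ZMod L) ↔ Int.gcd x L = 1 := by
  rw [ZMod.coe_int_isUnit_iff_isCoprime, isCoprime_comm, Int.isCoprime_iff_gcd_eq_one]

open Classical in
theorem restrict_cop (N L : ℕ) [NeZero N] [NeZero L] (hL : L ∣ N) (F : ZMod N → ℂ) (W : ℝ)
    (hW : ∀ b : ZMod N, ‖∑ X : ZMod N, F X * ZMod.stdAddChar (b * X)‖ ≤ W) (s : ZMod L)
    (b : ZMod N) :
    ‖∑ X : ZMod N, (if IsUnit (ZMod.castHom hL (ZMod L) X - s) then F X else 0) *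
      ZMod.stdAddChar (b * X)‖ ≤ L.divisors.card * W := by
  have hL0 : 0 < L := Nat.pos_of_ne_zero (NeZero.ne L)
  obtain ⟨s, rfl⟩ := ZMod.intCast_surjective s
  have hN : ∀ f : ℕ, f ∈ L.divisors → f ≠ 0 := fun f hf => (Nat.pos_of_mem_divisors hf).ne'
  have h1 : ∀ X : ZMod N, (if IsUnit (ZMod.castHom hL (ZMod L) X - ((s : ℤ) : ZMod L)) then F X else 0) *
      ZMod.stdAddChar (b * X) = ∑ f ∈ L.divisors, ((ArithmeticFunction.moebius f : ℤ) : ℂ) *
        ((if (f : ℤ) ∣ (X.val : ℤ) - s then F X else 0) * ZMod.stdAddChar (b * X)) := by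
    intro X
    have h2 : ZMod.castHom hL (ZMod L) X - ((s : ℤ) : ZMod L) = (((X.val : ℤ) - s : ℤ) : ZMod L) := by
      have : ZMod.castHom hL (ZMod L) X = (((X.val : ℕ) : ℤ) : ZMod L) := by
        conv_lhs => rw [← ZMod.natCast_zmod_val X]
        rw [map_natCast]
        push_cast
        rfl
      rw [this]
      push_cast
      ring
    have h3 := Pool.Agent.H262R4.FR.TW1.moebius_gcd L hL0 ((X.val : ℤ) - s)
    have h4 : ∑ f ∈ L.divisors, ((ArithmeticFunction.moebius f : ℤ) : ℂ) *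
        ((if (f : ℤ) ∣ (X.val : ℤ) - s then F X else 0) * ZMod.stdAddChar (b * X)) =
        ((∑ f ∈ L.divisors, (if (X.val : ℤ) - s ≡ 0 [ZMOD (f : ℤ)] then
          (ArithmeticFunction.moebius f : ℤ) else 0) : ℤ) : ℂ) * (F X * ZMod.stdAddChar (b * X)) := by
      push_cast
      rw [Finset.sum_mul]
      apply Finset.sum_congr rfl
      intro f _
      by_cases h5 : (f : ℤ) ∣ (X.val : ℤ) - s
      · rw [if_pos h5, if_pos (Int.modEq_zero_iff_dvd.2 h5)]
      · rw [if_neg h5, if_neg (fun h => h5 (Int.modEq_zero_iff_dvd.1 h))]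
        simp
    rw [h4, h3, h2]
    by_cases h6 : Int.gcd ((X.val : ℤ) - s) L = 1
    · rw [if_pos h6, if_pos ((isUnit_iff_gcd L _).2 h6)]
      simp
    · rw [if_neg h6, if_neg (fun h => h6 ((isUnit_iff_gcd L _).1 h))]
      simp
  rw [Finset.sum_congr rfl (fun X _ => h1 X), Finset.sum_comm]
  refine (norm_sum_le _ _).trans ?_
  have h7 : ∀ f ∈ L.divisors, ‖∑ X : ZMod N, ((ArithmeticFunction.moebius f : ℤ) : ℂ) *
        ((if (f : ℤ) ∣ (X.val : ℤ) - s then F X else 0) * ZMod.stdAddChar (b * X))‖ ≤ W := by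
    intro f hf
    have : NeZero f := ⟨hN f hf⟩
    have hfN : f ∣ N := (Nat.dvd_of_mem_divisors hf).trans hL
    rw [← Finset.mul_sum, norm_mul]
    have h8 : ‖((ArithmeticFunction.moebius f : ℤ) : ℂ)‖ ≤ 1 := by
      rw [Complex.norm_intCast]
      exact_mod_cast ArithmeticFunction.abs_moebius_le_one
    have h9 := restrict N f hfN F W hW ((s : ℤ) : ZMod f) b
    have h10 : ∀ X : ZMod N, (ZMod.castHom hfN (ZMod f) X = ((s : ℤ) : ZMod f)) ↔
        (f : ℤ) ∣ (X.val : ℤ) - s := by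
      intro X
      have : ZMod.castHom hfN (ZMod f) X = (((X.val : ℕ) : ℤ) : ZMod f) := by
        conv_lhs => rw [← ZMod.natCast_zmod_val X]
        rw [map_natCast]
        push_cast
        rfl
      rw [this, eq_comm, ZMod.intCast_eq_intCast_iff_dvd_sub]
    simp only [h10] at h9
    calc _ ≤ 1 * W := mul_le_mul h8 h9 (norm_nonneg _) zero_le_one
      _ = W := one_mul W
  refine (Finset.sum_le_sum h7).trans ?_
  rw [Finset.sum_const, nsmul_eq_mul]

end Pool.Agent.T2h76
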