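import Pool.Agent.R498.MT.Asm

/-! Expansions of the weights, exact functionals. -/

set_option autoImplicit false
set_option linter.unusedSectionVars false

namespace Pool.Agent.T2h76.MT

open Finset
open Pool.Agent.R498.MT

section base
variable {S J : Type} [Fintype S] [DecidableEq S] [Fintype J] [DecidableEq J]

/-- local inversion -/
def mm : Option J → Option J → ℝ
  | none, none => 1
  | none, some _ => -1
  | some j, some k => if j = k then 1 else 0
  | some _, none => 0

theorem mm_sum (w u : Option J) :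
    ∑ v, mm v u * (if w = none ∨ w = v then 1 else 0) = if w = u then 1 else 0 := by
  rw [Fintype.sum_option]
  rcases w with _ | w
  · rcases u with _ | u
    · simp [mm]
    · simp [mm]
  · rcases u with _ | u
    · simp [mm]
    · simp [mm]

theorem mm_abs (u : Option J) : ∑ v, |mm v u| = if u = none then 1 else 2 := by
  rw [Fintype.sum_option]
  rcases u with _ | u
  · simp [mm]
  · have : ∀ j : J, |mm (some j) (some u)| = if j = u then 1 else 0 := by
      intro j
      simp only [mm]
      split_ifs <;> norm_num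
    simp only [this, sum_ite_eq', mem_univ, if_true]
    simp [mm]
    norm_num

theorem sub_prod (U x : S → Option J) : (if Sub U x then (1 : ℝ) else 0) =
    ∏ t, (if U t = none ∨ U t = x t then (1 : ℝ) else 0) := by
  rw [Finset.prod_ite_zero]
  simp [Pool.Agent.R498.MT.Sub]

theorem inv_prod (U V : S → Option J) :
    ∑ x : S → Option J, (∏ t, mm (x t) (V t)) * (if Sub U x then 1 else 0) =
      if U = V then 1 else 0 := by
  simp_rw [sub_prod, ← prod_mul_distrib]
  rw [sum_prod (fun t v => mm v (V t) * (if U t = none ∨ U t = v then 1 else 0))]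
  simp_rw [mm_sum]
  rw [Finset.prod_ite_zero]
  simp [funext_iff]

/-- a signed measure with given values -/
theorem ghost (A : (S → Option J) → ℝ) : ∃ (N : Finset ℕ) (ν : ℕ → ℝ) (ξ : ℕ → S → Option J),
    ∀ U, ∑ n ∈ N, ν n * (if Sub U (ξ n) then 1 else 0) = A U := by
  classical
  obtain ⟨M, ⟨e⟩⟩ : ∃ M : ℕ, Nonempty ((S → Option J) ≃ Fin M) :=
    ⟨_, ⟨Fintype.equivFin _⟩⟩
  set ξ : ℕ → S → Option J := fun n => if h : n < M then e.symm ⟨n, h⟩ else fun _ => none with hξ
  refine ⟨range M, fun n => ∑ V, (∏ t, mm (ξ n t) (V t)) * A V, ξ, ?_⟩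
  intro U
  rw [Finset.sum_range]
  have h1 : ∀ i : Fin M, ξ i = e.symm i := by
    intro i
    simp only [hξ, i.2, dif_pos]
  simp only [h1]
  rw [e.symm.sum_comp (fun x : S → Option J => (∑ V, (∏ t, mm (x t) (V t)) * A V) *
    (if Sub U x then 1 else 0))]
  simp_rw [sum_mul]
  rw [sum_comm]
  have h2 : ∀ V : S → Option J, ∑ x : S → Option J, (∏ t, mm (x t) (V t)) * A V *
      (if Sub U x then 1 else 0) = A V * (if U = V then 1 else 0) := by
    intro V
    rw [← inv_prod U V, mul_sum]
    refine sum_congr rfl fun x _ => ?_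
    ring
  simp_rw [h2]
  simp

/-- the coefficients of the square of the weight -/
def kap (i : Option J) (q μ : S → ℝ) (y : (S → Option J) → ℝ) (V : S → Option J) : ℝ :=
  ∑ σ, ∑ τ, cw μ y σ * cw μ y τ * ∏ t, co (lc2 i (q t) false (σ t) (τ t)) (V t)

theorem kap_exp (i : Option J) (q μ : S → ℝ) (y : (S → Option J) → ℝ) (x : S → Option J) :
    Lam i q μ y x ^ 2 = ∑ V, kap i q μ y V * (if Sub V x then 1 else 0) := by
  have h1 : Lam i q μ y x ^ 2 = ∑ σ, ∑ τ, cw μ y σ * cw μ y τ *
      ∏ t, lc2 i (q t) false (σ t) (τ t) (x t) := by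
    unfold Lam
    rw [sq, sum_mul_sum]
    refine sum_congr rfl fun σ _ => sum_congr rfl fun τ _ => ?_
    unfold lc2
    simp only [Bool.false_eq_true, if_false, mul_one]
    rw [prod_mul_distrib]
    ring
  rw [h1]
  unfold kap
  simp_rw [sum_mul]
  rw [sum_comm]
  rw [sum_comm]
  symm
  rw [sum_comm]
  refine sum_congr rfl fun σ _ => ?_
  rw [sum_comm]
  refine sum_congr rfl fun τ _ => ?_
  have h2 := expand (fun t => lc2 i (q t) false (σ t) (τ t)) x
  rw [h2, mul_sum]
  refine sum_congr rfl fun V _ => ?_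
  ring

theorem kap_good (i : Option J) (q μ l : S → ℝ) (hl : ∀ t, 0 ≤ l t) (y : (S → Option J) → ℝ) (R : ℝ)
    (hy : ∀ σ, y σ ≠ 0 → lt l σ ≤ R) (V : S → Option J) (hV : kap i q μ y V ≠ 0) :
    lt l V ≤ 2 * R := by
  by_contra hcon
  apply hV
  unfold kap
  refine sum_eq_zero fun σ _ => sum_eq_zero fun τ _ => ?_
  by_cases h1 : y σ = 0
  · unfold cw
    rw [h1]
    ring
  by_cases h2 : y τ = 0
  · unfold cw
    rw [h2]
    ring
  have h3 : ∏ t, co (lc2 i (q t) false (σ t) (τ t)) (V t) = 0 := by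
    by_contra h4
    apply hcon
    have h5 := good_of i q l hl ∅ σ τ V (fun t => by
      have h6 := Finset.prod_ne_zero_iff.1 h4 t (mem_univ t)
      simpa using h6)
    have h6 := hy σ h1
    have h7 := hy τ h2
    have h8 : lz l ∅ = 0 := by simp [lz]
    linarith
  rw [h3, mul_zero]

theorem hv_same (i : J) (q : ℝ) (a : Option J) : hv (some i) q a (some i) = hv (some i) q a none := by
  rcases a with _ | j
  · rfl
  · simp only [hv, Option.some.injEq, reduceCtorEq, if_false]
    split_ifs <;> rfl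

theorem kap_none (i : J) (q μ : S → ℝ) (y : (S → Option J) → ℝ) (V : S → Option J) (t : S)
    (ht : V t = some i) : kap (some i) q μ y V = 0 := by
  unfold kap
  refine sum_eq_zero fun σ _ => sum_eq_zero fun τ _ => ?_
  have h3 : ∏ t, co (lc2 (some i) (q t) false (σ t) (τ t)) (V t) = 0 := by
    apply prod_eq_zero (mem_univ t)
    rw [ht]
    simp only [co, lc2, hv_same, Bool.false_eq_true, if_false, mul_one, sub_self]
  rw [h3, mul_zero]

theorem kap_inv (i : Option J) (q μ : S → ℝ) (y : (S → Option J) → ℝ) (V : S → Option J) :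
    kap i q μ y V = ∑ x : S → Option J, (∏ t, mm (x t) (V t)) * Lam i q μ y x ^ 2 := by
  simp_rw [kap_exp, mul_sum]
  rw [sum_comm]
  have h1 : ∀ U : S → Option J, ∑ x : S → Option J, (∏ t, mm (x t) (V t)) * (kap i q μ y U *
      (if Sub U x then 1 else 0)) = kap i q μ y U * (if U = V then 1 else 0) := by
    intro U
    rw [← inv_prod U V, mul_sum]
    refine sum_congr rfl fun x _ => ?_
    ring
  simp_rw [h1]
  simp

theorem mm_ne (x V : S → Option J) (h : ∏ t, mm (x t) (V t) ≠ 0) (t : S) (hx : x t ≠ none) :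
    V t ≠ none := by
  intro hV
  apply h
  apply prod_eq_zero (mem_univ t)
  rcases hxt : x t with _ | j
  · exact absurd hxt hx
  · rw [hV]
    rfl

theorem kap_bd (i : Option J) (q μ : S → ℝ) (y : (S → Option J) → ℝ) (V : S → Option J) (B : ℝ)
    (hB : ∀ x : S → Option J, (∀ t, x t ≠ none → V t ≠ none) → Lam i q μ y x ^ 2 ≤ B) :
    |kap i q μ y V| ≤ 2 ^ (univ.filter (fun t => V t ≠ none)).card * B := by
  have hB0 : 0 ≤ B := by
    have := hB (fun _ => none) (by simp)
    exact (sq_nonneg _).trans this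
  rw [kap_inv]
  refine (abs_sum_le_sum_abs _ _).trans ?_
  have h1 : ∀ x : S → Option J, |(∏ t, mm (x t) (V t)) * Lam i q μ y x ^ 2| ≤
      (∏ t, |mm (x t) (V t)|) * B := by
    intro x
    rw [abs_mul, abs_prod, abs_of_nonneg (sq_nonneg (Lam i q μ y x))]
    by_cases h2 : ∏ t, mm (x t) (V t) = 0
    · have h3 : ∏ t, |mm (x t) (V t)| = 0 := by rw [← abs_prod, h2, abs_zero]
      rw [h3, zero_mul, zero_mul]
    · apply mul_le_mul_of_nonneg_left _ (prod_nonneg fun t _ => abs_nonneg _)
      exact hB x (mm_ne x V h2)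
  refine (sum_le_sum fun x _ => h1 x).trans (le_of_eq ?_)
  rw [← sum_mul, sum_prod (fun t v => |mm v (V t)|)]
  simp_rw [mm_abs]
  congr 1
  rw [prod_ite]
  simp

/-- a set of primes in the slot `i` is added -/
def jn (T : Finset S) (V : S → Option J) (i : J) (t : S) : Option J := if t ∈ T then some i else V t

theorem sub_jn (T : Finset S) (V x : S → Option J) (i : J) (hT : ∀ t ∈ T, V t = none) :
    Sub (jn T V i) x ↔ Sub V x ∧ ∀ t ∈ T, x t = some i := by
  unfold Pool.Agent.R498.MT.Sub jn
  constructor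
  · intro h
    refine ⟨fun t => ?_, fun t ht => ?_⟩
    · by_cases ht : t ∈ T
      · exact Or.inl (hT t ht)
      · have := h t
        rwa [if_neg ht] at this
    · have := h t
      rw [if_pos ht] at this
      rcases this with h1 | h1
      · simp at h1
      · exact h1.symm
  · rintro ⟨h1, h2⟩ t
    by_cases ht : t ∈ T
    · rw [if_pos ht]
      exact Or.inr (h2 t ht).symm
    · rw [if_neg ht]
      exact h1 t

theorem pt_exp (i : J) (q μ : S → ℝ) (y : (S → Option J) → ℝ) (cL : Finset S → ℝ) (x : S → Option J) :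
    Lam (some i) q μ y x ^ 2 * ∑ T, cL T * (if ∀ t ∈ T, x t = some i then 1 else 0) =
      ∑ V, ∑ T : Finset S, (if ∀ t ∈ T, V t = none then kap (some i) q μ y V * cL T else 0) *
        (if Sub (jn T V i) x then 1 else 0) := by
  rw [kap_exp, sum_mul_sum]
  refine sum_congr rfl fun V _ => sum_congr rfl fun T _ => ?_
  by_cases hT : ∀ t ∈ T, V t = none
  · rw [if_pos hT]
    have h1 := sub_jn T V x i hT
    by_cases h2 : Sub V x
    · by_cases h3 : ∀ t ∈ T, x t = some i
      · rw [if_pos h2, if_pos h3, if_pos (h1.2 ⟨h2, h3⟩)]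
        ring
      · rw [if_pos h2, if_neg h3, if_neg (fun h => h3 (h1.1 h).2)]
        ring
    · rw [if_neg h2, if_neg (fun h => h2 (h1.1 h).1)]
      ring
  · rw [if_neg hT, zero_mul]
    push Not at hT
    obtain ⟨t, ht, hVt⟩ := hT
    by_cases hi : V t = some i
    · rw [kap_none i q μ y V t hi]
      ring
    · by_cases h2 : Sub V x
      · by_cases h3 : ∀ t ∈ T, x t = some i
        · exfalso
          rcases h2 t with h4 | h4
          · exact hVt h4
          · rw [h3 t ht] at h4
            exact hi h4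
        · rw [if_neg h3]
          ring
      · rw [if_neg h2]
        ring

/-- the sum over the arguments as a sum over the classes -/
theorem S2_exp (N : Finset ℕ) (ν : ℕ → ℝ) (ξ : ℕ → S → Option J) (i : J) (q μ : S → ℝ)
    (y : (S → Option J) → ℝ) (cL : Finset S → ℝ) :
    ∑ n ∈ N, ν n * (Lam (some i) q μ y (ξ n) ^ 2 *
      ∑ T, cL T * (if ∀ t ∈ T, ξ n t = some i then 1 else 0)) =
      ∑ V, ∑ T : Finset S, (if ∀ t ∈ T, V t = none then kap (some i) q μ y V * cL T else 0) *
        ∑ n ∈ N, ν n * (if Sub (jn T V i) (ξ n) then 1 else 0) := by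
  simp_rw [pt_exp, mul_sum]
  rw [sum_comm]
  refine sum_congr rfl fun V _ => ?_
  rw [sum_comm]
  refine sum_congr rfl fun T _ => sum_congr rfl fun n _ => ?_
  ring

theorem S1_exp (N : Finset ℕ) (ν : ℕ → ℝ) (ξ : ℕ → S → Option J) (i : Option J) (q μ : S → ℝ)
    (y : (S → Option J) → ℝ) :
    ∑ n ∈ N, ν n * Lam i q μ y (ξ n) ^ 2 =
      ∑ V, kap i q μ y V * ∑ n ∈ N, ν n * (if Sub V (ξ n) then 1 else 0) := by
  simp_rw [kap_exp, mul_sum]
  rw [sum_comm]
  refine sum_congr rfl fun V _ => sum_congr rfl fun n _ => ?_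
  ring

end base

end Pool.Agent.T2h76.MT
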