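import Pool.Agent.T2h76.Mt9

/-! Parameters, one argument, all centres. -/

set_option autoImplicit false
set_option linter.unusedSectionVars false

namespace Pool.Agent.T2h76.MT

open Finset Filter
open Pool.Agent.R498.MT
open Pool.Agent.W23.DC
open Pool.Agent.Y677.RSZ (rt Sys rhoT per_mod)
open Pool.Agent.TH423.SH (PS)
open Pool.Agent.Y882 (VV tt_lt)
open Pool.Agent.Y844.BT (cel cel_spec)

/-- the parameters of the presieve -/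
theorem par' (C₁ R u : ℝ) (k C C' : ℕ) (hC : 0 ≤ C₁) (hR : 0 < R) (hu : 0 < u) (κ : ℝ) (hκ : 0 < κ) :
    ∃ (i b₀ : ℕ), u / (2 * i + 1) ≤ e0 k C₁ R ∧ C' ≤ b₀ ∧
      (∀ ε : ℝ, u / (2 * i + 1) / 2 ≤ ε → 2 * (1 / 2 : ℝ) ^ b₀ ≤ ε ^ (16 * (2 ^ k) ^ 2 + 1)) ∧
      2 * (u / (2 * i + 1)) * (C * b₀) ≤ κ := by
  set A : ℕ := 16 * (2 ^ k) ^ 2 + 1 with hA
  have h0 := e0_pos k C₁ R hC hR
  obtain ⟨h, hh⟩ := exists_pow_lt_of_lt_one (show 0 < u / (2 * (2 * u + 3)) by positivity)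
    (show (1 / 2 : ℝ) < 1 by norm_num)
  have h1 : Tendsto (fun s : ℕ => (s : ℝ) * (1 / 2 : ℝ) ^ s) atTop (nhds 0) := by
    have := tendsto_pow_const_mul_const_pow_of_abs_lt_one 1 (show |(1 / 2 : ℝ)| < 1 by
      rw [abs_of_pos (by norm_num)]; norm_num)
    simpa using this
  have h2 : Tendsto (fun s : ℕ => (1 / 2 : ℝ) ^ s) atTop (nhds 0) :=
    tendsto_pow_atTop_nhds_zero_of_lt_one (by norm_num) (by norm_num)
  have h3 : Tendsto (fun s : ℕ => 2 * C * (A * ((s : ℝ) * (1 / 2 : ℝ) ^ s) +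
      (h * A + C' + 1) * (1 / 2 : ℝ) ^ s)) atTop (nhds (2 * C * (A * 0 + (h * A + C' + 1) * 0))) :=
    ((h1.const_mul _).add (h2.const_mul _)).const_mul _
  rw [show 2 * (C : ℝ) * (A * 0 + (h * A + C' + 1) * 0) = 0 by ring] at h3
  obtain ⟨s, hs1, hs3⟩ := ((h3.eventually_le_const hκ).and (h2.eventually_le_const h0)).exists
  set x : ℝ := (1 / 2 : ℝ) ^ s with hx
  have hx0 : 0 < x := by positivity
  have hx1 : x ≤ 1 := pow_le_one₀ (by norm_num) (by norm_num)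
  obtain ⟨i, hi1, hi2⟩ : ∃ i : ℕ, u / x ≤ i ∧ (i : ℝ) ≤ u / x + 1 :=
    ⟨⌈u / x⌉₊, Nat.le_ceil _, (Nat.ceil_lt_add_one (by positivity)).le⟩
  have hir : (0 : ℝ) ≤ i := Nat.cast_nonneg i
  have hd0 : (0 : ℝ) < 2 * i + 1 := by linarith
  have hup : u / (2 * i + 1) ≤ x := by
    rw [div_le_iff₀ hd0]
    rw [div_le_iff₀ hx0] at hi1
    nlinarith
  have hlo : (1 / 2 : ℝ) ^ (s + h) ≤ u / (2 * i + 1) / 2 := by
    have e1 : 2 * (i : ℝ) + 1 ≤ (2 * u + 3) / x := by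
      rw [le_div_iff₀ hx0]
      have e2 : (i : ℝ) * x ≤ u + x := by
        have := mul_le_mul_of_nonneg_right hi2 hx0.le
        rw [add_mul, div_mul_cancel₀ _ hx0.ne', one_mul] at this
        exact this
      nlinarith
    have e2 : u / ((2 * u + 3) / x) ≤ u / (2 * i + 1) :=
      div_le_div_of_nonneg_left hu.le hd0 e1
    have e3 : u / ((2 * u + 3) / x) = x * (2 * (u / (2 * (2 * u + 3)))) := by
      field_simp
    rw [pow_add, ← hx]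
    have e4 : x * (1 / 2 : ℝ) ^ h ≤ x * (u / (2 * (2 * u + 3))) := mul_le_mul_of_nonneg_left hh.le hx0.le
    linarith
  refine ⟨i, (s + h) * A + C' + 1, hup.trans hs3, by omega, ?_, ?_⟩
  · intro ε hε
    have e0 : (1 / 2 : ℝ) ^ (s + h) ≤ ε := hlo.trans hε
    have e1 : ((1 / 2 : ℝ) ^ (s + h)) ^ A = (1 / 2 : ℝ) ^ ((s + h) * A) := by rw [← pow_mul]
    refine le_trans ?_ (pow_le_pow_left₀ (by positivity) e0 A)
    rw [e1, pow_add, pow_add]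
    have h4 : (1 / 2 : ℝ) ^ C' ≤ 1 := pow_le_one₀ (by norm_num) (by norm_num)
    have h5 : 0 < (1 / 2 : ℝ) ^ ((s + h) * A) := by positivity
    nlinarith
  · refine le_trans ?_ hs1
    have e1 : 2 * (u / (2 * i + 1)) * ((C : ℝ) * (((s + h) * A + C' + 1 : ℕ) : ℝ)) ≤
        2 * x * ((C : ℝ) * (((s + h) * A + C' + 1 : ℕ) : ℝ)) := by
      apply mul_le_mul_of_nonneg_right _ (by positivity)
      linarith
    refine e1.trans (le_of_eq ?_)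
    push_cast
    ring

theorem E_small (k b₀ : ℕ) (C₁ R ε : ℝ) (hC : 0 ≤ C₁) (h : 0 < ε) (h1 : ε ≤ e0 k C₁ R)
    (hE : 2 * (1 / 2 : ℝ) ^ b₀ ≤ ε ^ (16 * (2 ^ k) ^ 2 + 1)) :
    2 ^ k * (2 * (1 / 2 : ℝ) ^ b₀) * Ab k ε ≤ 1 / 4 := by
  have h2 := Ab_E k C₁ R ε _ hC h h1 hE
  have h3 := Ab_one k ε h (h1.trans (e0_le k C₁ R).2)
  rw [le_div_iff₀ (by positivity)] at h2
  set E := 2 * (1 / 2 : ℝ) ^ b₀
  have hE0 : 0 < E := by positivity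
  have h2k : (0 : ℝ) < 2 ^ k := by positivity
  have h4 : Ab k ε ≤ (1 + C₁) * Ab k ε ^ 2 := by nlinarith
  have h5 : 2 ^ k * E * Ab k ε ≤ 2 ^ k * E * ((1 + C₁) * Ab k ε ^ 2) :=
    mul_le_mul_of_nonneg_left h4 (by positivity)
  nlinarith

open Classical in
/-- the arguments with more than `m` good slots -/
noncomputable def gdc (F : ℤ → ℤ) (X : ℕ) (ϖ aw bw : ℝ) (nε nz nυ W b : ℕ) {n : ℕ} (t : Fin n → ℕ)
    (m M L : ℕ) : Finset ℕ :=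
  (Ioc M (M + L)).filter (fun K =>
    (∀ p : ℕ, p.Prime → (p : ℝ) < (X : ℝ) ^ (ϖ * nε) → ∀ i,
      ¬ (p : ℤ) ∣ F ((W * (K + t i) + b : ℕ) : ℤ)) ∧
    m < (univ.filter (fun i =>
      0 < WWc X ϖ aw bw nz nυ (G1 ((W * (K + t i) + b : ℕ) : ℤ)).natAbs)).card)

open Classical in
theorem WBc_sum (X : ℕ) (ϖ aw bw υ : ℝ) (nz nυ : ℕ) (hϖ : 0 < ϖ) (hb : 0 ≤ bw)
    (hυ : ϖ * (nυ + 1 / 2) = υ) (hab : bw * υ ≤ aw) (N : ℕ) :
    0 ≤ ∑ q ∈ Ce X ϖ nz nυ, (aw - bw * (ϖ * cel X ϖ q)) * (if q ∣ N then (1 : ℝ) else 0) := by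
  apply sum_nonneg
  intro q hq
  rw [mem_Ce] at hq
  have h7 : ϖ * (cel X ϖ q : ℝ) ≤ υ := by
    have h8 : (cel X ϖ q : ℝ) ≤ nυ := by exact_mod_cast hq.2.2.2.le
    have h9 := mul_le_mul_of_nonneg_left h8 hϖ.le
    have h10 : ϖ * ((nυ : ℝ) + 1 / 2) = ϖ * nυ + ϖ / 2 := by ring
    linarith
  have h8 : bw * (ϖ * cel X ϖ q) ≤ bw * υ := mul_le_mul_of_nonneg_left h7 hb
  apply mul_nonneg (by linarith)
  split_ifs <;> norm_num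

theorem WBc_le_one (X : ℕ) (ϖ aw bw υ : ℝ) (nε nz nυ : ℕ) (hϖ : 0 < ϖ) (hb : 0 ≤ bw)
    (hυ : ϖ * (nυ + 1 / 2) = υ) (hab : bw * υ ≤ aw) (N : ℕ) :
    WBc (Ce X ϖ nε nz) (Ce X ϖ nz nυ) (cel X ϖ) ϖ aw bw N ≤ 1 := by
  classical
  have hS0 := WBc_sum X ϖ aw bw υ nz nυ hϖ hb hυ hab N
  unfold WBc
  split_ifs
  · rw [one_mul]
    linarith
  · rw [zero_mul]
    norm_num

theorem WBc_ne (X : ℕ) (ϖ aw bw : ℝ) (nε nz nυ : ℕ) (N : ℕ)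
    (h : WBc (Ce X ϖ nε nz) (Ce X ϖ nz nυ) (cel X ϖ) ϖ aw bw N ≠ 0) (p : ℕ)
    (hp : p ∈ Ce X ϖ nε nυ) (hpN : p ∣ N) : p ∈ Ce X ϖ nz nυ := by
  classical
  by_contra hcon
  apply h
  unfold WBc
  rw [if_neg, zero_mul]
  intro h1
  refine h1 p ?_ hpN
  rw [mem_Ce] at hp hcon ⊢
  refine ⟨hp.1, hp.2.1, hp.2.2.1, ?_⟩
  by_contra h2
  exact hcon ⟨hp.1, hp.2.1, not_lt.1 h2, hp.2.2.2⟩

theorem WBc_pos (X : ℕ) (hX : 2 ≤ X) (ϖ aw bw : ℝ) (hϖ : 0 < ϖ) (nε nz nυ : ℕ) (N : ℕ)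
    (hN : ∀ p : ℕ, p.Prime → (p : ℝ) < (X : ℝ) ^ (ϖ * nε) → ¬ p ∣ N)
    (h : 0 < WBc (Ce X ϖ nε nz) (Ce X ϖ nz nυ) (cel X ϖ) ϖ aw bw N) :
    0 < WWc X ϖ aw bw nz nυ N := by
  classical
  have h1 : (∀ p ∈ Ce X ϖ nε nz, ¬ p ∣ N) ∧
      0 < 1 - ∑ q ∈ Ce X ϖ nz nυ, (aw - bw * (ϖ * cel X ϖ q)) * (if q ∣ N then (1 : ℝ) else 0) := by
    unfold WBc at h
    split_ifs at h with h2
    · refine ⟨h2, ?_⟩
      rw [one_mul] at h
      convert h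
    · simp at h
  have h3 : ∀ p ∈ Ce X ϖ 0 nz, ¬ p ∣ N := by
    intro p hp hpN
    by_cases h4 : p ∈ Ce X ϖ nε nz
    · exact h1.1 p h4 hpN
    · rw [mem_Ce] at hp h4
      have h5 : cel X ϖ p < nε := by
        by_contra h6
        exact h4 ⟨hp.1, hp.2.1, not_lt.1 h6, hp.2.2.2⟩
      refine hN p hp.2.1 ((cel_spec X hX ϖ hϖ p hp.1.1).2.1.trans_le ?_) hpN
      apply Real.rpow_le_rpow_of_exponent_le (by exact_mod_cast (by omega : 1 ≤ X))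
      apply mul_le_mul_of_nonneg_left _ hϖ.le
      exact_mod_cast h5
  unfold WWc
  rw [if_pos h3, one_mul]
  convert h1.2

open Classical in
/-- the contribution of one argument -/
theorem pt_upc (F : ℤ → ℤ) (g : ℕ) (hF : Sys g F)
    (hGF : ∀ p : ℕ, p.Prime → ∀ n : ℤ, (p : ℤ) ∣ G1 n → (p : ℤ) ∣ F n)
    (X : ℕ) (ϖ aw bw υ B Λ : ℝ) (nε nz nυ W b z k m M L : ℕ) (t : Fin (2 ^ k) → ℕ) (hX : 2 ≤ X)
    (hϖ : 0 < ϖ) (hb : 0 ≤ bw) (hυ : ϖ * (nυ + 1 / 2) = υ) (hab : bw * υ ≤ aw)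
    (hbW : ∀ p : ℕ, p.Prime → p ∣ W → ¬ (p : ℤ) ∣ F b)
    (hz2 : (X : ℝ) ^ (ϖ * nε) ≤ z + 1) (K : ℕ) (hK : K ∈ Ioc M (M + L)) (hΛ0 : 0 ≤ Λ) (hΛ : Λ ≤ B)
    (nK : ℕ) (hnK : ∀ p ∈ PS W z, p ∣ nK ↔ ∃ j, (p : ℤ) ∣ F ((W * (K + t j) + b : ℕ) : ℤ)) :
    (if ∀ p ∈ PS W z, ¬ p ∣ nK then 1 else 0) * (Λ * (∑ i,
      WBc (Ce X ϖ nε nz) (Ce X ϖ nz nυ) (cel X ϖ) ϖ aw bw
        (G1 ((W * (K + t i) + b : ℕ) : ℤ)).natAbs - m)) ≤
      if K ∈ gdc F X ϖ aw bw nε nz nυ W b t m M L then B * 2 ^ k else 0 := by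
  have hB0 : 0 ≤ B := hΛ0.trans hΛ
  have hB2 : 0 ≤ B * 2 ^ k := by positivity
  by_cases hν : ∀ p ∈ PS W z, ¬ p ∣ nK
  swap
  · rw [if_neg hν, zero_mul]
    split_ifs
    · exact hB2
    · exact le_rfl
  rw [if_pos hν, one_mul]
  have hw1 : ∀ i : Fin (2 ^ k), WBc (Ce X ϖ nε nz) (Ce X ϖ nz nυ) (cel X ϖ) ϖ aw bw
      (G1 ((W * (K + t i) + b : ℕ) : ℤ)).natAbs ≤ 1 :=
    fun i => WBc_le_one X ϖ aw bw υ nε nz nυ hϖ hb hυ hab _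
  by_cases hs : ∑ i : Fin (2 ^ k), WBc (Ce X ϖ nε nz) (Ce X ϖ nz nυ) (cel X ϖ) ϖ aw bw
      (G1 ((W * (K + t i) + b : ℕ) : ℤ)).natAbs - m ≤ 0
  · have h2 := mul_nonpos_of_nonneg_of_nonpos hΛ0 hs
    refine h2.trans ?_
    split_ifs
    · exact hB2
    · exact le_rfl
  push Not at hs
  have hsmall : ∀ p : ℕ, p.Prime → (p : ℝ) < (X : ℝ) ^ (ϖ * nε) → ∀ i,
      ¬ (p : ℤ) ∣ F ((W * (K + t i) + b : ℕ) : ℤ) := by
    intro p hp hpY i hdvd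
    by_cases hpW : p ∣ W
    · apply hbW p hp hpW
      refine (per_mod hF.per hp (W * (K + t i) + b) b ?_).1 hdvd
      have : W * (K + t i) ≡ 0 [MOD p] := (Nat.modEq_zero_iff_dvd).2 (hpW.mul_right _)
      simpa using this.add_right b
    · have hpz : p ≤ z := by
        have : (p : ℝ) < z + 1 := hpY.trans_le hz2
        have : p < z + 1 := by exact_mod_cast this
        omega
      have hpS : p ∈ PS W z := by
        unfold PS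
        rw [mem_filter, mem_Icc]
        exact ⟨⟨hp.one_lt.le, hpz⟩, hp, hpW⟩
      exact hν p hpS ((hnK p hpS).2 ⟨i, hdvd⟩)
  have hmem : K ∈ gdc F X ϖ aw bw nε nz nυ W b t m M L := by
    unfold gdc
    rw [mem_filter]
    refine ⟨hK, hsmall, ?_⟩
    have h3 : ∑ i : Fin (2 ^ k), WBc (Ce X ϖ nε nz) (Ce X ϖ nz nυ) (cel X ϖ) ϖ aw bw
        (G1 ((W * (K + t i) + b : ℕ) : ℤ)).natAbs ≤ ((univ.filter (fun i =>
        0 < WWc X ϖ aw bw nz nυ (G1 ((W * (K + t i) + b : ℕ) : ℤ)).natAbs)).card : ℝ) := by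
      have h4 : (((univ.filter (fun i =>
        0 < WWc X ϖ aw bw nz nυ (G1 ((W * (K + t i) + b : ℕ) : ℤ)).natAbs)).card : ℕ) : ℝ) =
          ∑ i, if 0 < WWc X ϖ aw bw nz nυ (G1 ((W * (K + t i) + b : ℕ) : ℤ)).natAbs then (1 : ℝ)
            else 0 := by
        rw [← sum_filter]
        simp
      rw [h4]
      apply sum_le_sum
      intro i _
      split_ifs with h5
      · exact hw1 i
      · by_contra h6
        push Not at h6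
        exact h5 (WBc_pos X hX ϖ aw bw hϖ nε nz nυ _ (fun p hp hpY hpd =>
          hsmall p hp hpY i (hGF p hp _ (Int.natCast_dvd.2 hpd))) h6)
    have h5 : (m : ℝ) < ((univ.filter (fun i =>
        0 < WWc X ϖ aw bw nz nυ (G1 ((W * (K + t i) + b : ℕ) : ℤ)).natAbs)).card : ℝ) := by linarith
    exact_mod_cast h5
  rw [if_pos hmem]
  have hs2 : ∑ i : Fin (2 ^ k), WBc (Ce X ϖ nε nz) (Ce X ϖ nz nυ) (cel X ϖ) ϖ aw bw
      (G1 ((W * (K + t i) + b : ℕ) : ℤ)).natAbs - m ≤ 2 ^ k := by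
    have h3 := sum_le_sum (s := (univ : Finset (Fin (2 ^ k)))) fun i _ => hw1 i
    rw [sum_const, card_univ, Fintype.card_fin, nsmul_eq_mul, mul_one] at h3
    push_cast at h3
    have : (0 : ℝ) ≤ m := Nat.cast_nonneg m
    push_cast
    linarith
  exact mul_le_mul hΛ hs2 hs.le hB0

/-- the sum over the centres -/
theorem centres (I Gd : Finset ℕ) (Y c B : ℝ) (hY : 0 < Y) (W b J : ℕ) (φ : ℕ → ℝ) (A : ℝ)
    (hGd : Gd ⊆ I) (hB : 0 ≤ B)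
    (hφ : ∀ K ∈ I, φ K ≤ if K ∈ Gd then B else 0)
    (hA : ∀ j < J, A ≤ ∑ K ∈ I, gw Y (c + j * Y) ((W * K + b : ℕ) : ℤ) * φ K) :
    J * A ≤ (1 + C0) * (B * Gd.card) := by
  classical
  have h2 : ∑ _j ∈ range J, A ≤
      ∑ j ∈ range J, ∑ K ∈ I, gw Y (c + j * Y) ((W * K + b : ℕ) : ℤ) * φ K :=
    sum_le_sum (fun j hj => hA j (mem_range.1 hj))
  rw [sum_const, card_range, nsmul_eq_mul, sum_comm] at h2
  refine h2.trans ?_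
  have h3 : ∀ K ∈ I, ∑ j ∈ range J, gw Y (c + j * Y) ((W * K + b : ℕ) : ℤ) * φ K ≤
      (1 + C0) * (if K ∈ Gd then B else 0) := by
    intro K hK
    rw [← sum_mul]
    have h4 : 0 ≤ ∑ j ∈ range J, gw Y (c + j * Y) ((W * K + b : ℕ) : ℤ) :=
      sum_nonneg fun j _ => (gw_pos _ _ _).le
    refine (mul_le_mul_of_nonneg_left (hφ K hK) h4).trans ?_
    apply mul_le_mul_of_nonneg_right (cent Y c hY J _)
    split_ifs
    · exact hB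
    · exact le_rfl
  refine (sum_le_sum h3).trans (le_of_eq ?_)
  rw [← mul_sum]
  congr 1
  rw [← sum_filter, sum_const, nsmul_eq_mul, mul_comm]
  congr 2
  congr 1
  ext K
  rw [mem_filter]
  exact ⟨fun h => h.2, fun h => ⟨hGd h, h⟩⟩

end Pool.Agent.T2h76.MT
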