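import Pool.Agent.T2h76.Mt11

/-! Numerical lemmas for the core. -/

set_option autoImplicit false
set_option linter.unusedSectionVars false

namespace Pool.Agent.T2h76.MT

open Finset Filter
open Pool.Agent.R498.MT
open Pool.Agent.W23.DC
open Pool.Agent.Y677.RSZ (rt Sys rhoT per_mod)
open Pool.Agent.TH423.SH (PS)
open Pool.Agent.Y882 (VV tt_lt)
open Pool.Agent.Y882.SI (QF mer_quad)
open Pool.Agent.Y844.BT (cel cel_spec)

/-- the sum of the coefficients -/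
theorem TTb (X : ℕ) (hX : 2 ≤ X) (ε υ : ℝ) (c : Finset ℕ → ℝ) (C₁ τ : ℝ) (hC : 0 ≤ C₁) (hτ : τ ≤ 1)
    (hc1 : ∀ T, |c T| ≤ C₁) (hc2 : ∀ T, c T ≠ 0 → ((∏ p ∈ T, p : ℕ) : ℝ) ≤ (X : ℝ) ^ τ) :
    ∑ T : Finset (Pg G1 X ε υ), |c (T.map (Function.Embedding.subtype _))| ≤ C₁ * X := by
  classical
  have hX1r : (1 : ℝ) ≤ X := by exact_mod_cast (by omega : 1 ≤ X)
  set A : Finset (Finset (Pg G1 X ε υ)) := univ.filter (fun T => ∏ s ∈ T, (s : ℕ) ≤ X) with hA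
  have h1 : ∀ T : Finset (Pg G1 X ε υ), |c (T.map (Function.Embedding.subtype _))| ≤
      if T ∈ A then C₁ else 0 := by
    intro T
    split_ifs with h
    · exact hc1 _
    · have h2 : c (T.map (Function.Embedding.subtype _)) = 0 := by
        by_contra h3
        apply h
        rw [hA, mem_filter]
        refine ⟨mem_univ _, ?_⟩
        have h4 := hc2 _ h3
        rw [prod_map] at h4
        have h5 : (X : ℝ) ^ τ ≤ X := by
          calc (X : ℝ) ^ τ ≤ (X : ℝ) ^ (1 : ℝ) := Real.rpow_le_rpow_of_exponent_le hX1r hτ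
            _ = X := Real.rpow_one _
        exact_mod_cast h4.trans h5
      rw [h2, abs_zero]
  refine (sum_le_sum fun T _ => h1 T).trans ?_
  rw [← sum_filter, sum_const, nsmul_eq_mul, mul_comm]
  apply mul_le_mul_of_nonneg_left _ hC
  have h2 : (univ.filter (fun T => T ∈ A)).card ≤ (Icc 1 X).card := by
    apply card_le_card_of_injOn (fun T : Finset (Pg G1 X ε υ) => ∏ s ∈ T, (s : ℕ))
    · intro T hT
      rw [mem_coe, mem_filter, hA, mem_filter] at hT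
      rw [mem_coe, mem_Icc]
      exact ⟨prod_pos fun s _ => (Pg_mem G1 X ε υ hX s).1.pos, hT.2.2⟩
    · intro T _ T' _ h
      have h' : ∏ s ∈ T, (s : ℕ) = ∏ s ∈ T', (s : ℕ) := h
      have e : ∀ T : Finset (Pg G1 X ε υ), ∏ s ∈ T, (s : ℕ) =
          ∏ p ∈ T.map (Function.Embedding.subtype _), p := by
        intro T
        rw [prod_map]
        rfl
      have hpr : ∀ T : Finset (Pg G1 X ε υ), ∀ p ∈ T.map (Function.Embedding.subtype _), p.Prime := by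
        intro T p hp
        rw [Finset.mem_map] at hp
        obtain ⟨s, _, rfl⟩ := hp
        exact (Pg_mem G1 X ε υ hX s).1
      rw [e T, e T'] at h'
      exact Finset.map_injective _ (prod_inj' (hpr T) (hpr T') h')
  rw [Nat.card_Icc, Nat.add_sub_cancel] at h2
  exact_mod_cast h2

/-- the remainder of the trivial condition -/
theorem rmd_one (X : ℕ) (hX : 1 ≤ X) (μ ν Y N0 E : ℝ) (hμ : 0 ≤ μ) (hν : 0 ≤ ν) (q : ℕ) (u : ℤ)
    (h : ∀ a b : ℕ → ℝ, (∀ m, |a m| ≤ 1) → (∀ k, |b k| ≤ 1) → (∀ k, b k ≠ 0 → Squarefree k) →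
      |∑ m ∈ Icc 1 ⌊(X : ℝ) ^ μ⌋₊, ∑ k ∈ Icc 1 ⌊(X : ℝ) ^ ν⌋₊,
        if Nat.Coprime m k then a m * (b k * Pool.Agent.T2h76.rr Y N0 q u (m * k)) else 0| ≤ E) :
    |rmd Y N0 q u 1| ≤ E := by
  have hX1r : (1 : ℝ) ≤ X := by exact_mod_cast hX
  set a : ℕ → ℝ := fun m => if m = 1 then 1 else 0 with ha
  have ha1 : ∀ m, |a m| ≤ 1 := by
    intro m
    simp only [ha]
    split_ifs <;> simp
  have h1 := h a a ha1 ha1 (by
    intro k hk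
    simp only [ha] at hk
    split_ifs at hk with h2
    · rw [h2]
      exact squarefree_one
    · exact absurd rfl hk)
  have m1 : 1 ∈ Icc 1 ⌊(X : ℝ) ^ μ⌋₊ := by
    rw [mem_Icc]
    exact ⟨le_rfl, Nat.le_floor (by push_cast; exact Real.one_le_rpow hX1r hμ)⟩
  have m2 : 1 ∈ Icc 1 ⌊(X : ℝ) ^ ν⌋₊ := by
    rw [mem_Icc]
    exact ⟨le_rfl, Nat.le_floor (by push_cast; exact Real.one_le_rpow hX1r hν)⟩
  rw [sum_eq_single_of_mem 1 m1, sum_eq_single_of_mem 1 m2] at h1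
  · unfold Pool.Agent.T2h76.rr at h1
    simpa [ha] using h1
  · intro k _ hk
    simp [ha, hk]
  · intro m _ hm
    apply sum_eq_zero
    intro k _
    simp [ha, hm]

/-- the errors are small -/
theorem numC (N k m c' A0 zQ zV W : ℕ) (K0 A' cV Vp Λ0 tt' : ℝ) (hN : 3 ≤ N) (hW : 0 < W)
    (hK0 : 0 ≤ K0) (hA' : 0 ≤ A') (hcV : 0 < cV) (hΛ0 : 0 ≤ Λ0) (ht0 : 0 ≤ tt') (ht : tt' ≤ 1)
    (hzQ : (zQ : ℝ) ≤ (N : ℝ) ^ (2 / 1000000 : ℝ)) (hzV : (zV : ℝ) ≤ (N : ℝ) ^ (4 / 1000000 : ℝ))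
    (hΛ : Λ0 ≤ 6 * Real.log N) (hV : cV / (6 * Real.log N) ^ A0 ≤ Vp)
    (hbig : ((3 * 2 ^ k + m) * (((2 ^ k + 1 : ℕ) : ℝ) ^ c' * K0) * (A' + 1) * W * (4 / 3) / cV *
      6 ^ (A0 + 1)) * Real.log N ^ (A0 + 1) ≤ (N : ℝ) ^ (28 / 1000000 : ℝ)) :
    (3 * 2 ^ k + m) * ((zQ * Λ0) * (((2 ^ k + 1 : ℕ) : ℝ) ^ c' * zV * K0) * ((zQ * zV : ℕ) *
        (A' * ((N : ℝ) ^ (9989 / 10000 : ℝ)) ^ (1 - 1 / 2000 / 12 : ℝ) + tt'))) ≤
      3 / 4 * ((N : ℝ) ^ (9989 / 10000 : ℝ) / W * Vp) := by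
  have hNr : (3 : ℝ) ≤ N := by exact_mod_cast hN
  have hNp : (0 : ℝ) < N := by linarith
  have hN1r : (1 : ℝ) ≤ N := by linarith
  have hlN : 0 < Real.log N := Real.log_pos (by linarith)
  have hWr : (0 : ℝ) < W := by exact_mod_cast hW
  set Y : ℝ := (N : ℝ) ^ (9989 / 10000 : ℝ) with hY
  have hY1 : 1 ≤ Y := Real.one_le_rpow hN1r (by norm_num)
  have hY0 : 0 < Y := by linarith
  set Z : ℝ := Y ^ (1 / 24000 : ℝ) with hZ
  have hZ0 : 0 < Z := by positivity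
  have e1 : Y ^ (1 - 1 / 2000 / 12 : ℝ) = Y / Z := by
    have : (1 - 1 / 2000 / 12 : ℝ) = 1 - 1 / 24000 := by norm_num
    rw [this, Real.rpow_sub hY0, Real.rpow_one]
  have e2 : (N : ℝ) ^ (40 / 1000000 : ℝ) ≤ Z := by
    rw [hZ, hY, ← Real.rpow_mul hNp.le]
    apply Real.rpow_le_rpow_of_exponent_le hN1r
    norm_num
  have e3 : 1 ≤ Y / Z := by
    rw [← e1]
    exact Real.one_le_rpow hY1 (by norm_num)
  rw [e1]
  have e4 : A' * (Y / Z) + tt' ≤ (A' + 1) * (Y / Z) := by linarith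
  set P : ℝ := ((2 ^ k + 1 : ℕ) : ℝ) ^ c' with hP
  have hP0 : 0 ≤ P := by positivity
  have s1 : (zQ : ℝ) * Λ0 ≤ (N : ℝ) ^ (2 / 1000000 : ℝ) * (6 * Real.log N) :=
    mul_le_mul hzQ hΛ hΛ0 (by positivity)
  have s2 : P * zV * K0 ≤ P * (N : ℝ) ^ (4 / 1000000 : ℝ) * K0 := by gcongr
  have s3 : ((zQ * zV : ℕ) : ℝ) ≤ (N : ℝ) ^ (2 / 1000000 : ℝ) * (N : ℝ) ^ (4 / 1000000 : ℝ) := by
    push_cast
    exact mul_le_mul hzQ hzV (Nat.cast_nonneg _) (by positivity)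
  have s4 : (zQ * Λ0) * (P * zV * K0) * ((zQ * zV : ℕ) * (A' * (Y / Z) + tt')) ≤
      ((N : ℝ) ^ (2 / 1000000 : ℝ) * (6 * Real.log N)) * (P * (N : ℝ) ^ (4 / 1000000 : ℝ) * K0) *
        (((N : ℝ) ^ (2 / 1000000 : ℝ) * (N : ℝ) ^ (4 / 1000000 : ℝ)) * ((A' + 1) * (Y / Z))) := by
    have t1 : 0 ≤ A' * (Y / Z) + tt' := by positivity
    apply mul_le_mul (mul_le_mul s1 s2 (by positivity) (by positivity))
      (mul_le_mul s3 e4 t1 (by positivity)) (by positivity) (by positivity)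
  have e5 : (N : ℝ) ^ (2 / 1000000 : ℝ) * (N : ℝ) ^ (4 / 1000000 : ℝ) * (N : ℝ) ^ (2 / 1000000 : ℝ) *
      (N : ℝ) ^ (4 / 1000000 : ℝ) = (N : ℝ) ^ (12 / 1000000 : ℝ) := by
    rw [← Real.rpow_add hNp, ← Real.rpow_add hNp, ← Real.rpow_add hNp]
    norm_num
  have e6 : (N : ℝ) ^ (40 / 1000000 : ℝ) = (N : ℝ) ^ (12 / 1000000 : ℝ) * (N : ℝ) ^ (28 / 1000000 : ℝ) := by
    rw [← Real.rpow_add hNp]
    norm_num
  have s5 : ((N : ℝ) ^ (2 / 1000000 : ℝ) * (6 * Real.log N)) * (P * (N : ℝ) ^ (4 / 1000000 : ℝ) * K0) *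
        (((N : ℝ) ^ (2 / 1000000 : ℝ) * (N : ℝ) ^ (4 / 1000000 : ℝ)) * ((A' + 1) * (Y / Z))) =
      (N : ℝ) ^ (12 / 1000000 : ℝ) * (6 * Real.log N * (P * K0) * (A' + 1)) * (Y / Z) := by
    rw [← e5]
    ring
  rw [s5] at s4
  have hn12 : 0 < (N : ℝ) ^ (12 / 1000000 : ℝ) := by positivity
  have hn28 : 0 < (N : ℝ) ^ (28 / 1000000 : ℝ) := by positivity
  have s6 : (N : ℝ) ^ (12 / 1000000 : ℝ) * (6 * Real.log N * (P * K0) * (A' + 1)) * (Y / Z) ≤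
      (6 * Real.log N * (P * K0) * (A' + 1)) * (Y / (N : ℝ) ^ (28 / 1000000 : ℝ)) := by
    have t1 : (N : ℝ) ^ (12 / 1000000 : ℝ) * (Y / Z) ≤ Y / (N : ℝ) ^ (28 / 1000000 : ℝ) := by
      rw [mul_div_assoc', div_le_div_iff₀ hZ0 hn28]
      rw [e6] at e2
      calc (N : ℝ) ^ (12 / 1000000 : ℝ) * Y * (N : ℝ) ^ (28 / 1000000 : ℝ) =
          Y * ((N : ℝ) ^ (12 / 1000000 : ℝ) * (N : ℝ) ^ (28 / 1000000 : ℝ)) := by ring
        _ ≤ Y * Z := mul_le_mul_of_nonneg_left e2 hY0.le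
    calc (N : ℝ) ^ (12 / 1000000 : ℝ) * (6 * Real.log N * (P * K0) * (A' + 1)) * (Y / Z) =
        (6 * Real.log N * (P * K0) * (A' + 1)) * ((N : ℝ) ^ (12 / 1000000 : ℝ) * (Y / Z)) := by ring
      _ ≤ _ := mul_le_mul_of_nonneg_left t1 (by positivity)
  set Q : ℝ := 3 * 2 ^ k + m with hQ
  have hQ0 : 0 < Q := by positivity
  have s7 : Q * ((6 * Real.log N * (P * K0) * (A' + 1)) * (Y / (N : ℝ) ^ (28 / 1000000 : ℝ))) ≤
      3 / 4 * (Y / W * (cV / (6 * Real.log N) ^ A0)) := by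
    have t1 : Q * ((6 * Real.log N * (P * K0) * (A' + 1)) * (Y / (N : ℝ) ^ (28 / 1000000 : ℝ))) =
        (Q * (P * K0) * (A' + 1) * W * (4 / 3) / cV * 6 ^ (A0 + 1) * Real.log N ^ (A0 + 1)) *
          (3 / 4 * (Y / W * (cV / (6 * Real.log N) ^ A0))) / (N : ℝ) ^ (28 / 1000000 : ℝ) := by
      rw [mul_pow, pow_succ, pow_succ]
      field_simp
    rw [t1, div_le_iff₀ hn28, mul_comm (3 / 4 * (Y / W * (cV / (6 * Real.log N) ^ A0)))]
    exact mul_le_mul_of_nonneg_right hbig (by positivity)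
  have s8 : 3 / 4 * (Y / W * (cV / (6 * Real.log N) ^ A0)) ≤ 3 / 4 * (Y / W * Vp) := by gcongr
  exact ((mul_le_mul_of_nonneg_left (s4.trans s6) hQ0.le).trans s7).trans s8

end Pool.Agent.T2h76.MT
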