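import Pool.Agent.T2h76.Mt12

/-! The core. -/

set_option autoImplicit false
set_option linter.unusedSectionVars false

namespace Pool.Agent.T2h76.MT

open Finset Filter
open Pool.Agent.R498.MT
open Pool.Agent.W23.DC
open Pool.Agent.Y677.RSZ (rt Sys rhoT per_mod ev_log)
open Pool.Agent.TH423.SH (PS)
open Pool.Agent.Y882 (VV tt_lt flw exJ)
open Pool.Agent.Y882.SI (QF mer_quad)
open Pool.Agent.Y844.BT (cel cel_spec)

theorem mer_rt (ε₁ υ η : ℝ) (hε : 0 < ε₁) (hυ : υ ≤ 1) (hη : 0 < η) : ∃ Y0 : ℕ, ∀ Y : ℕ, Y0 ≤ Y →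
    Mer (pr Y ε₁ υ) (tt Y) (fun p => (rt G1 p : ℝ) / p) ε₁ υ η := by
  obtain ⟨Y0, hY0⟩ := mer_quad 1 notsq1 ε₁ υ η hε hυ hη
  refine ⟨Y0, fun Y hY => ?_⟩
  have := hY0 Y hY
  simp_rw [rt_G1, card_Rt_ro]
  exact this

/-- the tail is negligible -/
theorem tail_ev (a : ℝ) (ha : 0 ≤ a) : ∀ᶠ N : ℕ in atTop,
    a * ((N ^ 2 : ℕ) : ℝ) * (Real.exp (-(Real.pi / 2 * Real.log N ^ 2)) *
      (2 * (N : ℝ) ^ (9989 / 10000 : ℝ) + C0)) ≤ 1 := by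
  have hT := tendsto_natCast_atTop_atTop (R := ℝ)
  have hL := Real.tendsto_log_atTop.comp hT
  filter_upwards [eventually_ge_atTop 3, hL.eventually_ge_atTop 4,
    hT.eventually_ge_atTop (a * (2 + C0))] with N e1 e2 e3
  have e2' : 4 ≤ Real.log N := e2
  have hNr : (3 : ℝ) ≤ N := by exact_mod_cast e1
  have hNp : (0 : ℝ) < N := by linarith
  have hN1r : (1 : ℝ) ≤ N := by linarith
  have hpi : 2 < Real.pi := by linarith [Real.pi_gt_three]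
  have h1 : Real.exp (-(Real.pi / 2 * Real.log N ^ 2)) ≤ 1 / (N : ℝ) ^ 4 := by
    have h2 : (N : ℝ) ^ 4 = Real.exp (4 * Real.log N) := by
      rw [mul_comm, Real.exp_mul, Real.exp_log hNp]
      norm_cast
    rw [h2, one_div, ← Real.exp_neg, Real.exp_le_exp]
    nlinarith
  have hY : (N : ℝ) ^ (9989 / 10000 : ℝ) ≤ N := by
    calc (N : ℝ) ^ (9989 / 10000 : ℝ) ≤ (N : ℝ) ^ (1 : ℝ) :=
          Real.rpow_le_rpow_of_exponent_le hN1r (by norm_num)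
      _ = N := Real.rpow_one _
  have hC0 := C0_nonneg
  have h3 : 2 * (N : ℝ) ^ (9989 / 10000 : ℝ) + C0 ≤ (2 + C0) * N := by nlinarith
  have h4 : 0 ≤ 2 * (N : ℝ) ^ (9989 / 10000 : ℝ) + C0 := by positivity
  have h5 : a * ((N ^ 2 : ℕ) : ℝ) * (Real.exp (-(Real.pi / 2 * Real.log N ^ 2)) *
      (2 * (N : ℝ) ^ (9989 / 10000 : ℝ) + C0)) ≤ a * ((N ^ 2 : ℕ) : ℝ) * (1 / (N : ℝ) ^ 4 * ((2 + C0) * N)) := by
    apply mul_le_mul_of_nonneg_left _ (by positivity)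
    exact mul_le_mul h1 h3 h4 (by positivity)
  refine h5.trans ?_
  have h6 : a * ((N ^ 2 : ℕ) : ℝ) * (1 / (N : ℝ) ^ 4 * ((2 + C0) * N)) = (a * (2 + C0)) / N := by
    push_cast
    field_simp
  rw [h6, div_le_one hNp]
  exact e3

theorem coreC (F : ℤ → ℤ) (g : ℕ) (hF : Sys g F) (hG : Sys g G1)
    (hGF : ∀ p : ℕ, p.Prime → ∀ n : ℤ, (p : ℤ) ∣ G1 n → (p : ℤ) ∣ F n) (m : ℕ) :
    ∃ k W : ℕ, 0 < W ∧ Squarefree W ∧ (∀ p : ℕ, p.Prime → p ≤ g * 2 ^ k + 1 → p ∣ W) ∧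
      g ≤ W ∧ ∃ (ϖ c : ℝ) (nε nz nυ : ℕ), 0 < ϖ ∧ ϖ ≤ 1 / 10000 ∧ 0 < ϖ * nε ∧ ϖ * nε ≤ 1 / 10 ∧
      ϖ * (nz + 1 / 2) = 11 * Pool.Agent.T2h76.u0 ∧ ϖ * (nυ + 1 / 2) = 45 * Pool.Agent.T2h76.u0 ∧ 0 < c ∧
      ∀ (t : Fin (2 ^ k) → ℕ), Function.Injective t → ∀ b : ℕ,
        (∀ p : ℕ, p.Prime → p ∣ W → ¬ (p : ℤ) ∣ F b) →
      ∃ Y₀ : ℕ, ∀ N : ℕ, Y₀ ≤ N → ∀ M L z : ℕ, (N : ℝ) ^ (99895 / 100000 : ℝ) ≤ L → M + L ≤ N →
        W * (M + L) ≤ 2 * N + W →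
        (z : ℝ) < ((N ^ 2 : ℕ) : ℝ) ^ (ϖ * nε) → ((N ^ 2 : ℕ) : ℝ) ^ (ϖ * nε) ≤ z + 1 →
        c * (L * Vp F W b z t) ≤ ((gdc F (N ^ 2) ϖ 1.0172 (1.0172 / (45 * Pool.Agent.T2h76.u0))
          nε nz nυ W b t m M L).card : ℝ) ∧
        0 < Vp F W b z t ∧ 1 ≤ Real.log N ^ (2 * (g * 2 ^ k) + 2) * Vp F W b z t := by
  classical
  obtain ⟨u, hu⟩ : ∃ u : ℝ, u = Pool.Agent.T2h76.u0 := ⟨_, rfl⟩
  have huv : u = 1102 / 100000 := by rw [hu]; unfold Pool.Agent.T2h76.u0; rfl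
  rw [← hu]
  have hu0 : (0 : ℝ) < u := by rw [huv]; norm_num
  have hJ := cond49 u hu0 (by rw [huv]; norm_num)
  obtain ⟨aw, haw⟩ : ∃ aw : ℝ, aw = 1.0172 := ⟨_, rfl⟩
  rw [← haw] at hJ ⊢
  have ha0 : 0 < aw := by rw [haw]; norm_num
  have hb0 : 0 ≤ aw / (45 * u) := by positivity
  have hab : aw / (45 * u) * (45 * u) ≤ aw := by rw [div_mul_cancel₀ _ (by positivity)]
  obtain ⟨f0, hf0, H6⟩ := core6 49 11 45 (by decide) (by decide) (by decide) u aw (aw / (45 * u))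
    (4991 / 10000) (411 / 10000) hu0 (by norm_num) (by norm_num) (by rw [huv]; norm_num) (by norm_num)
    (by norm_num) ha0.le hb0 (by push_cast; exact hab) (by push_cast; exact hJ) (by norm_num)
    (by rw [huv]; norm_num) (by rw [huv]; norm_num)
  push_cast at H6
  obtain ⟨C, hC1, HFL⟩ := flw
  obtain ⟨Cb, hCb, HB⟩ := bil_rr
  have hR : (0 : ℝ) < 1 / 1000000 := by norm_num
  set R : ℝ := 1 / 1000000 with hRd
  -- the number of the slots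
  obtain ⟨k, hk⟩ : ∃ k : ℕ, 3 * ((m : ℝ) + 1) * 1474560 ≤ f0 * R * k := by
    obtain ⟨k, hk⟩ := exists_nat_ge (3 * ((m : ℝ) + 1) * 1474560 / (f0 * R))
    refine ⟨k, ?_⟩
    rw [div_le_iff₀ (by positivity)] at hk
    linarith
  obtain ⟨W, hWpos, hWsq, hWp, hgW⟩ := exW (C * (g * 2 ^ k + 1) + (g * 2 ^ k + 1)) g
  obtain ⟨i0, b₀, p1, p2, p3, p4⟩ := par' (1 + aw) R u k C (C * (g * 2 ^ k + 1)) (by linarith) hR hu0
    (1 / 1000000) (by norm_num)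
  obtain ⟨ε₁, hε₁⟩ : ∃ ε₁ : ℝ, ε₁ = u / (2 * i0 + 1) := ⟨_, rfl⟩
  have hi0 : (0 : ℝ) ≤ i0 := Nat.cast_nonneg _
  have hε10 : 0 < ε₁ := by rw [hε₁]; positivity
  have hε1u : ε₁ ≤ u := by
    rw [hε₁]
    exact div_le_self hu0.le (by linarith)
  obtain ⟨η, A, ϖ, nε, nz, nυ, hη, hA, hϖ, hϖ2, n1, n2, eε, ez, eυ, H6⟩ :=
    H6 i0 (min (1 / 10000) ε₁) (lt_min (by norm_num) hε10)
  rw [← hε₁] at p1 p3 p4 eε H6
  have hϖ4 : ϖ ≤ 1 / 10000 := hϖ2.trans (min_le_left _ _)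
  have hϖε : ϖ ≤ ε₁ := hϖ2.trans (min_le_right _ _)
  obtain ⟨ε, hε⟩ : ∃ ε : ℝ, ε = ϖ * nε := ⟨_, rfl⟩
  obtain ⟨υ, hυ⟩ : ∃ υ : ℝ, υ = ϖ * nυ := ⟨_, rfl⟩
  have eε' : ϖ * nε + ϖ / 2 = ε₁ := by rw [← eε]; ring
  have eυ' : ϖ * nυ + ϖ / 2 = 45 * u := by rw [← eυ]; ring
  have ez' : ϖ * nz + ϖ / 2 = 11 * u := by rw [← ez]; ring
  have hε2 : ε₁ / 2 ≤ ε := by rw [hε]; linarith
  have hεε : ε ≤ ε₁ := by rw [hε]; linarith
  have hε0 : 0 < ε := by linarith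
  have hεe : ε ≤ e0 k (1 + aw) R := hεε.trans p1
  have hε11 : ε ≤ 1 := hεe.trans (e0_le k (1 + aw) R).2
  have hεu : ε ≤ 1 / 10 := by
    have : u ≤ 1 / 10 := by rw [huv]; norm_num
    linarith
  have hυ1 : υ ≤ 1 := by
    rw [hυ]
    have : 45 * u ≤ 1 := by rw [huv]; norm_num
    linarith
  have hRυ : R ≤ υ := by
    rw [hυ]
    have : 1 / 10 ≤ 45 * u := by rw [huv]; norm_num
    rw [hRd]
    linarith
  have hευ : ε ≤ υ := by
    rw [hε, hυ]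
    apply mul_le_mul_of_nonneg_left _ hϖ.le
    exact_mod_cast n1.trans n2
  have hRz : R < ϖ * nz := by
    have : 1 / 10 ≤ 11 * u := by rw [huv]; norm_num
    rw [hRd]
    linarith
  have hom := om_bd k (1 + aw) ε (by linarith) hε0 hε11
  have hAb := Ab_one k ε hε0 hε11
  have hE := E_small k b₀ (1 + aw) R ε (by linarith) hε0 hεe (p3 ε hε2)
  obtain ⟨c', hc'⟩ : ∃ c' : ℕ, 2 * R / ε ≤ c' := exists_nat_ge _
  obtain ⟨c'', hc''⟩ : ∃ c'' : ℕ, ((2 ^ k : ℕ) : ℝ) * (2 * (2 : ℕ) / ε) ≤ c'' := exists_nat_ge _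
  obtain ⟨cV, hcV, hVlow⟩ := Vp_low g (2 ^ k)
  have hC0 := C0_nonneg
  set B : ℝ := (Ab k ε * 2 ^ c'') ^ 2 * 2 ^ k with hB
  have hB0 : 0 < B := by
    have : 0 < Ab k ε := by linarith
    positivity
  refine ⟨k, W, hWpos, hWsq, fun p hp hpk => hWp p hp (by omega), hgW, ϖ, 1 / (4 * ((1 + C0) * B)),
    nε, nz, nυ, hϖ, hϖ4, by rw [← hε]; exact hε0, by rw [← hε]; exact hεu, ez, eυ, by positivity, ?_⟩
  intro t ht b hbW
  obtain ⟨NT, hNT⟩ : ∃ N : ℕ, ∀ i, t i ≤ N :=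
    ⟨univ.sup t, fun i => Finset.le_sup (f := t) (mem_univ i)⟩
  obtain ⟨X1, hX1⟩ := mer_rt (ε₁ / 2) 1 η (by linarith) le_rfl hη
  obtain ⟨X2, hX2⟩ := dat_of g G1 (fun p hp => (hG.root p hp).1) ε υ R (om k (1 + aw) ε) hε0
    hRυ hυ1 hom.1 (mer_rt ε υ (1 / 40) hε0 hυ1 (by norm_num))
  obtain ⟨X3, hX3⟩ := exJ ε hε0
  have hT := tendsto_natCast_atTop_atTop (R := ℝ)
  have hTL := Real.tendsto_log_atTop.comp hT
  set A0 : ℕ := 2 * (g * 2 ^ k) with hA0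
  set K0 : ℝ := 2 ^ c' * (Ab k ε * 2 ^ c') ^ 2 with hK0
  have hK00 : 0 ≤ K0 := by positivity
  set A' : ℝ := (A + 1) * Cb with hA'
  have hA'0 : 0 < A' := by positivity
  have ev1 : ∀ᶠ N : ℕ in atTop, ((W * NT) ^ g + W + 2 : ℝ) ≤ (N : ℝ) ^ ε :=
    ((tendsto_rpow_atTop hε0).comp hT).eventually_ge_atTop _
  have ev2 := ev_log (A0 + 1) ((3 * 2 ^ k + m) * (((2 ^ k + 1 : ℕ) : ℝ) ^ c' * K0) * (A' + 1) * W *
    (4 / 3) / cV * 6 ^ (A0 + 1)) (28 / 1000000) (by norm_num)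
  have ev3 : ∀ᶠ N : ℕ in atTop, 3 ^ A0 / cV + 2 ^ (A0 + 1) + 1 ≤ Real.log (N : ℝ) :=
    hTL.eventually_ge_atTop _
  have ev4 : ∀ᶠ N : ℕ in atTop, (W : ℝ) ≤ (N : ℝ) ^ (14 / 1000000 : ℝ) :=
    ((tendsto_rpow_atTop (by norm_num)).comp hT).eventually_ge_atTop _
  have ev5 := ev_log 1 4 (5 / 100000) (by norm_num)
  have ev6 := tail_ev (1 + aw) (by linarith)
  have ev7 : ∀ᶠ N : ℕ in atTop, (3 : ℝ) ≤ (N : ℝ) ^ (9868 / 100000000 : ℝ) :=
    ((tendsto_rpow_atTop (by norm_num)).comp hT).eventually_ge_atTop _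
  obtain ⟨Y₀, hY₀⟩ := eventually_atTop.1 (ev1.and (ev2.and (ev3.and (ev4.and (ev5.and (ev6.and
    (ev7.and (eventually_ge_atTop (W * (NT + 1) + b + 3 + X1 + X2 + X3)))))))))
  refine ⟨Y₀, ?_⟩
  intro N hN M L z hL hML hWML hz1 hz2
  obtain ⟨w1, w2, w3, w4, w5, w6, w7, w8⟩ := hY₀ N hN
  have hN3 : 3 ≤ N := by omega
  have hNr : (3 : ℝ) ≤ N := by exact_mod_cast hN3
  have hNp : (0 : ℝ) < N := by linarith
  have hN1r : (1 : ℝ) ≤ N := by linarith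
  have hlN : 0 < Real.log N := Real.log_pos (by linarith)
  have hNN : N ≤ N ^ 2 := Nat.le_self_pow (by norm_num) N
  have hXX : 2 ≤ N ^ 2 := by omega
  have hX3' : 3 ≤ N ^ 2 := by omega
  have hXp : ∀ s : ℝ, ((N ^ 2 : ℕ) : ℝ) ^ s = (N : ℝ) ^ (2 * s) := by
    intro s
    push_cast
    rw [← Real.rpow_natCast, ← Real.rpow_mul hNp.le]
    norm_num
  have hlX : Real.log ((N ^ 2 : ℕ) : ℝ) = 2 * Real.log N := by
    push_cast
    rw [Real.log_pow]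
    norm_num
  have hX1r : (1 : ℝ) ≤ ((N ^ 2 : ℕ) : ℝ) := by exact_mod_cast (by omega : 1 ≤ N ^ 2)
  obtain ⟨J, hJ1, hJ2⟩ := hX3 (N ^ 2) (by omega)
  obtain ⟨X, hX⟩ : ∃ X : ℕ, X = N ^ 2 := ⟨_, rfl⟩
  rw [← hX] at hNN hXX hX3' hXp hlX hX1r hJ1 hJ2 hz1 hz2 w6 ⊢
  have hXp0 : (0 : ℝ) < X := by linarith
  rw [← hε] at hz1 hz2
  have hNX : (N : ℝ) ≤ X := by exact_mod_cast hNN
  -- the sieving limit
  have hzJ : z < 2 ^ 2 ^ J := by
    have : (z : ℝ) < 2 ^ 2 ^ J := hz1.trans_le hJ1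
    exact_mod_cast this
  have w1' : ((W * NT) ^ g + W + 2 : ℝ) ≤ (X : ℝ) ^ ε :=
    w1.trans (Real.rpow_le_rpow hNp.le hNX hε0.le)
  have hWN0 : (0 : ℝ) ≤ (W * NT) ^ g := by positivity
  have hWz : W ≤ z := by
    have h2 : (W : ℝ) ≤ z := by linarith
    exact_mod_cast h2
  have hV := hVlow F hF W b J z t (fun p hp hpk => hWp p hp (by omega)) hzJ
  have hV0 : 0 < Vp F W b z t := lt_of_lt_of_le (by positivity) hV
  have hll : Real.log (N : ℝ) ≤ Real.log (X : ℝ) := Real.log_le_log hNp hNX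
  have h3A : (0 : ℝ) < 3 ^ A0 / cV := by positivity
  have h2A : (0 : ℝ) < 2 ^ (A0 + 1) := by positivity
  obtain ⟨hV2, hV3⟩ := num1 X J A0 ε cV (Vp F W b z t) hX3' hε11 hcV hJ2 hV (by linarith)
  rw [hlX] at hV2 hV3
  have hV2' : cV / (6 * Real.log N) ^ A0 ≤ Vp F W b z t := by
    refine le_trans (le_of_eq ?_) hV2
    congr 2
    ring
  have hV4 : 1 ≤ Real.log N ^ (A0 + 2) * Vp F W b z t := by
    refine hV3.trans ?_
    apply mul_le_mul_of_nonneg_right _ hV0.le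
    rw [mul_pow, pow_succ _ (A0 + 1), mul_comm]
    apply mul_le_mul_of_nonneg_left _ (by positivity)
    linarith
  refine ⟨?_, hV0, hV4⟩
  have hU : ∀ (K : ℕ) (s : Pg G1 X (ϖ * nε) (ϖ * nυ)) i j,
      ((s : ℕ) : ℤ) ∣ G1 ((W * (K + t i) + b : ℕ) : ℤ) →
      ((s : ℕ) : ℤ) ∣ G1 ((W * (K + t j) + b : ℕ) : ℤ) → i = j := by
    intro K s i j h1 h2
    obtain ⟨h3, h4, -⟩ := Pg_mem G1 X (ϖ * nε) (ϖ * nυ) hXX s
    refine uniq hG W b hWpos hgW t ht NT hNT (s : ℕ) h3 ?_ K i j h1 h2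
    have h4' : (X : ℝ) ^ ε ≤ ((s : ℕ) : ℝ) := by rw [hε]; exact h4
    have h5 : ((W * NT : ℕ) : ℝ) ^ g < (s : ℕ) := by
      push_cast
      have : (0 : ℝ) ≤ W := Nat.cast_nonneg W
      linarith
    exact_mod_cast h5
  have hd := hX2 X (by omega)
  -- the weights
  obtain ⟨cc, q1, q2, q3, q4, q5⟩ := H6 X hXX
  have q5' := q5 (fun p => (rt G1 p : ℝ) / p) (fun p _ => by positivity) (fun p _ => by positivity)
    (hX1 X (by omega))
  -- the presieve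
  have hPSp : ∀ p ∈ PS W z, p.Prime ∧ C * (g * 2 ^ k + 1) < p ∧ p ≤ 2 ^ 2 ^ J := by
    intro p hp
    unfold PS at hp
    rw [mem_filter, mem_Icc] at hp
    refine ⟨hp.2.1, ?_, by omega⟩
    by_contra hcon
    exact hp.2.2 (hWp p hp.2.1 (by omega))
  obtain ⟨cU, cF, g1, g2, g3, g4⟩ := HFL (g * 2 ^ k) b₀ J (C * (g * 2 ^ k + 1)) (PS W z) p2 le_rfl hPSp
  obtain ⟨v1, v2, v3, v4⟩ := g4 (fun p => (rhoT F W b t p : ℝ) / p) (by
    intro p hp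
    obtain ⟨h1, h2, -⟩ := hPSp p hp
    have hpW : ¬ p ∣ W := by
      unfold PS at hp
      exact (mem_filter.1 hp).2.2
    have h3 := Pool.Agent.Y833.RSZ.rhoT_le h1 (hF.per p h1) W b t hpW
    have h4 : rhoT F W b t p ≤ g * 2 ^ k := by
      refine h3.trans ?_
      rw [mul_comm g]
      exact Nat.mul_le_mul_left _ (hF.root p h1).1
    have h5 : (rhoT F W b t p : ℝ) ≤ ((g * 2 ^ k : ℕ) : ℝ) := by exact_mod_cast h4
    have h6 : (2 : ℝ) ≤ p := by exact_mod_cast h1.two_le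
    refine ⟨by positivity, ?_⟩
    exact div_le_div₀ (by positivity) h5 (by linarith) (by linarith))
  have hJlog : (J : ℝ) + 1 ≤ 6 * Real.log N := by
    have h1 := Real.log_le_log (by positivity) hJ2
    rw [Real.log_pow, Real.log_rpow hXp0, hlX] at h1
    push_cast at h1
    have h2 : 0.69 < Real.log 2 := by linarith [Real.log_two_gt_d9]
    have h3 : (0 : ℝ) < 2 ^ J := by positivity
    have h4 : 2 * ε * (2 * Real.log N) ≤ 2 * 1 * (2 * Real.log N) := by gcongr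
    have h5 : (J : ℝ) + 1 ≤ 2 ^ J := by
      have : J + 1 ≤ 2 ^ J := Nat.lt_two_pow_self
      exact_mod_cast this
    refine h5.trans ?_
    have h6 : (2 : ℝ) ^ J * 0.69 ≤ 2 ^ J * Real.log 2 := mul_le_mul_of_nonneg_left h2.le h3.le
    linarith only [h6, h1, h4, hlN]
  obtain ⟨zQ, hzQd⟩ : ∃ zQ : ℕ, zQ = (2 ^ 2 ^ J) ^ (C * b₀) := ⟨_, rfl⟩
  have hzQ : (zQ : ℝ) ≤ (N : ℝ) ^ (2 / 1000000 : ℝ) := by
    rw [hzQd]
    push_cast
    calc ((2 : ℝ) ^ 2 ^ J) ^ (C * b₀) ≤ ((X : ℝ) ^ (2 * ε)) ^ (C * b₀) :=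
          pow_le_pow_left₀ (by positivity) hJ2 _
      _ = (X : ℝ) ^ (2 * ε * (C * b₀)) := by
          rw [← Real.rpow_natCast, ← Real.rpow_mul hXp0.le]
          push_cast
          ring_nf
      _ ≤ (X : ℝ) ^ (1 / 1000000 : ℝ) := by
          apply Real.rpow_le_rpow_of_exponent_le hX1r
          refine le_trans ?_ p4
          apply mul_le_mul_of_nonneg_right _ (by positivity)
          linarith
      _ = (N : ℝ) ^ (2 / 1000000 : ℝ) := by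
          rw [hXp]
          norm_num
  obtain ⟨zV, hzVd⟩ : ∃ zV : ℕ, zV = ⌊(X : ℝ) ^ (2 * R)⌋₊ := ⟨_, rfl⟩
  have hzV : (zV : ℝ) ≤ (N : ℝ) ^ (4 / 1000000 : ℝ) := by
    rw [hzVd]
    refine (Nat.floor_le (by positivity)).trans (le_of_eq ?_)
    rw [hXp, hRd]
    norm_num
  obtain ⟨Y, hY⟩ : ∃ Y : ℝ, Y = (N : ℝ) ^ (9989 / 10000 : ℝ) := ⟨_, rfl⟩
  have hY1 : 1 ≤ Y := by rw [hY]; exact Real.one_le_rpow hN1r (by norm_num)
  have hY0 : 0 < Y := by linarith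
  have hW1r : (1 : ℝ) ≤ W := by exact_mod_cast hWpos
  have hL0 : (0 : ℝ) < L := lt_of_lt_of_le (by positivity) hL
  have hLW : (L : ℝ) ≤ W * L := le_mul_of_one_le_left hL0.le hW1r
  have hYL : 4 * (Y * Real.log N) ≤ W * L := by
    refine le_trans ?_ (hL.trans hLW)
    rw [pow_one] at w5
    have e1 : (N : ℝ) ^ (99895 / 100000 : ℝ) = Y * (N : ℝ) ^ (5 / 100000 : ℝ) := by
      rw [hY, ← Real.rpow_add hNp]
      norm_num
    rw [e1]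
    calc 4 * (Y * Real.log N) = Y * (4 * Real.log N) := by ring
      _ ≤ _ := mul_le_mul_of_nonneg_left w5 hY0.le
  have hlog1 : 1 ≤ Real.log N := by linarith
  have h4Y : 4 * Y ≤ W * L := by
    refine le_trans ?_ hYL
    have := le_mul_of_one_le_right hY0.le hlog1
    linarith only [this]
  obtain ⟨J', hJ'd⟩ : ∃ J' : ℕ, J' = ⌊(W * L : ℝ) / (2 * Y)⌋₊ := ⟨_, rfl⟩
  have hJ'1 : (J' : ℝ) * Y ≤ W * L / 2 := by
    have h1 : (J' : ℝ) ≤ W * L / (2 * Y) := by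
      rw [hJ'd]
      exact Nat.floor_le (by positivity)
    rw [le_div_iff₀ (by positivity)] at h1
    linarith
  have hJ'2 : W * L / (4 * Y) ≤ J' := by
    have h1 : (W * L : ℝ) / (2 * Y) < J' + 1 := by
      rw [hJ'd]
      exact Nat.lt_floor_add_one _
    rw [div_lt_iff₀ (by positivity)] at h1
    rw [div_le_iff₀ (by positivity)]
    linarith
  have hJ'3 : 2 * (Y * Real.log N) + J' * Y ≤ W * L := by linarith
  -- the remainder
  have hrem : ∀ j < J', ∀ (i : Fin (2 ^ k)) (q : ℕ), 1 ≤ q → q ≤ W * (zQ * zV) → ∀ w : ℤ,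
      |∑ T ∈ (Ce X ϖ nε nυ).powerset, cc T * Pool.Agent.T2h76.rr Y
        (((W * M + b : ℕ) : ℝ) + Y * Real.log N + j * Y + W * t i) q w (∏ p ∈ T, p)| ≤
        A' * Y ^ (1 - 1 / 2000 / 12 : ℝ) ∧
      |rmd Y (((W * M + b : ℕ) : ℝ) + Y * Real.log N + j * Y + W * t i) q w 1| ≤
        A' * Y ^ (1 - 1 / 2000 / 12 : ℝ) := by
    intro j hj i q hq1 hq2 w
    have hN0 : |((W * M + b : ℕ) : ℝ) + Y * Real.log N + j * Y + W * t i| ≤ 3 * N := by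
      rw [abs_of_nonneg (by positivity)]
      have hj' : (j : ℝ) + 1 ≤ J' := by exact_mod_cast hj
      have hjY : ((j : ℝ) + 1) * Y ≤ J' * Y := mul_le_mul_of_nonneg_right hj' hY0.le
      have h1 : W * (M + L) + b + W * t i ≤ 3 * N := by
        have h2 : W * t i ≤ W * NT := Nat.mul_le_mul_left _ (hNT i)
        have h3 : W * (NT + 1) = W * NT + W := by ring
        omega
      have h2 : ((W * (M + L) + b + W * t i : ℕ) : ℝ) ≤ ((3 * N : ℕ) : ℝ) := by exact_mod_cast h1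
      push_cast at h2 ⊢
      have h3 : 0 ≤ Y * Real.log N := by positivity
      linarith
    have hqN : (q : ℝ) ≤ (N : ℝ) ^ (1 / 50000 : ℝ) := by
      have h1 : (q : ℝ) ≤ W * (zQ * zV) := by exact_mod_cast hq2
      refine h1.trans ?_
      have e1 : (N : ℝ) ^ (1 / 50000 : ℝ) = (N : ℝ) ^ (14 / 1000000 : ℝ) *
          ((N : ℝ) ^ (2 / 1000000 : ℝ) * (N : ℝ) ^ (4 / 1000000 : ℝ)) := by
        rw [← Real.rpow_add hNp, ← Real.rpow_add hNp]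
        norm_num
      rw [e1]
      exact mul_le_mul w4 (mul_le_mul hzQ hzV (Nat.cast_nonneg _) (by positivity)) (by positivity)
        (by positivity)
    have hbil := HB N (((W * M + b : ℕ) : ℝ) + Y * Real.log N + j * Y + W * t i) q w hN3 w7 hN0 hq1 hqN
    rw [← hY, ← hX] at hbil
    have hYp : 0 < Y ^ (1 - 1 / 2000 / 12 : ℝ) := by positivity
    constructor
    · refine (q4 _ _ hbil).trans ?_
      rw [hA']
      have : 0 ≤ Cb * Y ^ (1 - 1 / 2000 / 12 : ℝ) := by positivity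
      linarith
    · refine (rmd_one X (by omega) (4991 / 10000) (411 / 10000) Y _ _ (by norm_num) (by norm_num) q w
        hbil).trans ?_
      rw [hA']
      have : 0 ≤ A * (Cb * Y ^ (1 - 1 / 2000 / 12 : ℝ)) := by positivity
      linarith
  have hTT := TTb X hXX (ϖ * nε) (ϖ * nυ) cc (1 + aw) (49 * u) (by linarith)
    (by rw [huv]; norm_num) q1 (fun T hT => by push_cast; exact (q2 T hT).2)
  have hTT1 : 1 ≤ (1 + aw) * (X : ℝ) :=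
    one_le_mul_of_one_le_of_one_le (by linarith only [ha0]) hX1r
  have hone := oneN F g hF hGF m k W X b M L z NT c' c'' J' ϖ aw (aw / (45 * u)) (45 * u) R f0 (49 * u)
    nε nz nυ hXX hWpos hϖ ha0.le hb0 eυ hab (by rw [← hε]; exact hε0) (by rw [← hε, ← hυ]; exact hευ)
    hR hRz hf0 (by rw [huv]; norm_num) hk (by rw [← hε]; exact hεe) (by rw [← hε]; exact hc'') t hNT
    (by omega) (by omega) hbW (by rw [← hε]; exact hz1) (by rw [← hε]; exact hz2) hWz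
    (by rw [← hε, ← hυ]; exact hd) hU cc q1 (fun T hT => by push_cast; exact (q2 T hT).2) q3
    (by
      rw [← hε]
      refine le_trans ?_ q5'
      exact mul_le_mul_of_nonneg_right hεε hf0.le)
    cU cF (J + 1) ((1 / 2 : ℝ) ^ b₀) zQ zV
    (fun Q => (g1 Q).1.trans (by
      have : (0 : ℝ) ≤ J := Nat.cast_nonneg _
      linarith)) (fun Q => (g1 Q).2)
    (fun Q hQ h => by rw [hzQd]; exact g2 Q hQ h) g3 hV0 v1 v2 v4 v3
    (by rw [← hε]; exact hE) (by rw [← hε]; exact hc') (by rw [hzVd]) Y (Real.log N) hY1 hlN.le hJ'3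
    ((1 + aw) * (X : ℝ)) (A' * Y ^ (1 - 1 / 2000 / 12 : ℝ)) hTT hTT1 (by positivity) hrem
  rw [← hε] at hone
  have hnum := numC N k m c' A0 zQ zV W K0 A' cV (Vp F W b z t) ((J : ℝ) + 1)
    ((1 + aw) * (X : ℝ) * (Real.exp (-(Real.pi / 2 * Real.log N ^ 2)) * (2 * Y + C0))) hN3 hWpos hK00
    hA'0.le hcV (by positivity) (by positivity) (by rw [hY]; exact w6) hzQ hzV hJlog hV2' w2
  rw [← hY] at hnum
  have h1 : (J' : ℝ) * (Y / W * Vp F W b z t) ≤ (1 + C0) * (B * ((gdc F X ϖ aw (aw / (45 * u))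
      nε nz nυ W b t m M L).card : ℝ)) := by
    refine le_trans ?_ hone
    apply mul_le_mul_of_nonneg_left _ (Nat.cast_nonneg _)
    linarith
  have h2 : (W * L / (4 * Y)) * (Y / W * Vp F W b z t) ≤ J' * (Y / W * Vp F W b z t) :=
    mul_le_mul_of_nonneg_right hJ'2 (by positivity)
  have h3 : (W * L / (4 * Y)) * (Y / W * Vp F W b z t) = L * Vp F W b z t / 4 := by
    field_simp
  rw [h3] at h2
  rw [one_div, inv_mul_eq_div, div_le_iff₀ (by positivity)]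
  linarith

end Pool.Agent.T2h76.MT
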