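import Pool.Agent.T2h76.Mt1

/-! The exact functionals. -/

set_option autoImplicit false
set_option linter.unusedSectionVars false

namespace Pool.Agent.T2h76.MT

open Finset
open Pool.Agent.R498.MT

section func
variable {S : Type} [Fintype S] [DecidableEq S]

/-- the density of a class -/
noncomputable def rV {m : ℕ} (q : S → ℝ) (V : S → Option (Fin m)) : ℝ :=
  ∏ t, rr (fun _ : Fin m => 1 / q t) (V t)

theorem rV_nonneg {m : ℕ} (q : S → ℝ) (hq : ∀ t, 2 ≤ q t) (V : S → Option (Fin m)) : 0 ≤ rV q V := by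
  unfold rV
  apply prod_nonneg
  intro t _
  have := hq t
  rcases V t with _ | j
  · simp [rr]
  · simp only [rr]
    positivity

theorem rd_same {m : ℕ} (i : Option (Fin m)) (q : ℝ) (v : Option (Fin m)) :
    rr (rd i q (1 / q)) v = rr (fun _ : Fin m => 1 / q) v := by
  rcases v with _ | j
  · rfl
  · simp [rr, rd]

/-- the first functional -/
theorem F1 (k : ℕ) (C₁ R : ℝ) (hC : 0 ≤ C₁) (hR : 0 < R) (ε₁ : ℝ) (hε : 0 < ε₁)
    (hε1 : ε₁ ≤ e0 k C₁ R) (w : ℝ) (q μ l : S → ℝ) (hd : Dat q μ l ε₁ R w (om k C₁ ε₁)) :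
    ∑ V, kap (none : Option (Fin (2 ^ k))) q μ (yf l R k) V * rV q V ≤ 2 * If μ l R k := by
  obtain ⟨N, ν, ξ, hA⟩ := ghost (S := S) (J := Fin (2 ^ k)) (rV q)
  have h1 := S1_fin k C₁ R hC hR ε₁ hε hε1 w q μ l hd (N := N) (ν := ν) (ξ := ξ) (X := 1) (E := 0)
    zero_le_one le_rfl (by positivity) (by
      intro T _
      rw [hA T]
      unfold rV
      simp)
  rw [S1_exp] at h1
  simp_rw [hA] at h1
  linarith

/-- the second functional -/
theorem F2 (k : ℕ) (C₁ R : ℝ) (hR : 0 < R) (ε₁ : ℝ) (hε : 0 < ε₁)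
    (hε1 : ε₁ ≤ e0 k C₁ R) (w : ℝ) (q μ l : S → ℝ) (hd : Dat q μ l ε₁ R w (om k C₁ ε₁))
    (i : Fin (2 ^ k)) :
    |∑ V, kap (some i) q μ (yf l R k) V * rV q V| ≤ Ab k ε₁ := by
  have hl0 : ∀ t, 0 ≤ l t := fun t => hε.le.trans (hd.l1 t)
  have hεw : ε₁ ≤ w := by
    have h1 := (e0_le k C₁ R).1
    have h2 := u0_le R hR k
    have h3 : (1 : ℝ) ≤ 2 ^ k := one_le_pow₀ (by norm_num)
    have h4 := hd.Rw
    have h5 := u0_pos R hR k
    nlinarith
  have hmq : ∀ t, μ t * (q t - 1) ≤ 1 := by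
    intro t
    rcases hd.mq t with h | h
    · rw [h]; norm_num
    · exact h.le
  haveI : Nonempty (Fin (2 ^ k)) := ⟨⟨0, by positivity⟩⟩
  obtain ⟨N, ν, ξ, hA⟩ := ghost (S := S) (J := Fin (2 ^ k)) (rV q)
  have hq0 : ∀ t, 0 ≤ 1 / q t := fun t => by have := hd.q2 t; positivity
  have hyb : ∀ σ, |yf l R k σ| ≤ 1 := fun σ => by
    have := yf_facts l hl0 R hR k σ
    rw [abs_of_nonneg this.1]
    exact this.2.1
  have g1 := quad_real (N := N) (ν := ν) (ξ := ξ) (X := 1) (E := 0) (Good := fun _ => True) (some i) q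
    (fun t => 1 / q t) μ hd.q2 hq0 (yf l R k) hyb zero_le_one le_rfl ∅ (by simp) (by
      intro U _
      rw [hA U]
      simp_rw [rd_same]
      unfold rV
      simp) (fun _ _ _ _ _ _ => trivial)
  have g2 := quad_real (N := N) (ν := ν) (ξ := ξ) (X := 1 / 2) (E := 1) (Good := fun _ => True) (some i) q
    (fun t => 1 / q t) μ hd.q2 hq0 (yf l R k) hyb (by norm_num) zero_le_one ∅ (by simp) (by
      intro U _
      rw [hA U]
      simp_rw [rd_same]
      have h0 := rV_nonneg q hd.q2 U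
      unfold rV at h0 ⊢
      rw [abs_of_nonneg (by linarith)]
      linarith) (fun _ _ _ _ _ _ => trivial)
  simp only [notMem_empty, false_imp_iff, implies_true, if_true, mul_one, prod_empty, zero_mul,
    one_mul, decide_false] at g1 g2
  rw [S1_exp] at g1 g2
  simp_rw [hA] at g1 g2
  have g3 : ∏ t, ∑ a : Option (Fin (2 ^ k)), ∑ b : Option (Fin (2 ^ k)),
      |cf (μ t) a| * |cf (μ t) b| * NM (q t) false a b ≤ Ab k ε₁ := by
    refine le_trans ?_ (AA_Ab hd hε hεw k)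
    unfold AA
    apply prod_le_prod
    · intro t _
      apply sum_nonneg
      intro a _
      apply sum_nonneg
      intro b _
      apply mul_nonneg (mul_nonneg (abs_nonneg _) (abs_nonneg _))
      have := hd.q2 t
      unfold NM NN
      rcases a with _ | a
      · rcases b with _ | b <;> simp
      · rcases b with _ | b
        · simp
        · simp only [Bool.false_eq_true, if_false]
          split_ifs
          · linarith
          · norm_num
    · intro t _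
      exact norm_bd (q t) (μ t) (hd.q2 t) (hd.m0 t) (hd.m1 t) (hmq t) false
  set D := ∑ V, kap (some i) q μ (yf l R k) V * rV q V with hD
  set H := ∑ σ, ∑ τ, cw μ (yf l R k) σ * cw μ (yf l R k) τ *
    ∏ t, HH (some i) (q t) false (σ t) (τ t) with hH
  have g4 : D = H := by
    have := abs_nonpos_iff.1 g1
    linarith
  rw [← g4] at g2
  have g5 : |D - 1 / 2 * D| = |D| / 2 := by
    have : D - 1 / 2 * D = D / 2 := by ring
    rw [this, abs_div, abs_of_pos (by norm_num : (0 : ℝ) < 2)]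
  rw [g5] at g2
  linarith

/-- the third functional -/
theorem F3 (k : ℕ) (C₁ R c₀ τ : ℝ) (hC : 0 ≤ C₁) (hR : 0 < R) (hc₀ : 0 < c₀) (m : ℕ)
    (hτ : τ ≤ 1)
    (hk : 3 * ((m : ℝ) + 1) * 1474560 ≤ c₀ * R * k) (ε₁ : ℝ) (hε : 0 < ε₁)
    (hε1 : ε₁ ≤ e0 k C₁ R) (w : ℝ) (q μ l : S → ℝ) (hd : Dat q μ l ε₁ R w (om k C₁ ε₁))
    (i : Fin (2 ^ k)) (hγμ : ∀ t, 1 / q t ≤ μ t)
    (cL : Finset S → ℝ) (hcL : ∀ T, |cL T| ≤ C₁) (hcT : ∀ T, cL T ≠ 0 → lz l T ≤ τ)
    (hV : c₀ * ε₁ ≤ ∑ T, cL T * ∏ t ∈ T, 1 / q t) :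
    2 * ((m : ℝ) + 1) / 2 ^ k * If μ l R k ≤
      ∑ V, ∑ T : Finset S, (if ∀ t ∈ T, V t = none then kap (some i) q μ (yf l R k) V * cL T else 0) *
        rV q (jn T V i) := by
  obtain ⟨N, ν, ξ, hA⟩ := ghost (S := S) (J := Fin (2 ^ k)) (rV q)
  have h1 := S2_fin k C₁ R c₀ τ hC hR hc₀ m hτ hk ε₁ hε hε1 w q μ l hd i (fun t => 1 / q t)
    (fun t => by have := hd.q2 t; positivity) hγμ cL hcL hcT (N := N) (ν := ν) (ξ := ξ) (X := 1)
    (X₀ := 1) (V := c₀ * ε₁) (E := 0) zero_le_one le_rfl hV (by linarith) le_rfl (by positivity) (by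
      intro T _
      rw [hA T]
      simp_rw [rd_same]
      unfold rV
      simp)
  rw [S2_exp] at h1
  simp_rw [hA] at h1
  linarith

end func

end Pool.Agent.T2h76.MT
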