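import Pool.Agent.T2h76.Gm5
import Pool.Agent.T2h76.Mt2
import Pool.Agent.R498.MT.Core0

/-! The number of the arguments in the classes. -/

set_option autoImplicit false
set_option linter.unusedSectionVars false

namespace Pool.Agent.T2h76.MT

open Finset Filter
open Pool.Agent.R498.MT
open Pool.Agent.Y677.RSZ (rt Sys rhoT per_mod)

/-- the polynomial `n ^ 2 + 1` -/
def G1 (n : ℤ) : ℤ := n ^ 2 + 1

theorem G1_per (p : ℕ) (_ : p.Prime) (n : ℤ) : (p : ℤ) ∣ G1 (n + p) - G1 n :=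
  ⟨2 * n + p, by unfold G1; ring⟩

theorem rt_G1 (p : ℕ) : rt G1 p = (Rt p).card := by
  unfold rt
  apply Finset.card_bij (fun (n : ℕ) _ => (n : ℤ))
  · intro n hn
    rw [mem_filter, mem_range] at hn
    rw [mem_Rt]
    exact ⟨by positivity, by exact_mod_cast hn.1, hn.2⟩
  · intro a _ b _ h
    exact_mod_cast h
  · intro b hb
    obtain ⟨h1, h2, h3⟩ := mem_Rt.1 hb
    refine ⟨b.toNat, ?_, Int.toNat_of_nonneg h1⟩
    rw [mem_filter, mem_range, Int.toNat_of_nonneg h1]
    refine ⟨?_, h3⟩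
    zify
    rw [Int.toNat_of_nonneg h1]
    exact h2

/-- the part outside a window is negligible -/
theorem win (Y c Λ : ℝ) (hY : 1 ≤ Y) (hΛ : 0 ≤ Λ) (A B : ℤ) (hA : (A : ℝ) + Y * Λ ≤ c)
    (hB : c + Y * Λ ≤ B) (E : ℤ → Prop) [DecidablePred E] :
    |∑ n ∈ Ioc A B, gw Y c n * (if E n then 1 else 0) - ∑' n : ℤ, gw Y c n * (if E n then 1 else 0)| ≤
      Real.exp (-(Real.pi / 2 * Λ ^ 2)) * (2 * Y + C0) := by
  classical
  have hY0 : 0 < Y := by linarith
  set I : Finset ℤ := Ioc A B with hI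
  have hs := gw_summable Y c hY0
  have hs2 := gw_summable (2 * Y) c (by positivity)
  have hs3 : Summable (fun n : ℤ => gw Y c n * (if E n then (1 : ℝ) else 0)) := by
    apply Summable.of_norm_bounded hs
    intro n
    rw [norm_mul, Real.norm_of_nonneg (gw_pos Y c n).le]
    split_ifs
    · rw [norm_one, mul_one]
    · rw [norm_zero, mul_zero]
      exact (gw_pos Y c n).le
  have h1 : ∑ n ∈ I, gw Y c n * (if E n then (1 : ℝ) else 0) ≤
      ∑' n : ℤ, gw Y c n * (if E n then (1 : ℝ) else 0) := by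
    apply hs3.sum_le_tsum
    intro n _
    apply mul_nonneg (gw_pos Y c n).le
    split_ifs <;> norm_num
  have h2 : ∀ n : ℤ, gw Y c n * (if E n then (1 : ℝ) else 0) ≤
      (if n ∈ I then gw Y c n * (if E n then 1 else 0) else 0) +
        Real.exp (-(Real.pi / 2 * Λ ^ 2)) * gw (2 * Y) c n := by
    intro n
    by_cases hn : n ∈ I
    · rw [if_pos hn]
      have := (gw_pos (2 * Y) c n).le
      have : 0 ≤ Real.exp (-(Real.pi / 2 * Λ ^ 2)) * gw (2 * Y) c n := by positivity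
      linarith
    · rw [if_neg hn, zero_add]
      have h3 : gw Y c n * (if E n then (1 : ℝ) else 0) ≤ gw Y c n := by
        split_ifs
        · rw [mul_one]
        · rw [mul_zero]
          exact (gw_pos Y c n).le
      refine h3.trans (gw_tail Y c Λ hY0 hΛ n ?_)
      rw [hI, mem_Ioc, not_and_or, not_lt, not_le] at hn
      rcases hn with hn | hn
      · have h4 : (n : ℝ) ≤ A := by exact_mod_cast hn
        rw [abs_sub_comm]
        refine le_trans ?_ (le_abs_self _)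
        linarith
      · have h4 : (B : ℝ) ≤ n := by exact_mod_cast hn.le
        refine le_trans ?_ (le_abs_self _)
        linarith
  have hs1 : Summable (fun n : ℤ => if n ∈ I then gw Y c n * (if E n then (1 : ℝ) else 0) else 0) :=
    summable_of_ne_finset_zero (s := I) (fun n hn => if_neg hn)
  have h3 := Summable.tsum_le_tsum h2 hs3 (hs1.add (hs2.mul_left _))
  rw [Summable.tsum_add hs1 (hs2.mul_left _), tsum_mul_left,
    tsum_eq_sum (s := I) (fun n hn => if_neg hn)] at h3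
  have h4 : ∑ n ∈ I, (if n ∈ I then gw Y c n * (if E n then (1 : ℝ) else 0) else 0) =
      ∑ n ∈ I, gw Y c n * (if E n then 1 else 0) :=
    sum_congr rfl (fun n hn => if_pos hn)
  rw [h4] at h3
  have h5 := gsum (2 * Y) c (by linarith)
  have h6 : Real.exp (-(Real.pi / 2 * Λ ^ 2)) * ∑' n : ℤ, gw (2 * Y) c n ≤
      Real.exp (-(Real.pi / 2 * Λ ^ 2)) * (2 * Y + C0) :=
    mul_le_mul_of_nonneg_left h5 (Real.exp_pos _).le
  rw [abs_sub_comm, abs_of_nonneg (by linarith)]
  linarith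

theorem cls_sum (Y c : ℝ) (W D b M L ti : ℕ) (hW : 0 < W) (r : ℕ) (E : ℤ → Prop)
    [DecidablePred E] :
    ∑ K ∈ Ioc M (M + L), gw Y c ((W * K + b : ℕ) : ℤ) *
      (if K % D = r % D ∧ E ((W * (K + ti) + b : ℕ) : ℤ) then (1 : ℝ) else 0) =
    ∑ n ∈ Ioc ((W * (M + ti) + b : ℕ) : ℤ) ((W * (M + L + ti) + b : ℕ) : ℤ), gw Y (c + W * ti) n *
      (if ((W * D : ℕ) : ℤ) ∣ n - ((W * (r + ti) + b : ℕ) : ℤ) ∧ E n then 1 else 0) := by
  have hWr : (0 : ℤ) < W := by exact_mod_cast hW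
  apply Finset.sum_of_injOn (fun K : ℕ => ((W * (K + ti) + b : ℕ) : ℤ))
  · intro K _ K' _ h
    have h0 : ((W * (K + ti) + b : ℕ) : ℤ) = ((W * (K' + ti) + b : ℕ) : ℤ) := h
    have h1 : W * (K + ti) + b = W * (K' + ti) + b := by exact_mod_cast h0
    have h2 : W * (K + ti) = W * (K' + ti) := by omega
    have h3 := Nat.eq_of_mul_eq_mul_left hW h2
    omega
  · intro K hK
    rw [mem_coe, mem_Ioc] at hK
    rw [mem_coe, mem_Ioc]
    have h1 : W * (M + ti + 1) ≤ W * (K + ti) := Nat.mul_le_mul_left _ (by omega)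
    have h2 : W * (K + ti) ≤ W * (M + L + ti) := Nat.mul_le_mul_left _ (by omega)
    have h3 : W * (M + ti + 1) = W * (M + ti) + W := by ring
    constructor
    · show ((W * (M + ti) + b : ℕ) : ℤ) < ((W * (K + ti) + b : ℕ) : ℤ)
      exact_mod_cast (by omega : W * (M + ti) + b < W * (K + ti) + b)
    · show ((W * (K + ti) + b : ℕ) : ℤ) ≤ ((W * (M + L + ti) + b : ℕ) : ℤ)
      exact_mod_cast (by omega : W * (K + ti) + b ≤ W * (M + L + ti) + b)
  · intro n hn hni
    rw [if_neg, mul_zero]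
    rintro ⟨h1, _⟩
    apply hni
    have h2 : (W : ℤ) ∣ n - ((W * (r + ti) + b : ℕ) : ℤ) :=
      dvd_trans (by push_cast; exact dvd_mul_right _ _) h1
    obtain ⟨e, he⟩ := h2
    rw [mem_Ioc] at hn
    obtain ⟨h3, h4⟩ := hn
    have h5 : n = W * (e + r + ti) + b := by
      push_cast at he
      linarith
    have h6 : (M : ℤ) + ti < e + r + ti := by
      have : (W : ℤ) * (M + ti) < W * (e + r + ti) := by
        push_cast at h3
        linarith
      exact lt_of_mul_lt_mul_left this hWr.le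
    have h7 : e + r + ti ≤ (M : ℤ) + L + ti := by
      have : (W : ℤ) * (e + r + ti) ≤ W * (M + L + ti) := by
        push_cast at h4
        linarith
      exact le_of_mul_le_mul_left this hWr
    refine ⟨(e + r).toNat, ?_, ?_⟩
    · rw [mem_coe, mem_Ioc]
      constructor <;> omega
    · show ((W * ((e + r).toNat + ti) + b : ℕ) : ℤ) = n
      push_cast
      rw [Int.toNat_of_nonneg (by omega), h5]
  · intro K _
    have h1 : gw Y (c + W * ti) ((W * (K + ti) + b : ℕ) : ℤ) = gw Y c ((W * K + b : ℕ) : ℤ) := by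
      unfold gw
      congr 4
      push_cast
      ring
    show _ = gw Y (c + W * ti) ((W * (K + ti) + b : ℕ) : ℤ) * _
    rw [h1]
    congr 1
    have h2 : K % D = r % D ↔ ((W * D : ℕ) : ℤ) ∣ ((W * (K + ti) + b : ℕ) : ℤ) -
        ((W * (r + ti) + b : ℕ) : ℤ) := by
      have e : ((W * (K + ti) + b : ℕ) : ℤ) - ((W * (r + ti) + b : ℕ) : ℤ) = W * ((K : ℤ) - r) := by
        push_cast
        ring
      rw [e]
      push_cast
      rw [mul_dvd_mul_iff_left hWr.ne']
      constructor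
      · intro h
        have h3 : r ≡ K [MOD D] := h.symm
        rw [← Int.natCast_modEq_iff] at h3
        exact h3.dvd
      · intro h
        have h3 : (r : ℤ) ≡ K [ZMOD D] := Int.modEq_iff_dvd.2 h
        rw [Int.natCast_modEq_iff] at h3
        exact h3.symm
    by_cases h3 : K % D = r % D
    · by_cases h4 : E ((W * (K + ti) + b : ℕ) : ℤ)
      · rw [if_pos ⟨h3, h4⟩, if_pos ⟨h2.1 h3, h4⟩]
      · rw [if_neg (fun h => h4 h.2), if_neg (fun h => h4 h.2)]
    · rw [if_neg (fun h => h3 h.1), if_neg (fun h => h3 (h2.2 h.1))]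

section count
variable {S : Type} [Fintype S] [DecidableEq S]

open Classical in
/-- the classes of the conditions -/
noncomputable def CQ (pp : S → ℕ) (F : ℤ → ℤ) (W b : ℕ) {m : ℕ} (t : Fin m → ℕ) (Q : Finset ℕ)
    (V : S → Option (Fin m)) : Finset ℕ :=
  (range ((∏ p ∈ Q, p) * DT pp V)).filter (fun r : ℕ =>
    (∀ p ∈ Q, ∃ j, (p : ℤ) ∣ F ((W * (r + t j) + b : ℕ) : ℤ)) ∧
    ∀ s j, V s = some j → (pp s : ℤ) ∣ G1 ((W * (r + t j) + b : ℕ) : ℤ))

variable (pp : S → ℕ) (hpr : ∀ s, (pp s).Prime) (hinj : Function.Injective pp)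

include hpr hinj in
theorem CQ_card (F : ℤ → ℤ) (hF : ∀ p : ℕ, p.Prime → ∀ n : ℤ, (p : ℤ) ∣ F (n + p) - F n)
    (W b : ℕ) {m : ℕ} (t : Fin m → ℕ) (Q : Finset ℕ) (hQ : ∀ p ∈ Q, p.Prime)
    (hQS : ∀ p ∈ Q, ∀ s, p ≠ pp s) (hW : ∀ s, ¬ pp s ∣ W) (V : S → Option (Fin m)) :
    (CQ pp F W b t Q V).card =
      (∏ p ∈ Q, rhoT F W b t p) * ∏ s, if V s = none then 1 else rt G1 (pp s) := by
  classical
  have hQ0 : 0 < ∏ p ∈ Q, p := prod_pos fun p hp => (hQ p hp).pos
  have hcop : Nat.Coprime (∏ p ∈ Q, p) (DT pp V) := by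
    unfold DT
    apply Nat.Coprime.prod_left
    intro p hp
    apply Nat.Coprime.prod_right
    intro s _
    split_ifs
    · exact Nat.coprime_one_right _
    · exact (Nat.coprime_primes (hQ p hp) (hpr s)).2 (hQS p hp s)
  have h1 := Pool.Agent.Y833.RSZ.card_mul hQ0 (DT_pos pp hpr V) hcop
    (fun r => ∀ p ∈ Q, ∃ j, (p : ℤ) ∣ F ((W * (r + t j) + b : ℕ) : ℤ))
    (fun r => ∀ s j, V s = some j → (pp s : ℤ) ∣ G1 ((W * (r + t j) + b : ℕ) : ℤ))
    (by
      intro r
      refine forall₂_congr fun p hp => exists_congr fun j => ?_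
      apply per_mod hF (hQ p hp)
      have h2 : r % (∏ p ∈ Q, p) ≡ r [MOD p] :=
        (Nat.mod_modEq r _).of_dvd (dvd_prod_of_mem _ hp)
      exact (((h2.symm).add_right _).mul_left _).add_right _)
    (by
      intro r
      refine forall_congr' fun s => forall₂_congr fun j hs => ?_
      apply per_mod G1_per (hpr s)
      have h3 : pp s ∣ DT pp V := by
        unfold DT
        have h4 := dvd_prod_of_mem (fun s => if V s = none then 1 else pp s) (mem_univ s)
        simpa [hs] using h4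
      have h2 : r % DT pp V ≡ r [MOD pp s] := (Nat.mod_modEq r _).of_dvd h3
      exact (((h2.symm).add_right _).mul_left _).add_right _)
  have h2 := Pool.Agent.Y833.RSZ.card_prod Q hQ
    (fun p r => ∃ j, (p : ℤ) ∣ F ((W * (r + t j) + b : ℕ) : ℤ)) (by
      intro p hp r
      refine exists_congr fun j => ?_
      apply per_mod hF (hQ p hp)
      exact (((Nat.mod_modEq r p).symm.add_right _).mul_left _).add_right _)
  have h3 := CT_card pp hpr hinj G1 G1_per W b hW t V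
  have h4 : CT pp G1 W b t V = (range (DT pp V)).filter
      (fun r => ∀ s j, V s = some j → (pp s : ℤ) ∣ G1 ((W * (r + t j) + b : ℕ) : ℤ)) := by
    ext r
    rw [mem_filter]
    unfold CT
    rw [mem_filter]
    refine and_congr_right fun _ => ?_
    constructor
    · intro h s j hs
      exact (Dj_dvd pp hpr hinj V j _).1 (h j) s hs
    · intro h j
      rw [Dj_dvd pp hpr hinj V j]
      intro s hs
      exact h s j hs
  unfold CQ
  refine Eq.trans ?_ (h1.trans ?_)
  · apply congrArg Finset.card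
    ext r
    simp only [mem_filter]
  · rw [← h3, h4]
    congr 1
    · refine Eq.trans ?_ (h2.trans ?_)
      · apply congrArg Finset.card
        ext r
        simp only [mem_filter]
      · refine prod_congr rfl fun p _ => ?_
        unfold rhoT
        apply congrArg Finset.card
        ext r
        simp only [mem_filter]
    · apply congrArg Finset.card
      ext r
      simp only [mem_filter]

theorem T_dvd (T : Finset S) (x : ℤ) (hpr : ∀ s, (pp s).Prime) (hinj : Function.Injective pp) :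
    ((∏ s ∈ T, pp s : ℕ) : ℤ) ∣ x ↔ ∀ s ∈ T, (pp s : ℤ) ∣ x := by
  constructor
  · intro h s hs
    exact dvd_trans (by exact_mod_cast dvd_prod_of_mem pp hs) h
  · intro h
    push_cast
    apply Finset.prod_dvd_of_coprime
    · intro a _ b _ hab
      show IsCoprime (pp a : ℤ) (pp b : ℤ)
      rw [Nat.isCoprime_iff_coprime]
      exact (Nat.coprime_primes (hpr a) (hpr b)).2 (fun h => hab (hinj h))
    · exact h

open Classical in
include hpr hinj in
/-- the sum over the arguments as a sum over the classes -/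
theorem blk1 (F : ℤ → ℤ) (hF : ∀ p : ℕ, p.Prime → ∀ n : ℤ, (p : ℤ) ∣ F (n + p) - F n)
    (W b M L : ℕ) {m : ℕ} (t : Fin m → ℕ) (Q : Finset ℕ) (hQ : ∀ p ∈ Q, p.Prime)
    (V : S → Option (Fin m)) (T : Finset S) (i : Fin m) (hT : ∀ s ∈ T, V s = none)
    (ξ : ℕ → S → Option (Fin m))
    (hξ : ∀ K s j, ξ K s = some j ↔ (pp s : ℤ) ∣ G1 ((W * (K + t j) + b : ℕ) : ℤ)) (g : ℕ → ℝ) :
    ∑ K ∈ Ioc M (M + L), g K * ((if ∀ p ∈ Q, ∃ j, (p : ℤ) ∣ F ((W * (K + t j) + b : ℕ) : ℤ) then 1 else 0) *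
      (if Sub (jn T V i) (ξ K) then 1 else 0)) =
    ∑ r ∈ CQ pp F W b t Q V, ∑ K ∈ Ioc M (M + L), g K *
      (if K % ((∏ p ∈ Q, p) * DT pp V) = r % ((∏ p ∈ Q, p) * DT pp V) ∧
        ((∏ s ∈ T, pp s : ℕ) : ℤ) ∣ G1 ((W * (K + t i) + b : ℕ) : ℤ) then 1 else 0) := by
  rw [sum_comm]
  refine sum_congr rfl fun K _ => ?_
  rw [← mul_sum]
  congr 1
  set D := (∏ p ∈ Q, p) * DT pp V with hD
  have hD0 : 0 < D := Nat.mul_pos (prod_pos fun p hp => (hQ p hp).pos) (DT_pos pp hpr V)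
  have hmem : K % D ∈ CQ pp F W b t Q V ↔ (∀ p ∈ Q, ∃ j, (p : ℤ) ∣ F ((W * (K + t j) + b : ℕ) : ℤ)) ∧
      Sub V (ξ K) := by
    unfold CQ
    rw [mem_filter, mem_range]
    have hper : ∀ (G : ℤ → ℤ), (∀ p : ℕ, p.Prime → ∀ n : ℤ, (p : ℤ) ∣ G (n + p) - G n) →
        ∀ (p : ℕ) (j : Fin m), p.Prime → p ∣ D → ((p : ℤ) ∣ G ((W * (K % D + t j) + b : ℕ) : ℤ) ↔
        (p : ℤ) ∣ G ((W * (K + t j) + b : ℕ) : ℤ)) := by
      intro G hG p j hp hpD
      apply per_mod hG hp
      have h2 : K % D ≡ K [MOD p] := (Nat.mod_modEq K _).of_dvd hpD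
      exact ((h2.add_right _).mul_left _).add_right _
    have hpQ : ∀ p ∈ Q, p ∣ D := fun p hp => (dvd_prod_of_mem _ hp).trans (dvd_mul_right _ _)
    have hpV : ∀ s j, V s = some j → pp s ∣ D := by
      intro s j hs
      refine dvd_trans ?_ (dvd_mul_left _ _)
      unfold DT
      have h4 := dvd_prod_of_mem (fun s => if V s = none then 1 else pp s) (mem_univ s)
      simpa [hs] using h4
    constructor
    · rintro ⟨_, h1, h2⟩
      refine ⟨fun p hp => ?_, fun s => ?_⟩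
      · obtain ⟨j, hj⟩ := h1 p hp
        exact ⟨j, (hper F hF p j (hQ p hp) (hpQ p hp)).1 hj⟩
      · rcases hs : V s with _ | j
        · exact Or.inl rfl
        · exact Or.inr ((hξ K s j).2 ((hper G1 G1_per (pp s) j (hpr s) (hpV s j hs)).1 (h2 s j hs))).symm
    · rintro ⟨h1, h2⟩
      refine ⟨Nat.mod_lt _ hD0, fun p hp => ?_, fun s j hs => ?_⟩
      · obtain ⟨j, hj⟩ := h1 p hp
        exact ⟨j, (hper F hF p j (hQ p hp) (hpQ p hp)).2 hj⟩
      · apply (hper G1 G1_per (pp s) j (hpr s) (hpV s j hs)).2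
        rw [← hξ K s j]
        rcases h2 s with h3 | h3
        · rw [hs] at h3
          simp at h3
        · rw [← h3, hs]
  have e2 : ∀ r ∈ CQ pp F W b t Q V, (if K % D = r % D ∧
        ((∏ s ∈ T, pp s : ℕ) : ℤ) ∣ G1 ((W * (K + t i) + b : ℕ) : ℤ) then (1 : ℝ) else 0) =
      if r = K % D then (if ((∏ s ∈ T, pp s : ℕ) : ℤ) ∣ G1 ((W * (K + t i) + b : ℕ) : ℤ) then 1 else 0)
        else 0 := by
    intro r hr
    have hr' : r % D = r := by
      unfold CQ at hr
      rw [mem_filter, mem_range] at hr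
      exact Nat.mod_eq_of_lt hr.1
    rw [hr']
    by_cases h1 : K % D = r
    · by_cases h2 : ((∏ s ∈ T, pp s : ℕ) : ℤ) ∣ G1 ((W * (K + t i) + b : ℕ) : ℤ)
      · rw [if_pos ⟨h1, h2⟩, if_pos h1.symm, if_pos h2]
      · rw [if_neg (fun h => h2 h.2), if_pos h1.symm, if_neg h2]
    · rw [if_neg (fun h => h1 h.1), if_neg (fun h => h1 h.symm)]
  rw [sum_congr rfl e2, sum_ite_eq']
  have h3 : Sub (jn T V i) (ξ K) ↔ Sub V (ξ K) ∧
      ((∏ s ∈ T, pp s : ℕ) : ℤ) ∣ G1 ((W * (K + t i) + b : ℕ) : ℤ) := by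
    rw [sub_jn T V (ξ K) i hT, T_dvd pp T _ hpr hinj]
    refine and_congr_right fun _ => forall₂_congr fun s _ => hξ K s i
  by_cases h4 : K % D ∈ CQ pp F W b t Q V
  · obtain ⟨h5, h6⟩ := hmem.1 h4
    rw [if_pos h4, if_pos h5, one_mul]
    by_cases h7 : ((∏ s ∈ T, pp s : ℕ) : ℤ) ∣ G1 ((W * (K + t i) + b : ℕ) : ℤ)
    · rw [if_pos (h3.2 ⟨h6, h7⟩), if_pos h7]
    · rw [if_neg (fun h => h7 (h3.1 h).2), if_neg h7]
  · rw [if_neg h4]
    by_cases h5 : ∀ p ∈ Q, ∃ j, (p : ℤ) ∣ F ((W * (K + t j) + b : ℕ) : ℤ)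
    · rw [if_pos h5, one_mul, if_neg]
      intro h
      exact h4 (hmem.2 ⟨h5, (h3.1 h).1⟩)
    · rw [if_neg h5, zero_mul]

end count

end Pool.Agent.T2h76.MT
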