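import Pool.Agent.T2h76.Mt4

/-! The evaluation of the weighted sums. -/

set_option autoImplicit false
set_option linter.unusedSectionVars false

namespace Pool.Agent.T2h76.MT

open Finset Filter
open Pool.Agent.R498.MT
open Pool.Agent.Y677.RSZ (rt Sys rhoT per_mod)
open Pool.Agent.Y882 (VV)

theorem cntQ (P : Finset ℕ) (hP : ∀ p ∈ P, p.Prime) (z : ℕ) :
    (P.powerset.filter (fun Q => ∏ p ∈ Q, p ≤ z)).card ≤ z := by
  classical
  have h1 : (P.powerset.filter (fun Q => ∏ p ∈ Q, p ≤ z)).card ≤ (Icc 1 z).card := by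
    apply card_le_card_of_injOn (fun Q => ∏ p ∈ Q, p)
    · intro Q hQ
      rw [mem_coe, mem_filter, mem_powerset] at hQ
      rw [mem_coe, mem_Icc]
      exact ⟨prod_pos fun p hp => (hP p (hQ.1 hp)).pos, hQ.2⟩
    · intro Q hQ Q' hQ' h
      rw [mem_coe, mem_filter, mem_powerset] at hQ hQ'
      have e1 := Nat.primeFactors_prod (s := Q) (fun p hp => hP p (hQ.1 hp))
      have e2 := Nat.primeFactors_prod (s := Q') (fun p hp => hP p (hQ'.1 hp))
      have h' : ∏ p ∈ Q, p = ∏ p ∈ Q', p := h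
      rw [← e1, ← e2, h']
  rwa [Nat.card_Icc, Nat.add_sub_cancel] at h1

theorem swap4 {ι κ τ σ : Type} (sK : Finset ι) (sQ : Finset κ) (sV : Finset τ) (sT : Finset σ)
    (g : ι → ℝ) (l : κ → ℝ) (I : ι → κ → ℝ) (A : τ → σ → ℝ) (J : ι → τ → σ → ℝ) :
    ∑ K ∈ sK, g K * ((∑ Q ∈ sQ, l Q * I K Q) * ∑ V ∈ sV, ∑ T ∈ sT, A V T * J K V T) =
    ∑ Q ∈ sQ, l Q * ∑ V ∈ sV, ∑ T ∈ sT, A V T * ∑ K ∈ sK, g K * (I K Q * J K V T) := by
  have e1 : ∀ K ∈ sK, g K * ((∑ Q ∈ sQ, l Q * I K Q) * ∑ V ∈ sV, ∑ T ∈ sT, A V T * J K V T) =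
      ∑ Q ∈ sQ, ∑ V ∈ sV, ∑ T ∈ sT, l Q * (A V T * (g K * (I K Q * J K V T))) := by
    intro K _
    rw [sum_mul, mul_sum]
    refine sum_congr rfl fun Q _ => ?_
    rw [mul_sum, mul_sum]
    refine sum_congr rfl fun V _ => ?_
    rw [mul_sum, mul_sum]
    refine sum_congr rfl fun T _ => ?_
    ring
  rw [sum_congr rfl e1, sum_comm]
  refine sum_congr rfl fun Q _ => ?_
  rw [sum_comm, mul_sum]
  refine sum_congr rfl fun V _ => ?_
  rw [sum_comm, mul_sum]
  refine sum_congr rfl fun T _ => ?_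
  rw [mul_sum, mul_sum]

section eval
variable {S : Type} [Fintype S] [DecidableEq S]
variable (pp : S → ℕ) (hpr : ∀ s, (pp s).Prime) (hinj : Function.Injective pp)

include hpr hinj in
theorem DT_dvd_iff {m : ℕ} (V : S → Option (Fin m)) (s : S) : pp s ∣ DT pp V ↔ V s ≠ none := by
  constructor
  · intro h
    unfold DT at h
    obtain ⟨s', _, h1⟩ := ((hpr s).prime.dvd_finsetProd_iff _).1 h
    split_ifs at h1 with h2
    · exact absurd (Nat.dvd_one.1 h1) (hpr s).one_lt.ne'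
    · have := (Nat.prime_dvd_prime_iff_eq (hpr s) (hpr s')).1 h1
      rw [hinj this]
      exact h2
  · intro h
    unfold DT
    have h4 := dvd_prod_of_mem (fun s => if V s = none then 1 else pp s) (mem_univ s)
    simpa [h] using h4

include hpr hinj in
theorem cntV {m : ℕ} (z c : ℕ) :
    (univ.filter (fun V : S → Option (Fin m) => DT pp V ≤ z ∧
      (univ.filter (fun s => V s ≠ none)).card ≤ c)).card ≤ (m + 1) ^ c * z := by
  classical
  set A := univ.filter (fun V : S → Option (Fin m) => DT pp V ≤ z ∧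
      (univ.filter (fun s => V s ≠ none)).card ≤ c) with hA
  have h1 := card_le_mul_card_image (f := fun V => DT pp V) A ((m + 1) ^ c) (by
    intro d hd
    rw [mem_image] at hd
    obtain ⟨V0, hV0, hV0d⟩ := hd
    rw [hA, mem_filter] at hV0
    set T0 := univ.filter (fun s => V0 s ≠ none) with hT0
    have hsup : ∀ V : S → Option (Fin m), DT pp V = d → ∀ s, s ∈ T0 ↔ V s ≠ none := by
      intro V hV s
      rw [hT0, mem_filter]
      have e1 := DT_dvd_iff pp hpr hinj V s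
      have e2 := DT_dvd_iff pp hpr hinj V0 s
      rw [hV] at e1
      have hV0d' : DT pp V0 = d := hV0d
      rw [hV0d'] at e2
      rw [← e1, ← e2]
      simp
    have h2 : (A.filter (fun V => DT pp V = d)).card ≤ (univ : Finset (T0 → Option (Fin m))).card := by
      apply card_le_card_of_injOn (fun V => fun s : T0 => V s)
      · intro V _
        exact mem_coe.2 (mem_univ _)
      · intro V hV V' hV' h
        rw [mem_coe, mem_filter] at hV hV'
        funext s
        by_cases hs : s ∈ T0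
        · exact congrFun h ⟨s, hs⟩
        · have g1 := (hsup V hV.2 s).not.1 hs
          have g2 := (hsup V' hV'.2 s).not.1 hs
          push Not at g1 g2
          rw [g1, g2]
    refine h2.trans ?_
    rw [card_univ, Fintype.card_fun, Fintype.card_option, Fintype.card_fin, Fintype.card_coe]
    exact Nat.pow_le_pow_right (by omega) hV0.2.2)
  refine h1.trans (Nat.mul_le_mul_left _ ?_)
  have h3 : A.image (fun V => DT pp V) ⊆ Icc 1 z := by
    intro d hd
    rw [mem_image] at hd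
    obtain ⟨V, hV, rfl⟩ := hd
    rw [hA, mem_filter] at hV
    rw [mem_Icc]
    exact ⟨DT_pos pp hpr V, hV.2.1⟩
  have h4 := card_le_card h3
  rwa [Nat.card_Icc, Nat.add_sub_cancel] at h4

open Classical in
include hpr hinj in
/-- **The evaluation.** -/
theorem eval (F : ℤ → ℤ) (hF : ∀ p : ℕ, p.Prime → ∀ n : ℤ, (p : ℤ) ∣ F (n + p) - F n)
    (W b M L : ℕ) (hW0 : 0 < W) {m : ℕ} (t : Fin m → ℕ) (P : Finset ℕ) (hP : ∀ p ∈ P, p.Prime)
    (hPS : ∀ p ∈ P, ∀ s, p ≠ pp s) (hW : ∀ s, ¬ pp s ∣ W) (i : Fin m)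
    (ξ : ℕ → S → Option (Fin m))
    (hξ : ∀ K s j, ξ K s = some j ↔ (pp s : ℤ) ∣ G1 ((W * (K + t j) + b : ℕ) : ℤ))
    (Y c Λ : ℝ) (hY : 1 ≤ Y) (hΛ : 0 ≤ Λ) (hc1 : ((W * M + b : ℕ) : ℝ) + Y * Λ ≤ c)
    (hc2 : c + Y * Λ ≤ ((W * (M + L) + b : ℕ) : ℝ))
    (nK : ℕ → ℕ) (hnK : ∀ K, ∀ p ∈ P, p ∣ nK K ↔ ∃ j, (p : ℤ) ∣ F ((W * (K + t j) + b : ℕ) : ℤ))
    (lam : Finset ℕ → ℝ) (a : (S → Option (Fin m)) → ℝ) (cc : Finset S → ℝ) (zQ zV c' : ℕ)
    (Λ0 K0 E₁ TT : ℝ) (hlam : ∀ Q, |lam Q| ≤ Λ0)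
    (hlams : ∀ Q ⊆ P, lam Q ≠ 0 → ∏ p ∈ Q, p ≤ zQ) (ha : ∀ V, |a V| ≤ K0)
    (has : ∀ V, a V ≠ 0 → DT pp V ≤ zV ∧ (univ.filter (fun s => V s ≠ none)).card ≤ c')
    (hcc : ∑ T, |cc T| ≤ TT) (hE₁ : 0 ≤ E₁)
    (hbl : ∀ Q ⊆ P, ∏ p ∈ Q, p ≤ zQ → ∀ V : S → Option (Fin m), DT pp V ≤ zV → ∀ u : ℤ,
      |∑ T : Finset S, (if ∀ s ∈ T, V s = none then cc T * rmd Y (c + W * t i)
        (W * ((∏ p ∈ Q, p) * DT pp V)) u (∏ s ∈ T, pp s) else 0)| ≤ E₁) :
    |∑ K ∈ Ioc M (M + L), gw Y c ((W * K + b : ℕ) : ℤ) *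
        (VV P lam (fun p => if p ∣ nK K then 1 else 0) *
        ∑ V, ∑ T : Finset S, (if ∀ s ∈ T, V s = none then a V * cc T else 0) *
          (if Sub (jn T V i) (ξ K) then 1 else 0)) -
      (Y / W) * (VV P lam (fun p => (rhoT F W b t p : ℝ) / p) *
        ∑ V, ∑ T : Finset S, (if ∀ s ∈ T, V s = none then a V * cc T else 0) *
          rV (qq pp) (jn T V i))| ≤
      (zQ * Λ0) * (((m + 1 : ℕ) : ℝ) ^ c' * zV * K0) * ((zQ * zV : ℕ) *
        (E₁ + TT * (Real.exp (-(Real.pi / 2 * Λ ^ 2)) * (2 * Y + C0)))) := by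
  set tail := Real.exp (-(Real.pi / 2 * Λ ^ 2)) * (2 * Y + C0) with htail
  have htail0 : 0 ≤ tail := by
    have := C0_nonneg
    positivity
  have hTT0 : 0 ≤ TT := le_trans (sum_nonneg fun T _ => abs_nonneg _) hcc
  have hΛ00 : 0 ≤ Λ0 := (abs_nonneg _).trans (hlam ∅)
  have hK00 : 0 ≤ K0 := (abs_nonneg _).trans (ha (fun _ => none))
  set B : Finset ℕ → (S → Option (Fin m)) → Finset S → ℝ := fun Q V T =>
    ∑ K ∈ Ioc M (M + L), gw Y c ((W * K + b : ℕ) : ℤ) *
        ((if ∀ p ∈ Q, ∃ j, (p : ℤ) ∣ F ((W * (K + t j) + b : ℕ) : ℤ) then 1 else 0) *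
        (if Sub (jn T V i) (ξ K) then 1 else 0)) with hB
  set Mn : Finset ℕ → (S → Option (Fin m)) → Finset S → ℝ := fun Q V T =>
    (Y / W) * ((∏ p ∈ Q, (rhoT F W b t p : ℝ) / p) * rV (qq pp) (jn T V i)) with hMn
  have e1 : ∑ K ∈ Ioc M (M + L), gw Y c ((W * K + b : ℕ) : ℤ) *
        (VV P lam (fun p => if p ∣ nK K then 1 else 0) *
        ∑ V, ∑ T : Finset S, (if ∀ s ∈ T, V s = none then a V * cc T else 0) *
          (if Sub (jn T V i) (ξ K) then 1 else 0)) =
      ∑ Q ∈ P.powerset, lam Q * ∑ V, ∑ T : Finset S,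
        (if ∀ s ∈ T, V s = none then a V * cc T else 0) * B Q V T := by
    have g1 : ∀ K : ℕ, VV P lam (fun p => if p ∣ nK K then (1 : ℝ) else 0) = ∑ Q ∈ P.powerset, lam Q *
        (if ∀ p ∈ Q, ∃ j, (p : ℤ) ∣ F ((W * (K + t j) + b : ℕ) : ℤ) then (1 : ℝ) else 0) := by
      intro K
      unfold VV
      refine sum_congr rfl fun Q hQ => ?_
      rw [mem_powerset] at hQ
      congr 1
      rw [Finset.prod_ite_zero]
      simp only [prod_const_one]
      exact if_congr (forall₂_congr fun p hp => hnK K p (hQ hp)) rfl rfl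
    simp_rw [g1]
    exact swap4 _ _ _ _ _ _ _ _ _
  have e2 : (Y / W) * (VV P lam (fun p => (rhoT F W b t p : ℝ) / p) *
        ∑ V, ∑ T : Finset S, (if ∀ s ∈ T, V s = none then a V * cc T else 0) *
          rV (qq pp) (jn T V i)) =
      ∑ Q ∈ P.powerset, lam Q * ∑ V, ∑ T : Finset S,
        (if ∀ s ∈ T, V s = none then a V * cc T else 0) * Mn Q V T := by
    unfold VV
    simp_rw [hMn, sum_mul, mul_sum]
    refine sum_congr rfl fun Q _ => ?_
    refine sum_congr rfl fun V _ => ?_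
    refine sum_congr rfl fun T _ => ?_
    ring
  rw [e1, e2, ← sum_sub_distrib]
  have hX : ∀ Q ⊆ P, ∏ p ∈ Q, p ≤ zQ → ∀ V : S → Option (Fin m), DT pp V ≤ zV →
      |∑ T : Finset S, (if ∀ s ∈ T, V s = none then cc T else 0) * (B Q V T - Mn Q V T)| ≤
        (zQ * zV : ℕ) * (E₁ + TT * tail) := by
    intro Q hQ hQz V hV
    have hCQ : ((CQ pp F W b t Q V).card : ℝ) ≤ ((zQ * zV : ℕ) : ℝ) := by
      have g1 : (CQ pp F W b t Q V).card ≤ (∏ p ∈ Q, p) * DT pp V := by
        unfold CQ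
        refine (card_filter_le _ _).trans (le_of_eq (card_range _))
      exact_mod_cast g1.trans (Nat.mul_le_mul hQz hV)
    set Rm : Finset S → ℝ := fun T => ∑ r ∈ CQ pp F W b t Q V, rmd Y (c + W * t i)
      (W * ((∏ p ∈ Q, p) * DT pp V)) ((W * (r + t i) + b : ℕ) : ℤ) (∏ s ∈ T, pp s) with hRm
    have g1 : ∑ T : Finset S, (if ∀ s ∈ T, V s = none then cc T else 0) * (B Q V T - Mn Q V T) =
        ∑ T : Finset S, (if ∀ s ∈ T, V s = none then cc T * Rm T else 0) +
        ∑ T : Finset S, (if ∀ s ∈ T, V s = none then cc T else 0) * (B Q V T - Mn Q V T - Rm T) := by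
      rw [← sum_add_distrib]
      refine sum_congr rfl fun T _ => ?_
      split_ifs <;> ring
    have g2 : |∑ T : Finset S, (if ∀ s ∈ T, V s = none then cc T * Rm T else 0)| ≤
        ((zQ * zV : ℕ) : ℝ) * E₁ := by
      have g3 : ∑ T : Finset S, (if ∀ s ∈ T, V s = none then cc T * Rm T else 0) =
          ∑ r ∈ CQ pp F W b t Q V, ∑ T : Finset S, (if ∀ s ∈ T, V s = none then cc T *
            rmd Y (c + W * t i) (W * ((∏ p ∈ Q, p) * DT pp V)) ((W * (r + t i) + b : ℕ) : ℤ)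
              (∏ s ∈ T, pp s) else 0) := by
        rw [sum_comm]
        refine sum_congr rfl fun T _ => ?_
        split_ifs
        · rw [hRm, mul_sum]
        · rw [sum_const_zero]
      rw [g3]
      refine (abs_sum_le_sum_abs _ _).trans ?_
      refine (sum_le_sum fun r _ => hbl Q hQ hQz V hV _).trans ?_
      rw [sum_const, nsmul_eq_mul]
      exact mul_le_mul_of_nonneg_right hCQ hE₁
    have g3 : |∑ T : Finset S, (if ∀ s ∈ T, V s = none then cc T else 0) *
        (B Q V T - Mn Q V T - Rm T)| ≤ ((zQ * zV : ℕ) : ℝ) * (TT * tail) := by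
      refine (abs_sum_le_sum_abs _ _).trans ?_
      have g4 : ∀ T : Finset S, |(if ∀ s ∈ T, V s = none then cc T else 0) *
          (B Q V T - Mn Q V T - Rm T)| ≤ |cc T| * (((zQ * zV : ℕ) : ℝ) * tail) := by
        intro T
        split_ifs with hT
        · rw [abs_mul]
          apply mul_le_mul_of_nonneg_left _ (abs_nonneg _)
          have g5 := NT pp hpr hinj F hF W b M L hW0 t Q (fun p hp => hP p (hQ hp))
            (fun p hp => hPS p (hQ hp)) hW V T i hT ξ hξ Y c Λ hY hΛ hc1 hc2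
          refine g5.trans ?_
          exact mul_le_mul_of_nonneg_right hCQ htail0
        · rw [zero_mul, abs_zero]
          positivity
      refine (sum_le_sum fun T _ => g4 T).trans ?_
      rw [← sum_mul]
      calc (∑ T, |cc T|) * (((zQ * zV : ℕ) : ℝ) * tail) ≤ TT * (((zQ * zV : ℕ) : ℝ) * tail) :=
            mul_le_mul_of_nonneg_right hcc (by positivity)
        _ = _ := by ring
    rw [g1]
    refine (abs_add_le _ _).trans ?_
    linarith
  have hQsum : ∀ Q ∈ P.powerset, |lam Q * ∑ V, ∑ T : Finset S,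
        (if ∀ s ∈ T, V s = none then a V * cc T else 0) * B Q V T -
      lam Q * ∑ V, ∑ T : Finset S, (if ∀ s ∈ T, V s = none then a V * cc T else 0) * Mn Q V T| ≤
      (if ∏ p ∈ Q, p ≤ zQ then 1 else 0) * (Λ0 * ((((m + 1 : ℕ) : ℝ) ^ c' * zV * K0) * ((zQ * zV : ℕ) *
        (E₁ + TT * tail)))) := by
    intro Q hQ
    rw [mem_powerset] at hQ
    by_cases h0 : lam Q = 0
    · rw [h0, zero_mul, zero_mul, sub_zero, abs_zero]
      split_ifs <;> positivity
    have hQz := hlams Q hQ h0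
    rw [if_pos hQz, one_mul, ← mul_sub, abs_mul]
    apply mul_le_mul (hlam Q) _ (abs_nonneg _) hΛ00
    rw [← sum_sub_distrib]
    have g1 : ∀ V : S → Option (Fin m), |∑ T : Finset S,
        (if ∀ s ∈ T, V s = none then a V * cc T else 0) * B Q V T -
        ∑ T : Finset S, (if ∀ s ∈ T, V s = none then a V * cc T else 0) * Mn Q V T| ≤
        (if DT pp V ≤ zV ∧ (univ.filter (fun s => V s ≠ none)).card ≤ c' then 1 else 0) *
          (K0 * ((zQ * zV : ℕ) * (E₁ + TT * tail))) := by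
      intro V
      by_cases h1 : a V = 0
      · have g2 : ∀ T : Finset S, (if ∀ s ∈ T, V s = none then a V * cc T else 0) = 0 := by
          intro T
          rw [h1]
          split_ifs <;> ring
        simp only [g2, zero_mul, sum_const_zero, sub_zero, abs_zero]
        split_ifs <;> positivity
      · rw [if_pos (has V h1), one_mul]
        have g2 : ∑ T : Finset S, (if ∀ s ∈ T, V s = none then a V * cc T else 0) * B Q V T -
            ∑ T : Finset S, (if ∀ s ∈ T, V s = none then a V * cc T else 0) * Mn Q V T =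
            a V * ∑ T : Finset S, (if ∀ s ∈ T, V s = none then cc T else 0) * (B Q V T - Mn Q V T) := by
          rw [← sum_sub_distrib, mul_sum]
          refine sum_congr rfl fun T _ => ?_
          split_ifs <;> ring
        rw [g2, abs_mul]
        exact mul_le_mul (ha V) (hX Q hQ hQz V (has V h1).1) (abs_nonneg _) hK00
    refine (abs_sum_le_sum_abs _ _).trans ((sum_le_sum fun V _ => g1 V).trans ?_)
    rw [← sum_mul, sum_boole]
    have g3 := cntV pp hpr hinj (m := m) zV c'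
    have g4 : ((univ.filter (fun V : S → Option (Fin m) => DT pp V ≤ zV ∧
      (univ.filter (fun s => V s ≠ none)).card ≤ c')).card : ℝ) ≤ ((m + 1 : ℕ) : ℝ) ^ c' * zV := by
      exact_mod_cast g3
    calc _ ≤ (((m + 1 : ℕ) : ℝ) ^ c' * zV) * (K0 * ((zQ * zV : ℕ) * (E₁ + TT * tail))) :=
          mul_le_mul_of_nonneg_right g4 (by positivity)
      _ = _ := by ring
  refine (abs_sum_le_sum_abs _ _).trans ((sum_le_sum hQsum).trans ?_)
  rw [← sum_mul, sum_boole]
  have g3 : ((P.powerset.filter (fun Q => ∏ p ∈ Q, p ≤ zQ)).card : ℝ) ≤ zQ := by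
    exact_mod_cast cntQ P hP zQ
  calc _ ≤ (zQ : ℝ) * (Λ0 * ((((m + 1 : ℕ) : ℝ) ^ c' * zV * K0) * ((zQ * zV : ℕ) *
        (E₁ + TT * tail)))) := mul_le_mul_of_nonneg_right g3 (by positivity)
    _ = _ := by ring

end eval

end Pool.Agent.T2h76.MT
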