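import Pool.Agent.T2h76.Sv7
import Pool.Agent.T2h76.Sv8

/-! Universal weights on the large primes with a bilinear remainder. -/

set_option autoImplicit false

namespace Pool.Agent.T2h76

open Finset Filter
open Pool.Agent.W23.DC
open Pool.Agent.Y882 (flw exJ VV VV_union VV_mu VV_sub VV_add tt_lt)
open Pool.Agent.Y844.BT (cel cel_spec)

theorem rem_L (X : ℕ) (hX : 2 ≤ X) (ϖ : ℝ) (hϖ : 0 < ϖ) (nε nυ n0 x y : ℕ)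
    (hxy : x + y = n0) (μ ν : ℝ) (sx : ϖ * x ≤ μ) (sy : ϖ * y ≤ ν)
    (β : Multiset ℕ → ℝ) (B' E : ℝ) (hB' : 0 ≤ B')
    (hβ : ∀ S ⊆ Ce X ϖ nε nυ, |β (ty (cel X ϖ) S)| ≤ B')
    (hsp : ∀ S ⊆ Ce X ϖ nε nυ, β (ty (cel X ϖ) S) ≠ 0 →
      ∃ T1 ⊆ S, ∑ q ∈ T1, (cel X ϖ q + 1) ≤ x ∧ ∑ q ∈ S \ T1, (cel X ϖ q + 1) ≤ y)
    (r : ℕ → ℝ)
    (hr : ∀ a b : ℕ → ℝ, (∀ m, |a m| ≤ 1) → (∀ k, |b k| ≤ 1) → (∀ k, b k ≠ 0 → Squarefree k) →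
      |∑ m ∈ Icc 1 ⌊(X : ℝ) ^ μ⌋₊, ∑ k ∈ Icc 1 ⌊(X : ℝ) ^ ν⌋₊,
        if Nat.Coprime m k then a m * (b k * r (m * k)) else 0| ≤ E) :
    |∑ T ∈ (Ce X ϖ nε nυ).powerset, β (ty (cel X ϖ) T) * r (∏ p ∈ T, p)| ≤
      (TT0 n0 nυ).card * (B' * E) := by
  classical
  have hX1r : (1 : ℝ) ≤ X := by exact_mod_cast (by omega : 1 ≤ X)
  set Q1 := Ce X ϖ nε nυ with hQ1
  have hQ1p' : ∀ p ∈ Q1, p.Prime := fun p hp => (mem_Ce.1 hp).2.1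
  have h := sep (cel X ϖ) ∅ Q1 (by simp) hQ1p' (disjoint_empty_left _) (fun _ => 1) β
    1 B' E n0 nυ ⌊(X : ℝ) ^ μ⌋₊ ⌊(X : ℝ) ^ ν⌋₊ x y r one_pos (by simp) hB' hβ hsp
    (by
      intro U hU _ S hS hSx
      have hU0 : U = ∅ := subset_empty.1 hU
      rw [hU0, prod_empty, one_mul]
      apply Nat.le_floor
      have h7 := prod_cel X hX ϖ hϖ S (fun p hp => (hQ1p' p (hS hp)).one_le)
      have h8 : ((∑ p ∈ S, (cel X ϖ p + 1) : ℕ) : ℝ) ≤ x := by exact_mod_cast hSx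
      refine h7.trans (Real.rpow_le_rpow_of_exponent_le hX1r ?_)
      exact (mul_le_mul_of_nonneg_left h8 hϖ.le).trans sx)
    (by
      intro S hS hSy
      apply Nat.le_floor
      have h7 := prod_cel X hX ϖ hϖ S (fun p hp => (hQ1p' p (hS hp)).one_le)
      have h8 : ((∑ p ∈ S, (cel X ϖ p + 1) : ℕ) : ℝ) ≤ y := by exact_mod_cast hSy
      refine h7.trans (Real.rpow_le_rpow_of_exponent_le hX1r ?_)
      exact (mul_le_mul_of_nonneg_left h8 hϖ.le).trans sy)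
    (by
      intro p hp
      exact (mem_Ce.1 hp).2.2.2)
    (by
      intro S hS hne
      obtain ⟨T1, hT1, h6, h7⟩ := hsp S hS hne
      have h8 : S.card ≤ ∑ q ∈ S, (cel X ϖ q + 1) := by
        rw [card_eq_sum_ones]
        exact sum_le_sum fun q _ => by omega
      have h9 : ∑ q ∈ S, (cel X ϖ q + 1) = ∑ q ∈ S \ T1, (cel X ϖ q + 1) + ∑ q ∈ T1, (cel X ϖ q + 1) :=
        (sum_sdiff hT1).symm
      omega) hr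
  simp only [powerset_empty, sum_singleton, prod_empty, one_mul] at h
  exact h

open Classical in
/-- **The weights.** -/
theorem core6 (r1 r2 r3 : ℕ) (o1 : Odd r1) (o2 : Odd r2) (o3 : Odd r3) (u a b μ ν : ℝ)
    (hu : 0 < u) (h12 : 2 * r2 < r1) (h5 : r1 ≤ 5 * r2) (hτ : r1 * u ≤ 1) (h23 : r2 ≤ r3)
    (h31 : r3 < r1) (ha : 0 ≤ a) (hb : 0 ≤ b) (hab : b * (r3 * u) ≤ a)
    (hJ : ∫ x in (r2 * u)..(r3 * u), (a - b * x) / (r1 * u - x) * cor ((r1 * u - x) / (r2 * u)) / x <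
      Real.log ((r1 * u) / (r2 * u) - 1) / (r1 * u))
    (hν : 0 < ν) (hν2 : ν ≤ (r1 - r3) * u) (hμν : r1 * u < μ + ν) :
    ∃ f0 : ℝ, 0 < f0 ∧ ∀ (i : ℕ) (ϖ2 : ℝ), 0 < ϖ2 →
    ∃ (η A ϖ : ℝ) (nε nz nυ : ℕ), 0 < η ∧ 0 < A ∧ 0 < ϖ ∧
      ϖ ≤ ϖ2 ∧ nε ≤ nz ∧ nz ≤ nυ ∧ ϖ * (nε + 1 / 2) = u / (2 * i + 1) ∧ ϖ * (nz + 1 / 2) = r2 * u ∧
      ϖ * (nυ + 1 / 2) = r3 * u ∧ ∀ X : ℕ, 2 ≤ X → ∃ c : Finset ℕ → ℝ,
      (∀ T, |c T| ≤ 1 + a) ∧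
      (∀ T, c T ≠ 0 → T ⊆ Ce X ϖ nε nυ ∧ ((∏ p ∈ T, p : ℕ) : ℝ) ≤ (X : ℝ) ^ (r1 * u)) ∧
      (∀ N : ℕ, VV (Ce X ϖ nε nυ) c (fun p => if p ∣ N then 1 else 0) ≤
        WBc (Ce X ϖ nε nz) (Ce X ϖ nz nυ) (cel X ϖ) ϖ a b N) ∧
      (∀ (r : ℕ → ℝ) (E : ℝ), (∀ a b : ℕ → ℝ, (∀ m, |a m| ≤ 1) → (∀ k, |b k| ≤ 1) →
          (∀ k, b k ≠ 0 → Squarefree k) →
          |∑ m ∈ Icc 1 ⌊(X : ℝ) ^ μ⌋₊, ∑ k ∈ Icc 1 ⌊(X : ℝ) ^ ν⌋₊,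
            if Nat.Coprime m k then a m * (b k * r (m * k)) else 0| ≤ E) →
          |∑ T ∈ (Ce X ϖ nε nυ).powerset, c T * r (∏ p ∈ T, p)| ≤ A * E) ∧
      ∀ h : ℕ → ℝ, (∀ p ∈ Ce X ϖ nε nυ, 0 ≤ h p) →
        (∀ p ∈ pr X (u / (2 * i + 1) / 2) 1, 0 ≤ h p) →
        Mer (pr X (u / (2 * i + 1) / 2) 1) (tt X) h (u / (2 * i + 1) / 2) 1 η →
        u / (2 * i + 1) * f0 ≤ VV (Ce X ϖ nε nυ) c h := by
  have r2n : 1 ≤ r2 := by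
    obtain ⟨k, hk⟩ := o2
    omega
  have r2pos : (1 : ℝ) ≤ r2 := by exact_mod_cast r2n
  have h12r : 2 * (r2 : ℝ) < r1 := by exact_mod_cast h12
  have h5r : (r1 : ℝ) ≤ 5 * r2 := by exact_mod_cast h5
  have h23r : (r2 : ℝ) ≤ r3 := by exact_mod_cast h23
  have h31r : (r3 : ℝ) + 1 ≤ r1 := by exact_mod_cast h31
  have hζ : 0 < (r2 : ℝ) * u := by positivity
  have h2τ : 2 * ((r2 : ℝ) * u) < r1 * u := by nlinarith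
  have h4τ : (r1 : ℝ) * u ≤ 5 * (r2 * u) := by nlinarith
  have hζυ : (r2 : ℝ) * u ≤ r3 * u := mul_le_mul_of_nonneg_right h23r hu.le
  have hυτ' : (r3 : ℝ) * u + u ≤ r1 * u := by nlinarith
  have hυτ : (r3 : ℝ) * u < r1 * u := by linarith
  obtain ⟨f0, F0, hf0, hF0, HL⟩ := lswc (r1 * u) (r2 * u) (r3 * u) a b hζ h2τ h4τ hτ hζυ hυτ ha hb
    hab hJ
  refine ⟨f0, hf0, ?_⟩
  intro i ϖ2 hϖ2
  set γ : ℝ := μ + ν - r1 * u with hγ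
  have hγ0 : 0 < γ := by linarith
  have hir : (0 : ℝ) ≤ i := Nat.cast_nonneg _
  have hs1 : (1 : ℝ) ≤ 2 * (i : ℝ) + 1 := by linarith
  obtain ⟨ε₁, hε₁⟩ : ∃ ε₁ : ℝ, ε₁ = u / (2 * i + 1) := ⟨_, rfl⟩
  have hε0 : 0 < ε₁ := by rw [hε₁]; positivity
  have hεu : ε₁ ≤ u := by rw [hε₁]; exact div_le_self hu.le hs1
  have hεζ : ε₁ ≤ (r2 : ℝ) * u := by
    refine hεu.trans ?_
    exact le_mul_of_one_le_left hu.le r2pos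
  have hετ : ε₁ ≤ (r1 : ℝ) * u - r3 * u := by linarith
  obtain ⟨η, ϖ1, K, hη, hϖ1, hK1, HL'⟩ := HL ε₁ hε0 hεζ hετ
  obtain ⟨ϖ, δ0, nε, nz, nυ, n0, x, y, hϖϖm, hP⟩ := params r1 r2 r3 i o1 o2 o3 u μ ν η (min ϖ1 ϖ2) K
    hu r2n h23 h31 hν hν2 hμν hη (lt_min hϖ1 hϖ2)
  have hϖϖ1 : ϖ ≤ ϖ1 := hϖϖm.trans (min_le_left _ _)
  have hϖϖ2 : ϖ ≤ ϖ2 := hϖϖm.trans (min_le_right _ _)
  rw [← hγ, ← hε₁] at hP
  rw [← hε₁]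
  have hϖ0 := hP.ϖp
  refine ⟨η / 4, (TT0 n0 nυ).card * (1 + a) + 1, ϖ, nε, nz, nυ, by positivity,
    by positivity, hϖ0, hϖϖ2, hP.m1, hP.m2, hP.eε, hP.ez, hP.eυ, ?_⟩
  intro X hX2
  have hX1r : (1 : ℝ) ≤ X := by exact_mod_cast (by omega : 1 ≤ X)
  have hX0 : (0 : ℝ) < X := by linarith
  have hPR : Ce X ϖ nε nz ∪ Ce X ϖ nz nυ = Ce X ϖ nε nυ := Ce_union X ϖ nε nz nυ hP.m1 hP.m2
  have hCD := cd_nat X hX2 ϖ δ0 (r1 * u) (r2 * u) (r3 * u) ε₁ nε nz nυ n0 K hϖ0 hP.δp hP.δs hP.e0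
    hP.ez hP.eυ hP.eε
  obtain ⟨k1, k2, k3, k4⟩ := HL' _ _ _ (cel X ϖ) ϖ δ0 n0 nz hCD hϖϖ1
  rw [hPR] at k1 k2 k3 k4
  have hprime : ∀ p ∈ Ce X ϖ nε nυ, p.Prime := fun p hp => (mem_Ce.1 hp).2.1
  have hsp : ∀ S ⊆ Ce X ϖ nε nυ, yL n0 nz K ϖ a b (ty (cel X ϖ) S) ≠ 0 →
      ∃ T1 ⊆ S, ∑ q ∈ T1, (cel X ϖ q + 1) ≤ x ∧ ∑ q ∈ S \ T1, (cel X ϖ q + 1) ≤ y := by
    intro S hS hne
    apply k2 S hS (Or.inr hne) x y hP.xy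
    intro q hq
    rw [mem_Ce] at hq
    have := hP.m3
    omega
  have sx : ϖ * x ≤ μ := by
    have h6 := hP.sx
    linarith
  refine ⟨fun T => if T ⊆ Ce X ϖ nε nυ then yL n0 nz K ϖ a b (ty (cel X ϖ) T) else 0, ?_, ?_, ?_, ?_, ?_⟩
  · intro T
    show |if T ⊆ Ce X ϖ nε nυ then yL n0 nz K ϖ a b (ty (cel X ϖ) T) else 0| ≤ 1 + a
    split_ifs with hT
    · exact (k1 T hT).2
    · rw [abs_zero]
      linarith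
  · intro T hT
    have hT' : (if T ⊆ Ce X ϖ nε nυ then yL n0 nz K ϖ a b (ty (cel X ϖ) T) else 0) ≠ 0 := hT
    split_ifs at hT' with h1
    · refine ⟨h1, ?_⟩
      obtain ⟨T1, hT1, h6, h7⟩ := hsp T h1 hT'
      have h8 := prod_cel X hX2 ϖ hϖ0 T (fun p hp => (hprime p (h1 hp)).one_le)
      refine h8.trans (Real.rpow_le_rpow_of_exponent_le hX1r ?_)
      have h9 : ∑ q ∈ T, (cel X ϖ q + 1) = ∑ q ∈ T \ T1, (cel X ϖ q + 1) + ∑ q ∈ T1, (cel X ϖ q + 1) :=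
        (sum_sdiff hT1).symm
      have h10 : ∑ q ∈ T, (cel X ϖ q + 1) ≤ n0 := by
        have := hP.xy
        omega
      have h11 : ((∑ q ∈ T, (cel X ϖ q + 1) : ℕ) : ℝ) ≤ n0 := by exact_mod_cast h10
      have h12 := mul_le_mul_of_nonneg_left h11 hϖ0.le
      have h13 := hP.e0
      have h14 : ϖ * ((n0 : ℝ) + 1 / 2) = ϖ * n0 + ϖ / 2 := by ring
      linarith
    · exact absurd rfl hT'
  · intro N
    refine le_trans (le_of_eq ?_) (k3 N).1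
    apply VV_congr
    intro T hT
    rw [if_pos hT]
  · intro r E hr
    have hE : 0 ≤ E := by
      have := hr (fun _ => 0) (fun _ => 0) (by simp) (by simp) (by simp)
      exact (abs_nonneg _).trans this
    have h1 := rem_L X hX2 ϖ hϖ0 nε nυ n0 x y hP.xy μ ν sx hP.sy (yL n0 nz K ϖ a b) (1 + a) E
      (by linarith) (fun S hS => (k1 S hS).2) hsp r hr
    have h2 : ∑ T ∈ (Ce X ϖ nε nυ).powerset, (if T ⊆ Ce X ϖ nε nυ then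
        yL n0 nz K ϖ a b (ty (cel X ϖ) T) else 0) * r (∏ p ∈ T, p) =
        ∑ T ∈ (Ce X ϖ nε nυ).powerset, yL n0 nz K ϖ a b (ty (cel X ϖ) T) * r (∏ p ∈ T, p) := by
      refine sum_congr rfl fun T hT => ?_
      rw [if_pos (mem_powerset.1 hT)]
    rw [h2]
    refine h1.trans ?_
    have h3 : ((TT0 n0 nυ).card * (1 + a) + 1) * E = (TT0 n0 nυ).card * ((1 + a) * E) + E := by ring
    rw [h3]
    linarith
  · intro h hh0 hh1' hMer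
    have hMr := mer_cel X hX2 h _ _ _ _ _ _ _ _ _ _ _ _ _ _ _ _ _ hP hε0 (by linarith) hh1' hMer
    obtain ⟨a5, -⟩ := k4 h hh0 hMr
    refine a5.trans (le_of_eq ?_)
    apply VV_congr
    intro T hT
    rw [if_pos hT]

end Pool.Agent.T2h76
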