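import Pool.Agent.T2h76.Mt7

/-! The sums at one centre. -/

set_option autoImplicit false
set_option linter.unusedSectionVars false

namespace Pool.Agent.T2h76.MT

open Finset Filter
open Pool.Agent.R498.MT
open Pool.Agent.Y677.RSZ (rt Sys rhoT per_mod)
open Pool.Agent.Y882 (VV)

theorem alg1 {ι : Type} (I : Finset ℕ) (J : Finset ι) (g ν0 πp πm Λ2 : ℕ → ℝ)
    (Λi w wb : ℕ → ι → ℝ) (m : ℝ) (hm : 0 ≤ m) (hg : ∀ K ∈ I, 0 ≤ g K) (h0 : ∀ K ∈ I, 0 ≤ ν0 K)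
    (h1 : ∀ K ∈ I, πm K ≤ ν0 K) (h2 : ∀ K ∈ I, ν0 K ≤ πp K) (hΛ : ∀ K ∈ I, 0 ≤ Λ2 K)
    (hΛi : ∀ K ∈ I, ∀ i ∈ J, 0 ≤ Λi K i) (hw : ∀ K ∈ I, ∀ i ∈ J, w K i ≤ wb K i)
    (hwb : ∀ K ∈ I, ∀ i ∈ J, wb K i ≤ 1)
    (hs : ∀ K ∈ I, ∀ i ∈ J, wb K i ≠ 0 → Λ2 K = Λi K i) :
    ∑ i ∈ J, (∑ K ∈ I, g K * (πp K * (Λi K i * w K i)) -
      (∑ K ∈ I, g K * (πp K * Λi K i) - ∑ K ∈ I, g K * (πm K * Λi K i))) -
      m * ∑ K ∈ I, g K * (πp K * Λ2 K) ≤
      ∑ K ∈ I, g K * (ν0 K * (Λ2 K * (∑ i ∈ J, wb K i - m))) := by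
  have e1 : ∑ i ∈ J, (∑ K ∈ I, g K * (πp K * (Λi K i * w K i)) -
      (∑ K ∈ I, g K * (πp K * Λi K i) - ∑ K ∈ I, g K * (πm K * Λi K i))) -
      m * ∑ K ∈ I, g K * (πp K * Λ2 K) =
      ∑ K ∈ I, g K * (∑ i ∈ J, (πp K * (Λi K i * w K i) - (πp K * Λi K i - πm K * Λi K i)) -
        m * (πp K * Λ2 K)) := by
    have e2 : ∀ i ∈ J, (∑ K ∈ I, g K * (πp K * (Λi K i * w K i)) -
      (∑ K ∈ I, g K * (πp K * Λi K i) - ∑ K ∈ I, g K * (πm K * Λi K i))) =
        ∑ K ∈ I, g K * (πp K * (Λi K i * w K i) - (πp K * Λi K i - πm K * Λi K i)) := by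
      intro i _
      rw [← sum_sub_distrib, ← sum_sub_distrib]
      refine sum_congr rfl fun K _ => ?_
      ring
    rw [sum_congr rfl e2, sum_comm, mul_sum, ← sum_sub_distrib]
    refine sum_congr rfl fun K _ => ?_
    rw [← mul_sum]
    ring
  rw [e1]
  apply sum_le_sum
  intro K hK
  apply mul_le_mul_of_nonneg_left _ (hg K hK)
  have a0 := h0 K hK
  have a1 := h1 K hK
  have a2 := h2 K hK
  have a3 := hΛ K hK
  have e3 : ν0 K * (Λ2 K * (∑ i ∈ J, wb K i - m)) =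
      ∑ i ∈ J, ν0 K * (Λ2 K * wb K i) - m * (ν0 K * Λ2 K) := by
    rw [← mul_sum, ← mul_sum]
    ring
  rw [e3]
  apply sub_le_sub
  · apply sum_le_sum
    intro i hi
    have b1 := hΛi K hK i hi
    have b2 := hw K hK i hi
    have b3 := hwb K hK i hi
    have c1 : πp K * (Λi K i * w K i) - (πp K * Λi K i - πm K * Λi K i) ≤ ν0 K * (Λi K i * w K i) := by
      have d1 : 0 ≤ (πp K - ν0 K) * Λi K i * (1 - w K i) :=
        mul_nonneg (mul_nonneg (by linarith) b1) (by linarith)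
      have d2 : 0 ≤ (ν0 K - πm K) * Λi K i := mul_nonneg (by linarith) b1
      nlinarith
    refine c1.trans ?_
    apply mul_le_mul_of_nonneg_left _ a0
    by_cases hz : wb K i = 0
    · rw [hz, mul_zero]
      rw [hz] at b2
      exact mul_nonpos_of_nonneg_of_nonpos b1 b2
    · rw [hs K hK i hi hz]
      exact mul_le_mul_of_nonneg_left b2 b1
  · apply mul_le_mul_of_nonneg_left _ hm
    exact mul_le_mul_of_nonneg_right a2 a3

theorem alg2 (k m : ℕ) (A Bp Bm MA MB : Fin (2 ^ k) → ℝ) (D MD c U Lw V δ If' Ab' e : ℝ)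
    (hc : 0 ≤ c) (hV : 0 ≤ V)
    (hA : ∀ i, |A i - c * (U * MA i)| ≤ e) (hBp : ∀ i, |Bp i - c * (U * MB i)| ≤ e)
    (hBm : ∀ i, |Bm i - c * (Lw * MB i)| ≤ e) (hD : |D - c * (U * MD)| ≤ e)
    (hMA : ∀ i, 2 * ((m : ℝ) + 1) / 2 ^ k * If' ≤ MA i) (hMB : ∀ i, |MB i| ≤ Ab') (hMD : MD ≤ 2 * If')
    (hI : 1 ≤ If') (h1 : (1 - δ) * V ≤ Lw) (h2 : Lw ≤ U) (h3 : U ≤ (1 + δ) * V) (h4 : V ≤ U)
    (hE : 2 ^ k * (2 * δ) * Ab' ≤ 1 / 4) :
    c * V * (7 / 4) - (3 * 2 ^ k + m) * e ≤ ∑ i, (A i - (Bp i - Bm i)) - m * D := by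
  have hU : 0 ≤ U := hV.trans h4
  have hAb : 0 ≤ Ab' := (abs_nonneg _).trans (hMB ⟨0, by positivity⟩)
  have key : ∀ i, c * (U * (2 * ((m : ℝ) + 1) / 2 ^ k * If') - 2 * δ * V * Ab') - 3 * e ≤
      A i - (Bp i - Bm i) := by
    intro i
    have a1 := abs_le.1 (hA i)
    have a2 := abs_le.1 (hBp i)
    have a3 := abs_le.1 (hBm i)
    have a4 : U * (2 * ((m : ℝ) + 1) / 2 ^ k * If') ≤ U * MA i := mul_le_mul_of_nonneg_left (hMA i) hU
    have a5 : (U - Lw) * MB i ≤ 2 * δ * V * Ab' := by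
      calc (U - Lw) * MB i ≤ (U - Lw) * |MB i| :=
            mul_le_mul_of_nonneg_left (le_abs_self _) (by linarith)
        _ ≤ (2 * δ * V) * Ab' := by
            apply mul_le_mul _ (hMB i) (abs_nonneg _) _
            · linarith
            · linarith
    have a6 : c * (U * (2 * ((m : ℝ) + 1) / 2 ^ k * If') - 2 * δ * V * Ab') ≤
        c * (U * MA i - (U - Lw) * MB i) := mul_le_mul_of_nonneg_left (by linarith) hc
    have a7 : c * (U * MA i - (U - Lw) * MB i) = c * (U * MA i) - (c * (U * MB i) - c * (Lw * MB i)) := by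
      ring
    linarith
  have hsum := sum_le_sum (s := (univ : Finset (Fin (2 ^ k)))) fun i _ => key i
  rw [sum_const, card_univ, Fintype.card_fin, nsmul_eq_mul] at hsum
  push_cast at hsum
  have h2k : (0 : ℝ) < 2 ^ k := by positivity
  have e1 : (2 : ℝ) ^ k * (c * (U * (2 * ((m : ℝ) + 1) / 2 ^ k * If') - 2 * δ * V * Ab') - 3 * e) =
      c * (2 * (m + 1) * (U * If') - (2 ^ k * (2 * δ) * Ab') * V) - 3 * 2 ^ k * e := by
    field_simp
  rw [e1] at hsum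
  have a8 := (abs_le.1 hD).2
  have hm0 : (0 : ℝ) ≤ m := Nat.cast_nonneg m
  have a9 : (m : ℝ) * D ≤ m * (c * (U * (2 * If')) + e) := by
    apply mul_le_mul_of_nonneg_left _ hm0
    have : c * (U * MD) ≤ c * (U * (2 * If')) := by gcongr
    linarith
  have a10 : (2 ^ k * (2 * δ) * Ab') * V ≤ 1 / 4 * V := mul_le_mul_of_nonneg_right hE hV
  have a11 : V * 1 ≤ U * If' := mul_le_mul h4 hI zero_le_one hU
  have a12 : c * (V * (7 / 4)) ≤ c * (2 * (U * If') - (2 ^ k * (2 * δ) * Ab') * V) :=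
    mul_le_mul_of_nonneg_left (by linarith) hc
  nlinarith

section del
variable {S J : Type} [Fintype S] [DecidableEq S] [Fintype J] [DecidableEq J]

/-- the coefficients of the trivial sum -/
def del (T : Finset S) : ℝ := if T = ∅ then 1 else 0

theorem del_one (i : J) (x : S → Option J) :
    ∑ T : Finset S, del T * (if ∀ t ∈ T, x t = some i then 1 else 0) = 1 := by
  rw [sum_eq_single ∅]
  · simp [del]
  · intro T _ hT
    simp [del, hT]
  · simp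

theorem del_sum (a : (S → Option J) → ℝ) (i : J) (f : (S → Option J) → ℝ) :
    ∑ V, ∑ T : Finset S, (if ∀ t ∈ T, V t = none then a V * del T else 0) * f (jn T V i) =
      ∑ V, a V * f V := by
  refine sum_congr rfl fun V _ => ?_
  rw [sum_eq_single ∅]
  · have : jn ∅ V i = V := by
      funext t
      simp [jn]
    rw [this]
    simp [del]
  · intro T _ hT
    simp [del, hT]
  · simp

theorem del_abs : ∑ T : Finset S, |(del T : ℝ)| = 1 := by
  rw [sum_eq_single ∅]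
  · simp [del]
  · intro T _ hT
    simp [del, hT]
  · simp

end del

end Pool.Agent.T2h76.MT
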