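import Pool.Agent.T2h76.Mt8

/-! The sums at one centre: the inequality. -/

set_option autoImplicit false
set_option linter.unusedSectionVars false

namespace Pool.Agent.T2h76.MT

open Finset Filter
open Pool.Agent.R498.MT
open Pool.Agent.Y677.RSZ (rt Sys rhoT per_mod)
open Pool.Agent.Y882 (VV)

section lam
variable {S : Type} [Fintype S] [DecidableEq S]

/-- the weight of the arguments with few prime factors -/
theorem Lam_fin' (k : ℕ) (R : ℝ) (hR : 0 < R) (ε₁ : ℝ) (hε : 0 < ε₁) (w : ℝ) (hεw : ε₁ ≤ w)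
    (q μ l : S → ℝ) (ω : ℝ) (hd : Dat q μ l ε₁ R w ω) (i : Option (Fin (2 ^ k)))
    (x : S → Option (Fin (2 ^ k))) (c : ℕ)
    (hx : (univ.filter (fun t => x t ≠ none)).card ≤ c) :
    Lam i q μ (yf l R k) x ^ 2 ≤ (Ab k ε₁ * 2 ^ c) ^ 2 := by
  have hl0 : ∀ t, 0 ≤ l t := fun t => hε.le.trans (hd.l1 t)
  have hmq : ∀ t, μ t * (q t - 1) ≤ 1 := by
    intro t
    rcases hd.mq t with h | h
    · rw [h]; norm_num
    · exact h.le
  have h1 := Lam_bd (J := Fin (2 ^ k)) i q μ hd.q2 hd.m0 hmq (yf l R k) (fun σ => by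
      have := yf_facts l hl0 R hR k σ
      rw [abs_of_nonneg this.1]
      exact this.2.1) x
  have h2 : ∏ t, (1 + (Fintype.card (Fin (2 ^ k)) : ℝ) * μ t) ≤ Ab k ε₁ := by
    refine le_trans ?_ (AA_Ab hd hε hεw k)
    unfold AA
    apply Finset.prod_le_prod
    · intro t _
      have := hd.m0 t
      positivity
    · intro t _
      have h3 := hd.m0 t
      have h4 : (1 : ℝ) ≤ (Fintype.card (Fin (2 ^ k)) : ℝ) := by
        rw [Fintype.card_fin]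
        exact_mod_cast Nat.one_le_two_pow
      have h5 : (Fintype.card (Fin (2 ^ k)) : ℝ) * μ t ≤
          8 * (Fintype.card (Fin (2 ^ k)) : ℝ) ^ 2 * μ t := by
        apply mul_le_mul_of_nonneg_right _ h3
        nlinarith
      linarith
  have h3 : (2 : ℝ) ^ (univ.filter (fun t => x t ≠ none)).card ≤ 2 ^ c :=
    pow_le_pow_right₀ (by norm_num) hx
  have h4 : |Lam i q μ (yf l R k) x| ≤ Ab k ε₁ * 2 ^ c := by
    refine h1.trans ?_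
    have h5 : 0 ≤ ∏ t, (1 + (Fintype.card (Fin (2 ^ k)) : ℝ) * μ t) :=
      prod_nonneg fun t _ => by have := hd.m0 t; positivity
    exact mul_le_mul h2 h3 (by positivity) (h5.trans h2)
  rw [← sq_abs]
  exact pow_le_pow_left₀ (abs_nonneg _) h4 2

/-- the number of the primes of a class -/
theorem supp_card (l : S → ℝ) (ε R : ℝ) (hε : 0 < ε) (hl : ∀ t, ε ≤ l t) {m : ℕ}
    (V : S → Option (Fin m)) (c : ℕ) (hc : 2 * R / ε ≤ c) (hV : lt l V ≤ 2 * R) :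
    (univ.filter (fun t => V t ≠ none)).card ≤ c := by
  have h1 : ((univ.filter (fun t => V t ≠ none)).card : ℝ) * ε ≤ lt l V := by
    unfold lt
    rw [← nsmul_eq_mul, ← sum_const, sum_filter]
    apply sum_le_sum
    intro t _
    by_cases h : V t = none
    · rw [if_neg (fun h2 => h2 h), if_pos h]
    · rw [if_pos h, if_neg h]
      exact hl t
  have h2 : ((univ.filter (fun t => V t ≠ none)).card : ℝ) ≤ c := by
    refine le_trans ?_ hc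
    rw [le_div_iff₀ hε]
    linarith
  exact_mod_cast h2

theorem kap_fin (k : ℕ) (R : ℝ) (hR : 0 < R) (ε₁ : ℝ) (hε : 0 < ε₁) (w : ℝ) (hεw : ε₁ ≤ w)
    (q μ l : S → ℝ) (ω : ℝ) (hd : Dat q μ l ε₁ R w ω) (i : Option (Fin (2 ^ k)))
    (c : ℕ) (hc : 2 * R / ε₁ ≤ c) (V : S → Option (Fin (2 ^ k))) :
    (kap i q μ (yf l R k) V ≠ 0 → lt l V ≤ 2 * R ∧ (univ.filter (fun t => V t ≠ none)).card ≤ c) ∧
    |kap i q μ (yf l R k) V| ≤ 2 ^ c * (Ab k ε₁ * 2 ^ c) ^ 2 := by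
  have hl0 : ∀ t, 0 ≤ l t := fun t => hε.le.trans (hd.l1 t)
  have h0 : kap i q μ (yf l R k) V ≠ 0 → lt l V ≤ 2 * R ∧
      (univ.filter (fun t => V t ≠ none)).card ≤ c := by
    intro h
    have h1 := kap_good i q μ l hl0 (yf l R k) R
      (fun σ hσ => (yf_facts l hl0 R hR k σ).2.2 hσ) V h
    exact ⟨h1, supp_card l ε₁ R hε hd.l1 V c hc h1⟩
  refine ⟨h0, ?_⟩
  by_cases h : kap i q μ (yf l R k) V = 0
  · rw [h, abs_zero]
    positivity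
  obtain ⟨_, h2⟩ := h0 h
  have h3 := kap_bd i q μ (yf l R k) V ((Ab k ε₁ * 2 ^ c) ^ 2) (by
    intro x hx
    apply Lam_fin' k R hR ε₁ hε w hεw q μ l ω hd i x c
    refine le_trans (card_le_card ?_) h2
    intro t ht
    rw [mem_filter] at ht ⊢
    exact ⟨ht.1, hx t ht.2⟩)
  refine h3.trans ?_
  apply mul_le_mul_of_nonneg_right _ (sq_nonneg _)
  exact pow_le_pow_right₀ (by norm_num) h2

end lam

section cen
variable {S : Type} [Fintype S] [DecidableEq S]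
variable (pp : S → ℕ) (hpr : ∀ s, (pp s).Prime) (hinj : Function.Injective pp)

open Classical in
include hpr hinj in
/-- **The inequality at one centre.** -/
theorem center (F : ℤ → ℤ) (hF : ∀ p : ℕ, p.Prime → ∀ n : ℤ, (p : ℤ) ∣ F (n + p) - F n)
    (W b M L : ℕ) (hW0 : 0 < W) (k m : ℕ) (t : Fin (2 ^ k) → ℕ) (P : Finset ℕ)
    (hP : ∀ p ∈ P, p.Prime)
    (hPS : ∀ p ∈ P, ∀ s, p ≠ pp s) (hW : ∀ s, ¬ pp s ∣ W)
    (ξ : ℕ → S → Option (Fin (2 ^ k)))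
    (hξ : ∀ K s j, ξ K s = some j ↔ (pp s : ℤ) ∣ G1 ((W * (K + t j) + b : ℕ) : ℤ))
    (Y c Λ : ℝ) (hY : 1 ≤ Y) (hΛ : 0 ≤ Λ) (hc1 : ((W * M + b : ℕ) : ℝ) + Y * Λ ≤ c)
    (hc2 : c + Y * Λ ≤ ((W * (M + L) + b : ℕ) : ℝ))
    (nK : ℕ → ℕ) (hnK : ∀ K, ∀ p ∈ P, p ∣ nK K ↔ ∃ j, (p : ℤ) ∣ F ((W * (K + t j) + b : ℕ) : ℤ))
    (cU cF : Finset ℕ → ℝ) (Λ0 δ : ℝ) (zQ zV c' : ℕ) (hcU : ∀ Q, |cU Q| ≤ Λ0) (hcF : ∀ Q, |cF Q| ≤ Λ0)
    (hcs : ∀ Q ⊆ P, (cU Q ≠ 0 ∨ cF Q ≠ 0) → ∏ p ∈ Q, p ≤ zQ)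
    (hfl : ∀ N : ℕ, VV P cF (fun p => if p ∣ N then 1 else 0) ≤ (if ∀ p ∈ P, ¬ p ∣ N then 1 else 0) ∧
      (if ∀ p ∈ P, ¬ p ∣ N then 1 else 0) ≤ VV P cU (fun p => if p ∣ N then 1 else 0))
    (Vv : ℝ) (hVv : 0 ≤ Vv)
    (v1 : (1 - δ) * Vv ≤ VV P cF (fun p => (rhoT F W b t p : ℝ) / p))
    (v2 : VV P cF (fun p => (rhoT F W b t p : ℝ) / p) ≤ VV P cU (fun p => (rhoT F W b t p : ℝ) / p))
    (v3 : VV P cU (fun p => (rhoT F W b t p : ℝ) / p) ≤ (1 + δ) * Vv)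
    (v4 : Vv ≤ VV P cU (fun p => (rhoT F W b t p : ℝ) / p))
    (C₁ R f0 τ ε υ : ℝ) (hC : 0 ≤ C₁) (hR : 0 < R) (hf0 : 0 < f0) (hτ : τ ≤ 1)
    (hk : 3 * ((m : ℝ) + 1) * 1474560 ≤ f0 * R * k) (hε : 0 < ε) (hεe : ε ≤ e0 k C₁ R) (hευ : ε ≤ υ)
    (μ l : S → ℝ) (hd : Dat (qq pp) μ l ε R υ (om k C₁ ε)) (hγμ : ∀ s, 1 / qq pp s ≤ μ s)
    (cL : Finset S → ℝ) (hcL : ∀ T, |cL T| ≤ C₁) (hcT : ∀ T, cL T ≠ 0 → lz l T ≤ τ)
    (hV : f0 * ε ≤ ∑ T, cL T * ∏ s ∈ T, 1 / qq pp s)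
    (hE : 2 ^ k * (2 * δ) * Ab k ε ≤ 1 / 4) (hc' : 2 * R / ε ≤ c')
    (hzV : ∀ V : S → Option (Fin (2 ^ k)), lt l V ≤ 2 * R → DT pp V ≤ zV)
    (TT E₁ : ℝ) (hTT : ∑ T, |cL T| ≤ TT) (hTT1 : 1 ≤ TT) (hE₁ : 0 ≤ E₁)
    (hbl : ∀ Q ⊆ P, ∏ p ∈ Q, p ≤ zQ → ∀ V : S → Option (Fin (2 ^ k)), DT pp V ≤ zV →
      ∀ (i : Fin (2 ^ k)) (u : ℤ),
      |∑ T : Finset S, (if ∀ s ∈ T, V s = none then cL T * rmd Y (c + W * t i)
        (W * ((∏ p ∈ Q, p) * DT pp V)) u (∏ s ∈ T, pp s) else 0)| ≤ E₁ ∧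
      |∑ T : Finset S, (if ∀ s ∈ T, V s = none then del T * rmd Y (c + W * t i)
        (W * ((∏ p ∈ Q, p) * DT pp V)) u (∏ s ∈ T, pp s) else 0)| ≤ E₁)
    (wb : ℕ → Fin (2 ^ k) → ℝ)
    (hwb : ∀ K i, ∑ T, cL T * (if ∀ s ∈ T, ξ K s = some i then 1 else 0) ≤ wb K i)
    (hwb1 : ∀ K i, wb K i ≤ 1)
    (hw0 : ∀ K i, wb K i ≠ 0 → ∀ s, ξ K s = some i → R < l s) :
    Y / W * Vv * (7 / 4) - (3 * 2 ^ k + m) * ((zQ * Λ0) * (((2 ^ k + 1 : ℕ) : ℝ) ^ c' * zV *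
      (2 ^ c' * (Ab k ε * 2 ^ c') ^ 2)) * ((zQ * zV : ℕ) *
        (E₁ + TT * (Real.exp (-(Real.pi / 2 * Λ ^ 2)) * (2 * Y + C0))))) ≤
      ∑ K ∈ Ioc M (M + L), gw Y c ((W * K + b : ℕ) : ℤ) *
        ((if ∀ p ∈ P, ¬ p ∣ nK K then 1 else 0) *
          (Lam none (qq pp) μ (yf l R k) (ξ K) ^ 2 * (∑ i, wb K i - m))) := by
  have hl0 : ∀ s, 0 ≤ l s := fun s => hε.le.trans (hd.l1 s)
  set e : ℝ := (zQ * Λ0) * (((2 ^ k + 1 : ℕ) : ℝ) ^ c' * zV *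
      (2 ^ c' * (Ab k ε * 2 ^ c') ^ 2)) * ((zQ * zV : ℕ) *
        (E₁ + TT * (Real.exp (-(Real.pi / 2 * Λ ^ 2)) * (2 * Y + C0)))) with he
  set q := qq pp with hq
  set y := yf l R k with hy
  have hkap : ∀ (i : Option (Fin (2 ^ k))) (V : S → Option (Fin (2 ^ k))),
      (kap i q μ y V ≠ 0 → DT pp V ≤ zV ∧ (univ.filter (fun s => V s ≠ none)).card ≤ c') ∧
      |kap i q μ y V| ≤ 2 ^ c' * (Ab k ε * 2 ^ c') ^ 2 := by
    intro i V
    obtain ⟨h1, h2⟩ := kap_fin k R hR ε hε υ hευ q μ l _ hd i c' hc' V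
    refine ⟨fun h => ?_, h2⟩
    obtain ⟨h3, h4⟩ := h1 h
    exact ⟨hzV V h3, h4⟩
  -- the general evaluation
  have hev : ∀ (lam : Finset ℕ → ℝ) (_ : lam = cU ∨ lam = cF) (o : Option (Fin (2 ^ k)))
      (i : Fin (2 ^ k)) (cc : Finset S → ℝ) (_ : cc = cL ∨ cc = del),
      |∑ K ∈ Ioc M (M + L), gw Y c ((W * K + b : ℕ) : ℤ) *
        (VV P lam (fun p => if p ∣ nK K then 1 else 0) *
        ∑ V, ∑ T : Finset S, (if ∀ s ∈ T, V s = none then kap o q μ y V * cc T else 0) *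
          (if Sub (jn T V i) (ξ K) then 1 else 0)) -
      (Y / W) * (VV P lam (fun p => (rhoT F W b t p : ℝ) / p) *
        ∑ V, ∑ T : Finset S, (if ∀ s ∈ T, V s = none then kap o q μ y V * cc T else 0) *
          rV q (jn T V i))| ≤ e := by
    intro lam hlam o i cc hcc
    have h1 := eval pp hpr hinj F hF W b M L hW0 t P hP hPS hW i ξ hξ Y c Λ hY hΛ hc1 hc2 nK hnK
      lam (kap o q μ y) cc zQ zV c' Λ0 (2 ^ c' * (Ab k ε * 2 ^ c') ^ 2) E₁ TT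
      (by rcases hlam with rfl | rfl
          · exact hcU
          · exact hcF)
      (by
        intro Q hQ h
        apply hcs Q hQ
        rcases hlam with rfl | rfl
        · exact Or.inl h
        · exact Or.inr h)
      (fun V => (hkap o V).2) (fun V h => (hkap o V).1 h)
      (by rcases hcc with rfl | rfl
          · exact hTT
          · rw [del_abs]; exact hTT1) hE₁
      (by
        intro Q hQ hQz V hV u
        have h2 := hbl Q hQ hQz V hV i u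
        rcases hcc with rfl | rfl
        · exact h2.1
        · exact h2.2)
    exact h1
  have h0k : 0 < 2 ^ k := by positivity
  -- the four sums
  have hA : ∀ i : Fin (2 ^ k), |∑ K ∈ Ioc M (M + L), gw Y c ((W * K + b : ℕ) : ℤ) *
      (VV P cU (fun p => if p ∣ nK K then 1 else 0) * (Lam (some i) q μ y (ξ K) ^ 2 *
        ∑ T, cL T * (if ∀ s ∈ T, ξ K s = some i then 1 else 0))) -
      (Y / W) * (VV P cU (fun p => (rhoT F W b t p : ℝ) / p) *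
        ∑ V, ∑ T : Finset S, (if ∀ s ∈ T, V s = none then kap (some i) q μ y V * cL T else 0) *
          rV q (jn T V i))| ≤ e := by
    intro i
    have h1 := hev cU (Or.inl rfl) (some i) i cL (Or.inl rfl)
    simp_rw [← pt_exp i q μ y cL] at h1
    exact h1
  have hB : ∀ (lam : Finset ℕ → ℝ) (_ : lam = cU ∨ lam = cF) (i : Fin (2 ^ k)),
      |∑ K ∈ Ioc M (M + L), gw Y c ((W * K + b : ℕ) : ℤ) *
      (VV P lam (fun p => if p ∣ nK K then 1 else 0) * Lam (some i) q μ y (ξ K) ^ 2) -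
      (Y / W) * (VV P lam (fun p => (rhoT F W b t p : ℝ) / p) *
        ∑ V, kap (some i) q μ y V * rV q V)| ≤ e := by
    intro lam hlam i
    have h1 := hev lam hlam (some i) i del (Or.inr rfl)
    simp_rw [← pt_exp i q μ y del, del_one, mul_one] at h1
    rw [del_sum (kap (some i) q μ y) i (rV q)] at h1
    exact h1
  have hD : |∑ K ∈ Ioc M (M + L), gw Y c ((W * K + b : ℕ) : ℤ) *
      (VV P cU (fun p => if p ∣ nK K then 1 else 0) * Lam none q μ y (ξ K) ^ 2) -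
      (Y / W) * (VV P cU (fun p => (rhoT F W b t p : ℝ) / p) *
        ∑ V, kap none q μ y V * rV q V)| ≤ e := by
    have h1 := hev cU (Or.inl rfl) none ⟨0, h0k⟩ del (Or.inr rfl)
    rw [del_sum (kap none q μ y) ⟨0, h0k⟩ (rV q)] at h1
    refine le_trans (le_of_eq ?_) h1
    congr 2
    refine sum_congr rfl fun K _ => ?_
    congr 2
    rw [del_sum (kap none q μ y) ⟨0, h0k⟩ (fun V => if Sub V (ξ K) then 1 else 0), kap_exp]
  have hF3 := fun i => F3 k C₁ R f0 τ hC hR hf0 m hτ hk ε hε hεe υ q μ l hd i hγμ cL hcL hcT hV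
  have hF2 := fun i => F2 k C₁ R hR ε hε hεe υ q μ l hd i
  have hF1 := F1 k C₁ R hC hR ε hε hεe υ q μ l hd
  have hIf : 1 ≤ If μ l R k := one_le_pow₀ (I2_one hd hε hR k)
  have h2 := alg2 k m _ _ _ _ _ _ _ (Y / W) _ _ Vv δ (If μ l R k) (Ab k ε) e (by positivity) hVv hA
    (fun i => hB cU (Or.inl rfl) i) (fun i => hB cF (Or.inr rfl) i) hD hF3 hF2 hF1 hIf v1 v2 v3 v4 hE
  refine h2.trans ?_
  refine alg1 (Ioc M (M + L)) univ (fun K => gw Y c ((W * K + b : ℕ) : ℤ))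
    (fun K => if ∀ p ∈ P, ¬ p ∣ nK K then 1 else 0)
    (fun K => VV P cU (fun p => if p ∣ nK K then 1 else 0))
    (fun K => VV P cF (fun p => if p ∣ nK K then 1 else 0))
    (fun K => Lam none q μ y (ξ K) ^ 2) (fun K i => Lam (some i) q μ y (ξ K) ^ 2)
    (fun K i => ∑ T, cL T * (if ∀ s ∈ T, ξ K s = some i then 1 else 0)) wb m
    (Nat.cast_nonneg m) (fun K _ => (gw_pos _ _ _).le) ?_ (fun K _ => (hfl (nK K)).1)
    (fun K _ => (hfl (nK K)).2) (fun K _ => sq_nonneg _) (fun K _ i _ => sq_nonneg _)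
    (fun K _ i _ => hwb K i) (fun K _ i _ => hwb1 K i) ?_
  · intro K _
    show (0 : ℝ) ≤ if ∀ p ∈ P, ¬ p ∣ nK K then 1 else 0
    split_ifs <;> norm_num
  · intro K _ i _ hne
    show Lam none q μ y (ξ K) ^ 2 = Lam (some i) q μ y (ξ K) ^ 2
    rw [Lam_slot q μ l R y (fun σ hσ => (yf_facts l hl0 R hR k σ).2.2 hσ) hl0 i (ξ K) (hw0 K i hne)]

end cen

end Pool.Agent.T2h76.MT
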