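import Pool.Agent.T2h76.Rt

/-! Sums over the roots of `ν ^ 2 + 1` as sums over primitive points. -/

set_option autoImplicit false

namespace Pool.Agent.T2h76

open Finset

/-- the root attached to the point `(x, y)` -/
noncomputable def nu0 (x y : ℤ) : ℤ := x * ((((y : ZMod (x ^ 2 + y ^ 2).toNat))⁻¹).val : ℤ)

theorem nu0_spec (m : ℕ) (x y : ℤ) (h : x ^ 2 + y ^ 2 = m) (hc : IsCoprime x y) :
    (m : ℤ) ∣ nu0 x y * y - x ∧ (m : ℤ) ∣ (nu0 x y) ^ 2 + 1 := by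
  have hm : (x ^ 2 + y ^ 2).toNat = m := by rw [h]; simp
  have hcm : IsCoprime (y : ℤ) (m : ℤ) := by
    rw [← h]
    have h1 : IsCoprime y (x ^ 2) := hc.symm.pow_right
    have h2 := h1.add_mul_left_right y
    have e : x ^ 2 + y * y = x ^ 2 + y ^ 2 := by ring
    rwa [e] at h2
  have hunit : (y : ZMod m) * (y : ZMod m)⁻¹ = 1 := by
    have hu : IsUnit (y : ZMod m) := by
      rw [ZMod.coe_int_isUnit_iff_isCoprime]
      exact hcm.symm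
    exact ZMod.mul_inv_of_unit _ hu
  have hm1 : m ≠ 0 := by
    rintro rfl
    have h3 : x ^ 2 + y ^ 2 = 0 := by exact_mod_cast h
    have h4 : x = 0 := pow_eq_zero_iff (two_ne_zero) |>.1 (by nlinarith [sq_nonneg x, sq_nonneg y] : x ^ 2 = 0)
    have h5 : y = 0 := pow_eq_zero_iff (two_ne_zero) |>.1 (by nlinarith [sq_nonneg x, sq_nonneg y] : y ^ 2 = 0)
    rw [h4, h5] at hc
    exact not_isCoprime_zero_zero hc
  have : NeZero m := ⟨hm1⟩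
  have h1 : (m : ℤ) ∣ nu0 x y * y - x := by
    rw [← ZMod.intCast_eq_intCast_iff_dvd_sub, eq_comm]
    unfold nu0
    rw [hm]
    push_cast
    rw [ZMod.natCast_zmod_val, mul_assoc, mul_comm ((y : ZMod m)⁻¹), hunit, mul_one]
  refine ⟨h1, ?_⟩
  have h2 : (m : ℤ) ∣ y ^ 2 * ((nu0 x y) ^ 2 + 1) := by
    have e : y ^ 2 * ((nu0 x y) ^ 2 + 1) = (nu0 x y * y - x) * (nu0 x y * y + x) + (x ^ 2 + y ^ 2) := by
      ring
    rw [e, h]
    exact dvd_add (h1.mul_right _) dvd_rfl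
  exact (hcm.symm.pow_right).dvd_of_dvd_mul_left h2

theorem sum_Rt (m : ℕ) (hm : 1 ≤ m) (f : ℤ → ℂ) (hf : ∀ a b : ℤ, (m : ℤ) ∣ a - b → f a = f b) :
    ∑ ν ∈ Rt m, f ν = ∑ z ∈ Pt m, f (nu0 z.1 z.2) := by
  symm
  have hm0 : (0 : ℤ) < m := by exact_mod_cast (by omega : 0 < m)
  have hmod : ∀ a : ℤ, (m : ℤ) ∣ a - a % m := fun a => Int.dvd_self_sub_emod
  refine Finset.sum_bij (fun z _ => nu0 z.1 z.2 % m) ?_ ?_ ?_ ?_
  · intro z hz
    obtain ⟨h1, h2, h3, h4, h5⟩ := mem_Pt.1 hz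
    obtain ⟨h6, h7⟩ := nu0_spec m z.1 z.2 h5 h4
    rw [mem_Rt]
    refine ⟨Int.emod_nonneg _ hm0.ne', Int.emod_lt_of_pos _ hm0, ?_⟩
    have e : (nu0 z.1 z.2 % m) ^ 2 + 1 = (nu0 z.1 z.2) ^ 2 + 1 -
      (nu0 z.1 z.2 - nu0 z.1 z.2 % m) * (nu0 z.1 z.2 + nu0 z.1 z.2 % m) := by ring
    rw [e]
    exact dvd_sub h7 ((hmod _).mul_right _)
  · intro z hz z' hz' he
    obtain ⟨h1, h2, h3, h4, h5⟩ := mem_Pt.1 hz
    obtain ⟨h6, h7⟩ := nu0_spec m z.1 z.2 h5 h4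
    obtain ⟨h1', h2', h3', h4', h5'⟩ := mem_Pt.1 hz'
    obtain ⟨h6', h7'⟩ := nu0_spec m z'.1 z'.2 h5' h4'
    refine unique_pt m hm (nu0 z.1 z.2) h7 z z' hz hz' h6 ?_
    have e : nu0 z.1 z.2 * z'.2 - z'.1 = (nu0 z'.1 z'.2 * z'.2 - z'.1) +
      (nu0 z.1 z.2 - nu0 z.1 z.2 % m) * z'.2 - (nu0 z'.1 z'.2 - nu0 z'.1 z'.2 % m) * z'.2 := by
      have he' : nu0 z.1 z.2 % m = nu0 z'.1 z'.2 % m := he
      rw [he']; ring
    rw [e]
    exact dvd_sub (dvd_add h6' ((hmod _).mul_right _)) ((hmod _).mul_right _)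
  · intro ν hν
    obtain ⟨h1, h2, h3⟩ := mem_Rt.1 hν
    obtain ⟨z, hz, hd⟩ := exists_pt m hm ν h3
    refine ⟨z, hz, ?_⟩
    obtain ⟨h1', h2', h3', h4', h5'⟩ := mem_Pt.1 hz
    obtain ⟨h6, h7⟩ := nu0_spec m z.1 z.2 h5' h4'
    have hcm : IsCoprime (z.2 : ℤ) (m : ℤ) := by
      rw [← h5']
      have h1 : IsCoprime z.2 (z.1 ^ 2) := h4'.symm.pow_right
      have h2 := h1.add_mul_left_right z.2
      have e : z.1 ^ 2 + z.2 * z.2 = z.1 ^ 2 + z.2 ^ 2 := by ring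
      rwa [e] at h2
    have h8 : (m : ℤ) ∣ (nu0 z.1 z.2 - ν) * z.2 := by
      have e : (nu0 z.1 z.2 - ν) * z.2 = (nu0 z.1 z.2 * z.2 - z.1) - (ν * z.2 - z.1) := by ring
      rw [e]
      exact dvd_sub h6 hd
    have h9 : (m : ℤ) ∣ nu0 z.1 z.2 - ν := hcm.symm.dvd_of_dvd_mul_right h8
    show nu0 z.1 z.2 % m = ν
    have h10 : nu0 z.1 z.2 % m = ν % m := Int.emod_eq_emod_iff_emod_sub_eq_zero.2
      (Int.emod_eq_zero_of_dvd h9)
    rw [h10, Int.emod_eq_of_lt h1 h2]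
  · intro z hz
    exact hf _ _ (hmod _)

open Classical in
/-- the double sum over `m` and the roots -/
theorem sum_roots (X Y : ℕ) (hY : X < (Y + 1) ^ 2) (f : ℕ → ℤ → ℂ)
    (hf : ∀ m : ℕ, ∀ a b : ℤ, (m : ℤ) ∣ a - b → f m a = f m b) :
    ∑ m ∈ Icc 1 X, ∑ ν ∈ Rt m, f m ν =
      ∑ y ∈ Icc 1 Y, ∑ x ∈ Ioc (-(y : ℤ)) y,
        (if IsCoprime x (y : ℤ) ∧ x ^ 2 + (y : ℤ) ^ 2 ≤ X then
          f (x ^ 2 + (y : ℤ) ^ 2).toNat (nu0 x y) else 0) := by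
  have h1 : ∑ m ∈ Icc 1 X, ∑ ν ∈ Rt m, f m ν =
      ∑ m ∈ Icc 1 X, ∑ z ∈ Pt m, f (z.1 ^ 2 + z.2 ^ 2).toNat (nu0 z.1 z.2) := by
    apply sum_congr rfl
    intro m hm
    rw [mem_Icc] at hm
    rw [sum_Rt m hm.1 (f m) (hf m)]
    apply sum_congr rfl
    intro z hz
    rw [(mem_Pt.1 hz).2.2.2.2]
    simp
  rw [h1, ← sum_biUnion]
  · -- the region
    have h2 : ∀ y ∈ Icc 1 Y, ∑ x ∈ Ioc (-(y : ℤ)) y,
        (if IsCoprime x (y : ℤ) ∧ x ^ 2 + (y : ℤ) ^ 2 ≤ X then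
          f (x ^ 2 + (y : ℤ) ^ 2).toNat (nu0 x y) else 0) =
        ∑ x ∈ Ioc (-(Y : ℤ)) Y, (if (-(y : ℤ) < x ∧ x ≤ y) ∧ IsCoprime x (y : ℤ) ∧
          x ^ 2 + (y : ℤ) ^ 2 ≤ X then f (x ^ 2 + (y : ℤ) ^ 2).toNat (nu0 x y) else 0) := by
      intro y hy
      rw [mem_Icc] at hy
      have h3 : Ioc (-(y : ℤ)) y ⊆ Ioc (-(Y : ℤ)) Y := by
        intro x hx
        rw [mem_Ioc] at hx ⊢
        omega
      rw [← sum_subset h3]
      · apply sum_congr rfl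
        intro x hx
        rw [mem_Ioc] at hx
        simp only [hx, true_and, and_self]
      · intro x _ hx
        rw [mem_Ioc] at hx
        rw [if_neg (fun h => hx h.1)]
    rw [sum_congr rfl h2]
    rw [← sum_product' (Icc 1 Y) (Ioc (-(Y : ℤ)) Y) (fun y x => if (-(y : ℤ) < x ∧ x ≤ y) ∧
      IsCoprime x (y : ℤ) ∧ x ^ 2 + (y : ℤ) ^ 2 ≤ X then
      f (x ^ 2 + (y : ℤ) ^ 2).toNat (nu0 x y) else 0), ← sum_filter]
    symm
    refine Finset.sum_bij (fun (w : ℕ × ℤ) _ => ((w.2, (w.1 : ℤ)) : ℤ × ℤ)) ?_ ?_ ?_ ?_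
    · intro w hw
      rw [mem_filter, mem_product, mem_Icc, mem_Ioc] at hw
      obtain ⟨⟨⟨h3, h4⟩, h5, h6⟩, ⟨h7, h8⟩, h9, h10⟩ := hw
      rw [mem_biUnion]
      have h11 : 0 < w.2 ^ 2 + (w.1 : ℤ) ^ 2 := by
        have : (0 : ℤ) < w.1 := by exact_mod_cast h3
        positivity
      refine ⟨(w.2 ^ 2 + (w.1 : ℤ) ^ 2).toNat, ?_, ?_⟩
      · rw [mem_Icc]
        constructor <;> omega
      · rw [mem_Pt]
        refine ⟨by show (0 : ℤ) < (w.1 : ℤ); omega, h7, h8, h9, ?_⟩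
        show w.2 ^ 2 + (w.1 : ℤ) ^ 2 = _
        rw [Int.toNat_of_nonneg h11.le]
    · intro w hw w' hw' he
      rw [Prod.mk.injEq] at he
      obtain ⟨h3, h4⟩ := he
      ext
      · exact_mod_cast h4
      · exact h3
    · intro z hz
      rw [mem_biUnion] at hz
      obtain ⟨m, hm, hz⟩ := hz
      rw [mem_Icc] at hm
      obtain ⟨h3, h4, h5, h6, h7⟩ := mem_Pt.1 hz
      have hmX : (m : ℤ) ≤ X := by exact_mod_cast hm.2
      have hYX : (X : ℤ) < ((Y : ℤ) + 1) ^ 2 := by exact_mod_cast hY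
      have hz2 : z.2 ≤ Y := by
        by_contra hc
        have h8 : (Y : ℤ) + 1 ≤ z.2 := by omega
        have h9 : ((Y : ℤ) + 1) ^ 2 ≤ z.2 ^ 2 := pow_le_pow_left₀ (by positivity) h8 2
        nlinarith [sq_nonneg z.1]
      refine ⟨(z.2.toNat, z.1), ?_, ?_⟩
      · rw [mem_filter, mem_product, mem_Icc, mem_Ioc]
        have e : ((z.2.toNat : ℕ) : ℤ) = z.2 := Int.toNat_of_nonneg h3.le
        simp only
        rw [e]
        refine ⟨⟨⟨by omega, by omega⟩, by omega, by omega⟩, ⟨h4, h5⟩, h6, by omega⟩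
      · have e : ((z.2.toNat : ℕ) : ℤ) = z.2 := Int.toNat_of_nonneg h3.le
        ext
        · rfl
        · exact e
    · intro w hw
      rfl
  · intro a _ b _ hab
    simp only [Function.onFun]
    rw [disjoint_left]
    intro z hz hz'
    apply hab
    have h2 := (mem_Pt.1 hz).2.2.2.2
    have h3 := (mem_Pt.1 hz').2.2.2.2
    rw [h2] at h3
    exact_mod_cast h3

end Pool.Agent.T2h76
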