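import Pool.Agent.T2h76.Ph

/-! Roots of `ν ^ 2 + 1` and the Chinese remainder theorem. -/

set_option autoImplicit false

namespace Pool.Agent.T2h76

open Finset

/-- the number of roots modulo `a b` in a class modulo `a` -/
theorem fiber (a b : ℕ) (ha : 1 ≤ a) (hb : 1 ≤ b) (h : Nat.Coprime a b) (n : ℤ)
    (hn : (a : ℤ) ∣ n ^ 2 + 1) :
    ((Rt (a * b)).filter (fun Θ => (a : ℤ) ∣ Θ - n)).card = (Rt b).card := by
  classical
  have hab0 : (0 : ℤ) < ((a * b : ℕ) : ℤ) := by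
    have : 0 < a * b := Nat.mul_pos ha hb
    exact_mod_cast this
  have hb0 : (0 : ℤ) < (b : ℤ) := by exact_mod_cast hb
  symm
  refine Finset.card_bij (fun w _ => crt a b n w % ((a * b : ℕ) : ℤ)) ?_ ?_ ?_
  · intro w hw
    obtain ⟨h1, h2, h3⟩ := mem_Rt.1 hw
    obtain ⟨c1, c2⟩ := crt_spec a b hb h n w
    set c := crt a b n w
    have hm : ((a * b : ℕ) : ℤ) ∣ c - c % ((a * b : ℕ) : ℤ) := Int.dvd_self_sub_emod
    have hma : (a : ℤ) ∣ c - c % ((a * b : ℕ) : ℤ) := dvd_trans (by push_cast; exact dvd_mul_right _ _) hm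
    have hmb : (b : ℤ) ∣ c - c % ((a * b : ℕ) : ℤ) := dvd_trans (by push_cast; exact dvd_mul_left _ _) hm
    rw [mem_filter, mem_Rt]
    refine ⟨⟨Int.emod_nonneg _ hab0.ne', Int.emod_lt_of_pos _ hab0, ?_⟩, ?_⟩
    · have hd : ∀ (d : ℕ) (r : ℤ), (d : ℤ) ∣ r ^ 2 + 1 → (d : ℤ) ∣ c - r →
          (d : ℤ) ∣ c - c % ((a * b : ℕ) : ℤ) → (d : ℤ) ∣ (c % ((a * b : ℕ) : ℤ)) ^ 2 + 1 := by
        intro d r hr hcr hcc
        have e : (c % ((a * b : ℕ) : ℤ)) ^ 2 + 1 = (r ^ 2 + 1) + (c - r) * (c + r) -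
          (c - c % ((a * b : ℕ) : ℤ)) * (c + c % ((a * b : ℕ) : ℤ)) := by ring
        rw [e]
        exact dvd_sub (dvd_add hr (hcr.mul_right _)) (hcc.mul_right _)
      have h5 := (Nat.isCoprime_iff_coprime.mpr h).mul_dvd (hd a n hn c1 hma) (hd b w h3 c2 hmb)
      push_cast
      push_cast at h5
      exact h5
    · have e : c % ((a * b : ℕ) : ℤ) - n = (c - n) - (c - c % ((a * b : ℕ) : ℤ)) := by ring
      rw [e]
      exact dvd_sub c1 hma
  · intro w hw w' hw' he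
    obtain ⟨h1, h2, h3⟩ := mem_Rt.1 hw
    obtain ⟨h1', h2', h3'⟩ := mem_Rt.1 hw'
    obtain ⟨c1, c2⟩ := crt_spec a b hb h n w
    obtain ⟨c1', c2'⟩ := crt_spec a b hb h n w'
    have he' : crt a b n w % ((a * b : ℕ) : ℤ) = crt a b n w' % ((a * b : ℕ) : ℤ) := he
    have h4 : ((a * b : ℕ) : ℤ) ∣ crt a b n w - crt a b n w' :=
      Int.dvd_of_emod_eq_zero (Int.emod_eq_emod_iff_emod_sub_eq_zero.1 he')
    have h5 : (b : ℤ) ∣ crt a b n w - crt a b n w' := dvd_trans (by push_cast; exact dvd_mul_left _ _) h4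
    have h6 : (b : ℤ) ∣ w - w' := by
      have e : w - w' = (crt a b n w - crt a b n w') - (crt a b n w - w) + (crt a b n w' - w') := by ring
      rw [e]
      exact dvd_add (dvd_sub h5 c2) c2'
    have h7 : |w - w'| < b := by rw [abs_lt]; constructor <;> omega
    have h8 := Int.eq_zero_of_abs_lt_dvd h6 h7
    omega
  · intro Θ hΘ
    rw [mem_filter, mem_Rt] at hΘ
    obtain ⟨⟨h1, h2, h3⟩, h4⟩ := hΘ
    have hmb : (b : ℤ) ∣ Θ - Θ % b := Int.dvd_self_sub_emod
    refine ⟨Θ % b, ?_, ?_⟩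
    · rw [mem_Rt]
      refine ⟨Int.emod_nonneg _ hb0.ne', Int.emod_lt_of_pos _ hb0, ?_⟩
      have h5 : (b : ℤ) ∣ Θ ^ 2 + 1 := dvd_trans (by push_cast; exact dvd_mul_left _ _) h3
      have e : (Θ % b) ^ 2 + 1 = (Θ ^ 2 + 1) - (Θ - Θ % b) * (Θ + Θ % b) := by ring
      rw [e]
      exact dvd_sub h5 (hmb.mul_right _)
    · obtain ⟨c1, c2⟩ := crt_spec a b hb h n (Θ % b)
      show crt a b n (Θ % b) % ((a * b : ℕ) : ℤ) = Θ
      set c := crt a b n (Θ % b)
      have h5 : (a : ℤ) ∣ c - Θ := by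
        have e : c - Θ = (c - n) - (Θ - n) := by ring
        rw [e]
        exact dvd_sub c1 h4
      have h6 : (b : ℤ) ∣ c - Θ := by
        have e : c - Θ = (c - Θ % b) - (Θ - Θ % b) := by ring
        rw [e]
        exact dvd_sub c2 hmb
      have h7 : ((a * b : ℕ) : ℤ) ∣ c - Θ := by
        push_cast
        exact (Nat.isCoprime_iff_coprime.mpr h).mul_dvd h5 h6
      have h8 : c % ((a * b : ℕ) : ℤ) = Θ % ((a * b : ℕ) : ℤ) :=
        Int.emod_eq_emod_iff_emod_sub_eq_zero.2 (Int.emod_eq_zero_of_dvd h7)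
      rw [h8, Int.emod_eq_of_lt h1 h2]

/-- the residue of `n` is a root -/
theorem ind_Rt (m : ℕ) (hm : 1 ≤ m) (n : ℤ) :
    (∑ ν ∈ Rt m, if (m : ℤ) ∣ n - ν then (1 : ℝ) else 0) = if (m : ℤ) ∣ n ^ 2 + 1 then 1 else 0 := by
  classical
  have hm0 : (0 : ℤ) < m := by exact_mod_cast hm
  have hmod : (m : ℤ) ∣ n - n % m := Int.dvd_self_sub_emod
  by_cases h : (m : ℤ) ∣ n ^ 2 + 1
  · rw [if_pos h]
    have hmem : n % m ∈ Rt m := by
      rw [mem_Rt]
      refine ⟨Int.emod_nonneg _ hm0.ne', Int.emod_lt_of_pos _ hm0, ?_⟩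
      have e : (n % m) ^ 2 + 1 = (n ^ 2 + 1) - (n - n % m) * (n + n % m) := by ring
      rw [e]
      exact dvd_sub h (hmod.mul_right _)
    rw [Finset.sum_eq_single_of_mem _ hmem]
    · rw [if_pos hmod]
    · intro ν hν hne
      rw [if_neg]
      intro h1
      apply hne
      obtain ⟨h2, h3, _⟩ := mem_Rt.1 hν
      have h4 : n % m = ν % m := Int.emod_eq_emod_iff_emod_sub_eq_zero.2 (Int.emod_eq_zero_of_dvd h1)
      rw [h4, Int.emod_eq_of_lt h2 h3]
  · rw [if_neg h]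
    apply Finset.sum_eq_zero
    intro ν hν
    rw [if_neg]
    intro h1
    apply h
    obtain ⟨_, _, h4⟩ := mem_Rt.1 hν
    have e : n ^ 2 + 1 = (ν ^ 2 + 1) + (n - ν) * (n + ν) := by ring
    rw [e]
    exact dvd_add h4 (h1.mul_right _)

/-- averaging over the roots modulo `R = k k'` -/
theorem ind_R (k k' : ℕ) (hk : 1 ≤ k) (hk' : 1 ≤ k') (h : Nat.Coprime k k') (n : ℤ) :
    (∑ Θ ∈ Rt (k * k'), if (k : ℤ) ∣ n - Θ then (1 : ℝ) else 0) =
      (Rt k').card * (if (k : ℤ) ∣ n ^ 2 + 1 then 1 else 0) := by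
  classical
  by_cases hn : (k : ℤ) ∣ n ^ 2 + 1
  · rw [if_pos hn, mul_one, ← fiber k k' hk hk' h n hn, Finset.card_filter]
    push_cast
    apply Finset.sum_congr rfl
    intro Θ _
    have : (k : ℤ) ∣ n - Θ ↔ (k : ℤ) ∣ Θ - n := by rw [← dvd_neg, neg_sub]
    simp only [this]
  · rw [if_neg hn, mul_zero]
    apply Finset.sum_eq_zero
    intro Θ hΘ
    rw [if_neg]
    intro h1
    apply hn
    obtain ⟨_, _, h4⟩ := mem_Rt.1 hΘ
    have h5 : (k : ℤ) ∣ Θ ^ 2 + 1 := dvd_trans (by push_cast; exact dvd_mul_right _ _) h4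
    have e : n ^ 2 + 1 = (Θ ^ 2 + 1) + (n - Θ) * (n + Θ) := by ring
    rw [e]
    exact dvd_add h5 (h1.mul_right _)

theorem card_mul (a b : ℕ) (ha : 1 ≤ a) (hb : 1 ≤ b) (h : Nat.Coprime a b) :
    (Rt (a * b)).card = (Rt a).card * (Rt b).card := by
  classical
  have h1 : ∀ Θ ∈ Rt (a * b), Θ % a ∈ Rt a := by
    intro Θ hΘ
    obtain ⟨_, _, h3⟩ := mem_Rt.1 hΘ
    have ha0 : (0 : ℤ) < a := by exact_mod_cast ha
    rw [mem_Rt]
    refine ⟨Int.emod_nonneg _ ha0.ne', Int.emod_lt_of_pos _ ha0, ?_⟩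
    have h5 : (a : ℤ) ∣ Θ ^ 2 + 1 := dvd_trans (by push_cast; exact dvd_mul_right _ _) h3
    have hm : (a : ℤ) ∣ Θ - Θ % a := Int.dvd_self_sub_emod
    have e : (Θ % a) ^ 2 + 1 = (Θ ^ 2 + 1) - (Θ - Θ % a) * (Θ + Θ % a) := by ring
    rw [e]
    exact dvd_sub h5 (hm.mul_right _)
  rw [Finset.card_eq_sum_card_fiberwise (f := fun Θ => Θ % (a : ℤ)) h1]
  have h2 : ∀ n ∈ Rt a, ((Rt (a * b)).filter (fun Θ => Θ % (a : ℤ) = n)).card = (Rt b).card := by
    intro n hn
    obtain ⟨h3, h4, h5⟩ := mem_Rt.1 hn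
    rw [← fiber a b ha hb h n h5]
    congr 1
    apply Finset.filter_congr
    intro Θ _
    constructor
    · intro h6
      rw [← h6]
      exact Int.dvd_self_sub_emod
    · intro h6
      have h7 : Θ % a = n % a := Int.emod_eq_emod_iff_emod_sub_eq_zero.2 (Int.emod_eq_zero_of_dvd h6)
      rw [h7, Int.emod_eq_of_lt h3 h4]
  rw [Finset.sum_congr rfl h2, Finset.sum_const, smul_eq_mul]

theorem card_prime (p : ℕ) (hp : p.Prime) : (Rt p).card ≤ 2 := by
  classical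
  rcases (Rt p).eq_empty_or_nonempty with h | ⟨a, ha⟩
  · rw [h]; simp
  · obtain ⟨h1, h2, h3⟩ := mem_Rt.1 ha
    have hp0 : (0 : ℤ) < p := by exact_mod_cast hp.pos
    have hsub : Rt p ⊆ {a, (-a) % p} := by
      intro b hb
      obtain ⟨g1, g2, g3⟩ := mem_Rt.1 hb
      have h4 : (p : ℤ) ∣ (b - a) * (b + a) := by
        have e : (b - a) * (b + a) = (b ^ 2 + 1) - (a ^ 2 + 1) := by ring
        rw [e]
        exact dvd_sub g3 h3
      rw [mem_insert, mem_singleton]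
      rcases (Nat.prime_iff_prime_int.1 hp).dvd_or_dvd h4 with h5 | h5
      · left
        have h6 : b % p = a % p := Int.emod_eq_emod_iff_emod_sub_eq_zero.2 (Int.emod_eq_zero_of_dvd h5)
        rwa [Int.emod_eq_of_lt g1 g2, Int.emod_eq_of_lt h1 h2] at h6
      · right
        have h6 : b % p = (-a) % p := Int.emod_eq_emod_iff_emod_sub_eq_zero.2
          (Int.emod_eq_zero_of_dvd (by rw [sub_neg_eq_add]; exact h5))
        rwa [Int.emod_eq_of_lt g1 g2] at h6
    exact (Finset.card_le_card hsub).trans (Finset.card_le_two)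

theorem card_one : (Rt 1).card = 1 := by
  have : Rt 1 = {0} := by
    ext a
    rw [mem_Rt, mem_singleton]
    constructor
    · rintro ⟨h1, h2, _⟩
      push_cast at h2
      omega
    · rintro rfl
      norm_num
  rw [this]
  simp

theorem card_le_div (k : ℕ) (hk : Squarefree k) : (Rt k).card ≤ k.divisors.card := by
  induction k using Nat.strong_induction_on with
  | _ k ih =>
    rcases Nat.lt_or_ge k 2 with h | h
    · have h1 : k = 1 := by
        have := Nat.pos_of_ne_zero hk.ne_zero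
        omega
      rw [h1, card_one]
      simp
    · set p := k.minFac with hp
      have hpp : p.Prime := Nat.minFac_prime (by omega)
      obtain ⟨k', hk'⟩ : p ∣ k := Nat.minFac_dvd k
      have hk'0 : 0 < k' := by
        rcases Nat.eq_zero_or_pos k' with h0 | h0
        · rw [h0] at hk'; omega
        · exact h0
      have hcop : Nat.Coprime p k' := by
        rw [hk'] at hk
        exact Nat.coprime_of_squarefree_mul hk
      have hsq : Squarefree k' := hk.squarefree_of_dvd ⟨p, by rw [hk']; ring⟩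
      have hlt : k' < k := by
        rw [hk']
        nlinarith [hpp.two_le]
      have h1 := ih k' hlt hsq
      rw [hk', card_mul p k' hpp.one_le hk'0 hcop, Nat.Coprime.card_divisors_mul hcop]
      apply Nat.mul_le_mul _ h1
      rw [hpp.divisors, Finset.card_pair hpp.one_lt.ne]
      exact card_prime p hpp

theorem nonempty_prod (S : Finset ℕ) (hS : ∀ p ∈ S, p.Prime ∧ (Rt p).Nonempty) :
    (Rt (∏ p ∈ S, p)).Nonempty := by
  classical
  induction S using Finset.induction_on with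
  | empty =>
    rw [Finset.prod_empty, ← Finset.card_pos, card_one]
    norm_num
  | insert a S ha ih =>
    rw [Finset.prod_insert ha, ← Finset.card_pos]
    have h1 := hS a (mem_insert_self _ _)
    have hcop : Nat.Coprime a (∏ p ∈ S, p) := by
      apply Nat.Coprime.prod_right
      intro p hp
      have h2 := hS p (mem_insert_of_mem hp)
      rw [Nat.coprime_primes h1.1 h2.1]
      rintro rfl
      exact ha hp
    rw [card_mul a _ h1.1.one_le (Finset.prod_pos fun p hp =>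
      (hS p (mem_insert_of_mem hp)).1.pos) hcop]
    exact Nat.mul_pos (Finset.card_pos.2 h1.2)
      (Finset.card_pos.2 (ih fun p hp => hS p (mem_insert_of_mem hp)))

theorem nonempty_dvd (a b : ℕ) (ha : 1 ≤ a) (hab : a ∣ b) (h : (Rt b).Nonempty) : (Rt a).Nonempty := by
  obtain ⟨Θ, hΘ⟩ := h
  obtain ⟨_, _, h3⟩ := mem_Rt.1 hΘ
  have ha0 : (0 : ℤ) < a := by exact_mod_cast ha
  refine ⟨Θ % a, ?_⟩
  rw [mem_Rt]
  refine ⟨Int.emod_nonneg _ ha0.ne', Int.emod_lt_of_pos _ ha0, ?_⟩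
  have h5 : (a : ℤ) ∣ Θ ^ 2 + 1 := dvd_trans (by exact_mod_cast hab) h3
  have hm : (a : ℤ) ∣ Θ - Θ % a := Int.dvd_self_sub_emod
  have e : (Θ % a) ^ 2 + 1 = (Θ ^ 2 + 1) - (Θ - Θ % a) * (Θ + Θ % a) := by ring
  rw [e]
  exact dvd_sub h5 (hm.mul_right _)

end Pool.Agent.T2h76
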