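import Pool.Agent.T2h76.Rm1
import Pool.Agent.T2h76.Po

/-! The remainder as an average over the roots modulo `R`. -/

set_option autoImplicit false

namespace Pool.Agent.T2h76

open Finset

theorem gw_summable (Y N0 : ℝ) (hY : 0 < Y) : Summable (fun n : ℤ => gw Y N0 n) := by
  have h1 : Summable (fun n : ℤ => 4 * Y ^ 2 * (1 / (n : ℝ) ^ 2)) := sum_C0.mul_left _
  refine Summable.of_norm_bounded_eventually h1 ?_
  rw [Filter.eventually_cofinite]
  refine (Set.finite_Icc (-(⌈2 * |N0|⌉ + 1)) (⌈2 * |N0|⌉ + 1)).subset ?_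
  intro n hn
  by_contra h0
  apply hn
  rw [Set.mem_Icc, not_and_or, not_le, not_le] at h0
  rw [Real.norm_of_nonneg (gw_pos Y N0 n).le]
  have h2 : 2 * |N0| ≤ |(n : ℝ)| := by
    have h3 := Int.le_ceil (2 * |N0|)
    have h4 : ⌈2 * |N0|⌉ ≤ |n| := by
      rcases h0 with h0 | h0
      · rw [le_abs]; right; omega
      · rw [le_abs]; left; omega
    have h5 : ((⌈2 * |N0|⌉ : ℤ) : ℝ) ≤ |(n : ℝ)| := by
      rw [← Int.cast_abs]; exact_mod_cast h4
    linarith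
  have hn0 : n ≠ 0 := by
    rintro rfl
    have h3 : 0 ≤ ⌈2 * |N0|⌉ := Int.ceil_nonneg (by positivity)
    rcases h0 with h0 | h0 <;> omega
  have hnr : (n : ℝ) ≠ 0 := by exact_mod_cast hn0
  have hnp : 0 < |(n : ℝ)| := abs_pos.2 hnr
  have h3 : |(n : ℝ)| / 2 ≤ |(n : ℝ) - N0| := by
    have := abs_sub_abs_le_abs_sub (n : ℝ) N0
    linarith
  have h4 : (n : ℝ) ^ 2 / 4 ≤ ((n : ℝ) - N0) ^ 2 := by
    rw [← sq_abs ((n : ℝ) - N0), ← sq_abs (n : ℝ)]
    have := pow_le_pow_left₀ (by positivity) h3 2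
    linarith [this]
  unfold gw
  have hx : (n : ℝ) ^ 2 / (4 * Y ^ 2) ≤ Real.pi * (((n : ℝ) - N0) / Y) ^ 2 := by
    have hpi := Real.pi_gt_three
    have e1 : (((n : ℝ) - N0) / Y) ^ 2 = ((n : ℝ) - N0) ^ 2 / Y ^ 2 := div_pow _ _ _
    rw [e1]
    have h5 : (n : ℝ) ^ 2 / (4 * Y ^ 2) = ((n : ℝ) ^ 2 / 4) / Y ^ 2 := by field_simp
    rw [h5]
    have h6 : ((n : ℝ) ^ 2 / 4) / Y ^ 2 ≤ ((n : ℝ) - N0) ^ 2 / Y ^ 2 :=
      div_le_div_of_nonneg_right h4 (by positivity)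
    have h7 : 0 ≤ ((n : ℝ) - N0) ^ 2 / Y ^ 2 := by positivity
    nlinarith
  have hx0 : 0 < (n : ℝ) ^ 2 / (4 * Y ^ 2) := by positivity
  calc Real.exp (-(Real.pi * (((n : ℝ) - N0) / Y) ^ 2)) ≤ Real.exp (-((n : ℝ) ^ 2 / (4 * Y ^ 2))) :=
        Real.exp_le_exp.2 (by linarith)
    _ ≤ 1 / ((n : ℝ) ^ 2 / (4 * Y ^ 2)) := by
        rw [Real.exp_neg, ← one_div]
        apply one_div_le_one_div_of_le hx0
        have := Real.add_one_le_exp ((n : ℝ) ^ 2 / (4 * Y ^ 2))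
        linarith
    _ = _ := by field_simp

/-- weighted number of `n ≡ c` modulo `D` -/
noncomputable def ps (Y N0 : ℝ) (D : ℕ) (c : ℤ) : ℝ := ∑' t : ℤ, gw Y N0 (c + D * t)

theorem ps_eq (Y N0 : ℝ) (D : ℕ) (hD : 1 ≤ D) (c : ℤ) :
    ∑' n : ℤ, gw Y N0 n * (if (D : ℤ) ∣ n - c then (1 : ℝ) else 0) = ps Y N0 D c := by
  have hD0 : (D : ℤ) ≠ 0 := by exact_mod_cast (by omega : D ≠ 0)
  have hinj : Function.Injective (fun t : ℤ => c + D * t) := by
    intro a b hab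
    have : (D : ℤ) * a = D * b := by
      have h : c + (D : ℤ) * a = c + D * b := hab
      omega
    exact mul_left_cancel₀ hD0 this
  unfold ps
  rw [← hinj.tsum_eq]
  · apply tsum_congr
    intro t
    rw [if_pos ⟨t, by ring⟩, mul_one]
  · intro n hn
    rw [Function.mem_support] at hn
    have h1 : (D : ℤ) ∣ n - c := by
      by_contra h
      rw [if_neg h, mul_zero] at hn
      exact hn rfl
    obtain ⟨t, ht⟩ := h1
    exact ⟨t, by show c + D * t = n; linarith⟩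

open Classical in
/-- weighted number of `n ≡ u` modulo `q` with `d ∣ n ^ 2 + 1` -/
noncomputable def cntq (Y N0 : ℝ) (q : ℕ) (u : ℤ) (d : ℕ) : ℝ :=
  ∑' n : ℤ, gw Y N0 n * (if (q : ℤ) ∣ n - u ∧ (d : ℤ) ∣ n ^ 2 + 1 then 1 else 0)

/-- the remainder -/
noncomputable def rmd (Y N0 : ℝ) (q : ℕ) (u : ℤ) (d : ℕ) : ℝ :=
  cntq Y N0 q u d - (Rt d).card * (Y / (d * q))

theorem ind_prog (m k q R : ℕ) (hk : 1 ≤ k) (hq : 1 ≤ q) (hkR : k ∣ R)
    (hRq : Nat.Coprime R q) (hc : Nat.Coprime m (k * q)) (ν Θ u n : ℤ) :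
    ((m * (k * q) : ℕ) : ℤ) ∣ n - crt m (k * q) ν (crt R q Θ u) ↔
      (m : ℤ) ∣ n - ν ∧ (k : ℤ) ∣ n - Θ ∧ (q : ℤ) ∣ n - u := by
  obtain ⟨a1, a2⟩ := crt_spec R q hq hRq Θ u
  obtain ⟨b1, b2⟩ := crt_spec m (k * q) (Nat.mul_pos hk hq) hc ν (crt R q Θ u)
  set Θ' := crt R q Θ u
  set c := crt m (k * q) ν Θ'
  have hkq : Nat.Coprime k q := hRq.coprime_dvd_left hkR
  have hkRz : (k : ℤ) ∣ (R : ℤ) := by exact_mod_cast hkR
  have hk1 : (k : ℤ) ∣ c - Θ := by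
    have e : c - Θ = (c - Θ') + (Θ' - Θ) := by ring
    rw [e]
    exact dvd_add (dvd_trans (by push_cast; exact dvd_mul_right _ _) b2) (hkRz.trans a1)
  have hq1 : (q : ℤ) ∣ c - u := by
    have e : c - u = (c - Θ') + (Θ' - u) := by ring
    rw [e]
    exact dvd_add (dvd_trans (by push_cast; exact dvd_mul_left _ _) b2) a2
  constructor
  · intro h
    have hm : (m : ℤ) ∣ n - c := dvd_trans (by push_cast; exact dvd_mul_right _ _) h
    have hk2 : (k : ℤ) ∣ n - c := dvd_trans (by push_cast; exact ⟨m * q, by ring⟩) h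
    have hq2 : (q : ℤ) ∣ n - c := dvd_trans (by push_cast; exact ⟨m * k, by ring⟩) h
    refine ⟨?_, ?_, ?_⟩
    · have e : n - ν = (n - c) + (c - ν) := by ring
      rw [e]; exact dvd_add hm b1
    · have e : n - Θ = (n - c) + (c - Θ) := by ring
      rw [e]; exact dvd_add hk2 hk1
    · have e : n - u = (n - c) + (c - u) := by ring
      rw [e]; exact dvd_add hq2 hq1
  · rintro ⟨h1, h2, h3⟩
    have hm : (m : ℤ) ∣ n - c := by
      have e : n - c = (n - ν) - (c - ν) := by ring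
      rw [e]; exact dvd_sub h1 b1
    have hk2 : (k : ℤ) ∣ n - c := by
      have e : n - c = (n - Θ) - (c - Θ) := by ring
      rw [e]; exact dvd_sub h2 hk1
    have hq2 : (q : ℤ) ∣ n - c := by
      have e : n - c = (n - u) - (c - u) := by ring
      rw [e]; exact dvd_sub h3 hq1
    push_cast
    have hc' := Nat.isCoprime_iff_coprime.mpr hc
    push_cast at hc'
    exact hc'.mul_dvd hm ((Nat.isCoprime_iff_coprime.mpr hkq).mul_dvd hk2 hq2)

/-- **The remainder as an average.** -/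
theorem rmd_avg (Y N0 : ℝ) (hY : 0 < Y) (m k k' q : ℕ) (hm : 1 ≤ m) (hk : 1 ≤ k) (hk' : 1 ≤ k')
    (hq : 1 ≤ q) (hkk : Nat.Coprime k k') (hRq : Nat.Coprime (k * k') q)
    (hc : Nat.Coprime m (k * q)) (u : ℤ) :
    ((Rt (k * k')).card : ℝ) * rmd Y N0 q u (m * k) =
      (Rt k).card * ∑ Θ ∈ Rt (k * k'), ∑ ν ∈ Rt m,
        (ps Y N0 (m * (k * q)) (crt m (k * q) ν (crt (k * k') q Θ u)) -
          Y / ((m * (k * q) : ℕ) : ℝ)) := by
  classical
  have hmk : Nat.Coprime m k := Nat.Coprime.coprime_mul_right_right hc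
  have hD : 1 ≤ m * (k * q) := Nat.mul_pos hm (Nat.mul_pos hk hq)
  have hs := gw_summable Y N0 hY
  have hfin : ∑ Θ ∈ Rt (k * k'), ∑ ν ∈ Rt m,
      ps Y N0 (m * (k * q)) (crt m (k * q) ν (crt (k * k') q Θ u)) =
      (Rt k').card * cntq Y N0 q u (m * k) := by
    have h1 : ∀ Θ ν : ℤ, ps Y N0 (m * (k * q)) (crt m (k * q) ν (crt (k * k') q Θ u)) =
        ∑' n : ℤ, gw Y N0 n * (if (q : ℤ) ∣ n - u then (1 : ℝ) else 0) *
          ((if (m : ℤ) ∣ n - ν then (1 : ℝ) else 0) * (if (k : ℤ) ∣ n - Θ then (1 : ℝ) else 0)) := by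
      intro Θ ν
      rw [← ps_eq Y N0 _ hD]
      apply tsum_congr
      intro n
      have h2 := ind_prog m k q (k * k') hk hq (dvd_mul_right _ _) hRq hc ν Θ u n
      by_cases g1 : (m : ℤ) ∣ n - ν <;> by_cases g2 : (k : ℤ) ∣ n - Θ <;>
        by_cases g3 : (q : ℤ) ∣ n - u <;> simp only [h2, g1, g2, g3, and_self, and_true, true_and,
          and_false, false_and, if_true, if_false, mul_one, mul_zero, zero_mul]
    have hsum : ∀ Θ ν : ℤ, Summable (fun n : ℤ => gw Y N0 n * (if (q : ℤ) ∣ n - u then (1 : ℝ) else 0) *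
          ((if (m : ℤ) ∣ n - ν then (1 : ℝ) else 0) * (if (k : ℤ) ∣ n - Θ then (1 : ℝ) else 0))) := by
      intro Θ ν
      apply Summable.of_norm_bounded hs
      intro n
      rw [norm_mul, norm_mul, Real.norm_of_nonneg (gw_pos Y N0 n).le]
      have := (gw_pos Y N0 n).le
      split_ifs <;> simp [this]
    simp only [h1]
    have h3 : ∀ Θ ∈ Rt (k * k'), ∑ ν ∈ Rt m, ∑' n : ℤ, gw Y N0 n *
        (if (q : ℤ) ∣ n - u then (1 : ℝ) else 0) *
          ((if (m : ℤ) ∣ n - ν then (1 : ℝ) else 0) * (if (k : ℤ) ∣ n - Θ then (1 : ℝ) else 0)) =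
        ∑' n : ℤ, ∑ ν ∈ Rt m, gw Y N0 n * (if (q : ℤ) ∣ n - u then (1 : ℝ) else 0) *
          ((if (m : ℤ) ∣ n - ν then (1 : ℝ) else 0) * (if (k : ℤ) ∣ n - Θ then (1 : ℝ) else 0)) := by
      intro Θ _
      exact (Summable.tsum_finsetSum (fun ν _ => hsum Θ ν)).symm
    rw [Finset.sum_congr rfl h3, ← Summable.tsum_finsetSum (fun Θ _ => summable_sum fun ν _ => hsum Θ ν)]
    unfold cntq
    rw [← tsum_mul_left]
    apply tsum_congr
    intro n
    have h4 : ∑ Θ ∈ Rt (k * k'), ∑ ν ∈ Rt m, gw Y N0 n * (if (q : ℤ) ∣ n - u then (1 : ℝ) else 0) *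
          ((if (m : ℤ) ∣ n - ν then (1 : ℝ) else 0) * (if (k : ℤ) ∣ n - Θ then (1 : ℝ) else 0)) =
        gw Y N0 n * (if (q : ℤ) ∣ n - u then (1 : ℝ) else 0) *
          ((∑ ν ∈ Rt m, if (m : ℤ) ∣ n - ν then (1 : ℝ) else 0) *
            ∑ Θ ∈ Rt (k * k'), if (k : ℤ) ∣ n - Θ then (1 : ℝ) else 0) := by
      rw [Finset.sum_mul_sum, Finset.sum_comm, Finset.mul_sum]
      apply Finset.sum_congr rfl
      intro ν _
      rw [Finset.mul_sum]
    rw [h4, ind_Rt m hm n, ind_R k k' hk hk' hkk n]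
    have h5 : ((m * k : ℕ) : ℤ) ∣ n ^ 2 + 1 ↔ (m : ℤ) ∣ n ^ 2 + 1 ∧ (k : ℤ) ∣ n ^ 2 + 1 := by
      push_cast
      constructor
      · intro h
        exact ⟨(dvd_mul_right _ _).trans h, (dvd_mul_left _ _).trans h⟩
      · rintro ⟨h6, h7⟩
        exact (Nat.isCoprime_iff_coprime.mpr hmk).mul_dvd h6 h7
    by_cases g1 : (m : ℤ) ∣ n ^ 2 + 1 <;> by_cases g2 : (k : ℤ) ∣ n ^ 2 + 1 <;>
        by_cases g3 : (q : ℤ) ∣ n - u <;> simp only [h5, g1, g2, g3, and_self, and_true, true_and,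
          and_false, false_and, if_true, if_false, mul_one, mul_zero, zero_mul] <;> ring
  have hR := card_mul k k' hk hk' hkk
  have hmkc := card_mul m k hm hk hmk
  simp only [Finset.sum_sub_distrib, Finset.sum_const]
  rw [hfin]
  unfold rmd
  rw [hR, hmkc]
  push_cast
  simp only [nsmul_eq_mul]
  push_cast
  have hmr : (m : ℝ) ≠ 0 := by exact_mod_cast (by omega : m ≠ 0)
  have hkr : (k : ℝ) ≠ 0 := by exact_mod_cast (by omega : k ≠ 0)
  have hqr : (q : ℝ) ≠ 0 := by exact_mod_cast (by omega : q ≠ 0)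
  field_simp

end Pool.Agent.T2h76
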