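import Pool.Agent.T2h76.Rm3

/-! The power saving for one dyadic block. -/

set_option autoImplicit false

namespace Pool.Agent.T2h76

open Finset

theorem exp_small (n : ℕ) (x : ℝ) (hx : 0 < x) : Real.exp (-x) ≤ n.factorial / x ^ n := by
  have h := Real.pow_div_factorial_le_exp x hx.le n
  have hf : (0 : ℝ) < n.factorial := by exact_mod_cast n.factorial_pos
  rw [Real.exp_neg, inv_le_comm₀ (Real.exp_pos x) (by positivity), inv_div]
  exact h

theorem TT_zero (Y N0 : ℝ) (q : ℕ) (Θ : ℤ) (β : ℕ → ℝ) (𝒦 : Finset ℕ) (m : ℕ) (ν : ℤ) :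
    TT Y N0 q Θ β 𝒦 0 m ν = 0 := by
  unfold TT
  apply Finset.sum_eq_zero
  intro k _
  apply Finset.sum_eq_zero
  intro h hh
  rw [mem_erase, mem_Icc] at hh
  exfalso
  have h1 := hh.1
  have h2 := hh.2
  push_cast at h2
  omega

theorem sb_bd (δ σ : ℝ) (hδ : 0 < δ) (hδ1 : δ ≤ 1 / 12) (hσ : 0 ≤ σ) : ∃ C : ℝ, 0 < C ∧
    ∀ (Y N0 : ℝ) (M K q R : ℕ) (Θ : ℤ) (a b : ℕ → ℝ) (𝒦 : Finset ℕ), 1 ≤ Y → 1 ≤ M → 1 ≤ K →
    1 ≤ q → 1 ≤ R → Nat.Coprime R q → (R : ℤ) ∣ Θ ^ 2 + 1 →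
    (∀ k ∈ 𝒦, Squarefree k ∧ k ∣ R ∧ K ≤ k ∧ k ≤ 2 * K) →
    (∀ m, |a m| ≤ 1) → (∀ k, |b k| ≤ 1) → |N0| ≤ Y ^ (1 + σ) → (q : ℝ) ≤ Y ^ (δ / 24) →
    (M : ℝ) ≤ Y ^ (1 - δ) → (K : ℝ) ≤ Y ^ (1 / 12 - σ / 3 - δ) →
    |SB Y N0 M q Θ a b 𝒦| ≤ C * Y ^ (1 - δ / 6) := by
  set ε : ℝ := δ / 24 with hε
  have hε0 : 0 < ε := by positivity
  obtain ⟨C1, hC1, HB⟩ := block ε hε0
  obtain ⟨C3, hC3, hD⟩ := Pool.Agent.H510R2.divisor_bound ε hε0
  set n0 : ℕ := ⌈1 / ε⌉₊ with hn0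
  have hC0 := C0_nonneg
  refine ⟨Real.sqrt (64 * C1 * C3 ^ 2 * 404) + 64 * C0 * n0.factorial + 1, by positivity, ?_⟩
  intro Y N0 M K q R Θ a b 𝒦 hY hM hK hq hR hRq hΘ h𝒦 ha hb hN0 hqY hMY hKY
  have hY0 : 0 < Y := by linarith
  have hMr : (1 : ℝ) ≤ M := by exact_mod_cast hM
  have hKr : (1 : ℝ) ≤ K := by exact_mod_cast hK
  have hqr : (1 : ℝ) ≤ q := by exact_mod_cast hq
  set P : ℝ := Y ^ ε with hP
  have hP1 : 1 ≤ P := Real.one_le_rpow hY hε0.le
  have hP0 : 0 < P := by linarith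
  have hPn : ∀ n : ℕ, P ^ n = Y ^ (ε * n) := by
    intro n
    rw [hP, ← Real.rpow_natCast, ← Real.rpow_mul hY0.le]
  have hfin : Y ^ (1 - δ / 6) = Y / P ^ 4 := by
    rw [hPn 4, eq_div_iff (by positivity), ← Real.rpow_add hY0]
    have : 1 - δ / 6 + ε * (4 : ℕ) = 1 := by rw [hε]; push_cast; ring
    rw [this, Real.rpow_one]
  have hM' : (M : ℝ) * P ^ 24 ≤ Y := by
    calc (M : ℝ) * P ^ 24 ≤ Y ^ (1 - δ) * P ^ 24 := by gcongr
      _ = Y := by
        rw [hPn 24, ← Real.rpow_add hY0]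
        have : 1 - δ + ε * (24 : ℕ) = 1 := by rw [hε]; push_cast; ring
        rw [this, Real.rpow_one]
  have hMYY : (M : ℝ) ≤ Y := by
    have : (1 : ℝ) ≤ P ^ 24 := one_le_pow₀ hP1
    nlinarith
  have hKY1 : (K : ℝ) ≤ Y ^ (1 / 12 : ℝ) := hKY.trans (Real.rpow_le_rpow_of_exponent_le hY (by linarith))
  have hKn : ∀ n : ℕ, (K : ℝ) ^ n ≤ Y ^ ((n : ℝ) / 12) := by
    intro n
    calc (K : ℝ) ^ n ≤ (Y ^ (1 / 12 : ℝ)) ^ n := by gcongr
      _ = _ := by
        rw [← Real.rpow_natCast, ← Real.rpow_mul hY0.le]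
        congr 1
        ring
  have hKY2 : (K : ℝ) ≤ Y := by
    calc (K : ℝ) ≤ Y ^ (1 / 12 : ℝ) := hKY1
      _ ≤ Y ^ (1 : ℝ) := Real.rpow_le_rpow_of_exponent_le hY (by norm_num)
      _ = Y := Real.rpow_one Y
  have hK3q : (K : ℝ) ^ 3 * q ≤ Y := by
    calc (K : ℝ) ^ 3 * q ≤ Y ^ (((3 : ℕ) : ℝ) / 12) * Y ^ (δ / 24) := by
          apply mul_le_mul (hKn 3) hqY (by positivity) (by positivity)
      _ = Y ^ (((3 : ℕ) : ℝ) / 12 + δ / 24) := (Real.rpow_add hY0 _ _).symm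
      _ ≤ Y ^ (1 : ℝ) := by
        apply Real.rpow_le_rpow_of_exponent_le hY
        push_cast
        linarith
      _ = Y := Real.rpow_one Y
  have hqP : (q : ℝ) ≤ P := hqY
  have hK2 : (K : ℝ) ^ 2 * q ^ 2 * P ≤ Y := by
    calc (K : ℝ) ^ 2 * q ^ 2 * P ≤ Y ^ (((2 : ℕ) : ℝ) / 12) * P ^ 2 * P := by
          gcongr
          exact hKn 2
      _ = Y ^ (((2 : ℕ) : ℝ) / 12) * P ^ 3 := by ring
      _ = Y ^ (((2 : ℕ) : ℝ) / 12 + ε * (3 : ℕ)) := by
        rw [hPn 3]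
        exact (Real.rpow_add hY0 _ _).symm
      _ ≤ Y ^ (1 : ℝ) := by
        apply Real.rpow_le_rpow_of_exponent_le hY
        push_cast
        rw [hε]
        linarith
      _ = Y := Real.rpow_one Y
  have hK32 : (Y ^ (σ / 2) * ((K : ℝ) ^ (3 / 2 : ℝ)) * (M : ℝ) ^ (7 / 8 : ℝ)) * P ^ 57 ≤ Y := by
    have h1 : (K : ℝ) ^ (3 / 2 : ℝ) ≤ Y ^ ((1 / 12 - σ / 3 - δ) * (3 / 2)) := by
      rw [Real.rpow_mul hY0.le]
      exact Real.rpow_le_rpow (by positivity) hKY (by norm_num)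
    have h2 : (M : ℝ) ^ (7 / 8 : ℝ) ≤ Y ^ ((1 - δ) * (7 / 8)) := by
      rw [Real.rpow_mul hY0.le]
      exact Real.rpow_le_rpow (by positivity) hMY (by norm_num)
    calc (Y ^ (σ / 2) * ((K : ℝ) ^ (3 / 2 : ℝ)) * (M : ℝ) ^ (7 / 8 : ℝ)) * P ^ 57 ≤
        (Y ^ (σ / 2) * Y ^ ((1 / 12 - σ / 3 - δ) * (3 / 2)) * Y ^ ((1 - δ) * (7 / 8))) * P ^ 57 := by
          gcongr
      _ = Y ^ (1 : ℝ) := by
        rw [hPn 57, ← Real.rpow_add hY0, ← Real.rpow_add hY0, ← Real.rpow_add hY0]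
        congr 1
        rw [hε]
        push_cast
        ring
      _ = Y := Real.rpow_one Y
  -- replace b by its restriction
  set b' : ℕ → ℝ := fun k => if k ∈ 𝒦 then b k else 0 with hb'
  have hSB : SB Y N0 M q Θ a b 𝒦 = SB Y N0 M q Θ a b' 𝒦 := by
    unfold SB
    apply Finset.sum_congr rfl
    intro m _
    congr 1
    apply Finset.sum_congr rfl
    intro ν _
    apply Finset.sum_congr rfl
    intro k hk
    simp only [hb', if_pos hk]
  rw [hSB]
  have hb'1 : ∀ k, |b' k| ≤ 1 := by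
    intro k
    simp only [hb']
    split_ifs
    · exact hb k
    · simp
  set X : ℝ := 4 * M * K * q * P / Y with hX
  have hX0 : 0 < X := by positivity
  set H : ℕ := ⌊X⌋₊ with hH
  have hHX : (H : ℝ) ≤ X := Nat.floor_le hX0.le
  have hHX1 : X < (H : ℝ) + 1 := Nat.lt_floor_add_one X
  have hblk := blk_approx Y N0 hY0 M K H q Θ a b' 𝒦 hM hK hq (fun k hk => ⟨(h𝒦 k hk).1, (h𝒦 k hk).2.2⟩)
    ha hb'1
  set β : ℕ → ℝ := fun k => b' k * (Rt k).card * (K / k) with hβ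
  -- the error term
  have herr : 16 * M * K ^ 2 * (C0 * (4 * M * K * q / Y) *
        Real.exp (-(((H + 1 : ℕ) : ℝ) * (Y / (4 * M * K * q))) ^ 2)) ≤ 64 * C0 * n0.factorial := by
    have h1 : P ≤ ((H + 1 : ℕ) : ℝ) * (Y / (4 * M * K * q)) := by
      push_cast
      have : P = X * (Y / (4 * M * K * q)) := by
        rw [hX]
        field_simp
      rw [this]
      gcongr
    have h2 : Real.exp (-(((H + 1 : ℕ) : ℝ) * (Y / (4 * M * K * q))) ^ 2) ≤ n0.factorial / Y ^ 2 := by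
      calc Real.exp (-(((H + 1 : ℕ) : ℝ) * (Y / (4 * M * K * q))) ^ 2) ≤ Real.exp (-(P ^ 2)) := by
            rw [Real.exp_le_exp, neg_le_neg_iff]
            exact pow_le_pow_left₀ hP0.le h1 2
        _ ≤ n0.factorial / (P ^ 2) ^ n0 := exp_small n0 (P ^ 2) (by positivity)
        _ ≤ n0.factorial / Y ^ 2 := by
          apply div_le_div_of_nonneg_left (by positivity) (by positivity)
          have h3 : Y ≤ P ^ n0 := by
            rw [hPn n0]
            calc Y = Y ^ (1 : ℝ) := (Real.rpow_one Y).symm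
              _ ≤ Y ^ (ε * n0) := by
                apply Real.rpow_le_rpow_of_exponent_le hY
                have h4 : 1 / ε ≤ n0 := Nat.le_ceil _
                rw [div_le_iff₀ hε0] at h4
                linarith
          calc Y ^ 2 ≤ (P ^ n0) ^ 2 := by gcongr
            _ = (P ^ 2) ^ n0 := by rw [← pow_mul, ← pow_mul, mul_comm]
    have h5 : (M : ℝ) * K ^ 2 * (M * K * q) ≤ Y ^ 3 := by
      calc (M : ℝ) * K ^ 2 * (M * K * q) = M * M * (K ^ 3 * q) := by ring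
        _ ≤ Y * Y * Y := by gcongr
        _ = Y ^ 3 := by ring
    calc 16 * M * K ^ 2 * (C0 * (4 * M * K * q / Y) *
        Real.exp (-(((H + 1 : ℕ) : ℝ) * (Y / (4 * M * K * q))) ^ 2)) ≤
        16 * M * K ^ 2 * (C0 * (4 * M * K * q / Y) * (n0.factorial / Y ^ 2)) := by gcongr
      _ = 64 * C0 * n0.factorial * ((M : ℝ) * K ^ 2 * (M * K * q) / Y ^ 3) := by
        field_simp
        ring
      _ ≤ 64 * C0 * n0.factorial * 1 := by
        gcongr
        rw [div_le_one (by positivity)]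
        exact h5
      _ = _ := mul_one _
  have hfin1 : 1 ≤ Y ^ (1 - δ / 6) := Real.one_le_rpow hY (by linarith)
  -- the main term
  have hmain : Y / (q * K * M) * (∑ m ∈ Ico M (2 * M), ∑ ν ∈ Rt m, ‖TT Y N0 q Θ β 𝒦 H m ν‖) ≤
      Real.sqrt (64 * C1 * C3 ^ 2 * 404) * Y ^ (1 - δ / 6) := by
    rcases Nat.eq_zero_or_pos H with h0 | hpos
    · rw [h0]
      have : ∑ m ∈ Ico M (2 * M), ∑ ν ∈ Rt m, ‖TT Y N0 q Θ β 𝒦 0 m ν‖ = 0 := by
        apply Finset.sum_eq_zero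
        intro m _
        apply Finset.sum_eq_zero
        intro ν _
        rw [TT_zero, norm_zero]
      rw [this, mul_zero]
      positivity
    have hHr : (1 : ℝ) ≤ H := by exact_mod_cast hpos
    set B1 : ℝ := C3 * (2 * P) with hB1
    have hβ1 : ∀ k, |β k| ≤ B1 := by
      intro k
      simp only [hβ, hb']
      split_ifs with hk
      · obtain ⟨k1, k2, k3, k4⟩ := h𝒦 k hk
        have hk1 : 1 ≤ k := hK.trans k3
        have hkr : (0 : ℝ) < k := by exact_mod_cast hk1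
        rw [abs_mul, abs_mul]
        have h1 : |((Rt k).card : ℝ)| ≤ C3 * (2 * P) := by
          rw [abs_of_nonneg (by positivity)]
          calc ((Rt k).card : ℝ) ≤ (k.divisors.card : ℝ) := by exact_mod_cast card_le_div k k1
            _ ≤ C3 * (k : ℝ) ^ ε := hD k hk1
            _ ≤ C3 * (2 * P) := by
              gcongr
              calc (k : ℝ) ^ ε ≤ (2 * K) ^ ε := by
                    apply Real.rpow_le_rpow hkr.le _ hε0.le
                    exact_mod_cast k4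
                _ = 2 ^ ε * (K : ℝ) ^ ε := Real.mul_rpow (by norm_num) (by positivity)
                _ ≤ 2 * P := by
                  apply mul_le_mul
                  · calc (2 : ℝ) ^ ε ≤ 2 ^ (1 : ℝ) := by
                          apply Real.rpow_le_rpow_of_exponent_le (by norm_num)
                          rw [hε]
                          linarith
                      _ = 2 := Real.rpow_one 2
                  · exact Real.rpow_le_rpow (by positivity) hKY2 hε0.le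
                  · positivity
                  · norm_num
        have h2 : |(K : ℝ) / k| ≤ 1 := by
          rw [abs_of_nonneg (by positivity), div_le_one hkr]
          exact_mod_cast k3
        calc |b k| * |((Rt k).card : ℝ)| * |(K : ℝ) / k| ≤ 1 * (C3 * (2 * P)) * 1 := by
              apply mul_le_mul _ h2 (abs_nonneg _) (by positivity)
              exact mul_le_mul (hb k) h1 (abs_nonneg _) zero_le_one
          _ = _ := by ring
      · simp
        positivity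
    have hB := HB Y N0 M K H q R Θ β B1 𝒦 hM hK hpos hq hR hRq hΘ
      (fun k hk => ⟨(h𝒦 k hk).2.1, (h𝒦 k hk).2.2⟩) (by positivity) hβ1
    have hc := cauchy_T Y N0 M H q Θ β 𝒦 hM
    have hpw : ((M : ℝ) * K * H * q) ^ ε ≤ 4 * P ^ 2 := by
      have h1 : (M : ℝ) * K * H * q ≤ 4 * Y ^ 2 := by
        calc (M : ℝ) * K * H * q ≤ (M : ℝ) * K * X * q := by gcongr
          _ = 4 * (M * M * (K ^ 2 * q ^ 2 * P)) / Y := by
            rw [hX]
            field_simp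
          _ ≤ 4 * (Y * Y * Y) / Y := by gcongr
          _ = 4 * Y ^ 2 := by field_simp
      calc ((M : ℝ) * K * H * q) ^ ε ≤ (4 * Y ^ 2) ^ ε := Real.rpow_le_rpow (by positivity) h1 hε0.le
        _ = 4 ^ ε * (Y ^ 2) ^ ε := Real.mul_rpow (by norm_num) (by positivity)
        _ ≤ 4 * P ^ 2 := by
          have h2 : (4 : ℝ) ^ ε ≤ 4 := by
            calc (4 : ℝ) ^ ε ≤ 4 ^ (1 : ℝ) := by
                    apply Real.rpow_le_rpow_of_exponent_le (by norm_num)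
                    rw [hε]
                    linarith
              _ = 4 := Real.rpow_one 4
          have h3 : (Y ^ 2) ^ ε = P ^ 2 := by
            rw [hP, ← Real.rpow_natCast, ← Real.rpow_natCast, ← Real.rpow_mul hY0.le,
              ← Real.rpow_mul hY0.le, mul_comm]
          rw [h3]
          gcongr
    have hf1 : 1 + H * |N0| / (K * M * q) ≤ 5 * (Y ^ σ * P) := by
      have h1 : H * |N0| / (K * M * q) ≤ 4 * (Y ^ σ * P) := by
        calc H * |N0| / (K * M * q) ≤ X * Y ^ (1 + σ) / (K * M * q) := by gcongr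
          _ = 4 * (Y ^ σ * P) := by
            rw [hX, Real.rpow_add hY0, Real.rpow_one]
            field_simp
      have h2 : 1 ≤ Y ^ σ := Real.one_le_rpow hY hσ
      have h3 : 1 ≤ Y ^ σ * P := one_le_mul_of_one_le_of_one_le h2 hP1
      linarith
    have hPY : P ≤ Y := by
      calc P ≤ Y ^ (1 : ℝ) := by
            rw [hP]
            apply Real.rpow_le_rpow_of_exponent_le hY
            rw [hε]
            linarith
        _ = Y := Real.rpow_one Y
    have hf2 : (1 : ℝ) + H / (K * M * q) ≤ 5 := by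
      have h1 : H / ((K : ℝ) * M * q) ≤ 4 := by
        calc H / ((K : ℝ) * M * q) ≤ X / (K * M * q) := by gcongr
          _ = 4 * (P / Y) := by
            rw [hX]
            field_simp
          _ ≤ 4 * 1 := by
            gcongr
            rw [div_le_one hY0]
            exact hPY
          _ = 4 := by norm_num
      linarith
    set bl : ℝ := ∑ m ∈ Icc 1 (3 * M), ∑ ν ∈ Rt m, trz M m * ‖TT Y N0 q Θ β 𝒦 H m ν‖ ^ 2 with hbl
    have hbl1 : bl ≤ C1 * (4 * P ^ 2) * B1 ^ 2 * ((M : ℝ) * K * H +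
        (5 * (Y ^ σ * P)) * 5 * ((q : ℝ) ^ 2 * (M : ℝ) ^ (3 / 4 : ℝ) * (K : ℝ) ^ 3 * (H : ℝ) ^ 2)) := by
      refine hB.trans ?_
      gcongr
    have hfinal : (Y / (q * K * M)) ^ 2 * (4 * M * bl) ≤ (64 * C1 * C3 ^ 2 * 404) * (Y / P ^ 4) ^ 2 := by
      have h1 : (Y / (q * K * M)) ^ 2 * (4 * M * bl) ≤ (Y / (q * K * M)) ^ 2 * (4 * M * (
          C1 * (4 * P ^ 2) * B1 ^ 2 * ((M : ℝ) * K * H +
        (5 * (Y ^ σ * P)) * 5 * ((q : ℝ) ^ 2 * (M : ℝ) ^ (3 / 4 : ℝ) * (K : ℝ) ^ 3 * (H : ℝ) ^ 2)))) := by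
        gcongr
      refine h1.trans ?_
      have h2 : (Y / (q * K * M)) ^ 2 * (4 * M * (
          C1 * (4 * P ^ 2) * B1 ^ 2 * ((M : ℝ) * K * H +
        (5 * (Y ^ σ * P)) * 5 * ((q : ℝ) ^ 2 * (M : ℝ) ^ (3 / 4 : ℝ) * (K : ℝ) ^ 3 * (H : ℝ) ^ 2)))) =
        64 * C1 * C3 ^ 2 * (P ^ 4 * (Y ^ 2 * H / (q ^ 2 * K)) +
          25 * (P ^ 5 * (Y ^ 2 * Y ^ σ * K * (M : ℝ) ^ (3 / 4 : ℝ) * (H : ℝ) ^ 2 / M))) := by
        rw [hB1]
        field_simp
        ring
      rw [h2]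
      have h3 : P ^ 4 * (Y ^ 2 * H / (q ^ 2 * K)) ≤ 4 * (Y / P ^ 4) ^ 2 := by
        calc P ^ 4 * (Y ^ 2 * H / (q ^ 2 * K)) ≤ P ^ 4 * (Y ^ 2 * X / (q ^ 2 * K)) := by gcongr
          _ = 4 * (P ^ 5 * Y * M / q) := by
            rw [hX]
            field_simp
          _ ≤ 4 * (P ^ 5 * Y * M / 1) := by gcongr
          _ = 4 * (P ^ 5 * Y * (M * P ^ 24) / P ^ 24) := by
            field_simp
          _ ≤ 4 * (P ^ 5 * Y * Y / P ^ 24) := by gcongr
          _ = 4 * (Y ^ 2 / P ^ 19) := by field_simp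
          _ ≤ 4 * (Y ^ 2 / P ^ 8) := by
            gcongr
            norm_num
          _ = _ := by
            rw [div_pow]
            ring
      have h4 : P ^ 5 * (Y ^ 2 * Y ^ σ * K * (M : ℝ) ^ (3 / 4 : ℝ) * (H : ℝ) ^ 2 / M) ≤
          16 * (Y / P ^ 4) ^ 2 := by
        have h5 : (Y ^ (σ / 2) * ((K : ℝ) ^ (3 / 2 : ℝ)) * (M : ℝ) ^ (7 / 8 : ℝ)) ^ 2 =
            Y ^ σ * (K : ℝ) ^ 3 * ((M : ℝ) ^ (3 / 4 : ℝ) * M) := by
          have a1 : (Y ^ (σ / 2)) ^ 2 = Y ^ σ := by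
            rw [← Real.rpow_natCast, ← Real.rpow_mul hY0.le]
            congr 1
            push_cast
            ring
          have a2 : ((K : ℝ) ^ (3 / 2 : ℝ)) ^ 2 = (K : ℝ) ^ 3 := by
            rw [← Real.rpow_natCast, ← Real.rpow_natCast, ← Real.rpow_mul (by positivity)]
            congr 1
            push_cast
            ring
          have a3 : ((M : ℝ) ^ (7 / 8 : ℝ)) ^ 2 = (M : ℝ) ^ (3 / 4 : ℝ) * M := by
            rw [← Real.rpow_natCast, ← Real.rpow_mul (by positivity)]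
            have : (M : ℝ) ^ (3 / 4 : ℝ) * M = (M : ℝ) ^ (3 / 4 : ℝ) * (M : ℝ) ^ (1 : ℝ) := by
              rw [Real.rpow_one]
            rw [this, ← Real.rpow_add (by linarith)]
            congr 1
            push_cast
            ring
          rw [mul_pow, mul_pow, a1, a2, a3]
        set Z : ℝ := Y ^ (σ / 2) * ((K : ℝ) ^ (3 / 2 : ℝ)) * (M : ℝ) ^ (7 / 8 : ℝ) with hZ
        have hZ0 : 0 ≤ Z := by positivity
        have hZ1 : Z ≤ Y / P ^ 57 := by
          rw [le_div_iff₀ (by positivity)]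
          exact hK32
        calc P ^ 5 * (Y ^ 2 * Y ^ σ * K * (M : ℝ) ^ (3 / 4 : ℝ) * (H : ℝ) ^ 2 / M) ≤
            P ^ 5 * (Y ^ 2 * Y ^ σ * K * (M : ℝ) ^ (3 / 4 : ℝ) * X ^ 2 / M) := by gcongr
          _ = 16 * (P ^ 7 * q ^ 2 * (Y ^ σ * (K : ℝ) ^ 3 * ((M : ℝ) ^ (3 / 4 : ℝ) * M))) := by
            rw [hX]
            field_simp
            ring
          _ = 16 * (P ^ 7 * q ^ 2 * Z ^ 2) := by rw [h5]
          _ ≤ 16 * (P ^ 7 * P ^ 2 * (Y / P ^ 57) ^ 2) := by gcongr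
          _ = 16 * (Y ^ 2 / P ^ 105) := by
            field_simp
          _ ≤ 16 * (Y ^ 2 / P ^ 8) := by
            gcongr
            norm_num
          _ = _ := by
            rw [div_pow]
            ring
      have hcc : 0 ≤ 64 * C1 * C3 ^ 2 := by positivity
      calc 64 * C1 * C3 ^ 2 * (P ^ 4 * (Y ^ 2 * H / (q ^ 2 * K)) +
          25 * (P ^ 5 * (Y ^ 2 * Y ^ σ * K * (M : ℝ) ^ (3 / 4 : ℝ) * (H : ℝ) ^ 2 / M))) ≤
          64 * C1 * C3 ^ 2 * (4 * (Y / P ^ 4) ^ 2 + 25 * (16 * (Y / P ^ 4) ^ 2)) := by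
            apply mul_le_mul_of_nonneg_left _ hcc
            linarith
        _ = _ := by ring
    rw [hfin]
    calc Y / (q * K * M) * (∑ m ∈ Ico M (2 * M), ∑ ν ∈ Rt m, ‖TT Y N0 q Θ β 𝒦 H m ν‖) ≤
        Y / (q * K * M) * Real.sqrt (4 * M * bl) := by gcongr
      _ = Real.sqrt ((Y / (q * K * M)) ^ 2 * (4 * M * bl)) := by
        have hs := Real.sqrt_mul (by positivity : (0 : ℝ) ≤ (Y / (q * K * M)) ^ 2) (4 * M * bl)
        rw [hs, Real.sqrt_sq (by positivity)]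
      _ ≤ Real.sqrt ((64 * C1 * C3 ^ 2 * 404) * (Y / P ^ 4) ^ 2) := Real.sqrt_le_sqrt hfinal
      _ = Real.sqrt (64 * C1 * C3 ^ 2 * 404) * (Y / P ^ 4) := by
        have hs := Real.sqrt_mul (by positivity : (0 : ℝ) ≤ 64 * C1 * C3 ^ 2 * 404) ((Y / P ^ 4) ^ 2)
        rw [hs, Real.sqrt_sq (by positivity)]
  refine hblk.trans ?_
  refine (add_le_add hmain herr).trans ?_
  have h6 : 64 * C0 * n0.factorial ≤ (64 * C0 * n0.factorial) * Y ^ (1 - δ / 6) :=
    le_mul_of_one_le_right (by positivity) hfin1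
  have h7 : (Real.sqrt (64 * C1 * C3 ^ 2 * 404) + 64 * C0 * n0.factorial + 1) * Y ^ (1 - δ / 6) =
      Real.sqrt (64 * C1 * C3 ^ 2 * 404) * Y ^ (1 - δ / 6) +
      (64 * C0 * n0.factorial) * Y ^ (1 - δ / 6) + Y ^ (1 - δ / 6) := by ring
  rw [h7]
  linarith

end Pool.Agent.T2h76
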