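import Mathlib

/-! Roots of `ν ^ 2 + 1` modulo `m` and primitive representations of `m` as a sum of two
squares. -/

set_option autoImplicit false

namespace Pool.Agent.T2h76

open Finset

/-- the roots of `ν ^ 2 + 1` modulo `m` -/
noncomputable def Rt (m : ℕ) : Finset ℤ := (Ico (0 : ℤ) m).filter (fun ν => (m : ℤ) ∣ ν ^ 2 + 1)

open Classical in
/-- the primitive representations in the sector `-y < x ≤ y` -/
noncomputable def Pt (m : ℕ) : Finset (ℤ × ℤ) :=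
  ((Ioc (-(m : ℤ)) m) ×ˢ (Ioc (0 : ℤ) m)).filter
    (fun z => -z.2 < z.1 ∧ z.1 ≤ z.2 ∧ IsCoprime z.1 z.2 ∧ z.1 ^ 2 + z.2 ^ 2 = m)

theorem mem_Rt {m : ℕ} {ν : ℤ} : ν ∈ Rt m ↔ 0 ≤ ν ∧ ν < m ∧ (m : ℤ) ∣ ν ^ 2 + 1 := by
  unfold Rt
  rw [mem_filter, mem_Ico, and_assoc]

theorem mem_Pt {m : ℕ} {z : ℤ × ℤ} : z ∈ Pt m ↔ 0 < z.2 ∧ -z.2 < z.1 ∧ z.1 ≤ z.2 ∧
    IsCoprime z.1 z.2 ∧ z.1 ^ 2 + z.2 ^ 2 = m := by
  unfold Pt
  rw [mem_filter, mem_product, mem_Ioc, mem_Ioc]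
  constructor
  · rintro ⟨⟨-, h1, -⟩, h2, h3, h4, h5⟩
    exact ⟨h1, h2, h3, h4, h5⟩
  · rintro ⟨h1, h2, h3, h4, h5⟩
    have h6 : z.2 ≤ m := by nlinarith [sq_nonneg z.1]
    exact ⟨⟨⟨by omega, by omega⟩, h1, h6⟩, h2, h3, h4, h5⟩

/-- Thue's lemma for the roots of `ν ^ 2 + 1` -/
theorem thue (m : ℕ) (hm : 1 ≤ m) (ν : ℤ) (hν : (m : ℤ) ∣ ν ^ 2 + 1) :
    ∃ x y : ℤ, x ^ 2 + y ^ 2 = m ∧ (m : ℤ) ∣ ν * y - x := by
  rcases Nat.eq_or_lt_of_le hm with h1 | h1
  · exact ⟨0, 1, by rw [← h1]; norm_num, by rw [← h1]; simp⟩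
  have : NeZero m := ⟨by omega⟩
  set r := Nat.sqrt m with hr
  have hr1 : m < (r + 1) * (r + 1) := Nat.lt_succ_sqrt m
  have hr2 : r * r ≤ m := Nat.sqrt_le m
  obtain ⟨a, ha, b, hb, hab, hf⟩ := Finset.exists_ne_map_eq_of_card_lt_of_maps_to
    (s := range (r + 1) ×ˢ range (r + 1)) (t := (univ : Finset (ZMod m)))
    (f := fun z : ℕ × ℕ => (((z.1 : ℤ) - ν * z.2 : ℤ) : ZMod m))
    (by rw [card_product, card_range, card_univ, ZMod.card]; exact hr1)
    (fun _ _ => mem_univ _)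
  rw [mem_product, mem_range, mem_range] at ha hb
  rw [ZMod.intCast_eq_intCast_iff_dvd_sub] at hf
  set x : ℤ := (b.1 : ℤ) - a.1 with hx
  set y : ℤ := (b.2 : ℤ) - a.2 with hy
  have hdiv : (m : ℤ) ∣ x - ν * y := by
    have : (b.1 : ℤ) - ν * b.2 - ((a.1 : ℤ) - ν * a.2) = x - ν * y := by rw [hx, hy]; ring
    rwa [this] at hf
  have hxb : |x| ≤ r := by rw [hx, abs_le]; constructor <;> omega
  have hyb : |y| ≤ r := by rw [hy, abs_le]; constructor <;> omega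
  have hr2' : (r : ℤ) * r ≤ m := by exact_mod_cast hr2
  have hr0 : (0 : ℤ) ≤ r := by positivity
  have hx2 : x ^ 2 ≤ r * r := by nlinarith [abs_nonneg x, sq_abs x]
  have hy2 : y ^ 2 ≤ r * r := by nlinarith [abs_nonneg y, sq_abs y]
  have hne : 0 < x ^ 2 + y ^ 2 := by
    rcases eq_or_ne x 0 with h2 | h2
    · rcases eq_or_ne y 0 with h3 | h3
      · exfalso
        apply hab
        ext <;> omega
      · positivity
    · positivity
  have hdiv2 : (m : ℤ) ∣ x ^ 2 + y ^ 2 := by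
    have e : x ^ 2 + y ^ 2 = (x - ν * y) * (x + ν * y) + (ν ^ 2 + 1) * y ^ 2 := by ring
    rw [e]
    exact dvd_add (hdiv.mul_right _) (hν.mul_right _)
  have hm0 : (0 : ℤ) < m := by exact_mod_cast (by omega : 0 < m)
  obtain ⟨k, hk⟩ := hdiv2
  have hk1 : 1 ≤ k := by
    by_contra hc
    have : k ≤ 0 := by omega
    nlinarith
  have hk2 : k ≤ 2 := by
    by_contra hc
    have : 3 ≤ k := by omega
    nlinarith
  have hneg : (m : ℤ) ∣ ν * y - x := by
    have := hdiv.neg_right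
    rwa [neg_sub] at this
  rcases (by omega : k = 1 ∨ k = 2) with h2 | h2
  · exact ⟨x, y, by rw [hk, h2, mul_one], hneg⟩
  -- the second case is impossible
  exfalso
  rw [h2] at hk
  have e1 : x ^ 2 = r * r := by nlinarith
  have e2 : y ^ 2 = r * r := by nlinarith
  have e3 : (m : ℤ) = r * r := by nlinarith
  have hr0' : (0 : ℤ) < r := by
    by_contra hc
    have : (r : ℤ) = 0 := by omega
    rw [this] at e3
    omega
  have hrm : (r : ℤ) ∣ ν ^ 2 + 1 := by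
    refine dvd_trans ?_ hν
    rw [e3]
    exact dvd_mul_right _ _
  have hxy : x = r ∨ x = -r := by
    have : (x - r) * (x + r) = 0 := by linarith [e1]
    rcases mul_eq_zero.1 this with h | h
    · left; omega
    · right; omega
  have hyy : y = r ∨ y = -r := by
    have : (y - r) * (y + r) = 0 := by linarith [e2]
    rcases mul_eq_zero.1 this with h | h
    · left; omega
    · right; omega
  have h3 : (r : ℤ) ∣ ν ^ 2 - 1 := by
    have h4 : (r : ℤ) ∣ ν - 1 ∨ (r : ℤ) ∣ ν + 1 := by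
      rw [e3] at hneg
      rcases hxy with hxx | hxx <;> rcases hyy with hyy | hyy <;> rw [hxx, hyy] at hneg
      · left
        have e : ν * (r : ℤ) - r = (ν - 1) * r := by ring
        rw [e] at hneg
        exact Int.dvd_of_mul_dvd_mul_right hr0'.ne' hneg
      · right
        have e : ν * (-(r : ℤ)) - r = -((ν + 1) * r) := by ring
        rw [e, dvd_neg] at hneg
        exact Int.dvd_of_mul_dvd_mul_right hr0'.ne' hneg
      · right
        have e : ν * (r : ℤ) - -r = (ν + 1) * r := by ring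
        rw [e] at hneg
        exact Int.dvd_of_mul_dvd_mul_right hr0'.ne' hneg
      · left
        have e : ν * (-(r : ℤ)) - -r = -((ν - 1) * r) := by ring
        rw [e, dvd_neg] at hneg
        exact Int.dvd_of_mul_dvd_mul_right hr0'.ne' hneg
    have e : ν ^ 2 - 1 = (ν - 1) * (ν + 1) := by ring
    rw [e]
    rcases h4 with h | h
    · exact h.mul_right _
    · exact h.mul_left _
  have h5 : (r : ℤ) ∣ 2 := by
    have := dvd_sub hrm h3
    have e : ν ^ 2 + 1 - (ν ^ 2 - 1) = 2 := by ring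
    rwa [e] at this
  have h6 : (r : ℤ) ≤ 2 := Int.le_of_dvd (by norm_num) h5
  rcases (by omega : (r : ℤ) = 1 ∨ (r : ℤ) = 2) with h7 | h7
  · rw [h7] at e3; omega
  · rw [h7] at e3
    rw [e3] at hν
    have h8 : (2 : ℤ) * 2 = 4 := by norm_num
    rw [h8] at hν
    have h9 : ν % 4 = 0 ∨ ν % 4 = 1 ∨ ν % 4 = 2 ∨ ν % 4 = 3 := by omega
    have h10 : (ν ^ 2 + 1) % 4 = 0 := Int.emod_eq_zero_of_dvd hν
    rcases h9 with h | h | h | h <;> · rw [sq, Int.add_emod, Int.mul_emod, h] at h10; norm_num at h10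

theorem cop_of (m : ℕ) (hm : 1 ≤ m) (ν x y : ℤ) (hν : (m : ℤ) ∣ ν ^ 2 + 1)
    (h : x ^ 2 + y ^ 2 = m) (hd : (m : ℤ) ∣ ν * y - x) : IsCoprime x y := by
  have hm0 : (0 : ℤ) < m := by exact_mod_cast (by omega : 0 < m)
  rw [Int.isCoprime_iff_gcd_eq_one]
  set g := Int.gcd x y with hg
  obtain ⟨x', hx'⟩ : (g : ℤ) ∣ x := Int.gcd_dvd_left ..
  obtain ⟨y', hy'⟩ : (g : ℤ) ∣ y := Int.gcd_dvd_right ..
  have hg0 : (g : ℤ) ≠ 0 := by
    intro h0
    rw [h0] at hx' hy'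
    rw [hx', hy'] at h
    norm_num at h
    omega
  have e1 : (m : ℤ) = g * (g * (x' ^ 2 + y' ^ 2)) := by rw [← h, hx', hy']; ring
  have e2 : (g : ℤ) * (g * (x' ^ 2 + y' ^ 2)) ∣ g * (ν * y' - x') := by
    rw [← e1]
    have : (g : ℤ) * (ν * y' - x') = ν * y - x := by rw [hx', hy']; ring
    rw [this]
    exact hd
  have e3 : (g : ℤ) * (x' ^ 2 + y' ^ 2) ∣ ν * y' - x' := Int.dvd_of_mul_dvd_mul_left hg0 e2
  have e4 : (g : ℤ) * (x' ^ 2 + y' ^ 2) ∣ ν ^ 2 + 1 := by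
    refine dvd_trans ?_ hν
    rw [e1]
    exact dvd_mul_left _ _
  have e5 : (g : ℤ) * (x' ^ 2 + y' ^ 2) ∣ x' ^ 2 + y' ^ 2 := by
    have : x' ^ 2 + y' ^ 2 = (ν ^ 2 + 1) * y' ^ 2 - (ν * y' - x') * (ν * y' + x') := by ring
    conv_rhs => rw [this]
    exact dvd_sub (e4.mul_right _) (e3.mul_right _)
  have e6 : 0 < x' ^ 2 + y' ^ 2 := by
    by_contra hc
    have h7 : x' ^ 2 + y' ^ 2 = 0 := by nlinarith [sq_nonneg x', sq_nonneg y']
    rw [h7] at e1
    simp at e1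
    omega
  have e7 : (g : ℤ) ∣ 1 := by
    obtain ⟨t, ht⟩ := e5
    refine ⟨t, ?_⟩
    have : (x' ^ 2 + y' ^ 2) * 1 = (x' ^ 2 + y' ^ 2) * (g * t) := by linarith
    exact mul_left_cancel₀ e6.ne' this
  have e8 : g ∣ 1 := by exact_mod_cast e7
  exact Nat.dvd_one.1 e8

/-- existence of the representation -/
theorem exists_pt (m : ℕ) (hm : 1 ≤ m) (ν : ℤ) (hν : (m : ℤ) ∣ ν ^ 2 + 1) :
    ∃ z ∈ Pt m, (m : ℤ) ∣ ν * z.2 - z.1 := by
  obtain ⟨x, y, h, hd⟩ := thue m hm ν hν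
  have hc := cop_of m hm ν x y hν h hd
  have hrot : (m : ℤ) ∣ ν * x - -y := by
    have e : ν * x - -y = (ν ^ 2 + 1) * y - ν * (ν * y - x) := by ring
    rw [e]
    exact dvd_sub (hν.mul_right _) (hd.mul_left _)
  have hm0 : (0 : ℤ) < m := by exact_mod_cast (by omega : 0 < m)
  have key : ∀ a b : ℤ, a ^ 2 + b ^ 2 = m → (m : ℤ) ∣ ν * b - a → IsCoprime a b →
      (|a| < |b| ∨ a = b) → ∃ z ∈ Pt m, (m : ℤ) ∣ ν * z.2 - z.1 := by
    intro a b h1 h2 h3 h4
    have hb0 : b ≠ 0 := by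
      rintro rfl
      rcases h4 with h4 | h4
      · rw [abs_zero] at h4
        exact absurd h4 (not_lt.2 (abs_nonneg a))
      · rw [h4] at h1
        norm_num at h1
        omega
    rcases lt_or_gt_of_ne hb0 with h5 | h5
    · refine ⟨(-a, -b), ?_, ?_⟩
      · rw [mem_Pt]
        simp only
        refine ⟨by omega, ?_, ?_, h3.neg_neg, by rw [← h1]; ring⟩
        · rcases h4 with h4 | h4
          · rw [abs_of_neg h5, abs_lt] at h4
            omega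
          · omega
        · rcases h4 with h4 | h4
          · rw [abs_of_neg h5, abs_lt] at h4
            omega
          · omega
      · simp only
        have e : ν * -b - -a = -(ν * b - a) := by ring
        rw [e, dvd_neg]
        exact h2
    · refine ⟨(a, b), ?_, h2⟩
      rw [mem_Pt]
      simp only
      refine ⟨h5, ?_, ?_, h3, h1⟩
      · rcases h4 with h4 | h4
        · rw [abs_of_pos h5, abs_lt] at h4
          omega
        · omega
      · rcases h4 with h4 | h4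
        · rw [abs_of_pos h5, abs_lt] at h4
          omega
        · omega
  rcases lt_trichotomy |x| |y| with h1 | h1 | h1
  · exact key x y h hd hc (Or.inl h1)
  · rcases abs_eq_abs.1 h1 with h2 | h2
    · exact key x y h hd hc (Or.inr h2)
    · exact key (-y) x (by rw [← h]; ring) hrot hc.symm.neg_left (Or.inr (by omega))
  · exact key (-y) x (by rw [← h]; ring) hrot hc.symm.neg_left (Or.inl (by rwa [abs_neg]))

/-- uniqueness of the representation -/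
theorem unique_pt (m : ℕ) (hm : 1 ≤ m) (ν : ℤ) (hν : (m : ℤ) ∣ ν ^ 2 + 1) (z z' : ℤ × ℤ)
    (hz : z ∈ Pt m) (hz' : z' ∈ Pt m) (hd : (m : ℤ) ∣ ν * z.2 - z.1)
    (hd' : (m : ℤ) ∣ ν * z'.2 - z'.1) : z = z' := by
  obtain ⟨x, y⟩ := z
  obtain ⟨x', y'⟩ := z'
  rw [mem_Pt] at hz hz'
  simp only at hz hz' hd hd'
  obtain ⟨a1, a2, a3, a4, a5⟩ := hz
  obtain ⟨b1, b2, b3, b4, b5⟩ := hz'
  have hm0 : (0 : ℤ) < m := by exact_mod_cast (by omega : 0 < m)
  obtain ⟨s, hs⟩ : (m : ℤ) ∣ x * x' + y * y' := by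
    have e : x * x' + y * y' = (ν ^ 2 + 1) * (y * y') - ν * y * (ν * y' - x') -
        x' * (ν * y - x) := by ring
    rw [e]
    exact dvd_sub (dvd_sub (hν.mul_right _) (hd'.mul_left _)) (hd.mul_left _)
  obtain ⟨t, ht⟩ : (m : ℤ) ∣ x * y' - x' * y := by
    have e : x * y' - x' * y = y * (ν * y' - x') - y' * (ν * y - x) := by ring
    rw [e]
    exact dvd_sub (hd'.mul_left _) (hd.mul_left _)
  have h1 : s ^ 2 + t ^ 2 = 1 := by
    have e : (x * x' + y * y') ^ 2 + (x * y' - x' * y) ^ 2 = (m : ℤ) * m := by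
      have : (x * x' + y * y') ^ 2 + (x * y' - x' * y) ^ 2 = (x ^ 2 + y ^ 2) * (x' ^ 2 + y' ^ 2) := by
        ring
      rw [this, a5, b5]
    rw [hs, ht] at e
    have e2 : (m : ℤ) * m * (s ^ 2 + t ^ 2) = m * m * 1 := by linarith
    exact mul_left_cancel₀ (by positivity) e2
  have hs1 : s ^ 2 ≤ 1 := by linarith [sq_nonneg t]
  have ht1 : t ^ 2 ≤ 1 := by linarith [sq_nonneg s]
  have hs2 := abs_le.1 ((sq_le_one_iff_abs_le_one s).1 hs1)
  have ht2 := abs_le.1 ((sq_le_one_iff_abs_le_one t).1 ht1)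
  have hz2 : ∀ a b : ℤ, a ^ 2 + b ^ 2 = 0 → a = 0 ∧ b = 0 := by
    intro a b hab
    have ha : a ^ 2 = 0 := by linarith [sq_nonneg a, sq_nonneg b]
    have hb : b ^ 2 = 0 := by linarith [sq_nonneg a, sq_nonneg b]
    exact ⟨pow_eq_zero_iff (two_ne_zero) |>.1 ha, pow_eq_zero_iff (two_ne_zero) |>.1 hb⟩
  have hcase : (s = 1 ∧ t = 0) ∨ (s = -1 ∧ t = 0) ∨ (s = 0 ∧ t = 1) ∨ (s = 0 ∧ t = -1) := by
    rcases (by omega : s = -1 ∨ s = 0 ∨ s = 1) with h | h | h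
    · right; left
      refine ⟨h, ?_⟩
      rw [h] at h1
      exact pow_eq_zero_iff (two_ne_zero) |>.1 (by linarith : t ^ 2 = 0)
    · right; right
      rw [h] at h1
      have h2 : (t - 1) * (t + 1) = 0 := by linarith
      rcases mul_eq_zero.1 h2 with h3 | h3
      · left; exact ⟨h, by omega⟩
      · right; exact ⟨h, by omega⟩
    · left
      refine ⟨h, ?_⟩
      rw [h] at h1
      exact pow_eq_zero_iff (two_ne_zero) |>.1 (by linarith : t ^ 2 = 0)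
  rcases hcase with ⟨h2, h3⟩ | ⟨h2, h3⟩ | ⟨h2, h3⟩ | ⟨h2, h3⟩
  · rw [h2, mul_one] at hs
    have h4 : (x - x') ^ 2 + (y - y') ^ 2 =
      (x ^ 2 + y ^ 2) + (x' ^ 2 + y' ^ 2) - 2 * (x * x' + y * y') := by ring
    obtain ⟨h5, h6⟩ := hz2 _ _ (by rw [h4, a5, b5, hs]; ring)
    have h7 : x = x' := by omega
    have h8 : y = y' := by omega
    rw [h7, h8]
  · exfalso
    rw [h2] at hs
    have h4 : (x + x') ^ 2 + (y + y') ^ 2 =
      (x ^ 2 + y ^ 2) + (x' ^ 2 + y' ^ 2) + 2 * (x * x' + y * y') := by ring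
    obtain ⟨h5, h6⟩ := hz2 _ _ (by rw [h4, a5, b5, hs]; ring)
    omega
  · exfalso
    rw [h3, mul_one] at ht
    have h4 : (x - y') ^ 2 + (y + x') ^ 2 =
      (x ^ 2 + y ^ 2) + (x' ^ 2 + y' ^ 2) - 2 * (x * y' - x' * y) := by ring
    obtain ⟨h5, h6⟩ := hz2 _ _ (by rw [h4, a5, b5, ht]; ring)
    omega
  · exfalso
    rw [h3] at ht
    have h4 : (x + y') ^ 2 + (y - x') ^ 2 =
      (x ^ 2 + y ^ 2) + (x' ^ 2 + y' ^ 2) + 2 * (x * y' - x' * y) := by ring
    obtain ⟨h5, h6⟩ := hz2 _ _ (by rw [h4, a5, b5, ht]; ring)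
    omega

end Pool.Agent.T2h76
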