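import Pool.Agent.Y882.KW.Core4

/-! The functions of the linear sieve beyond the first range. -/

set_option autoImplicit false

namespace Pool.Agent.T2h76

open Finset MeasureTheory intervalIntegral
open Pool.Agent.W23.DC

/-- the correction factor -/
noncomputable def cor (s : ℝ) : ℝ := 1 + (max (s - 3) 0) ^ 2 / 4

theorem cor_one (s : ℝ) : 1 ≤ cor s := by
  unfold cor
  have : 0 ≤ (max (s - 3) 0) ^ 2 / 4 := by positivity
  linarith

theorem cor_cont : Continuous cor := by
  unfold cor
  fun_prop

/-- the upper bound function up to `5` -/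
theorem F35 {A0 : ℝ} {F f : ℝ → ℝ} (h : SF A0 F f) (s : ℝ) (hs : 1 ≤ s) (hs5 : s ≤ 5) :
    F s ≤ A0 / s * cor s := by
  have hA := h.pos
  rcases le_or_gt s 3 with h3 | h3
  · rw [h.F3 s hs h3]
    exact le_mul_of_one_le_right (by positivity) (cor_one s)
  · have h1 := h.eF s h3.le
    have h2 : ∫ x in (3 : ℝ)..s, f (x - 1) ≤ ∫ x in (3 : ℝ)..s, A0 / 2 * (x - 3) := by
      apply intervalIntegral.integral_mono_on h3.le
      · apply ContinuousOn.intervalIntegrable
        rw [Set.uIcc_of_le h3.le]
        apply h.cf.comp (by fun_prop)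
        intro x hx
        simp only [Set.mem_Ici]
        linarith [hx.1]
      · apply Continuous.intervalIntegrable
        fun_prop
      · intro x hx
        obtain ⟨x1, x2⟩ := hx
        rw [h.f4 (x - 1) (by linarith) (by linarith)]
        have h4 : Real.log (x - 1 - 1) ≤ x - 3 := by
          have := Real.log_le_sub_one_of_pos (show 0 < x - 1 - 1 by linarith)
          linarith
        rw [div_le_iff₀ (by linarith)]
        have h5 : A0 * Real.log (x - 1 - 1) ≤ A0 * (x - 3) := mul_le_mul_of_nonneg_left h4 hA.le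
        have h6 : 0 ≤ A0 * (x - 3) := mul_nonneg hA.le (by linarith)
        nlinarith
    have h3' : ∫ x in (3 : ℝ)..s, A0 / 2 * (x - 3) = A0 * (s - 3) ^ 2 / 4 := by
      rw [intervalIntegral.integral_const_mul, intervalIntegral.integral_sub (by
        apply Continuous.intervalIntegrable; fun_prop) (by
        apply Continuous.intervalIntegrable; fun_prop), integral_id, intervalIntegral.integral_const]
      simp only [smul_eq_mul]
      ring
    have h4 : cor s = 1 + (s - 3) ^ 2 / 4 := by
      unfold cor
      rw [max_eq_left (by linarith)]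
    rw [h4]
    have hs0 : 0 < s := by linarith
    rw [div_mul_eq_mul_div, le_div_iff₀ hs0]
    calc F s * s = s * F s := by ring
      _ = A0 + ∫ x in (3 : ℝ)..s, f (x - 1) := h1
      _ ≤ A0 + A0 * (s - 3) ^ 2 / 4 := by rw [← h3']; linarith
      _ = _ := by ring

theorem Flow {A0 : ℝ} {F f : ℝ → ℝ} (h : SF A0 F f) (s : ℝ) (hs : 1 ≤ s) (hs5 : s ≤ 5) :
    A0 / s ≤ F s := by
  have hA := h.pos
  rcases le_or_gt s 3 with h3 | h3
  · rw [h.F3 s hs h3]
  · have h1 := h.eF s h3.le
    have h2 : 0 ≤ ∫ x in (3 : ℝ)..s, f (x - 1) := by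
      apply intervalIntegral.integral_nonneg h3.le
      intro x hx
      obtain ⟨x1, x2⟩ := hx
      rw [h.f4 (x - 1) (by linarith) (by linarith)]
      have h4 : 0 ≤ Real.log (x - 1 - 1) := Real.log_nonneg (by linarith)
      apply div_nonneg (by positivity) (by linarith)
    rw [div_le_iff₀ (by linarith)]
    linarith

/-- the lower bound function up to `6` -/
theorem f45 {A0 : ℝ} {F f : ℝ → ℝ} (h : SF A0 F f) (s : ℝ) (hs : 2 ≤ s) (hs5 : s ≤ 6) :
    A0 * Real.log (s - 1) / s ≤ f s := by
  have hA := h.pos
  have h1 := h.ef s hs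
  have h2 : ∫ x in (2 : ℝ)..s, A0 * (x - 1)⁻¹ ≤ ∫ x in (2 : ℝ)..s, F (x - 1) := by
    apply intervalIntegral.integral_mono_on hs
    · apply ContinuousOn.intervalIntegrable
      rw [Set.uIcc_of_le hs]
      apply ContinuousOn.mul continuousOn_const
      apply ContinuousOn.inv₀ (by fun_prop)
      intro x hx
      have := hx.1
      linarith
    · apply ContinuousOn.intervalIntegrable
      rw [Set.uIcc_of_le hs]
      apply h.cF.comp (by fun_prop)
      intro x hx
      simp only [Set.mem_Ici]
      linarith [hx.1]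
    · intro x hx
      obtain ⟨x1, x2⟩ := hx
      have := Flow h (x - 1) (by linarith) (by linarith)
      rwa [div_eq_mul_inv] at this
  have h3 : ∫ x in (2 : ℝ)..s, A0 * (x - 1)⁻¹ = A0 * Real.log (s - 1) := by
    rw [intervalIntegral.integral_const_mul]
    congr 1
    rw [intervalIntegral.integral_comp_sub_right (fun x => x⁻¹) 1, integral_inv]
    · norm_num
    · rw [Set.uIcc_of_le (by linarith)]
      intro h0
      have := h0.1
      linarith
  rw [div_le_iff₀ (by linarith), ← h3]
  linarith

end Pool.Agent.T2h76
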