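import Pool.Agent.T2h76.Sv1
import Pool.Agent.Y844.BT.Cel

/-! The weighted linear sieve with coefficients that depend on the cells of the primes. -/

set_option autoImplicit false

namespace Pool.Agent.T2h76

open Finset
open Pool.Agent.W23.DC
open Pool.Agent.Y882 (lc lc_le lc_EE lc_V lc_ind LL_zero EE_sub prod_inj VV VV_sub VV_sum)
open Pool.Agent.Y882.KW (VV_part VV_one lc_ind_up)
open Pool.Agent.Y844.BT (Cc Cc_bd srt srt_insert srt_empty LL_cell Cc_wf)

/-- the cells of a set -/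
def ty (c : ℕ → ℕ) (T : Finset ℕ) : Multiset ℕ := T.val.map c

/-- coefficients of the upper bound -/
noncomputable def yU (n0 nz K : ℕ) (C : Multiset ℕ) : ℝ :=
  if ∀ c ∈ C, c < nz then Cc n0 K true 0 (C.sort (· ≥ ·)) else 0

/-- coefficients of the lower bound -/
noncomputable def yL (n0 nz K : ℕ) (ϖ a b : ℝ) (C : Multiset ℕ) : ℝ :=
  (if ∀ c ∈ C, c < nz then Cc n0 K false 0 (C.sort (· ≥ ·)) else 0) -
  ∑ c0 ∈ C.toFinset.filter (fun c0 => nz ≤ c0), if ∀ c ∈ C.erase c0, c < nz then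
    (a - b * (ϖ * c0)) * Cc n0 K true (c0 + 1) ((C.erase c0).sort (· ≥ ·)) else 0

theorem mid2 (ζ υ : ℝ) (h : ℝ → ℝ) (hζ : 0 < ζ) (hζυ : ζ ≤ υ) (hυ : υ ≤ 1)
    (hcon : ContinuousOn h (Set.Icc ζ υ)) (c : ℝ) (hc : 0 < c) (ε₁ : ℝ) (hε : 0 < ε₁)
    (hεζ : ε₁ ≤ ζ) : ∃ η : ℝ, 0 < η ∧ ∀ (P : Finset ℕ) (t g : ℕ → ℝ), (∀ p ∈ P, 0 ≤ g p) →
      Mer P t g ε₁ υ η →
      ∑ p ∈ P.filter (fun p => ζ ≤ t p ∧ t p < υ), g p * h (t p) ≤ (∫ x in ζ..υ, h x / x) + c := by
  classical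
  obtain ⟨H, hH⟩ := isCompact_Icc.exists_bound_of_continuousOn hcon
  have hu := isCompact_Icc.uniformContinuousOn_of_continuous hcon
  rw [Metric.uniformContinuousOn_iff_le] at hu
  set κ : ℝ := c / (2 * Real.log (1 / ε₁) + 2) with hκ
  have hlog : 0 ≤ Real.log (1 / ε₁) := by
    apply Real.log_nonneg
    rw [le_div_iff₀ hε]
    linarith
  have hden : 0 < 2 * Real.log (1 / ε₁) + 2 := by linarith
  have hκ0 : 0 < κ := by positivity
  obtain ⟨ρ, hρ, hρ'⟩ := hu κ hκ0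
  obtain ⟨η, hη, HM⟩ := Pool.Agent.W505.DC.MI ε₁ ρ κ (|H| + 1) hε (by linarith) hρ hκ0
    (by positivity)
  refine ⟨η, hη, fun P t g hg hM => ?_⟩
  have h1 := HM P t g υ hυ hg hM ζ υ h hεζ hζυ le_rfl hcon
    (fun x hx => by
      have := hH x hx
      rw [Real.norm_eq_abs] at this
      linarith [le_abs_self H])
    (fun x hx y hy hxy => by
      have := hρ' x hx y hy (by rw [Real.dist_eq]; exact hxy)
      rwa [Real.dist_eq] at this)
  rw [abs_le] at h1
  have h2 : κ * (2 * Real.log (1 / ε₁) + 2) = c := by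
    rw [hκ]; field_simp
  rw [h2] at h1
  have h3 := h1.2
  linarith

/-- the data of the cells -/
structure CD (P R : Finset ℕ) (t : ℕ → ℝ) (c : ℕ → ℕ) (ϖ δ0 τ ζ υ ε₁ : ℝ) (n0 nz K : ℕ) : Prop where
  siz : Siz (P ∪ R) t
  posϖ : 0 < ϖ
  nnδ : 0 ≤ δ0
  smδ : (((K + 1 : ℕ) : ℝ) + 3) * δ0 < ϖ / 2
  lev : ϖ * (n0 + 1 / 2) = τ
  cel : ∀ p ∈ P ∪ R, ϖ * (c p + 1) ≤ t p ∧ t p ≤ ϖ * (c p + 1) + δ0
  onP : ∀ p ∈ P, c p < nz ∧ ε₁ ≤ t p ∧ t p < ζ
  onR : ∀ q ∈ R, nz ≤ c q ∧ ζ ≤ t q ∧ t q < υ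

section
variable {P R : Finset ℕ} {t : ℕ → ℝ} {c : ℕ → ℕ} {ϖ δ0 τ ζ υ ε₁ : ℝ} {n0 nz K : ℕ}

theorem CD.sizP (h : CD P R t c ϖ δ0 τ ζ υ ε₁ n0 nz K) : Siz P t :=
  ⟨fun p hp => h.siz.pr p (mem_union_left _ hp), fun p hp => h.siz.pos p (mem_union_left _ hp),
    fun p hp q hq => h.siz.mono p (mem_union_left _ hp) q (mem_union_left _ hq)⟩

theorem CD.small2 (h : CD P R t c ϖ δ0 τ ζ υ ε₁ n0 nz K) : 4 * δ0 < ϖ / 2 := by
  have h1 := h.smδ
  have h2 := h.nnδ
  have h3 : (1 : ℝ) ≤ ((K + 1 : ℕ) : ℝ) := by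
    push_cast
    have : (0 : ℝ) ≤ (K : ℝ) := Nat.cast_nonneg _
    linarith
  nlinarith

theorem CD.mono (h : CD P R t c ϖ δ0 τ ζ υ ε₁ n0 nz K) (p q : ℕ) (hp : p ∈ P ∪ R) (hq : q ∈ P ∪ R)
    (hqp : q < p) : c q ≤ c p := by
  have h1 := (h.siz.mono q hq p hp).2 hqp
  have h2 := (h.cel q hq).1
  have h3 := (h.cel p hp).2
  have h7 := h.small2
  have h8 := h.posϖ
  by_contra hcon
  push Not at hcon
  have h4 : (c p : ℝ) + 1 ≤ c q := by exact_mod_cast hcon
  have h5 : ϖ * (c p + 1 + 1) ≤ ϖ * (c q + 1) := by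
    apply mul_le_mul_of_nonneg_left _ h.posϖ.le
    linarith
  nlinarith [h.nnδ]

theorem CD.ty_lt (h : CD P R t c ϖ δ0 τ ζ υ ε₁ n0 nz K) (T : Finset ℕ) (hT : T ⊆ P ∪ R) :
    (∀ x ∈ ty c T, x < nz) ↔ T ⊆ P := by
  unfold ty
  constructor
  · intro h1 p hp
    rcases mem_union.1 (hT hp) with h2 | h2
    · exact h2
    · have h3 := h1 (c p) (Multiset.mem_map_of_mem c hp)
      have h4 := (h.onR p h2).1
      omega
  · intro h1 x hx
    rw [Multiset.mem_map] at hx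
    obtain ⟨p, hp, rfl⟩ := hx
    exact (h.onP p (h1 hp)).1

theorem CD.lcU (h : CD P R t c ϖ δ0 τ ζ υ ε₁ n0 nz K) (b : Bool) (hb : b = false → 2 * ζ ≤ τ)
    (hτ : 0 ≤ τ) (T : Finset ℕ) (hT : T ⊆ P) : lc P t K b τ ζ T = Cc n0 K b 0 (srt c T) := by
  have h1 := LL_cell h.sizP c ϖ δ0 n0 (K + 1) h.posϖ h.nnδ h.smδ
    (fun p hp => h.cel p (mem_union_left _ hp)) K (Nat.le_succ K) b τ ζ 0 T 1 one_pos hT
    (fun q hq => (h.onP q (hT hq)).2.2) hτ hb (by
      have := h.lev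
      push_cast
      linarith [h.nnδ]) (by
      have := h.lev
      push_cast
      linarith)
  rw [← h1]
  unfold lc
  congr 1
  funext x
  rw [one_mul]

theorem CD.lcq (h : CD P R t c ϖ δ0 τ ζ υ ε₁ n0 nz K) (hK : 1 ≤ K) (q : ℕ) (hq : q ∈ R)
    (hτ : 0 ≤ τ - t q) (T : Finset ℕ) (hT : T ⊆ P) :
    lc P t K true (τ - t q) (min ζ (τ - t q)) T = Cc n0 K true (c q + 1) (srt c T) := by
  classical
  obtain ⟨q1, q2⟩ := h.cel q (mem_union_right _ hq)
  have hlev := h.lev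
  by_cases hc : ∀ p ∈ T, t p < min ζ (τ - t q)
  · have h1 := LL_cell h.sizP c ϖ δ0 n0 (K + 1) h.posϖ h.nnδ h.smδ
      (fun p hp => h.cel p (mem_union_left _ hp)) K (Nat.le_succ K) true (τ - t q)
      (min ζ (τ - t q)) (c q + 1) T 1 one_pos hT hc hτ (fun hf => by cases hf) (by
        push_cast
        linarith) (by
        push_cast
        linarith)
    rw [← h1]
    unfold lc
    congr 1
    funext x
    rw [one_mul]
  · have h0 : lc P t K true (τ - t q) (min ζ (τ - t q)) T = 0 := by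
      by_contra hne
      have h1 := lc_EE P t h.sizP K true (τ - t q) (min ζ (τ - t q)) hτ (fun hf => by cases hf) T hne
      unfold EE at h1
      rw [mem_filter, mem_image] at h1
      obtain ⟨⟨T', hT', hTT⟩, _⟩ := h1
      rw [mem_powerset] at hT'
      have h2 : T' = T := prod_inj P (fun p hp => h.sizP.pr p hp)
        (hT'.trans (filter_subset _ _)) hT hTT
      apply hc
      intro p hp
      rw [← h2] at hp
      exact (mem_filter.1 (hT' hp)).2
    rw [h0]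
    push Not at hc
    obtain ⟨p1, hp1, hp1t⟩ := hc
    obtain ⟨p0, hp0s, hmax⟩ := Finset.exists_max_image T id ⟨p1, hp1⟩
    have hp0 : p0 ∈ P := hT hp0s
    have hTi : T = insert p0 (T.erase p0) := (Finset.insert_erase hp0s).symm
    have hsrt : srt c T = c p0 :: srt c (T.erase p0) := by
      conv_lhs => rw [hTi]
      apply srt_insert c _ _ (notMem_erase _ _)
      intro x hx
      rw [mem_erase] at hx
      exact h.mono p0 x (mem_union_left _ hp0) (mem_union_left _ (hT hx.2))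
        (lt_of_le_of_ne (hmax x hx.2) hx.1)
    have hge : min ζ (τ - t q) ≤ t p0 := by
      refine hp1t.trans ?_
      rcases (show p1 ≤ p0 from hmax p1 hp1).lt_or_eq with h3 | h3
      · exact ((h.sizP.mono p1 (hT hp1) p0 hp0).2 h3).le
      · rw [h3]
    have hge2 : τ - t q ≤ t p0 := by
      have h3 := (h.onP p0 hp0).2.2
      rcases min_le_iff.1 hge with h4 | h4
      · linarith
      · exact h4
    rw [hsrt]
    obtain ⟨K', rfl⟩ : ∃ K', K = K' + 1 := ⟨K - 1, by omega⟩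
    show (0 : ℝ) = if 3 * (c p0 + 1) + (c q + 1) ≤ n0 then _ else 0
    rw [if_neg]
    intro h5
    have h6 : 3 * ((c p0 : ℝ) + 1) + (c q + 1) ≤ n0 := by exact_mod_cast h5
    have h7 := (h.cel p0 (mem_union_left _ hp0)).2
    have h8 := h.small2
    have h9 := h.posϖ
    have h10 : ϖ * (3 * ((c p0 : ℝ) + 1) + (c q + 1)) ≤ ϖ * n0 := mul_le_mul_of_nonneg_left h6 h9.le
    have h11 : 0 ≤ ϖ * ((c p0 : ℝ) + 1) := by positivity
    nlinarith [h.nnδ]

theorem yU_eq (h : CD P R t c ϖ δ0 τ ζ υ ε₁ n0 nz K) (hτ : 0 ≤ τ) [DecidablePred (· ⊆ P)]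
    (T : Finset ℕ) (hT : T ⊆ P ∪ R) :
    yU n0 nz K (ty c T) = if T ⊆ P then lc P t K true τ ζ T else 0 := by
  unfold yU
  by_cases h1 : T ⊆ P
  · rw [if_pos ((h.ty_lt T hT).2 h1), if_pos h1, h.lcU true (fun hf => by cases hf) hτ T h1]
    rfl
  · rw [if_neg (fun hh => h1 ((h.ty_lt T hT).1 hh)), if_neg h1]

open Classical in
theorem yL_eq (h : CD P R t c ϖ δ0 τ ζ υ ε₁ n0 nz K) (hτ : 0 ≤ τ) (h2 : 2 * ζ ≤ τ) (hυτ : υ < τ)
    (hK : 1 ≤ K) (a b : ℝ) (T : Finset ℕ) (hT : T ⊆ P ∪ R) :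
    yL n0 nz K ϖ a b (ty c T) = (if T ⊆ P then lc P t K false τ ζ T else 0) -
      ∑ q ∈ R, if q ∈ T ∧ T.erase q ⊆ P then (a - b * (ϖ * c q)) *
        lc P t K true (τ - t q) (min ζ (τ - t q)) (T.erase q) else 0 := by
  unfold yL
  congr 1
  · by_cases h1 : T ⊆ P
    · rw [if_pos ((h.ty_lt T hT).2 h1), if_pos h1, h.lcU false (fun _ => h2) hτ T h1]
      rfl
    · rw [if_neg (fun hh => h1 ((h.ty_lt T hT).1 hh)), if_neg h1]
  · have hdis : ∀ q ∈ R, q ∉ P := by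
      intro q hq hq'
      have h3 := (h.onR q hq).1
      have h4 := (h.onP q hq').1
      omega
    have hers : ∀ q ∈ T, (ty c T).erase (c q) = ty c (T.erase q) := by
      intro q hq
      unfold ty
      have h3 : T.val = q ::ₘ (T.erase q).val := by
        rw [erase_val, Multiset.cons_erase]
        exact hq
      conv_lhs => rw [h3]
      rw [Multiset.map_cons, Multiset.erase_cons_head]
    by_cases hex : ∃ q ∈ R, q ∈ T ∧ T.erase q ⊆ P
    · obtain ⟨q, hq, hqT, hqP⟩ := hex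
      have hlt := (h.ty_lt (T.erase q) ((erase_subset _ _).trans hT)).2 hqP
      have hcq : c q ∈ ty c T := Multiset.mem_map_of_mem c hqT
      rw [sum_eq_single_of_mem (c q) (by
        rw [mem_filter, Multiset.mem_toFinset]
        exact ⟨hcq, (h.onR q hq).1⟩)]
      · rw [sum_eq_single_of_mem q hq]
        · rw [hers q hqT, if_pos hlt, if_pos ⟨hqT, hqP⟩,
            h.lcq hK q hq (by linarith [(h.onR q hq).2.2]) (T.erase q) hqP]
          rfl
        · intro q' hq' hne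
          rw [if_neg]
          rintro ⟨h6, -⟩
          have h7 : q' ∈ T.erase q := mem_erase.2 ⟨hne, h6⟩
          exact hdis q' hq' (hqP h7)
      · intro x hx hxne
        rw [mem_filter, Multiset.mem_toFinset] at hx
        exfalso
        unfold ty at hx
        obtain ⟨p, hp, rfl⟩ := Multiset.mem_map.1 hx.1
        have h8 : p ∈ T.erase q := mem_erase.2 ⟨fun h9 => hxne (by rw [h9]), hp⟩
        have h10 := (h.onP p (hqP h8)).1
        omega
    · rw [sum_eq_zero, sum_eq_zero]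
      · intro q hq
        rw [if_neg]
        rintro ⟨h6, h7⟩
        exact hex ⟨q, hq, h6, h7⟩
      · intro x hx
        rw [mem_filter, Multiset.mem_toFinset] at hx
        obtain ⟨hx1, hx2⟩ := hx
        unfold ty at hx1
        obtain ⟨q, hq, rfl⟩ := Multiset.mem_map.1 hx1
        rw [if_neg]
        intro h3
        have hqT : q ∈ T := hq
        rw [hers q hqT] at h3
        have h4 := (h.ty_lt (T.erase q) ((erase_subset _ _).trans hT)).1 h3
        have h5 : q ∈ R := by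
          rcases mem_union.1 (hT hqT) with h6 | h6
          · have := (h.onP q h6).1
            omega
          · exact h6
        exact hex ⟨q, h5, hqT, h4⟩

end

end Pool.Agent.T2h76
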