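import Pool.Agent.T2h76.Sv2

/-! The weighted linear sieve with cells: the theorem. -/

set_option autoImplicit false

namespace Pool.Agent.T2h76

open Finset
open Pool.Agent.W23.DC
open Pool.Agent.Y882 (lc lc_le lc_EE lc_V lc_ind LL_zero EE_sub prod_inj VV VV_sub VV_sum)
open Pool.Agent.Y882.KW (VV_part VV_one lc_ind_up)
open Pool.Agent.Y844.BT (Cc Cc_bd srt srt_insert srt_empty LL_cell Cc_wf)

open Classical in
/-- the weight of the middle primes, with weights depending on the cells -/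
noncomputable def WBc (P R : Finset ℕ) (c : ℕ → ℕ) (ϖ a b : ℝ) (N : ℕ) : ℝ :=
  (if ∀ p ∈ P, ¬ p ∣ N then 1 else 0) *
    (1 - ∑ q ∈ R, (a - b * (ϖ * c q)) * (if q ∣ N then 1 else 0))

theorem VV_congr (P : Finset ℕ) (c c' : Finset ℕ → ℝ) (h : ℕ → ℝ) (hc : ∀ T ⊆ P, c T = c' T) :
    VV P c h = VV P c' h := by
  unfold VV
  apply Finset.sum_congr rfl
  intro T hT
  rw [hc T (mem_powerset.1 hT)]

open Classical in
theorem lswc (τ ζ υ a b : ℝ) (hζ : 0 < ζ) (h2 : 2 * ζ < τ) (h4 : τ ≤ 5 * ζ) (hτ : τ ≤ 1)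
    (hζυ : ζ ≤ υ) (hυτ : υ < τ) (ha : 0 ≤ a) (hb : 0 ≤ b) (hab : b * υ ≤ a)
    (hJ : ∫ x in ζ..υ, (a - b * x) / (τ - x) * cor ((τ - x) / ζ) / x < Real.log (τ / ζ - 1) / τ) :
    ∃ f0 F0 : ℝ, 0 < f0 ∧ 0 < F0 ∧ ∀ ε₁ : ℝ, 0 < ε₁ → ε₁ ≤ ζ → ε₁ ≤ τ - υ →
      ∃ (η ϖ1 : ℝ) (K : ℕ), 0 < η ∧ 0 < ϖ1 ∧ 1 ≤ K ∧
      ∀ (P R : Finset ℕ) (t : ℕ → ℝ) (c : ℕ → ℕ) (ϖ δ0 : ℝ) (n0 nz : ℕ),
        CD P R t c ϖ δ0 τ ζ υ ε₁ n0 nz K → ϖ ≤ ϖ1 →
        (∀ T ⊆ P ∪ R, |yU n0 nz K (ty c T)| ≤ 1 ∧ |yL n0 nz K ϖ a b (ty c T)| ≤ 1 + a) ∧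
        (∀ T ⊆ P ∪ R, (yU n0 nz K (ty c T) ≠ 0 ∨ yL n0 nz K ϖ a b (ty c T) ≠ 0) →
          ∀ x y : ℕ, x + y = n0 → (∀ q ∈ R, c q + 1 ≤ x) →
          ∃ T1 ⊆ T, ∑ q ∈ T1, (c q + 1) ≤ x ∧ ∑ q ∈ T \ T1, (c q + 1) ≤ y) ∧
        (∀ N : ℕ, VV (P ∪ R) (fun T => yL n0 nz K ϖ a b (ty c T)) (fun p => if p ∣ N then 1 else 0) ≤
            WBc P R c ϖ a b N ∧
          (if ∀ p ∈ P, ¬ p ∣ N then (1 : ℝ) else 0) ≤
            VV (P ∪ R) (fun T => yU n0 nz K (ty c T)) (fun p => if p ∣ N then 1 else 0)) ∧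
        ∀ g : ℕ → ℝ, (∀ p ∈ P ∪ R, 0 ≤ g p) → Mer (P ∪ R) t g ε₁ υ η →
          ε₁ * f0 ≤ VV (P ∪ R) (fun T => yL n0 nz K ϖ a b (ty c T)) g ∧
          VV (P ∪ R) (fun T => yU n0 nz K (ty c T)) g ≤ ε₁ * F0 := by
  obtain ⟨A0, F, f, hSF⟩ := Pool.Agent.W366.DC.SFX
  have hA0 := hSF.pos
  have hτ0 : 0 < τ := by linarith
  set s : ℝ := τ / ζ with hs
  have hs2 : 2 < s := by rw [hs, lt_div_iff₀ hζ]; exact h2
  have hs5 : s ≤ 5 := by rw [hs, div_le_iff₀ hζ]; exact h4
  have hF : 1 ≤ F s := hSF.F1 s (by linarith)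
  set hh : ℝ → ℝ := fun x => (a - b * x) / (τ - x) * cor ((τ - x) / ζ) with hhh
  have hcon : ContinuousOn hh (Set.Icc ζ υ) := by
    apply ContinuousOn.mul
    · apply ContinuousOn.div
      · fun_prop
      · fun_prop
      · intro x hx
        have := hx.2
        linarith
    · exact (cor_cont.comp (by fun_prop)).continuousOn
  set c₂ : ℝ := Real.log (s - 1) / τ - ∫ x in ζ..υ, hh x / x with hc₂
  have hc₂0 : 0 < c₂ := by rw [hc₂]; linarith
  refine ⟨A0 * c₂ / 4, F s / ζ + 1, by positivity, by positivity, ?_⟩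
  intro ε₁ hε₁ hεζ hετ
  have hε1 : ε₁ ≤ 1 := by linarith
  set Bd : ℝ := Real.log (υ / ζ) + 1 with hBd
  have hlogυ : 0 ≤ Real.log (υ / ζ) := Real.log_nonneg (by rw [le_div_iff₀ hζ]; linarith)
  have hBd0 : 0 < Bd := by linarith
  set η' : ℝ := min ε₁ (ε₁ * A0 * c₂ / (4 * (1 + a * Bd))) with hη'
  have hη'0 : 0 < η' := lt_min hε₁ (by positivity)
  have hη'1 : η' ≤ ε₁ := min_le_left _ _
  have hη'2 : η' * (1 + a * Bd) ≤ ε₁ * A0 * c₂ / 4 := by
    have h := min_le_right ε₁ (ε₁ * A0 * c₂ / (4 * (1 + a * Bd)))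
    rw [← hη', le_div_iff₀ (by positivity)] at h
    linarith
  obtain ⟨K1, hK1⟩ := exists_nat_ge (τ / ε₁)
  set K : ℕ := max K1 1 with hKd
  have hK : τ / ε₁ ≤ K := by
    refine hK1.trans ?_
    exact_mod_cast le_max_left _ _
  have hKone : 1 ≤ K := le_max_right _ _
  have hKτ : τ ≤ (K + 2) * ε₁ := by
    rw [div_le_iff₀ hε₁] at hK
    nlinarith
  obtain ⟨η₁, hη₁, H⟩ := Pool.Agent.W505.DC.MT Pool.Agent.W505.DC.MI A0 F f hSF ε₁
    η' K hε₁ hε1 hη'0
  obtain ⟨η₂, hη₂, H2⟩ := mid2 ζ υ hh hζ hζυ (by linarith) hcon (c₂ / 4) (by positivity) ε₁ hε₁ hεζ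
  have hτυ : 0 < τ - υ := by linarith
  set ϖ1 : ℝ := c₂ * (τ - υ) / (52 * (b + 1) * Bd) with hϖ1
  have hϖ10 : 0 < ϖ1 := by positivity
  refine ⟨min (min η₁ η₂) 1, ϖ1, K, lt_min (lt_min hη₁ hη₂) one_pos, hϖ10, hKone, ?_⟩
  intro P R t c ϖ δ0 n0 nz hCD hϖϖ
  have hsiz := hCD.sizP
  have hϖ0 := hCD.posϖ
  have hδ0 := hCD.nnδ
  have hsm := hCD.small2
  have hd : Disjoint P R := by
    rw [disjoint_left]
    intro p hp hp'
    have h1 := (hCD.onP p hp).1
    have h2 := (hCD.onR p hp').1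
    omega
  set ta : ℕ → ℝ := fun q => τ - t q with hta
  set za : ℕ → ℝ := fun q => min ζ (ta q) with hza
  have htaR : ∀ q ∈ R, ε₁ ≤ ta q ∧ 0 < ta q ∧ ε₁ ≤ za q ∧ za q ≤ ta q ∧
      za q ≤ ζ ∧ ta q ≤ τ ∧ ta q ≤ 5 * za q ∧ cor (ta q / za q) ≤ cor (ta q / ζ) := by
    intro q hq
    obtain ⟨_, h1, h1'⟩ := hCD.onR q hq
    have h3 : ta q = τ - t q := rfl
    have h5 : ε₁ ≤ ta q := by rw [h3]; linarith
    refine ⟨h5, by linarith, le_min hεζ h5, min_le_right _ _, min_le_left _ _,
      by rw [h3]; linarith, ?_, ?_⟩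
    · rcases le_total ζ (ta q) with h | h
      · have : za q = ζ := min_eq_left h
        rw [this, h3]
        linarith
      · have : za q = ta q := min_eq_right h
        rw [this]
        linarith
    · rcases le_total ζ (ta q) with h | h
      · have : za q = ζ := min_eq_left h
        rw [this]
      · have : za q = ta q := min_eq_right h
        rw [this, div_self (by linarith)]
        have h6 : cor 1 = 1 := by
          unfold cor
          norm_num
        rw [h6]
        exact cor_one _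
  set w : ℕ → ℝ := fun q => a - b * (ϖ * c q) with hw
  have hwR : ∀ q ∈ R, 0 ≤ w q ∧ w q ≤ a ∧ w q ≤ (a - b * t q) + b * (2 * ϖ) := by
    intro q hq
    obtain ⟨_, h1, h1'⟩ := hCD.onR q hq
    obtain ⟨h3, h5⟩ := hCD.cel q (mem_union_right _ hq)
    have h6 : 0 ≤ ϖ * c q := by positivity
    have h7 : ϖ * (c q + 1) = ϖ * c q + ϖ := by ring
    refine ⟨?_, ?_, ?_⟩
    · have : b * (ϖ * c q) ≤ b * υ := mul_le_mul_of_nonneg_left (by linarith) hb
      show 0 ≤ a - b * (ϖ * c q)
      linarith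
    · have : 0 ≤ b * (ϖ * c q) := mul_nonneg hb h6
      show a - b * (ϖ * c q) ≤ a
      linarith
    · have h8 : t q - ϖ * c q ≤ 2 * ϖ := by linarith
      have h9 := mul_le_mul_of_nonneg_left h8 hb
      show a - b * (ϖ * c q) ≤ (a - b * t q) + b * (2 * ϖ)
      linarith
  set cU : Finset ℕ → ℝ := fun T => if T ⊆ P then lc P t K true τ ζ T else 0 with hcU
  set cL1 : Finset ℕ → ℝ := fun T => if T ⊆ P then lc P t K false τ ζ T else 0 with hcL1
  set cq : ℕ → Finset ℕ → ℝ := fun q T => if q ∈ T ∧ T.erase q ⊆ P then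
    w q * lc P t K true (ta q) (za q) (T.erase q) else 0 with hcq
  have hyU : ∀ T ⊆ P ∪ R, yU n0 nz K (ty c T) = cU T := fun T hT => yU_eq hCD hτ0.le T hT
  have hyL : ∀ T ⊆ P ∪ R, yL n0 nz K ϖ a b (ty c T) = cL1 T - ∑ q ∈ R, cq q T :=
    fun T hT => yL_eq hCD hτ0.le h2.le hυτ hKone a b T hT
  have hVU : ∀ g : ℕ → ℝ, VV (P ∪ R) cU g = MM P t g K true τ ζ := by
    intro g
    rw [hcU, VV_part P R (lc P t K true τ ζ) g,
      lc_V _ _ hsiz K true τ ζ hτ0.le (fun _ => h2.le)]
  have hVL1 : ∀ g : ℕ → ℝ, VV (P ∪ R) cL1 g = VV P (lc P t K false τ ζ) g := by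
    intro g
    rw [hcL1, VV_part P R (lc P t K false τ ζ) g]
  have hVq : ∀ q ∈ R, ∀ g : ℕ → ℝ, VV (P ∪ R) (cq q) g =
      g q * (w q * VV P (lc P t K true (ta q) (za q)) g) := by
    intro q hq g
    rw [hcq]
    rw [VV_one P R hd q hq (fun U => w q * lc P t K true (ta q) (za q) U) g]
    congr 1
    unfold VV
    rw [mul_sum]
    apply sum_congr rfl
    intro T _
    ring
  have hVLg : ∀ g : ℕ → ℝ, VV (P ∪ R) (fun T => yL n0 nz K ϖ a b (ty c T)) g =
      VV (P ∪ R) (fun T => cL1 T - ∑ q ∈ R, cq q T) g := fun g => VV_congr _ _ _ _ hyL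
  have hVUg : ∀ g : ℕ → ℝ, VV (P ∪ R) (fun T => yU n0 nz K (ty c T)) g =
      VV (P ∪ R) cU g := fun g => VV_congr _ _ _ _ hyU
  refine ⟨?_, ?_, ?_, ?_⟩
  · intro T hT
    rw [hyU T hT, hyL T hT]
    have h1 : |cU T| ≤ 1 := by
      simp only [hcU]
      split_ifs
      · exact lc_le _ _ hsiz K true τ ζ hτ0.le (fun _ => h2.le) T
      · simp
    have h3 : |cL1 T| ≤ 1 := by
      simp only [hcL1]
      split_ifs
      · exact lc_le _ _ hsiz K false τ ζ hτ0.le (fun _ => h2.le) T
      · simp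
    refine ⟨h1, ?_⟩
    have h5 : |∑ q ∈ R, cq q T| ≤ a := by
      by_cases hex : ∃ q ∈ R, q ∈ T ∧ T.erase q ⊆ P
      · obtain ⟨q, hq, hqT, hqP⟩ := hex
        rw [sum_eq_single q]
        · simp only [hcq]
          rw [if_pos ⟨hqT, hqP⟩, abs_mul, abs_of_nonneg (hwR q hq).1]
          calc w q * |lc P t K true (ta q) (za q) (T.erase q)| ≤
              a * 1 := by
                apply mul_le_mul (hwR q hq).2.1 _ (abs_nonneg _) ha
                exact lc_le _ _ hsiz K true _ _ (htaR q hq).2.1.le (fun h => by simp at h) _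
            _ = a := mul_one a
        · intro q' hq' hne
          simp only [hcq]
          rw [if_neg]
          rintro ⟨h6, -⟩
          have h7 : q' ∈ T.erase q := mem_erase.2 ⟨hne, h6⟩
          exact (disjoint_left.1 hd) (hqP h7) hq'
        · intro h; exact absurd hq h
      · push Not at hex
        rw [sum_eq_zero]
        · rw [abs_zero]; exact ha
        · intro q hq
          simp only [hcq]
          rw [if_neg]
          rintro ⟨h6, h7⟩
          exact hex q hq h6 h7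
    calc |cL1 T - ∑ q ∈ R, cq q T| ≤ |cL1 T| + |∑ q ∈ R, cq q T| := abs_sub _ _
      _ ≤ 1 + a := by linarith
  · intro T hT hne x y hxy hx
    rw [hyU T hT, hyL T hT] at hne
    have hfalse : ∀ U ⊆ P, Cc n0 K false 0 (srt c U) ≠ 0 → 
        ∃ T1 ⊆ U, ∑ q ∈ T1, (c q + 1) ≤ x ∧ ∑ q ∈ U \ T1, (c q + 1) ≤ y := by
      intro U hU h6
      apply Cc_wf c n0 K false 0 U h6 (Nat.zero_le _) _ x y (by omega)
      intro _ q hq
      have h7 := (hCD.onP q (hU hq)).2.2
      have h8 := (hCD.cel q (mem_union_left _ (hU hq))).1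
      have h9 := hCD.lev
      by_contra hcon
      push Not at hcon
      have h10 : (n0 : ℝ) + 1 ≤ 2 * (c q + 1) := by
        have : n0 + 1 ≤ 2 * (c q + 1) := by omega
        exact_mod_cast this
      have h11 := mul_le_mul_of_nonneg_left h10 hϖ0.le
      nlinarith
    rcases hne with h | h
    · simp only [hcU] at h
      split_ifs at h with h'
      · rw [hCD.lcU true (fun hf => by cases hf) hτ0.le T h'] at h
        exact Cc_wf c n0 K true 0 T h (Nat.zero_le _) (fun hf => by cases hf) x y (by omega)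
      · exact absurd rfl h
    · by_cases h1 : cL1 T = 0
      · have h3 : ∑ q ∈ R, cq q T ≠ 0 := by
          intro h5
          apply h
          rw [h1, h5, sub_zero]
        obtain ⟨q, hq, hq2⟩ := exists_ne_zero_of_sum_ne_zero h3
        simp only [hcq] at hq2
        split_ifs at hq2 with h6
        · have h7 := right_ne_zero_of_mul hq2
          rw [hCD.lcq hKone q hq (htaR q hq).2.1.le (T.erase q) h6.2] at h7
          have h8 := hx q hq
          have h9 : c q + 1 ≤ n0 := by omega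
          obtain ⟨s1, hs1, h10, h11⟩ := Cc_wf c n0 K true (c q + 1) (T.erase q) h7 h9
            (fun hf => by cases hf) (x - (c q + 1)) y (by omega)
          have hq1 : q ∉ s1 := fun h12 => notMem_erase q T (hs1 h12)
          refine ⟨insert q s1, ?_, ?_, ?_⟩
          · intro p hp
            rcases mem_insert.1 hp with rfl | hp
            · exact h6.1
            · exact (erase_subset _ _) (hs1 hp)
          · rw [sum_insert hq1]
            omega
          · have h12 : T \ insert q s1 = T.erase q \ s1 := by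
              ext p
              simp only [mem_sdiff, mem_insert, mem_erase]
              tauto
            rw [h12]
            exact h11
        · exact absurd rfl hq2
      · simp only [hcL1] at h1
        split_ifs at h1 with h'
        · rw [hCD.lcU false (fun _ => h2.le) hτ0.le T h'] at h1
          exact hfalse T h' h1
        · exact absurd rfl h1
  · intro N
    rw [hVLg, hVUg]
    set ind : ℕ → ℝ := fun p => if p ∣ N then 1 else 0 with hind
    have hup : (if ∀ p ∈ P, ¬ p ∣ N then (1 : ℝ) else 0) ≤ VV (P ∪ R) cU ind := by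
      rw [hcU, VV_part P R (lc P t K true τ ζ) ind]
      exact lc_ind_up P t hsiz K τ ζ hτ0.le N
    refine ⟨?_, hup⟩
    rw [VV_sub, VV_sum, hVL1]
    have h1 := (lc_ind P t hsiz K τ ζ hτ0.le h2.le (fun p hp => (hCD.onP p hp).2.2) N).1
    unfold WBc
    rw [mul_sub, mul_one, mul_sum]
    apply sub_le_sub h1
    apply sum_le_sum
    intro q hq
    rw [hVq q hq]
    have h3 := lc_ind_up P t hsiz K (ta q) (za q) (htaR q hq).2.1.le N
    have h5 : (0 : ℝ) ≤ if q ∣ N then 1 else 0 := by split_ifs <;> norm_num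
    calc (if ∀ p ∈ P, ¬ p ∣ N then (1 : ℝ) else 0) * (w q * (if q ∣ N then 1 else 0)) =
        (if q ∣ N then 1 else 0) * (w q * (if ∀ p ∈ P, ¬ p ∣ N then (1 : ℝ) else 0)) := by
          ring
      _ ≤ ind q * (w q * VV P (lc P t K true (ta q) (za q)) ind) := by
          apply mul_le_mul_of_nonneg_left _ h5
          exact mul_le_mul_of_nonneg_left h3 (hwR q hq).1
  · intro g hg hM
    have hgP : ∀ p ∈ P, 0 ≤ g p := fun p hp => hg p (mem_union_left _ hp)
    have hgR : ∀ p ∈ R, 0 ≤ g p := fun p hp => hg p (mem_union_right _ hp)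
    have hM1 : Mer P t g ε₁ ζ η₁ := by
      intro x y hx hxy hy
      have h1 := hM x y hx hxy (hy.trans hζυ)
      have h3 : P.filter (fun p => x ≤ t p ∧ t p < y) =
          (P ∪ R).filter (fun p => x ≤ t p ∧ t p < y) := by
        ext p
        rw [mem_filter, mem_filter, mem_union]
        constructor
        · rintro ⟨h5, h6⟩
          exact ⟨Or.inl h5, h6⟩
        · rintro ⟨h5 | h5, h6⟩
          · exact ⟨h5, h6⟩
          · have := (hCD.onR p h5).2.1
            exfalso
            linarith [h6.2]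
      rw [h3]
      exact h1.trans ((min_le_left _ _).trans (min_le_left _ _))
    have hM2 : Mer (P ∪ R) t g ε₁ υ η₂ := fun x y hx hxy hy =>
      (hM x y hx hxy hy).trans ((min_le_left _ _).trans (min_le_right _ _))
    have hPε : ∀ p ∈ P, ε₁ ≤ t p := fun p hp => (hCD.onP p hp).2.1
    have h7 := H P t g ζ (by linarith) hgP hPε hM1 K le_rfl
      τ ζ hKτ hεζ le_rfl (by linarith) hτ
    have hRf : (P ∪ R).filter (fun p => ζ ≤ t p ∧ t p < υ) = R := by
      ext p
      rw [mem_filter, mem_union]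
      constructor
      · rintro ⟨h5 | h5, h6⟩
        · have := (hCD.onP p h5).2.2
          exfalso
          linarith [h6.1]
        · exact h5
      · intro h5
        exact ⟨Or.inr h5, (hCD.onR p h5).2⟩
    rw [hVLg, hVUg]
    constructor
    · rw [VV_sub, VV_sum, hVL1, lc_V _ _ hsiz K false τ ζ hτ0.le (fun _ => h2.le)]
      have h8 := h7.2 h2.le
      rw [← hs] at h8
      have h8' := f45 hSF s hs2.le (by linarith)
      have e1 : ε₁ / ζ * (A0 * Real.log (s - 1) / s) = ε₁ * A0 * (Real.log (s - 1) / τ) := by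
        rw [hs]
        field_simp
      have h8'' : ε₁ / ζ * (A0 * Real.log (s - 1) / s) ≤ ε₁ / ζ * f s :=
        mul_le_mul_of_nonneg_left h8' (by positivity)
      rw [e1] at h8''
      have hΦ : ∀ q ∈ R, cor (ta q / ζ) / ta q ≤ 13 / 4 / (τ - υ) := by
        intro q hq
        obtain ⟨_, q1, q2⟩ := hCD.onR q hq
        have e3 : ta q = τ - t q := rfl
        have h9 : cor (ta q / ζ) ≤ 13 / 4 := by
          unfold cor
          have h10 : max (ta q / ζ - 3) 0 ≤ 3 := by
            apply max_le _ (by norm_num)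
            have h11 : ta q / ζ ≤ 5 := by
              rw [div_le_iff₀ hζ, e3]
              linarith
            linarith
          have h12 : 0 ≤ max (ta q / ζ - 3) 0 := le_max_right _ _
          nlinarith
        apply div_le_div₀ (by norm_num) h9 hτυ
        rw [e3]
        linarith
      have h9 : ∑ q ∈ R, VV (P ∪ R) (cq q) g ≤
          ε₁ * A0 * (∑ q ∈ R, g q * hh (t q)) +
          (ε₁ * A0 * (b * (2 * ϖ) * (13 / 4 / (τ - υ))) + η' * a) * ∑ q ∈ R, g q := by
        rw [mul_sum, mul_sum, ← sum_add_distrib]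
        apply sum_le_sum
        intro q hq
        rw [hVq q hq, lc_V _ _ hsiz K true (ta q) (za q) (htaR q hq).2.1.le
          (fun h => by simp at h)]
        obtain ⟨t1, t2, t4, t5, t6, t7, t8, t9⟩ := htaR q hq
        have hz0 : 0 < za q := by linarith
        have h10 := (H P t g ζ (by linarith) hgP hPε hM1 K le_rfl
          (ta q) (za q) (by linarith) t4 t6 t5 (by linarith)).1
        have h10' := F35 hSF (ta q / za q) (by rw [le_div_iff₀ hz0]; linarith)
          (by rw [div_le_iff₀ hz0]; exact t8)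
        have h11 : ε₁ / za q * F (ta q / za q) ≤ ε₁ * A0 * (cor (ta q / ζ) / ta q) := by
          calc ε₁ / za q * F (ta q / za q) ≤ ε₁ / za q * (A0 / (ta q / za q) * cor (ta q / za q)) :=
                mul_le_mul_of_nonneg_left h10' (by positivity)
            _ ≤ ε₁ / za q * (A0 / (ta q / za q) * cor (ta q / ζ)) := by
                apply mul_le_mul_of_nonneg_left _ (by positivity)
                exact mul_le_mul_of_nonneg_left t9 (by positivity)
            _ = _ := by field_simp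
        have hwq := hwR q hq
        have hgq := hgR q hq
        have hcp : 0 < cor (ta q / ζ) := lt_of_lt_of_le one_pos (cor_one _)
        have hφ0 : 0 ≤ cor (ta q / ζ) / ta q := by positivity
        have h12 : w q * (cor (ta q / ζ) / ta q) ≤ hh (t q) + b * (2 * ϖ) * (13 / 4 / (τ - υ)) := by
          have e3 : ta q = τ - t q := rfl
          calc w q * (cor (ta q / ζ) / ta q) ≤ ((a - b * t q) + b * (2 * ϖ)) * (cor (ta q / ζ) / ta q) :=
                mul_le_mul_of_nonneg_right hwq.2.2 hφ0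
            _ = hh (t q) + b * (2 * ϖ) * (cor (ta q / ζ) / ta q) := by
                simp only [hhh]
                rw [e3]
                ring
            _ ≤ _ := by
                have h13 : 0 ≤ b * (2 * ϖ) := by positivity
                have := mul_le_mul_of_nonneg_left (hΦ q hq) h13
                linarith
        calc g q * (w q * MM P t g K true (ta q) (za q)) ≤
            g q * (w q * (ε₁ * A0 * (cor (ta q / ζ) / ta q) + η')) := by
              apply mul_le_mul_of_nonneg_left _ hgq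
              exact mul_le_mul_of_nonneg_left (by linarith) hwq.1
          _ = g q * (ε₁ * A0 * (w q * (cor (ta q / ζ) / ta q)) + w q * η') := by ring
          _ ≤ g q * (ε₁ * A0 * (hh (t q) + b * (2 * ϖ) * (13 / 4 / (τ - υ))) + a * η') := by
              apply mul_le_mul_of_nonneg_left _ hgq
              apply add_le_add
              · exact mul_le_mul_of_nonneg_left h12 (by positivity)
              · exact mul_le_mul_of_nonneg_right hwq.2.1 hη'0.le
          _ = _ := by ring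
      have h11 := H2 (P ∪ R) t g hg hM2
      rw [hRf] at h11
      have h12 : ∑ q ∈ R, g q ≤ Bd := by
        have h13 := hM ζ υ hεζ hζυ le_rfl
        rw [hRf, abs_le] at h13
        have h14 : min (min η₁ η₂) 1 ≤ 1 := min_le_right _ _
        linarith [h13.2]
      have h12' : 0 ≤ ∑ q ∈ R, g q := sum_nonneg hgR
      have h15 : ε₁ * A0 * (∑ q ∈ R, g q * hh (t q)) ≤
          ε₁ * A0 * ((∫ x in ζ..υ, hh x / x) + c₂ / 4) :=
        mul_le_mul_of_nonneg_left h11 (by positivity)
      have h16 : (ε₁ * A0 * (b * (2 * ϖ) * (13 / 4 / (τ - υ))) + η' * a) * ∑ q ∈ R, g q ≤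
          (ε₁ * A0 * (b * (2 * ϖ) * (13 / 4 / (τ - υ))) + η' * a) * Bd :=
        mul_le_mul_of_nonneg_left h12 (by positivity)
      have h17 : ε₁ * A0 * (Real.log (s - 1) / τ) =
          ε₁ * A0 * c₂ + ε₁ * A0 * (∫ x in ζ..υ, hh x / x) := by
        rw [hc₂]; ring
      have h18 : b * (2 * ϖ) * (13 / 4 / (τ - υ)) * Bd ≤ c₂ / 8 := by
        calc b * (2 * ϖ) * (13 / 4 / (τ - υ)) * Bd ≤ (b + 1) * (2 * ϖ1) * (13 / 4 / (τ - υ)) * Bd := by
              gcongr
              linarith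
          _ = c₂ / 8 := by
              rw [hϖ1]
              field_simp
              norm_num
      have h19 : ε₁ * A0 * (b * (2 * ϖ) * (13 / 4 / (τ - υ)) * Bd) ≤ ε₁ * A0 * (c₂ / 8) :=
        mul_le_mul_of_nonneg_left h18 (by positivity)
      have h20 : 0 < ε₁ * A0 * c₂ := by positivity
      nlinarith
    · rw [hVU]
      have h9 := h7.1
      rw [← hs] at h9
      calc MM P t g K true τ ζ ≤ ε₁ / ζ * F s + η' := h9
        _ ≤ ε₁ / ζ * F s + ε₁ := by linarith
        _ = ε₁ * (F s / ζ + 1) := by ring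

end Pool.Agent.T2h76
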