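import Pool.Agent.T2h76.Sv3

/-! Sums of a remainder over sets of primes of given cells are bilinear forms. -/

set_option autoImplicit false

namespace Pool.Agent.T2h76

open Finset

theorem powerset_map' (c : ℕ → ℕ) (s : Multiset ℕ) :
    (s.map c).powerset = s.powerset.map (Multiset.map c) := by
  induction s using Quotient.inductionOn with
  | h l =>
    simp only [Multiset.quot_mk_to_coe, Multiset.map_coe, Multiset.powerset_coe, List.sublists_map,
      List.map_map]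
    rfl

theorem val_powerset (S : Finset ℕ) : S.powerset.val.map Finset.val = S.val.powerset := by
  simp [Finset.powerset, Multiset.map_pmap, Multiset.pmap_eq_map]

theorem count_ty (c : ℕ → ℕ) (S : Finset ℕ) (C1 : Multiset ℕ) :
    (S.powerset.filter (fun S1 => ty c S1 = C1)).card = ((ty c S).powerset).count C1 := by
  classical
  unfold ty
  rw [powerset_map', ← val_powerset, Multiset.map_map]
  unfold Multiset.count
  rw [Multiset.countP_map, Finset.card_def, Finset.filter_val]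
  congr 1
  apply Multiset.filter_congr
  intro x _
  exact eq_comm

theorem ty_union (c : ℕ → ℕ) (S1 S2 : Finset ℕ) (h : Disjoint S1 S2) :
    ty c (S1 ∪ S2) = ty c S1 + ty c S2 := by
  classical
  unfold ty
  rw [← Finset.disjUnion_eq_union S1 S2 h]
  show (S1.val + S2.val).map c = _
  rw [Multiset.map_add]

theorem split_count (c : ℕ → ℕ) (Q1 : Finset ℕ) (C1 C2 : Multiset ℕ) (F : Finset ℕ → ℝ) :
    ∑ S1 ∈ Q1.powerset.filter (fun S => ty c S = C1), ∑ S2 ∈ Q1.powerset.filter (fun S => ty c S = C2),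
      (if Disjoint S1 S2 then F (S1 ∪ S2) else 0) =
    ((C1 + C2).powerset.count C1 : ℝ) * ∑ S ∈ Q1.powerset.filter (fun S => ty c S = C1 + C2), F S := by
  classical
  have hL : ∑ S1 ∈ Q1.powerset.filter (fun S => ty c S = C1),
      ∑ S2 ∈ Q1.powerset.filter (fun S => ty c S = C2), (if Disjoint S1 S2 then F (S1 ∪ S2) else 0) =
      ∑ z ∈ (((Q1.powerset.filter (fun S => ty c S = C1)) ×ˢ
        (Q1.powerset.filter (fun S => ty c S = C2))).filter (fun z => Disjoint z.1 z.2)),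
        F (z.1 ∪ z.2) := by
    symm
    rw [Finset.sum_filter, Finset.sum_product]
  have hR : ((C1 + C2).powerset.count C1 : ℝ) * ∑ S ∈ Q1.powerset.filter (fun S => ty c S = C1 + C2), F S =
      ∑ z ∈ ((Q1.powerset.filter (fun S => ty c S = C1 + C2)) ×ˢ Q1.powerset).filter
        (fun z => z.2 ⊆ z.1 ∧ ty c z.2 = C1), F z.1 := by
    symm
    rw [Finset.sum_filter, Finset.sum_product, Finset.mul_sum]
    apply Finset.sum_congr rfl
    intro S hS
    rw [mem_filter, mem_powerset] at hS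
    rw [← Finset.sum_filter]
    show ∑ a ∈ Q1.powerset.filter (fun a => a ⊆ S ∧ ty c a = C1), F S = _
    rw [Finset.sum_const, nsmul_eq_mul]
    congr 2
    rw [← hS.2, ← count_ty]
    congr 1
    ext S1
    rw [mem_filter, mem_filter, mem_powerset, mem_powerset]
    constructor
    · rintro ⟨_, h1, h2⟩
      exact ⟨h1, h2⟩
    · rintro ⟨h1, h2⟩
      exact ⟨h1.trans hS.1, h1, h2⟩
  rw [hL, hR]
  apply Finset.sum_nbij' (i := fun z => (z.1 ∪ z.2, z.1)) (j := fun z => (z.2, z.1 \ z.2))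
  · rintro ⟨S1, S2⟩ h
    rw [mem_filter, mem_product, mem_filter, mem_filter, mem_powerset, mem_powerset] at h
    obtain ⟨⟨⟨h1, h2⟩, h3, h4⟩, h5⟩ := h
    rw [mem_filter, mem_product, mem_filter, mem_powerset, mem_powerset]
    exact ⟨⟨⟨union_subset h1 h3, by rw [ty_union c S1 S2 h5, h2, h4]⟩, h1⟩, subset_union_left, h2⟩
  · rintro ⟨S, S1⟩ h
    rw [mem_filter, mem_product, mem_filter, mem_powerset, mem_powerset] at h
    obtain ⟨⟨⟨h1, h2⟩, h3⟩, h4, h5⟩ := h
    simp only at h1 h2 h3 h4 h5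
    rw [mem_filter, mem_product, mem_filter, mem_filter, mem_powerset, mem_powerset]
    refine ⟨⟨⟨h3, h5⟩, sdiff_subset.trans h1, ?_⟩, disjoint_sdiff⟩
    have h6 : ty c (S1 ∪ (S \ S1)) = ty c S1 + ty c (S \ S1) := ty_union c _ _ disjoint_sdiff
    rw [union_sdiff_of_subset h4, h2, h5] at h6
    exact (add_left_cancel h6).symm
  · rintro ⟨S1, S2⟩ h
    rw [mem_filter] at h
    have h5 : Disjoint S1 S2 := h.2
    simp only [Prod.mk.injEq, true_and]
    exact union_sdiff_cancel_left h5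
  · rintro ⟨S, S1⟩ h
    rw [mem_filter] at h
    have h5 : S1 ⊆ S := h.2.1
    simp only [Prod.mk.injEq, and_true]
    exact union_sdiff_of_subset h5
  · rintro ⟨S1, S2⟩ _
    rfl

theorem push {ι : Type} (𝒢 : Finset ι) (π : ι → ℕ) (hinj : ∀ i ∈ 𝒢, ∀ j ∈ 𝒢, π i = π j → i = j)
    (v : ι → ℝ) (hv : ∀ i ∈ 𝒢, |v i| ≤ 1) (X : ℕ) (hX : ∀ i ∈ 𝒢, v i ≠ 0 → π i ∈ Icc 1 X) :
    ∃ a : ℕ → ℝ, (∀ m, |a m| ≤ 1) ∧ (∀ m, a m ≠ 0 → ∃ i ∈ 𝒢, v i ≠ 0 ∧ π i = m) ∧
      ∀ G : ℕ → ℝ, ∑ m ∈ Icc 1 X, a m * G m = ∑ i ∈ 𝒢, v i * G (π i) := by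
  classical
  refine ⟨fun m => ∑ i ∈ 𝒢, if π i = m then v i else 0, ?_, ?_, ?_⟩
  · intro m
    show |∑ i ∈ 𝒢, if π i = m then v i else 0| ≤ 1
    by_cases h : ∃ i ∈ 𝒢, π i = m
    · obtain ⟨i, hi, him⟩ := h
      rw [Finset.sum_eq_single_of_mem i hi, if_pos him]
      · exact hv i hi
      · intro j hj hji
        rw [if_neg]
        intro hjm
        exact hji (hinj j hj i hi (by rw [hjm, him]))
    · rw [Finset.sum_eq_zero]
      · simp
      · intro i hi
        rw [if_neg]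
        intro him
        exact h ⟨i, hi, him⟩
  · intro m hm
    obtain ⟨i, hi, h1⟩ := Finset.exists_ne_zero_of_sum_ne_zero hm
    split_ifs at h1 with h2
    · exact ⟨i, hi, h1, h2⟩
    · exact absurd rfl h1
  · intro G
    simp only [Finset.sum_mul]
    rw [Finset.sum_comm]
    apply Finset.sum_congr rfl
    intro i hi
    by_cases h0 : v i = 0
    · rw [h0, zero_mul]
      apply Finset.sum_eq_zero
      intro m _
      rw [ite_self, zero_mul]
    · rw [Finset.sum_eq_single_of_mem (π i) (hX i hi h0), if_pos rfl]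
      intro m _ hm
      rw [if_neg (Ne.symm hm), zero_mul]

theorem prod_inj' {T T' : Finset ℕ} (hT : ∀ p ∈ T, p.Prime)
    (hT' : ∀ p ∈ T', p.Prime) (h : ∏ p ∈ T, p = ∏ p ∈ T', p) : T = T' := by
  have h1 := Nat.primeFactors_prod (s := T) hT
  have h2 := Nat.primeFactors_prod (s := T') hT'
  rw [← h1, ← h2, h]

theorem cop_iff {T T' : Finset ℕ} (hT : ∀ p ∈ T, p.Prime) (hT' : ∀ p ∈ T', p.Prime) :
    Nat.Coprime (∏ p ∈ T, p) (∏ p ∈ T', p) ↔ Disjoint T T' := by
  rw [Nat.coprime_prod_left_iff]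
  constructor
  · intro h
    rw [disjoint_left]
    intro p hp hp'
    have h1 := h p hp
    rw [Nat.coprime_prod_right_iff] at h1
    have h2 := h1 p hp'
    rw [Nat.coprime_self] at h2
    exact (hT p hp).one_lt.ne' h2
  · intro h p hp
    rw [Nat.coprime_prod_right_iff]
    intro q hq
    rw [Nat.coprime_primes (hT p hp) (hT' q hq)]
    rintro rfl
    exact disjoint_left.1 h hp hq

/-- the types -/
def TT0 (L n : ℕ) : Finset (Multiset ℕ) := ((L • (range n).val).powerset).toFinset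

theorem ty_mem (c : ℕ → ℕ) (n L : ℕ) (S : Finset ℕ) (hc : ∀ p ∈ S, c p < n) (hL : S.card ≤ L) :
    ty c S ∈ TT0 L n := by
  unfold TT0
  rw [Multiset.mem_toFinset, Multiset.mem_powerset, Multiset.le_iff_count]
  intro x
  rw [Multiset.count_nsmul]
  by_cases h : x ∈ ty c S
  · unfold ty at h
    obtain ⟨p, hp, rfl⟩ := Multiset.mem_map.1 h
    have h1 : Multiset.count (c p) (range n).val = 1 :=
      Multiset.count_eq_one_of_mem (range n).nodup (mem_range.2 (hc p hp))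
    rw [h1, mul_one]
    refine (Multiset.count_le_card _ _).trans ?_
    unfold ty
    rw [Multiset.card_map]
    exact hL
  · rw [Multiset.count_eq_zero_of_notMem h]
    exact Nat.zero_le _

open Classical in
/-- the sum over the sets of primes is a bounded number of bilinear forms -/
theorem sep (c : ℕ → ℕ) (Q0 Q1 : Finset ℕ) (hQ0 : ∀ p ∈ Q0, p.Prime) (hQ1 : ∀ p ∈ Q1, p.Prime)
    (hd : Disjoint Q0 Q1) (α : Finset ℕ → ℝ) (β : Multiset ℕ → ℝ) (A B E : ℝ) (L n Mx Kx x y : ℕ)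
    (r : ℕ → ℝ) (hA : 0 < A) (hα : ∀ U ⊆ Q0, |α U| ≤ A) (hB : 0 ≤ B)
    (hβ : ∀ S ⊆ Q1, |β (ty c S)| ≤ B)
    (hsp : ∀ S ⊆ Q1, β (ty c S) ≠ 0 → ∃ S1 ⊆ S, ∑ q ∈ S1, (c q + 1) ≤ x ∧ ∑ q ∈ S \ S1, (c q + 1) ≤ y)
    (hM : ∀ U ⊆ Q0, α U ≠ 0 → ∀ S ⊆ Q1, ∑ q ∈ S, (c q + 1) ≤ x → (∏ p ∈ U, p) * ∏ p ∈ S, p ≤ Mx)
    (hKx : ∀ S ⊆ Q1, ∑ q ∈ S, (c q + 1) ≤ y → ∏ p ∈ S, p ≤ Kx)
    (hcn : ∀ p ∈ Q1, c p < n) (hL : ∀ S ⊆ Q1, β (ty c S) ≠ 0 → S.card ≤ L)
    (hr : ∀ a b : ℕ → ℝ, (∀ m, |a m| ≤ 1) → (∀ k, |b k| ≤ 1) → (∀ k, b k ≠ 0 → Squarefree k) →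
      |∑ m ∈ Icc 1 Mx, ∑ k ∈ Icc 1 Kx, if Nat.Coprime m k then a m * (b k * r (m * k)) else 0| ≤ E) :
    |∑ U ∈ Q0.powerset, ∑ S ∈ Q1.powerset, α U * β (ty c S) * r ((∏ p ∈ U, p) * ∏ p ∈ S, p)| ≤
      (TT0 L n).card * (A * B * E) := by
  have hE : 0 ≤ E := by
    have := hr (fun _ => 0) (fun _ => 0) (by simp) (by simp) (by simp)
    exact (abs_nonneg _).trans this
  set G : Finset ℕ → Finset ℕ → ℝ := fun U S => α U * r ((∏ p ∈ U, p) * ∏ p ∈ S, p) with hG
  set 𝒮 := Q1.powerset.filter (fun S => β (ty c S) ≠ 0) with h𝒮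
  have h1 : ∑ U ∈ Q0.powerset, ∑ S ∈ Q1.powerset, α U * β (ty c S) * r ((∏ p ∈ U, p) * ∏ p ∈ S, p) =
      ∑ C ∈ TT0 L n, ∑ S ∈ 𝒮.filter (fun S => ty c S = C), ∑ U ∈ Q0.powerset, β C * G U S := by
    rw [Finset.sum_comm]
    have h2 : ∑ S ∈ Q1.powerset, ∑ U ∈ Q0.powerset, α U * β (ty c S) * r ((∏ p ∈ U, p) * ∏ p ∈ S, p) =
        ∑ S ∈ 𝒮, ∑ U ∈ Q0.powerset, α U * β (ty c S) * r ((∏ p ∈ U, p) * ∏ p ∈ S, p) := by
      symm
      apply Finset.sum_subset (filter_subset _ _)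
      intro S hS hS2
      rw [mem_filter, not_and, not_not] at hS2
      apply Finset.sum_eq_zero
      intro U _
      rw [hS2 hS]
      ring
    rw [h2, ← Finset.sum_fiberwise_of_maps_to (g := fun S => ty c S) (t := TT0 L n)]
    · apply Finset.sum_congr rfl
      intro C _
      apply Finset.sum_congr rfl
      intro S hS
      have h3 : ty c S = C := (mem_filter.1 hS).2
      apply Finset.sum_congr rfl
      intro U _
      simp only [hG]
      rw [h3]
      ring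
    · intro S hS
      rw [h𝒮, mem_filter, mem_powerset] at hS
      exact ty_mem c n L S (fun p hp => hcn p (hS.1 hp)) (hL S hS.1 hS.2)
  rw [h1]
  have key : ∀ C ∈ TT0 L n, |∑ S ∈ 𝒮.filter (fun S => ty c S = C), ∑ U ∈ Q0.powerset, β C * G U S| ≤
      A * B * E := by
    intro C _
    rcases (𝒮.filter (fun S => ty c S = C)).eq_empty_or_nonempty with h0 | ⟨S0, hS0⟩
    · rw [h0, Finset.sum_empty, abs_zero]
      positivity
    rw [mem_filter, mem_filter, mem_powerset] at hS0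
    obtain ⟨⟨s1, s2⟩, s3⟩ := hS0
    obtain ⟨T1, hT1, hx, hy⟩ := hsp S0 s1 s2
    set C1 := ty c T1 with hC1
    set C2 := ty c (S0 \ T1) with hC2
    have hC : C = C1 + C2 := by
      rw [hC1, hC2, ← ty_union c _ _ disjoint_sdiff, union_sdiff_of_subset hT1, s3]
    have hβC : β C ≠ 0 := by rw [← s3]; exact s2
    have hβB : |β C| ≤ B := by rw [← s3]; exact hβ S0 s1
    have hfil : 𝒮.filter (fun S => ty c S = C) = Q1.powerset.filter (fun S => ty c S = C1 + C2) := by
      rw [← hC]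
      ext S
      rw [mem_filter, mem_filter, mem_filter]
      constructor
      · rintro ⟨⟨h2, _⟩, h3⟩
        exact ⟨h2, h3⟩
      · rintro ⟨h2, h3⟩
        exact ⟨⟨h2, by rw [h3]; exact hβC⟩, h3⟩
    set κ : ℕ := (C1 + C2).powerset.count C1 with hκ
    have hκ1 : 1 ≤ κ := by
      rw [hκ, Nat.one_le_iff_ne_zero, Multiset.count_ne_zero, Multiset.mem_powerset]
      exact Multiset.le_add_right _ _
    have hwt : ∀ (D : Multiset ℕ) (S S' : Finset ℕ), ty c S = D → ty c S' = D →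
        ∑ q ∈ S, (c q + 1) = ∑ q ∈ S', (c q + 1) := by
      intro D S S' h2 h3
      have h4 : ∀ S : Finset ℕ, ∑ q ∈ S, (c q + 1) = ((ty c S).map (· + 1)).sum := by
        intro S
        unfold ty
        rw [Multiset.map_map]
        rfl
      rw [h4, h4, h2, h3]
    -- the bilinear form
    set 𝒢1 := Q0.powerset ×ˢ (Q1.powerset.filter (fun S => ty c S = C1)) with h𝒢1
    set 𝒢2 := Q1.powerset.filter (fun S => ty c S = C2) with h𝒢2
    have hpr1 : ∀ z ∈ 𝒢1, (∀ p ∈ z.1 ∪ z.2, p.Prime) ∧ Disjoint z.1 z.2 ∧ z.1 ⊆ Q0 ∧ z.2 ⊆ Q1 := by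
      intro z hz
      rw [h𝒢1, mem_product, mem_powerset, mem_filter, mem_powerset] at hz
      refine ⟨?_, ?_, hz.1, hz.2.1⟩
      · intro p hp
        rcases mem_union.1 hp with h2 | h2
        · exact hQ0 p (hz.1 h2)
        · exact hQ1 p (hz.2.1 h2)
      · exact disjoint_of_subset_left hz.1 (disjoint_of_subset_right hz.2.1 hd)
    have hpu : ∀ z ∈ 𝒢1, (∏ p ∈ z.1, p) * ∏ p ∈ z.2, p = ∏ p ∈ z.1 ∪ z.2, p := by
      intro z hz
      rw [Finset.prod_union (hpr1 z hz).2.1]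
    obtain ⟨a, ha1, ha2, ha3⟩ := push 𝒢1 (fun z => (∏ p ∈ z.1, p) * ∏ p ∈ z.2, p) (by
        intro z hz z' hz' h2
        rw [hpu z hz, hpu z' hz'] at h2
        have h3 := prod_inj' (hpr1 z hz).1 (hpr1 z' hz').1 h2
        obtain ⟨_, _, z3, z4⟩ := hpr1 z hz
        obtain ⟨_, _, z3', z4'⟩ := hpr1 z' hz'
        have e1 : ∀ w : Finset ℕ × Finset ℕ, w.1 ⊆ Q0 → w.2 ⊆ Q1 → w.1 = (w.1 ∪ w.2) ∩ Q0 ∧
            w.2 = (w.1 ∪ w.2) ∩ Q1 := by
          intro w hw1 hw2
          constructor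
          · ext p
            rw [mem_inter, mem_union]
            constructor
            · intro h4
              exact ⟨Or.inl h4, hw1 h4⟩
            · rintro ⟨h4 | h4, h5⟩
              · exact h4
              · exact absurd (hw2 h4) (disjoint_left.1 hd h5)
          · ext p
            rw [mem_inter, mem_union]
            constructor
            · intro h4
              exact ⟨Or.inr h4, hw2 h4⟩
            · rintro ⟨h4 | h4, h5⟩
              · exact absurd h5 (disjoint_left.1 hd (hw1 h4))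
              · exact h4
        have e2 := e1 z z3 z4
        have e3 := e1 z' z3' z4'
        rw [h3] at e2
        exact Prod.ext (e2.1.trans e3.1.symm) (e2.2.trans e3.2.symm))
      (fun z => α z.1 / A) (by
        intro z hz
        rw [abs_div, abs_of_pos hA, div_le_one hA]
        exact hα z.1 (hpr1 z hz).2.2.1) Mx (by
        intro z hz hv
        rw [mem_Icc]
        have hne : α z.1 ≠ 0 := by
          intro h4
          apply hv
          rw [h4, zero_div]
        refine ⟨?_, ?_⟩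
        · rw [hpu z hz]
          exact Finset.prod_pos fun p hp => ((hpr1 z hz).1 p hp).pos
        · apply hM z.1 (hpr1 z hz).2.2.1 hne z.2 (hpr1 z hz).2.2.2
          have h4 : ty c z.2 = C1 := by
            rw [h𝒢1, mem_product, mem_filter] at hz
            exact hz.2.2
          rw [hwt C1 z.2 T1 h4 rfl]
          exact hx)
    have hpr2 : ∀ S ∈ 𝒢2, (∀ p ∈ S, p.Prime) ∧ S ⊆ Q1 ∧ ty c S = C2 := by
      intro S hS
      rw [h𝒢2, mem_filter, mem_powerset] at hS
      exact ⟨fun p hp => hQ1 p (hS.1 hp), hS.1, hS.2⟩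
    obtain ⟨b, hb1, hb2, hb3⟩ := push 𝒢2 (fun S => ∏ p ∈ S, p) (by
        intro S hS S' hS' h2
        exact prod_inj' (hpr2 S hS).1 (hpr2 S' hS').1 h2)
      (fun _ => (1 : ℝ)) (by simp) Kx (by
        intro S hS _
        rw [mem_Icc]
        refine ⟨Finset.prod_pos fun p hp => ((hpr2 S hS).1 p hp).pos, ?_⟩
        apply hKx S (hpr2 S hS).2.1
        rw [hwt C2 S (S0 \ T1) (hpr2 S hS).2.2 rfl]
        exact hy)
    have hsf : ∀ k, b k ≠ 0 → Squarefree k := by
      intro k hk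
      obtain ⟨S, hS, _, hSk⟩ := hb2 k hk
      rw [← hSk]
      apply Finset.squarefree_prod_of_pairwise_isCoprime
      · intro p hp p' hp' hne
        exact Nat.coprime_iff_isRelPrime.1
          ((Nat.coprime_primes ((hpr2 S hS).1 p hp) ((hpr2 S hS).1 p' hp')).2 hne)
      · intro p hp
        exact ((hpr2 S hS).1 p hp).squarefree
    have hrr := hr a b ha1 hb1 hsf
    have e1 : ∑ m ∈ Icc 1 Mx, ∑ k ∈ Icc 1 Kx, (if Nat.Coprime m k then a m * (b k * r (m * k)) else 0) =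
        ∑ z ∈ 𝒢1, (α z.1 / A) * ∑ S2 ∈ 𝒢2,
          if Disjoint z.2 S2 then r ((∏ p ∈ z.1, p) * ∏ p ∈ z.2 ∪ S2, p) else 0 := by
      have e2 : ∀ m ∈ Icc 1 Mx, ∑ k ∈ Icc 1 Kx, (if Nat.Coprime m k then a m * (b k * r (m * k)) else 0) =
          a m * ∑ S2 ∈ 𝒢2, (if Nat.Coprime m (∏ p ∈ S2, p) then r (m * ∏ p ∈ S2, p) else 0) := by
        intro m _
        have e3 := hb3 (fun k => if Nat.Coprime m k then r (m * k) else 0)
        simp only [one_mul] at e3
        rw [← e3, Finset.mul_sum]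
        apply Finset.sum_congr rfl
        intro k _
        split_ifs
        · rfl
        · ring
      rw [Finset.sum_congr rfl e2, ha3]
      apply Finset.sum_congr rfl
      intro z hz
      congr 1
      apply Finset.sum_congr rfl
      intro S2 hS2
      have e4 : Nat.Coprime ((∏ p ∈ z.1, p) * ∏ p ∈ z.2, p) (∏ p ∈ S2, p) ↔ Disjoint z.2 S2 := by
        rw [hpu z hz, cop_iff (hpr1 z hz).1 (hpr2 S2 hS2).1, disjoint_union_left]
        constructor
        · exact fun h => h.2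
        · intro h
          exact ⟨disjoint_of_subset_left (hpr1 z hz).2.2.1
            (disjoint_of_subset_right (hpr2 S2 hS2).2.1 hd), h⟩
      by_cases h5 : Disjoint z.2 S2
      · rw [if_pos h5, if_pos (e4.2 h5), Finset.prod_union h5, mul_assoc]
      · rw [if_neg h5, if_neg (fun h6 => h5 (e4.1 h6))]
    have e5 : ∑ z ∈ 𝒢1, (α z.1 / A) * ∑ S2 ∈ 𝒢2,
          (if Disjoint z.2 S2 then r ((∏ p ∈ z.1, p) * ∏ p ∈ z.2 ∪ S2, p) else 0) =
        κ * (1 / A) * ∑ S ∈ 𝒮.filter (fun S => ty c S = C), ∑ U ∈ Q0.powerset, G U S := by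
      have hcm : ∑ S ∈ Q1.powerset.filter (fun S => ty c S = C1 + C2), ∑ U ∈ Q0.powerset, G U S =
          ∑ U ∈ Q0.powerset, ∑ S ∈ Q1.powerset.filter (fun S => ty c S = C1 + C2), G U S :=
        Finset.sum_comm
      rw [h𝒢1, Finset.sum_product, hfil, hcm, Finset.mul_sum]
      apply Finset.sum_congr rfl
      intro U _
      have e6 := split_count c Q1 C1 C2 (fun S => r ((∏ p ∈ U, p) * ∏ p ∈ S, p))
      have e8 : ∑ S1 ∈ Q1.powerset.filter (fun S => ty c S = C1), (α U / A) * ∑ S2 ∈ 𝒢2,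
          (if Disjoint S1 S2 then r ((∏ p ∈ U, p) * ∏ p ∈ S1 ∪ S2, p) else 0) =
          κ * (1 / A) * ∑ S ∈ Q1.powerset.filter (fun S => ty c S = C1 + C2), G U S := by
        rw [← Finset.mul_sum, h𝒢2, e6]
        simp only [hG]
        rw [← Finset.mul_sum]
        ring
      exact e8
    rw [e1, e5] at hrr
    have hκr : (1 : ℝ) ≤ κ := by exact_mod_cast hκ1
    have e7 : ∑ S ∈ 𝒮.filter (fun S => ty c S = C), ∑ U ∈ Q0.powerset, β C * G U S =
        β C * ∑ S ∈ 𝒮.filter (fun S => ty c S = C), ∑ U ∈ Q0.powerset, G U S := by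
      simp only [Finset.mul_sum]
    rw [e7, abs_mul]
    set W := ∑ S ∈ 𝒮.filter (fun S => ty c S = C), ∑ U ∈ Q0.powerset, G U S
    rw [abs_mul, abs_of_pos (by positivity)] at hrr
    have e8 : |W| ≤ A * E := by
      have e9 : (κ : ℝ) * (1 / A) * |W| * A ≤ E * A := mul_le_mul_of_nonneg_right hrr hA.le
      have e10 : (κ : ℝ) * (1 / A) * |W| * A = κ * |W| := by field_simp
      rw [e10] at e9
      have e11 : |W| ≤ κ * |W| := le_mul_of_one_le_left (abs_nonneg _) hκr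
      linarith
    calc |β C| * |W| ≤ B * (A * E) := mul_le_mul hβB e8 (abs_nonneg _) hB
      _ = A * B * E := by ring
  refine (Finset.abs_sum_le_sum_abs _ _).trans ((Finset.sum_le_sum key).trans ?_)
  rw [Finset.sum_const, nsmul_eq_mul]

end Pool.Agent.T2h76
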