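import Pool.Agent.T2h76.Sv4
import Pool.Agent.Y844.BT.Lsc

/-! Rounded sizes of the primes: Mertens and the sizes of products. -/

set_option autoImplicit false

namespace Pool.Agent.T2h76

open Finset
open Pool.Agent.W23.DC
open Pool.Agent.Y844.BT (cel cel_spec)

theorem mer_round (X : ℕ) (g t : ℕ → ℝ) (ε₁ υ μ η : ℝ) (hε : 0 < ε₁) (hυ : υ ≤ 1)
    (hμ : 0 ≤ μ) (hμε : μ ≤ ε₁ / 2) (hμη : 8 * μ ≤ η * ε₁)
    (hg : ∀ p ∈ pr X (ε₁ / 2) 1, 0 ≤ g p)
    (hM : Mer (pr X (ε₁ / 2) 1) (tt X) g (ε₁ / 2) 1 (η / 4))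
    (ht : ∀ p : ℕ, p.Prime → p ≤ X → tt X p ≤ t p ∧ t p ≤ tt X p + μ) (Q : Finset ℕ)
    (hQ : ∀ p ∈ Q, p.Prime ∧ p ≤ X)
    (hQ' : ∀ p : ℕ, p.Prime → p ≤ X → ε₁ ≤ t p → t p < υ → p ∈ Q) : Mer Q t g ε₁ υ η := by
  classical
  have hη0 : 0 ≤ η := by
    by_contra h
    push Not at h
    nlinarith
  intro a d ha had hd
  have ha0 : 0 < a := by linarith
  have hd0 : 0 < d := by linarith
  have hprm : ∀ p, p ∈ pr X (ε₁ / 2) 1 ↔ (1 ≤ p ∧ p ≤ X) ∧ p.Prime ∧ ε₁ / 2 ≤ tt X p ∧ tt X p < 1 := by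
    intro p
    unfold pr
    rw [mem_filter, mem_Icc]
  set S := Q.filter (fun p => a ≤ t p ∧ t p < d) with hS
  have hSm : ∀ p ∈ S, p ∈ pr X (ε₁ / 2) 1 ∧ a - μ ≤ tt X p ∧ tt X p < d := by
    intro p hp
    rw [hS, mem_filter] at hp
    obtain ⟨h1, h2, h3⟩ := hp
    obtain ⟨h4, h5⟩ := hQ p h1
    obtain ⟨h6, h7⟩ := ht p h4 h5
    rw [hprm]
    exact ⟨⟨⟨h4.one_le, h5⟩, h4, by linarith, by linarith⟩, by linarith, by linarith⟩
  have h2μ : μ / (a - μ) ≤ η / 4 := by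
    rw [div_le_iff₀ (by linarith)]
    have : η * ε₁ / 2 ≤ η * (a - μ) := by
      have : ε₁ / 2 ≤ a - μ := by linarith
      nlinarith
    linarith
  have h3μ : μ / a ≤ η / 4 := by
    rw [div_le_iff₀ ha0]
    nlinarith
  rw [abs_le]
  constructor
  · -- lower bound
    rcases le_or_gt a (d - μ) with h | h
    · have h1 := (abs_le.1 (hM a (d - μ) (by linarith) h (by linarith))).1
      have h2 : ∑ p ∈ (pr X (ε₁ / 2) 1).filter (fun p => a ≤ tt X p ∧ tt X p < d - μ), g p ≤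
          ∑ p ∈ S, g p := by
        apply sum_le_sum_of_subset_of_nonneg
        · intro p hp
          rw [mem_filter, hprm] at hp
          obtain ⟨⟨⟨_, h3⟩, h4, _, _⟩, h5, h6⟩ := hp
          obtain ⟨h7, h8⟩ := ht p h4 h3
          rw [hS, mem_filter]
          exact ⟨hQ' p h4 h3 (by linarith) (by linarith), by linarith, by linarith⟩
        · intro p hp _
          exact hg p (hSm p hp).1
      have hdμ : 0 < d - μ := by linarith
      have h3 : Real.log (d / a) ≤ Real.log ((d - μ) / a) + η / 4 := by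
        have e1 : d / a = ((d - μ) / a) * (d / (d - μ)) := by field_simp
        rw [e1, Real.log_mul (by positivity) (by positivity)]
        have e2 : Real.log (d / (d - μ)) ≤ d / (d - μ) - 1 := Real.log_le_sub_one_of_pos (by positivity)
        have e3 : d / (d - μ) - 1 = μ / (d - μ) := by
          rw [div_sub_one hdμ.ne']
          congr 1
          ring
        have e4 : μ / (d - μ) ≤ μ / a := div_le_div_of_nonneg_left hμ ha0 h
        linarith
      linarith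
    · have h2 : 0 ≤ ∑ p ∈ S, g p := sum_nonneg fun p hp => hg p (hSm p hp).1
      have h3 : Real.log (d / a) ≤ η / 4 := by
        have e2 : Real.log (d / a) ≤ d / a - 1 := Real.log_le_sub_one_of_pos (by positivity)
        have e3 : d / a - 1 = (d - a) / a := by rw [div_sub_one ha0.ne']
        have e4 : (d - a) / a ≤ μ / a := div_le_div_of_nonneg_right (by linarith) ha0.le
        linarith
      linarith
  · have h1 := (abs_le.1 (hM (a - μ) d (by linarith) (by linarith) (by linarith))).2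
    have h2 : ∑ p ∈ S, g p ≤
        ∑ p ∈ (pr X (ε₁ / 2) 1).filter (fun p => a - μ ≤ tt X p ∧ tt X p < d), g p := by
      apply sum_le_sum_of_subset_of_nonneg
      · intro p hp
        rw [mem_filter]
        exact hSm p hp
      · intro p hp _
        exact hg p (mem_filter.1 hp).1
    have haμ : 0 < a - μ := by linarith
    have h3 : Real.log (d / (a - μ)) ≤ Real.log (d / a) + η / 4 := by
      have e1 : d / (a - μ) = (d / a) * (a / (a - μ)) := by field_simp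
      rw [e1, Real.log_mul (by positivity) (by positivity)]
      have e2 : Real.log (a / (a - μ)) ≤ a / (a - μ) - 1 := Real.log_le_sub_one_of_pos (by positivity)
      have e3 : a / (a - μ) - 1 = μ / (a - μ) := by
        rw [div_sub_one haμ.ne']
        congr 1
        ring
      linarith
    linarith

theorem mer_diff (P : Finset ℕ) (t g g' : ℕ → ℝ) (ε₁ w η η' : ℝ) (h : Mer P t g ε₁ w η)
    (hd : ∑ p ∈ P, |g' p - g p| ≤ η') : Mer P t g' ε₁ w (η + η') := by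
  classical
  intro a b ha hab hb
  have h1 := h a b ha hab hb
  have h2 : |∑ p ∈ P.filter (fun p => a ≤ t p ∧ t p < b), g' p -
      ∑ p ∈ P.filter (fun p => a ≤ t p ∧ t p < b), g p| ≤ η' := by
    rw [← sum_sub_distrib]
    refine (abs_sum_le_sum_abs _ _).trans (le_trans ?_ hd)
    apply sum_le_sum_of_subset_of_nonneg (filter_subset _ _)
    intro p _ _
    exact abs_nonneg _
  rw [abs_le] at h1 h2 ⊢
  constructor <;> linarith

open Classical in
/-- the primes with cells in a range -/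
noncomputable def Ce (X : ℕ) (ϖ : ℝ) (n m : ℕ) : Finset ℕ :=
  (Icc 1 X).filter (fun p => p.Prime ∧ n ≤ cel X ϖ p ∧ cel X ϖ p < m)

theorem mem_Ce {X : ℕ} {ϖ : ℝ} {n m p : ℕ} : p ∈ Ce X ϖ n m ↔
    (1 ≤ p ∧ p ≤ X) ∧ p.Prime ∧ n ≤ cel X ϖ p ∧ cel X ϖ p < m := by
  unfold Ce
  rw [mem_filter, mem_Icc]

theorem Ce_union (X : ℕ) (ϖ : ℝ) (n m k : ℕ) (h1 : n ≤ m) (h2 : m ≤ k) :
    Ce X ϖ n m ∪ Ce X ϖ m k = Ce X ϖ n k := by
  ext p
  rw [mem_union, mem_Ce, mem_Ce, mem_Ce]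
  constructor
  · rintro (⟨h3, h4, h5, h6⟩ | ⟨h3, h4, h5, h6⟩)
    · exact ⟨h3, h4, h5, by omega⟩
    · exact ⟨h3, h4, by omega, h6⟩
  · rintro ⟨h3, h4, h5, h6⟩
    rcases Nat.lt_or_ge (cel X ϖ p) m with h7 | h7
    · exact Or.inl ⟨h3, h4, h5, h7⟩
    · exact Or.inr ⟨h3, h4, h7, h6⟩

theorem Ce_disj (X : ℕ) (ϖ : ℝ) (n m k l : ℕ) (h : m ≤ k) : Disjoint (Ce X ϖ n m) (Ce X ϖ k l) := by
  rw [disjoint_left]
  intro p hp hp'
  rw [mem_Ce] at hp hp'
  omega

/-- the size of a product in terms of the cells -/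
theorem prod_cel (X : ℕ) (hX : 2 ≤ X) (ϖ : ℝ) (hϖ : 0 < ϖ) (S : Finset ℕ) (hS : ∀ p ∈ S, 1 ≤ p) :
    ((∏ p ∈ S, p : ℕ) : ℝ) ≤ (X : ℝ) ^ (ϖ * ((∑ p ∈ S, (cel X ϖ p + 1) : ℕ) : ℝ)) := by
  classical
  have hX0 : (0 : ℝ) < X := by exact_mod_cast (by omega : 0 < X)
  induction S using Finset.induction_on with
  | empty => simp
  | insert p S hp ih =>
    rw [Finset.prod_insert hp, Finset.sum_insert hp]
    push_cast
    have h1 := ih (fun q hq => hS q (mem_insert_of_mem hq))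
    push_cast at h1
    have h2 := (cel_spec X hX ϖ hϖ p (hS p (mem_insert_self _ _))).2.1.le
    calc (p : ℝ) * ∏ q ∈ S, (q : ℝ) ≤ (X : ℝ) ^ (ϖ * (cel X ϖ p + 1)) *
        (X : ℝ) ^ (ϖ * ∑ q ∈ S, ((cel X ϖ q : ℝ) + 1)) := by
          apply mul_le_mul h2 h1 (prod_nonneg fun _ _ => Nat.cast_nonneg _) (by positivity)
      _ = _ := by
          rw [← Real.rpow_add hX0]
          congr 1
          ring

theorem sum_powerset_union {A B : Finset ℕ} (h : Disjoint A B) (F : Finset ℕ → ℝ) :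
    ∑ T ∈ (A ∪ B).powerset, F T = ∑ U ∈ A.powerset, ∑ S ∈ B.powerset, F (U ∪ S) := by
  classical
  rw [← Finset.sum_product']
  symm
  apply Finset.sum_nbij' (i := fun z => z.1 ∪ z.2) (j := fun T => (T ∩ A, T ∩ B))
  · rintro ⟨U, S⟩ hz
    rw [mem_product, mem_powerset, mem_powerset] at hz
    rw [mem_powerset]
    exact union_subset_union hz.1 hz.2
  · intro T _
    rw [mem_product, mem_powerset, mem_powerset]
    exact ⟨inter_subset_right, inter_subset_right⟩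
  · rintro ⟨U, S⟩ hz
    rw [mem_product, mem_powerset, mem_powerset] at hz
    obtain ⟨h1, h2⟩ := hz
    simp only at h1 h2
    simp only [Prod.mk.injEq]
    constructor
    · ext p
      rw [mem_inter, mem_union]
      constructor
      · rintro ⟨h3 | h3, h4⟩
        · exact h3
        · exact absurd (h2 h3) (disjoint_left.1 h h4)
      · intro h3
        exact ⟨Or.inl h3, h1 h3⟩
    · ext p
      rw [mem_inter, mem_union]
      constructor
      · rintro ⟨h3 | h3, h4⟩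
        · exact absurd h4 (disjoint_left.1 h (h1 h3))
        · exact h3
      · intro h3
        exact ⟨Or.inr h3, h2 h3⟩
  · intro T hT
    rw [mem_powerset] at hT
    rw [← inter_union_distrib_left]
    exact inter_eq_left.2 hT
  · rintro ⟨U, S⟩ _
    rfl

/-- the data of the cells for the natural choice of the sizes -/
theorem cd_nat (X : ℕ) (hX : 2 ≤ X) (ϖ δ0 τ ζ υ ε₁ : ℝ) (nε nz nυ n0 K : ℕ) (hϖ : 0 < ϖ)
    (hδ0 : 0 < δ0) (hδ : (((K + 1 : ℕ) : ℝ) + 3) * δ0 < ϖ / 2) (h0 : ϖ * (n0 + 1 / 2) = τ)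
    (hz : ϖ * (nz + 1 / 2) = ζ) (hυ : ϖ * (nυ + 1 / 2) = υ) (hε : ϖ * (nε + 1 / 2) = ε₁) :
    CD (Ce X ϖ nε nz) (Ce X ϖ nz nυ) (fun p => ϖ * (cel X ϖ p + 1) + δ0 * (p / (X + 1)))
      (cel X ϖ) ϖ δ0 τ ζ υ ε₁ n0 nz K := by
  have hX1 : (1 : ℝ) < X := by exact_mod_cast (by omega : 1 < X)
  have hL : 0 < Real.log X := Real.log_pos hX1
  have hmem : ∀ p ∈ Ce X ϖ nε nz ∪ Ce X ϖ nz nυ, (1 ≤ p ∧ p ≤ X) ∧ p.Prime := by
    intro p hp
    rw [mem_union, mem_Ce, mem_Ce] at hp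
    rcases hp with h | h
    · exact ⟨h.1, h.2.1⟩
    · exact ⟨h.1, h.2.1⟩
  have hcmono : ∀ p q : ℕ, 1 ≤ p → p < q → cel X ϖ p ≤ cel X ϖ q := by
    intro p q hp hpq
    unfold cel
    apply Nat.floor_le_floor
    apply div_le_div_of_nonneg_right _ hϖ.le
    unfold tt
    apply div_le_div_of_nonneg_right _ hL.le
    apply Real.log_le_log (by exact_mod_cast hp)
    exact_mod_cast hpq.le
  have htmono : ∀ p q : ℕ, 1 ≤ p → p < q → ϖ * ((cel X ϖ p : ℝ) + 1) + δ0 * (p / (X + 1)) <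
      ϖ * ((cel X ϖ q : ℝ) + 1) + δ0 * (q / (X + 1)) := by
    intro p q hp hpq
    have h1 : (cel X ϖ p : ℝ) ≤ cel X ϖ q := by exact_mod_cast hcmono p q hp hpq
    have h2 : (p : ℝ) / (X + 1) < q / (X + 1) := by
      apply div_lt_div_of_pos_right _ (by positivity)
      exact_mod_cast hpq
    nlinarith
  have hcel : ∀ p ∈ Ce X ϖ nε nz ∪ Ce X ϖ nz nυ, ϖ * ((cel X ϖ p : ℝ) + 1) ≤
      ϖ * ((cel X ϖ p : ℝ) + 1) + δ0 * (p / (X + 1)) ∧
      ϖ * ((cel X ϖ p : ℝ) + 1) + δ0 * (p / (X + 1)) ≤ ϖ * ((cel X ϖ p : ℝ) + 1) + δ0 := by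
    intro p hp
    obtain ⟨⟨h1, h2⟩, h3⟩ := hmem p hp
    have h4 : 0 ≤ (p : ℝ) / (X + 1) := by positivity
    have h5 : (p : ℝ) / (X + 1) ≤ 1 := by
      rw [div_le_one (by positivity)]
      have : (p : ℝ) ≤ X := by exact_mod_cast h2
      linarith
    constructor
    · have := mul_nonneg hδ0.le h4
      linarith
    · have := mul_le_mul_of_nonneg_left h5 hδ0.le
      linarith
  have hsm : 4 * δ0 < ϖ / 2 := by
    have h3 : (1 : ℝ) ≤ ((K + 1 : ℕ) : ℝ) := by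
      push_cast
      have : (0 : ℝ) ≤ (K : ℝ) := Nat.cast_nonneg _
      linarith
    nlinarith
  refine ⟨⟨fun p hp => (hmem p hp).2, ?_, ?_⟩, hϖ, hδ0.le, hδ, h0, hcel, ?_, ?_⟩
  · intro p hp
    have := (hcel p hp).1
    have h2 : 0 < ϖ * ((cel X ϖ p : ℝ) + 1) := by positivity
    linarith
  · intro p hp q hq
    have hp1 := (hmem p hp).1.1
    have hq1 := (hmem q hq).1.1
    constructor
    · intro h
      by_contra hcon
      push Not at hcon
      rcases hcon.lt_or_eq with h2 | h2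
      · have := htmono q p hq1 h2
        linarith
      · rw [h2] at h
        exact lt_irrefl _ h
    · exact htmono p q hp1
  · intro p hp
    have h1 := hcel p (mem_union_left _ hp)
    rw [mem_Ce] at hp
    obtain ⟨_, _, h3, h4⟩ := hp
    have h3r : (nε : ℝ) ≤ cel X ϖ p := by exact_mod_cast h3
    have h4r : (cel X ϖ p : ℝ) + 1 ≤ nz := by exact_mod_cast h4
    have h5 := mul_le_mul_of_nonneg_left h3r hϖ.le
    have h6 := mul_le_mul_of_nonneg_left h4r hϖ.le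
    refine ⟨h4, ?_, ?_⟩
    · rw [← hε]
      nlinarith [h1.1]
    · rw [← hz]
      nlinarith [h1.2]
  · intro p hp
    have h1 := hcel p (mem_union_right _ hp)
    rw [mem_Ce] at hp
    obtain ⟨_, _, h3, h4⟩ := hp
    have h3r : (nz : ℝ) ≤ cel X ϖ p := by exact_mod_cast h3
    have h4r : (cel X ϖ p : ℝ) + 1 ≤ nυ := by exact_mod_cast h4
    have h5 := mul_le_mul_of_nonneg_left h3r hϖ.le
    have h6 := mul_le_mul_of_nonneg_left h4r hϖ.le
    refine ⟨h3, ?_, ?_⟩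
    · rw [← hz]
      nlinarith [h1.1]
    · rw [← hυ]
      nlinarith [h1.2]

/-- the rounded sizes -/
theorem rnd_spec (X : ℕ) (hX : 2 ≤ X) (ϖ δ0 : ℝ) (hϖ : 0 < ϖ) (hδ0 : 0 ≤ δ0) (p : ℕ) (hp : p.Prime)
    (hpX : p ≤ X) : tt X p ≤ ϖ * ((cel X ϖ p : ℝ) + 1) + δ0 * (p / (X + 1)) ∧
      ϖ * ((cel X ϖ p : ℝ) + 1) + δ0 * (p / (X + 1)) ≤ tt X p + (ϖ + δ0) := by
  obtain ⟨_, _, h1, h2⟩ := cel_spec X hX ϖ hϖ p hp.one_le
  have h4 : 0 ≤ (p : ℝ) / (X + 1) := by positivity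
  have h5 : (p : ℝ) / (X + 1) ≤ 1 := by
    rw [div_le_one (by positivity)]
    have : (p : ℝ) ≤ X := by exact_mod_cast hpX
    linarith
  constructor
  · have := mul_nonneg hδ0 h4
    linarith
  · have := mul_le_mul_of_nonneg_left h5 hδ0
    nlinarith

end Pool.Agent.T2h76
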