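import Pool.Agent.T2h76.Sv5

/-! Universal weights of the weighted linear sieve with a bilinear remainder: preparations. -/

set_option autoImplicit false

namespace Pool.Agent.T2h76

open Finset Filter
open Pool.Agent.W23.DC
open Pool.Agent.Y882 (flw exJ VV VV_union VV_mu VV_sub VV_add tt_lt)
open Pool.Agent.Y844.BT (cel cel_spec)

open Classical in
/-- the weight of the final sieve -/
noncomputable def WWc (X : ℕ) (ϖ a b : ℝ) (nz nυ : ℕ) (N : ℕ) : ℝ :=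
  (if ∀ p ∈ Ce X ϖ 0 nz, ¬ p ∣ N then 1 else 0) *
    (1 - ∑ q ∈ Ce X ϖ nz nυ, (a - b * (ϖ * cel X ϖ q)) * (if q ∣ N then 1 else 0))

theorem half_odd (r w : ℕ) (u ϖ : ℝ) (ho : Odd (r * w)) (hϖ : ϖ * w = 2 * u) :
    ϖ * (((r * w - 1) / 2 : ℕ) + 1 / 2) = r * u := by
  obtain ⟨k, hk⟩ := ho
  have h1 : (r * w - 1) / 2 = k := by omega
  rw [h1]
  have h2 : (r : ℝ) * w = 2 * k + 1 := by exact_mod_cast hk
  have h3 : ϖ * ((k : ℝ) + 1 / 2) = ϖ * (r * w) / 2 := by rw [h2]; ring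
  rw [h3]
  calc ϖ * (r * w) / 2 = r * (ϖ * w) / 2 := by ring
    _ = _ := by rw [hϖ]; ring

/-- the parameters of the cells -/
structure PD (τ ζ υ μ ν γ ε₁ η ϖ δ0 : ℝ) (nε nz nυ n0 K x y : ℕ) : Prop where
  ϖp : 0 < ϖ
  δp : 0 < δ0
  δs : (((K + 1 : ℕ) : ℝ) + 3) * δ0 < ϖ / 2
  δs2 : 4 * δ0 < ϖ / 2
  e0 : ϖ * (n0 + 1 / 2) = τ
  ez : ϖ * (nz + 1 / 2) = ζ
  eυ : ϖ * (nυ + 1 / 2) = υ
  eε : ϖ * (nε + 1 / 2) = ε₁
  m1 : nε ≤ nz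
  m2 : nz ≤ nυ
  m3 : nυ ≤ x
  xy : x + y = n0
  sx : γ / 2 + ϖ * x ≤ μ
  sy : ϖ * y ≤ ν
  r1 : ϖ + δ0 ≤ ε₁ / 2
  r2 : 8 * (ϖ + δ0) ≤ η * ε₁

theorem params (r1 r2 r3 i : ℕ) (o1 : Odd r1) (o2 : Odd r2) (o3 : Odd r3) (u μ ν η ϖ1 : ℝ) (K : ℕ)
    (hu : 0 < u) (h2 : 1 ≤ r2) (h23 : r2 ≤ r3) (h31 : r3 < r1) (hν : 0 < ν)
    (hν2 : ν ≤ (r1 - r3) * u) (hμν : r1 * u < μ + ν) (hη : 0 < η) (hϖ1 : 0 < ϖ1) :
    ∃ (ϖ δ0 : ℝ) (nε nz nυ n0 x y : ℕ), ϖ ≤ ϖ1 ∧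
      PD (r1 * u) (r2 * u) (r3 * u) μ ν (μ + ν - r1 * u) (u / (2 * i + 1)) η ϖ δ0 nε nz nυ n0 K x y := by
  set s : ℕ := 2 * i + 1 with hs
  have hir : (0 : ℝ) ≤ i := Nat.cast_nonneg _
  have hsr : (s : ℝ) = 2 * i + 1 := by rw [hs]; push_cast; ring
  have hs1 : (1 : ℝ) ≤ s := by rw [hsr]; linarith
  rw [← hsr]
  set γ : ℝ := μ + ν - r1 * u with hγ
  have hγ0 : 0 < γ := by linarith
  set ε₁ : ℝ := u / s with hε₁
  have hε0 : 0 < ε₁ := by positivity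
  have hεu : ε₁ ≤ u := div_le_self hu.le hs1
  have r2r : (1 : ℝ) ≤ r2 := by exact_mod_cast h2
  have h23r : (r2 : ℝ) ≤ r3 := by exact_mod_cast h23
  have h31r : (r3 : ℝ) + 1 ≤ r1 := by exact_mod_cast h31
  have m1 : u ≤ r2 * u := le_mul_of_one_le_left hu.le r2r
  have m2 : (r2 : ℝ) * u ≤ r3 * u := mul_le_mul_of_nonneg_right h23r hu.le
  have m3 : (r3 : ℝ) * u + u ≤ r1 * u := by
    have := mul_le_mul_of_nonneg_right h31r hu.le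
    linarith
  have hν3 : ν ≤ r1 * u - r3 * u := by
    have : ((r1 : ℝ) - r3) * u = r1 * u - r3 * u := by ring
    linarith
  set ϖb : ℝ := min (min ϖ1 (γ / 4)) (min (ε₁ * η / 16) (ε₁ / 4)) with hϖb
  have hϖb0 : 0 < ϖb := lt_min (lt_min hϖ1 (by positivity)) (lt_min (by positivity) (by positivity))
  obtain ⟨j, hj⟩ := exists_nat_ge (2 * u / (s * ϖb))
  set w : ℕ := s * (2 * j + 1) with hw
  have hwr : (w : ℝ) = s * (2 * j + 1) := by rw [hw]; push_cast; ring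
  have hjr : (0 : ℝ) ≤ j := Nat.cast_nonneg _
  have hw0 : (0 : ℝ) < w := by rw [hwr]; positivity
  set ϖ : ℝ := 2 * u / w with hϖ
  have hϖ0 : 0 < ϖ := by positivity
  have hϖw : ϖ * w = 2 * u := by rw [hϖ]; field_simp
  have hϖle : ϖ ≤ ϖb := by
    rw [hϖ, div_le_iff₀ hw0, hwr]
    rw [div_le_iff₀ (by positivity)] at hj
    have h6 : 0 < (s : ℝ) * ϖb := by positivity
    nlinarith
  have hϖϖ1 : ϖ ≤ ϖ1 := hϖle.trans ((min_le_left _ _).trans (min_le_left _ _))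
  have hϖγ : ϖ ≤ γ / 4 := hϖle.trans ((min_le_left _ _).trans (min_le_right _ _))
  have hϖη : ϖ ≤ ε₁ * η / 16 := hϖle.trans ((min_le_right _ _).trans (min_le_left _ _))
  have hϖε : ϖ ≤ ε₁ / 4 := hϖle.trans ((min_le_right _ _).trans (min_le_right _ _))
  have how : Odd w := by
    rw [hw, hs]
    exact (odd_two_mul_add_one i).mul (odd_two_mul_add_one j)
  set n0 : ℕ := (r1 * w - 1) / 2 with hn0
  set nz : ℕ := (r2 * w - 1) / 2 with hnz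
  set nυ : ℕ := (r3 * w - 1) / 2 with hnυ
  have en0 : ϖ * (n0 + 1 / 2) = r1 * u := half_odd r1 w u ϖ (o1.mul how) hϖw
  have enz : ϖ * (nz + 1 / 2) = r2 * u := half_odd r2 w u ϖ (o2.mul how) hϖw
  have enυ : ϖ * (nυ + 1 / 2) = r3 * u := half_odd r3 w u ϖ (o3.mul how) hϖw
  have enε : ϖ * ((j : ℝ) + 1 / 2) = ε₁ := by
    have h6 : ϖ * ((j : ℝ) + 1 / 2) * s = u := by
      have h7 : ϖ * ((j : ℝ) + 1 / 2) * s = ϖ * (s * (2 * j + 1)) / 2 := by ring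
      rw [h7, ← hwr, hϖw]
      ring
    rw [hε₁, eq_div_iff (by positivity)]
    exact h6
  have hmono : ∀ n m : ℕ, ϖ * ((n : ℝ) + 1 / 2) ≤ ϖ * ((m : ℝ) + 1 / 2) → n ≤ m := by
    intro n m h
    have h6 := le_of_mul_le_mul_left h hϖ0
    have h7 : (n : ℝ) ≤ m := by linarith
    exact_mod_cast h7
  have hn1 : j ≤ nz := hmono j nz (by rw [enε, enz]; linarith)
  have hn2 : nz ≤ nυ := hmono nz nυ (by rw [enz, enυ]; exact m2)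
  set δ0 : ℝ := ϖ / (4 * ((K : ℝ) + 4)) with hδ0
  have hKr : (0 : ℝ) ≤ K := Nat.cast_nonneg _
  have hδ00 : 0 < δ0 := by positivity
  have hδ1 : (((K + 1 : ℕ) : ℝ) + 3) * δ0 = ϖ / 4 := by
    rw [hδ0]
    push_cast
    field_simp
    ring
  have hδϖ : δ0 ≤ ϖ / 16 := by
    rw [hδ0]
    apply div_le_div_of_nonneg_left hϖ0.le (by norm_num)
    linarith
  set y : ℕ := ⌊ν / ϖ⌋₊ with hy
  have hy1 : ϖ * y ≤ ν := by
    have := Nat.floor_le (show 0 ≤ ν / ϖ by positivity)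
    rw [le_div_iff₀ hϖ0] at this
    rw [hy]
    linarith
  have hy2 : ν < ϖ * y + ϖ := by
    have := Nat.lt_floor_add_one (ν / ϖ)
    rw [div_lt_iff₀ hϖ0] at this
    rw [hy]
    linarith
  have en0' : ϖ * n0 = r1 * u - ϖ / 2 := by
    have : ϖ * ((n0 : ℝ) + 1 / 2) = ϖ * n0 + ϖ / 2 := by ring
    linarith
  have enυ' : ϖ * nυ = r3 * u - ϖ / 2 := by
    have : ϖ * ((nυ : ℝ) + 1 / 2) = ϖ * nυ + ϖ / 2 := by ring
    linarith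
  have hyn0 : y ≤ n0 := by
    have h6 : ϖ * y ≤ ϖ * n0 := by
      have h7 : 0 < (r3 : ℝ) * u := by linarith
      have h8 : ϖ ≤ u / 4 := by linarith
      linarith
    have h7 := le_of_mul_le_mul_left h6 hϖ0
    exact_mod_cast h7
  set x : ℕ := n0 - y with hx
  have hxy : x + y = n0 := by omega
  have hxr : (x : ℝ) + y = n0 := by exact_mod_cast hxy
  have hxe : ϖ * x = ϖ * n0 - ϖ * y := by rw [← hxr]; ring
  have hυx : nυ ≤ x := by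
    have h6 : ϖ * nυ ≤ ϖ * x := by linarith
    have h7 := le_of_mul_le_mul_left h6 hϖ0
    exact_mod_cast h7
  refine ⟨ϖ, δ0, j, nz, nυ, n0, x, y, hϖϖ1, ⟨hϖ0, hδ00, by linarith, by linarith, en0, enz, enυ, enε,
    hn1, hn2, hυx, hxy, ?_, hy1, by linarith, ?_⟩⟩
  · have h6 : μ - ν = μ + ν - r1 * u + r1 * u - 2 * ν := by ring
    have h7 : γ = μ + ν - r1 * u := hγ
    linarith
  · have h6 : 8 * (ϖ + δ0) ≤ 16 * ϖ := by linarith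
    linarith

/-- the combined coefficients -/
def Wc (P0 P1 Q0 Q1 : Finset ℕ) (α β : Finset ℕ → ℝ) (T : Finset ℕ) : ℝ :=
  (fun U => (-1) ^ (U ∩ P0).card * α (U ∩ P1)) (T ∩ Q0) * β (T ∩ Q1)

theorem VV_Wc (P0 P1 Q0 Q1 : Finset ℕ) (hQ : P0 ∪ P1 = Q0) (hd01 : Disjoint P0 P1)
    (hd2 : Disjoint Q0 Q1) (α β : Finset ℕ → ℝ) (h : ℕ → ℝ) :
    VV (Q0 ∪ Q1) (Wc P0 P1 Q0 Q1 α β) h = (∏ p ∈ P0, (1 - h p)) * VV P1 α h * VV Q1 β h := by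
  have h6 := VV_union Q0 Q1 hd2 (fun U => (-1) ^ (U ∩ P0).card * α (U ∩ P1)) β h
  unfold Wc
  rw [h6]
  congr 1
  have h7 := VV_union P0 P1 hd01 (fun U => (-1) ^ U.card) α h
  rw [VV_mu, hQ] at h7
  exact h7

theorem comb_low (L U l uu x y S : ℝ) (h1 : L ≤ x) (h2 : x ≤ U) (h3 : l ≤ y * (1 - S))
    (h4 : y ≤ uu) (hx : 0 ≤ x) (hy : 0 ≤ y) (hS : 0 ≤ S) :
    L * uu + U * l - U * uu ≤ x * (y * (1 - S)) := by
  have hyS : y * (1 - S) ≤ y := by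
    have := mul_nonneg hy hS
    linarith
  have b1 : 0 ≤ (U - x) * (uu - l) := mul_nonneg (by linarith) (by linarith)
  have b2 : 0 ≤ x * (y * (1 - S) - l) := mul_nonneg hx (by linarith)
  have b3 : 0 ≤ (x - L) * uu := mul_nonneg (by linarith) (by linarith)
  nlinarith

theorem comb_main (V0 V1 L U l uu ε₁ f0 F0 B : ℝ) (hV0 : 0 ≤ V0) (hV1 : 0 ≤ V1) (hε : 0 < ε₁)
    (hf0 : 0 < f0) (hF0 : 0 < F0) (hB : 2 * B * F0 ≤ f0 / 2) (hB0 : 0 ≤ B)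
    (a1 : (1 - B) * V1 ≤ L) (a2 : L ≤ U) (a3 : V1 ≤ U) (a4 : U ≤ (1 + B) * V1)
    (a5 : ε₁ * f0 ≤ l) (a6 : uu ≤ ε₁ * F0) :
    f0 * ε₁ / 2 * (V0 * V1) ≤ V0 * L * uu + V0 * U * l - V0 * U * uu := by
  have key : V1 * (ε₁ * f0 / 2) ≤ L * uu + U * l - U * uu := by
    have b1 : V1 * (ε₁ * f0) ≤ U * l := mul_le_mul a3 a5 (by positivity) (hV1.trans a3)
    have b2 : (U - L) * uu ≤ (U - L) * (ε₁ * F0) := mul_le_mul_of_nonneg_left a6 (by linarith)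
    have b3 : (U - L) * (ε₁ * F0) ≤ (2 * B * V1) * (ε₁ * F0) := by
      apply mul_le_mul_of_nonneg_right _ (by positivity)
      linarith
    have b4 : (2 * B * V1) * (ε₁ * F0) ≤ V1 * (ε₁ * (f0 / 2)) := by
      calc (2 * B * V1) * (ε₁ * F0) = V1 * (ε₁ * (2 * B * F0)) := by ring
        _ ≤ V1 * (ε₁ * (f0 / 2)) := by gcongr
    nlinarith
  calc f0 * ε₁ / 2 * (V0 * V1) = V0 * (V1 * (ε₁ * f0 / 2)) := by ring
    _ ≤ V0 * (L * uu + U * l - U * uu) := mul_le_mul_of_nonneg_left key hV0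
    _ = V0 * L * uu + V0 * U * l - V0 * U * uu := by ring

theorem prod_one_sub_ind (P : Finset ℕ) [DecidablePred (fun N : ℕ => ∀ p ∈ P, ¬ p ∣ N)] (N : ℕ) :
    ∏ p ∈ P, (1 - (if p ∣ N then (1 : ℝ) else 0)) = if ∀ p ∈ P, ¬ p ∣ N then 1 else 0 := by
  classical
  have : ∀ p ∈ P, 1 - (if p ∣ N then (1 : ℝ) else 0) = if ¬ p ∣ N then 1 else 0 := by
    intro p _
    split_ifs <;> norm_num
  rw [prod_congr rfl this]
  by_cases h : ∀ p ∈ P, ¬ p ∣ N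
  · rw [if_pos h]
    apply prod_eq_one
    intro p hp
    rw [if_pos (h p hp)]
  · rw [if_neg h]
    push Not at h
    obtain ⟨p, hp, hpN⟩ := h
    apply prod_eq_zero hp
    rw [if_neg (not_not.2 hpN)]

/-- the sieve inequality for the combined coefficients -/
theorem comb_ind (P0 P1 Q0 Q1 P : Finset ℕ) (hQ : P0 ∪ P1 = Q0) (hd01 : Disjoint P0 P1)
    (hd2 : Disjoint Q0 Q1) (cU cL zU zL : Finset ℕ → ℝ) (N : ℕ) (S : ℝ) (hS : 0 ≤ S)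
    [DecidablePred (fun N : ℕ => ∀ p ∈ P0, ¬ p ∣ N)] [DecidablePred (fun N : ℕ => ∀ p ∈ P1, ¬ p ∣ N)]
    [DecidablePred (fun N : ℕ => ∀ p ∈ P, ¬ p ∣ N)] [DecidablePred (fun N : ℕ => ∀ p ∈ Q0 ∪ P, ¬ p ∣ N)]
    (g1 : VV P1 cL (fun p => if p ∣ N then 1 else 0) ≤ (if ∀ p ∈ P1, ¬ p ∣ N then 1 else 0))
    (g2 : (if ∀ p ∈ P1, ¬ p ∣ N then 1 else 0) ≤ VV P1 cU (fun p => if p ∣ N then 1 else 0))
    (k1 : VV Q1 zL (fun p => if p ∣ N then 1 else 0) ≤ (if ∀ p ∈ P, ¬ p ∣ N then 1 else 0) * (1 - S))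
    (k2 : (if ∀ p ∈ P, ¬ p ∣ N then 1 else 0) ≤ VV Q1 zU (fun p => if p ∣ N then 1 else 0)) :
    VV (Q0 ∪ Q1) (fun T => Wc P0 P1 Q0 Q1 cL zU T + Wc P0 P1 Q0 Q1 cU zL T - Wc P0 P1 Q0 Q1 cU zU T)
      (fun p => if p ∣ N then 1 else 0) ≤ (if ∀ p ∈ Q0 ∪ P, ¬ p ∣ N then 1 else 0) * (1 - S) := by
  classical
  rw [VV_sub, VV_add, VV_Wc P0 P1 Q0 Q1 hQ hd01 hd2, VV_Wc P0 P1 Q0 Q1 hQ hd01 hd2,
    VV_Wc P0 P1 Q0 Q1 hQ hd01 hd2, prod_one_sub_ind]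
  have hx0 : (0 : ℝ) ≤ if ∀ p ∈ P1, ¬ p ∣ N then 1 else 0 := by split_ifs <;> norm_num
  have hy0 : (0 : ℝ) ≤ if ∀ p ∈ P, ¬ p ∣ N then 1 else 0 := by split_ifs <;> norm_num
  have key := comb_low _ _ _ _ _ _ S g1 g2 k1 k2 hx0 hy0 hS
  by_cases hc0 : ∀ p ∈ P0, ¬ p ∣ N
  · rw [if_pos hc0]
    have hxy' : (if ∀ p ∈ P1, ¬ p ∣ N then (1 : ℝ) else 0) * (if ∀ p ∈ P, ¬ p ∣ N then (1 : ℝ) else 0) =
        if ∀ p ∈ Q0 ∪ P, ¬ p ∣ N then (1 : ℝ) else 0 := by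
      by_cases hc1 : ∀ p ∈ P1, ¬ p ∣ N
      · by_cases hc2 : ∀ p ∈ P, ¬ p ∣ N
        · rw [if_pos hc1, if_pos hc2, if_pos, mul_one]
          intro p hp
          rw [← hQ, mem_union, mem_union] at hp
          rcases hp with (hp | hp) | hp
          · exact hc0 p hp
          · exact hc1 p hp
          · exact hc2 p hp
        · rw [if_neg hc2, mul_zero]
          symm
          apply if_neg
          intro hc
          apply hc2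
          intro p hp
          exact hc p (mem_union_right _ hp)
      · rw [if_neg hc1, zero_mul]
        symm
        apply if_neg
        intro hc
        apply hc1
        intro p hp
        exact hc p (by rw [← hQ]; exact mem_union_left _ (mem_union_right _ hp))
    rw [← hxy']
    linarith
  · rw [if_neg hc0]
    have h6 : (if ∀ p ∈ Q0 ∪ P, ¬ p ∣ N then (1 : ℝ) else 0) = 0 := by
      rw [if_neg]
      intro hc
      apply hc0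
      intro p hp
      exact hc p (by rw [← hQ]; exact mem_union_left _ (mem_union_left _ hp))
    rw [h6]
    simp

/-- the remainder for one pair of coefficients -/
theorem rem_one (X : ℕ) (hX : 2 ≤ X) (ϖ : ℝ) (hϖ : 0 < ϖ) (nε nυ n0 x y : ℕ)
    (hxy : x + y = n0) (hx : nυ ≤ x) (μ ν γ : ℝ) (sx : γ / 2 + ϖ * x ≤ μ) (sy : ϖ * y ≤ ν)
    (P0 P1 : Finset ℕ) (α : Finset ℕ → ℝ) (β : Multiset ℕ → ℝ) (A' B' E : ℝ) (hA' : 0 < A')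
    (hB' : 0 ≤ B') (hα : ∀ U, |α U| ≤ A')
    (hsm : ∀ U ⊆ Ce X ϖ 0 nε, α (U ∩ P1) ≠ 0 → ((∏ p ∈ U, p : ℕ) : ℝ) ≤ (X : ℝ) ^ (γ / 2))
    (hβ : ∀ S ⊆ Ce X ϖ nε nυ, |β (ty (cel X ϖ) S)| ≤ B')
    (hsp : ∀ S ⊆ Ce X ϖ nε nυ, β (ty (cel X ϖ) S) ≠ 0 →
      ∃ T1 ⊆ S, ∑ q ∈ T1, (cel X ϖ q + 1) ≤ x ∧ ∑ q ∈ S \ T1, (cel X ϖ q + 1) ≤ y)
    (r : ℕ → ℝ)
    (hr : ∀ a b : ℕ → ℝ, (∀ m, |a m| ≤ 1) → (∀ k, |b k| ≤ 1) → (∀ k, b k ≠ 0 → Squarefree k) →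
      |∑ m ∈ Icc 1 ⌊(X : ℝ) ^ μ⌋₊, ∑ k ∈ Icc 1 ⌊(X : ℝ) ^ ν⌋₊,
        if Nat.Coprime m k then a m * (b k * r (m * k)) else 0| ≤ E) :
    |∑ T ∈ (Ce X ϖ 0 nε ∪ Ce X ϖ nε nυ).powerset,
      Wc P0 P1 (Ce X ϖ 0 nε) (Ce X ϖ nε nυ) α (fun S => β (ty (cel X ϖ) S)) T * r (∏ p ∈ T, p)| ≤
      (TT0 n0 nυ).card * (A' * B' * E) := by
  classical
  have hX1r : (1 : ℝ) ≤ X := by exact_mod_cast (by omega : 1 ≤ X)
  have hX0 : (0 : ℝ) < X := by linarith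
  set Q0 := Ce X ϖ 0 nε with hQ0
  set Q1 := Ce X ϖ nε nυ with hQ1
  have hd2 : Disjoint Q0 Q1 := Ce_disj X ϖ 0 nε nε nυ le_rfl
  have hQ0p' : ∀ p ∈ Q0, p.Prime := fun p hp => (mem_Ce.1 hp).2.1
  have hQ1p' : ∀ p ∈ Q1, p.Prime := fun p hp => (mem_Ce.1 hp).2.1
  rw [sum_powerset_union hd2]
  have e6 : ∀ U ∈ Q0.powerset, ∀ S ∈ Q1.powerset,
      Wc P0 P1 Q0 Q1 α (fun S => β (ty (cel X ϖ) S)) (U ∪ S) * r (∏ p ∈ U ∪ S, p) =
      ((-1) ^ (U ∩ P0).card * α (U ∩ P1)) * β (ty (cel X ϖ) S) *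
        r ((∏ p ∈ U, p) * ∏ p ∈ S, p) := by
    intro U hU S hS
    rw [mem_powerset] at hU hS
    have d1 : (U ∪ S) ∩ Q0 = U := by
      ext p
      rw [mem_inter, mem_union]
      constructor
      · rintro ⟨h3 | h3, h4⟩
        · exact h3
        · exact absurd (hS h3) (disjoint_left.1 hd2 h4)
      · intro h3
        exact ⟨Or.inl h3, hU h3⟩
    have d2 : (U ∪ S) ∩ Q1 = S := by
      ext p
      rw [mem_inter, mem_union]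
      constructor
      · rintro ⟨h3 | h3, h4⟩
        · exact absurd h4 (disjoint_left.1 hd2 (hU h3))
        · exact h3
      · intro h3
        exact ⟨Or.inr h3, hS h3⟩
    unfold Wc
    rw [d1, d2, prod_union (disjoint_of_subset_left hU (disjoint_of_subset_right hS hd2))]
  rw [Finset.sum_congr rfl (fun U hU => Finset.sum_congr rfl (fun S hS => e6 U hU S hS))]
  apply sep (cel X ϖ) Q0 Q1 hQ0p' hQ1p' hd2 (fun U => (-1) ^ (U ∩ P0).card * α (U ∩ P1)) β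
    A' B' E n0 nυ ⌊(X : ℝ) ^ μ⌋₊ ⌊(X : ℝ) ^ ν⌋₊ x y r hA' _ hB' hβ hsp _ _ _ _ hr
  · intro U _
    rw [abs_mul, abs_neg_one_pow, one_mul]
    exact hα _
  · intro U hU hne S hS hSx
    apply Nat.le_floor
    push_cast
    have h6 := hsm U hU (right_ne_zero_of_mul hne)
    have h7 := prod_cel X hX ϖ hϖ S (fun p hp => (hQ1p' p (hS hp)).one_le)
    have h8 : ((∑ p ∈ S, (cel X ϖ p + 1) : ℕ) : ℝ) ≤ x := by exact_mod_cast hSx
    have h9 := mul_le_mul_of_nonneg_left h8 hϖ.le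
    push_cast at h6 h7 h9
    calc (∏ p ∈ U, (p : ℝ)) * ∏ p ∈ S, (p : ℝ) ≤ (X : ℝ) ^ (γ / 2) * (X : ℝ) ^ (ϖ * (x : ℝ)) := by
          apply mul_le_mul h6 _ (prod_nonneg fun _ _ => Nat.cast_nonneg _) (by positivity)
          exact h7.trans (Real.rpow_le_rpow_of_exponent_le hX1r h9)
      _ = (X : ℝ) ^ (γ / 2 + ϖ * x) := (Real.rpow_add hX0 _ _).symm
      _ ≤ (X : ℝ) ^ μ := Real.rpow_le_rpow_of_exponent_le hX1r sx
  · intro S hS hSy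
    apply Nat.le_floor
    have h7 := prod_cel X hX ϖ hϖ S (fun p hp => (hQ1p' p (hS hp)).one_le)
    have h8 : ((∑ p ∈ S, (cel X ϖ p + 1) : ℕ) : ℝ) ≤ y := by exact_mod_cast hSy
    refine h7.trans (Real.rpow_le_rpow_of_exponent_le hX1r ?_)
    exact (mul_le_mul_of_nonneg_left h8 hϖ.le).trans sy
  · intro p hp
    exact (mem_Ce.1 hp).2.2.2
  · intro S hS hne
    obtain ⟨T1, hT1, h6, h7⟩ := hsp S hS hne
    have h8 : S.card ≤ ∑ q ∈ S, (cel X ϖ q + 1) := by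
      rw [card_eq_sum_ones]
      exact sum_le_sum fun q _ => by omega
    have h9 : ∑ q ∈ S, (cel X ϖ q + 1) = ∑ q ∈ S \ T1, (cel X ϖ q + 1) + ∑ q ∈ T1, (cel X ϖ q + 1) :=
      (sum_sdiff hT1).symm
    omega

/-- the size of the products of small primes -/
theorem small_size (X J CB z0 B : ℕ) (γ ε₁ : ℝ) (hX : 1 ≤ X) (hB : B = ∏ p ∈ (Icc 1 z0), p)
    (hBX : (B : ℝ) ≤ (X : ℝ) ^ (γ / 4)) (hJ2 : (2 : ℝ) ^ 2 ^ J ≤ (X : ℝ) ^ (2 * ε₁))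
    (hεb : 2 * ε₁ * CB ≤ γ / 4) (Q0 : Finset ℕ) (hQ0 : ∀ p ∈ Q0, p.Prime) (U : Finset ℕ) (hU : U ⊆ Q0)
    (h6 : ∏ p ∈ U ∩ Q0.filter (fun p => ¬ p ≤ z0), p ≤ (2 ^ 2 ^ J) ^ CB) :
    ((∏ p ∈ U, p : ℕ) : ℝ) ≤ (X : ℝ) ^ (γ / 2) := by
  classical
  have hX1r : (1 : ℝ) ≤ X := by exact_mod_cast hX
  set P0 : Finset ℕ := Q0.filter (fun p => p ≤ z0) with hP0
  set P1 : Finset ℕ := Q0.filter (fun p => ¬ p ≤ z0) with hP1
  have hQ : P0 ∪ P1 = Q0 := filter_union_filter_not_eq _ _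
  have hd01 : Disjoint P0 P1 := disjoint_filter_filter_not _ _ _
  have h8 : U = (U ∩ P0) ∪ (U ∩ P1) := by
    rw [← inter_union_distrib_left, hQ]
    exact (inter_eq_left.2 hU).symm
  have hdU : Disjoint (U ∩ P0) (U ∩ P1) :=
    disjoint_of_subset_left inter_subset_right (disjoint_of_subset_right inter_subset_right hd01)
  have h9 : ∏ p ∈ U, p = (∏ p ∈ U ∩ P0, p) * ∏ p ∈ U ∩ P1, p := by
    conv_lhs => rw [h8]
    rw [prod_union hdU]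
  have h10 : ∏ p ∈ U ∩ P0, p ≤ B := by
    rw [hB]
    apply prod_le_prod_of_subset_of_one_le'
    · intro p hp
      have h11 := (mem_inter.1 hp).2
      rw [hP0, mem_filter] at h11
      exact mem_Icc.2 ⟨(hQ0 p h11.1).pos, h11.2⟩
    · intro p hp _
      exact (mem_Icc.1 hp).1
  have h11 : ((∏ p ∈ U, p : ℕ) : ℝ) ≤ (B : ℝ) * ((2 : ℝ) ^ 2 ^ J) ^ CB := by
    have h12 : ∏ p ∈ U, p ≤ B * (2 ^ 2 ^ J) ^ CB := by
      rw [h9]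
      exact Nat.mul_le_mul h10 h6
    exact_mod_cast h12
  refine h11.trans ?_
  calc (B : ℝ) * ((2 : ℝ) ^ 2 ^ J) ^ CB ≤ (X : ℝ) ^ (γ / 4) * ((X : ℝ) ^ (2 * ε₁)) ^ CB := by
        gcongr
    _ ≤ (X : ℝ) ^ (γ / 4) * (X : ℝ) ^ (γ / 4) := by
        gcongr
        rw [← Real.rpow_natCast, ← Real.rpow_mul (by linarith)]
        exact Real.rpow_le_rpow_of_exponent_le hX1r hεb
    _ = (X : ℝ) ^ (γ / 2) := by
        rw [← Real.rpow_add (by linarith)]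
        congr 1
        ring

end Pool.Agent.T2h76
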