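import Pool.Agent.T2h76.Ph

/-! The inner sums of the Weyl sums. -/

set_option autoImplicit false

namespace Pool.Agent.T2h76

open Finset
open Pool.Agent.H442R2.KF (e norm_e e_add e_congr norm_e_sub_le)

/-- the weight of the inner sum -/
noncomputable def Fy (Φ : ℕ → ℂ) (y L q : ℕ) (j : ℤ) (x : ℤ) : ℂ :=
  Φ (x ^ 2 + (y : ℤ) ^ 2).toNat *
    e ((j : ℝ) * x / (y * L * q * ((x ^ 2 + (y : ℤ) ^ 2).toNat : ℝ)))

theorem shift_sum (y : ℕ) (f : ℤ → ℂ) :
    ∑ x ∈ Ioc (-(y : ℤ)) y, f x = ∑ k ∈ range (2 * y), f (-(y : ℤ) + 1 + k) := by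
  symm
  refine Finset.sum_bij (fun k _ => -(y : ℤ) + 1 + k) ?_ ?_ ?_ ?_
  · intro k hk
    rw [mem_range] at hk
    rw [mem_Ioc]
    omega
  · intro a _ b _ hab
    have hab' : -(y : ℤ) + 1 + a = -(y : ℤ) + 1 + b := hab
    omega
  · intro x hx
    rw [mem_Ioc] at hx
    refine ⟨(x + y - 1).toNat, ?_, ?_⟩
    · rw [mem_range]; omega
    · show -(y : ℤ) + 1 + ((x + y - 1).toNat : ℤ) = x
      omega
  · intro k _
    rfl

/-- total variation of the weight -/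
theorem tv (Φ : ℕ → ℂ) (M y L q : ℕ) (j : ℤ) (B : ℝ) (hM : 1 ≤ M) (hy : 1 ≤ y) (hL : 1 ≤ L)
    (hq : 1 ≤ q) (hB : 0 ≤ B) (hy2 : y ^ 2 ≤ 3 * M) (hΦ : ∀ m, ‖Φ m‖ ≤ B)
    (hΦ0 : ∀ m, Φ m ≠ 0 → M ≤ 2 * m)
    (hΦ1 : ∀ m m' : ℕ, ‖Φ m - Φ m'‖ ≤ B / M * |(m : ℝ) - m'|) :
    ∑ k ∈ range (2 * y), ‖Fy Φ y L q j (-(y : ℤ) + 1 + (k + 1 : ℕ)) - Fy Φ y L q j (-(y : ℤ) + 1 + k)‖ ≤
      B * (18 + 120 * (|(j : ℝ)| / (M * L * q))) := by
  have hMr : (0 : ℝ) < M := by exact_mod_cast hM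
  have hyr : (1 : ℝ) ≤ y := by exact_mod_cast hy
  have hLr : (0 : ℝ) < L := by exact_mod_cast hL
  have hqr : (0 : ℝ) < q := by exact_mod_cast hq
  have hy2r : (y : ℝ) ^ 2 ≤ 3 * M := by exact_mod_cast hy2
  set J : ℝ := |(j : ℝ)| / (M * L * q) with hJ
  have hJ0 : 0 ≤ J := by positivity
  have hterm : ∀ k ∈ range (2 * y),
      ‖Fy Φ y L q j (-(y : ℤ) + 1 + (k + 1 : ℕ)) - Fy Φ y L q j (-(y : ℤ) + 1 + k)‖ ≤
        3 * B * y / M + B * (60 * J / y) := by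
    intro k hk
    rw [mem_range] at hk
    set x : ℤ := -(y : ℤ) + 1 + k with hx
    have hx1 : -(y : ℤ) + 1 ≤ x := by omega
    have hx2 : x ≤ y := by omega
    have e1 : -(y : ℤ) + 1 + ((k + 1 : ℕ) : ℤ) = x + 1 := by push_cast; omega
    rw [e1]
    have hxr1 : -(y : ℝ) + 1 ≤ x := by exact_mod_cast hx1
    have hxr2 : (x : ℝ) ≤ y := by exact_mod_cast hx2
    set m : ℕ := (x ^ 2 + (y : ℤ) ^ 2).toNat with hm
    set m' : ℕ := ((x + 1) ^ 2 + (y : ℤ) ^ 2).toNat with hm'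
    have hmr : (m : ℝ) = (x : ℝ) ^ 2 + y ^ 2 := by
      have : ((m : ℕ) : ℤ) = x ^ 2 + (y : ℤ) ^ 2 := Int.toNat_of_nonneg (by positivity)
      exact_mod_cast this
    have hmr' : (m' : ℝ) = ((x : ℝ) + 1) ^ 2 + y ^ 2 := by
      have : ((m' : ℕ) : ℤ) = (x + 1) ^ 2 + (y : ℤ) ^ 2 := Int.toNat_of_nonneg (by positivity)
      exact_mod_cast this
    have hF : Fy Φ y L q j (x + 1) - Fy Φ y L q j x =
        (Φ m' - Φ m) * e ((j : ℝ) * ((x + 1 : ℤ) : ℝ) / (y * L * q * (m' : ℝ))) +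
        Φ m * (e ((j : ℝ) * ((x + 1 : ℤ) : ℝ) / (y * L * q * (m' : ℝ))) -
          e ((j : ℝ) * x / (y * L * q * (m : ℝ)))) := by
      unfold Fy
      rw [← hm, ← hm']
      ring
    rw [hF]
    refine (norm_add_le _ _).trans (add_le_add ?_ ?_)
    · rw [norm_mul, norm_e, mul_one]
      refine (hΦ1 _ _).trans ?_
      have h1 : |(m' : ℝ) - m| ≤ 3 * y := by
        rw [hmr, hmr', abs_le]
        constructor <;> nlinarith
      calc B / M * |(m' : ℝ) - m| ≤ B / M * (3 * y) := by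
            apply mul_le_mul_of_nonneg_left h1 (by positivity)
        _ = 3 * B * y / M := by ring
    · by_cases h0 : Φ m = 0
      · rw [h0, zero_mul, norm_zero]; positivity
      · have h1 := hΦ0 m h0
        have h1r : (M : ℝ) ≤ 2 * m := by exact_mod_cast h1
        have h2 : (M : ℝ) ≤ 4 * y ^ 2 := by
          rw [hmr] at h1r
          nlinarith
        rw [norm_mul]
        apply mul_le_mul (hΦ m) _ (norm_nonneg _) hB
        refine (norm_e_sub_le _ _).trans ?_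
        have hm0 : (y : ℝ) ^ 2 ≤ m := by rw [hmr]; nlinarith [sq_nonneg (x : ℝ)]
        have hm0' : (y : ℝ) ^ 2 ≤ m' := by rw [hmr']; nlinarith [sq_nonneg ((x : ℝ) + 1)]
        have hy20 : (0 : ℝ) < y ^ 2 := by positivity
        have hmp : (0 : ℝ) < m := by linarith
        have hmp' : (0 : ℝ) < m' := by linarith
        have h3 : (j : ℝ) * ((x + 1 : ℤ) : ℝ) / (y * L * q * (m' : ℝ)) -
            (j : ℝ) * x / (y * L * q * (m : ℝ)) =
            (j : ℝ) / (y * L * q) * (((y : ℝ) ^ 2 - x ^ 2 - x) / (m * m')) := by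
          have e2 : ((y : ℝ) ^ 2 - x ^ 2 - x) = ((x : ℝ) + 1) * m - x * m' := by
            rw [hmr, hmr']; ring
          rw [e2]
          push_cast
          field_simp
        rw [h3, abs_mul, abs_div, abs_div, abs_of_pos (by positivity : (0 : ℝ) < y * L * q),
          abs_of_pos (by positivity : (0 : ℝ) < m * m')]
        have h4 : |(y : ℝ) ^ 2 - x ^ 2 - x| ≤ 2 * y ^ 2 := by
          rw [abs_le]
          constructor <;> nlinarith
        have h5 : |(y : ℝ) ^ 2 - x ^ 2 - x| / (m * m') ≤ 2 / (y : ℝ) ^ 2 := by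
          rw [div_le_div_iff₀ (by positivity) hy20]
          have h6 : (y : ℝ) ^ 2 * y ^ 2 ≤ m * m' := mul_le_mul hm0 hm0' hy20.le hmp.le
          nlinarith [abs_nonneg ((y : ℝ) ^ 2 - x ^ 2 - x)]
        have hpi : Real.pi ≤ 3.15 := Real.pi_lt_d2.le.trans (by norm_num)
        calc 2 * Real.pi * (|(j : ℝ)| / (y * L * q) * (|(y : ℝ) ^ 2 - x ^ 2 - x| / (m * m'))) ≤
            2 * 3.15 * (|(j : ℝ)| / (y * L * q) * (2 / (y : ℝ) ^ 2)) := by
              gcongr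
          _ = 12.6 * (|(j : ℝ)| / (L * q)) / (y * y ^ 2) := by field_simp; ring
          _ ≤ 12.6 * (|(j : ℝ)| / (L * q)) / (y * (M / 4)) := by
              apply div_le_div_of_nonneg_left (by positivity) (by positivity)
              apply mul_le_mul_of_nonneg_left _ (by positivity)
              linarith
          _ = 50.4 * J / y := by rw [hJ]; field_simp; ring
          _ ≤ 60 * J / y := by
              apply div_le_div_of_nonneg_right _ (by positivity)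
              nlinarith
  refine (Finset.sum_le_sum hterm).trans ?_
  rw [Finset.sum_const, card_range, nsmul_eq_mul]
  push_cast
  have h1 : 2 * (y : ℝ) * (3 * B * y / M) ≤ 18 * B := by
    have : 2 * (y : ℝ) * (3 * B * y / M) = 6 * B * (y ^ 2 / M) := by ring
    rw [this]
    have h2 : (y : ℝ) ^ 2 / M ≤ 3 := by rw [div_le_iff₀ hMr]; exact hy2r
    nlinarith
  have h2 : 2 * (y : ℝ) * (B * (60 * J / y)) = B * (120 * J) := by field_simp; ring
  nlinarith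

theorem inner : ∃ K : ℝ, 1 ≤ K ∧ ∀ (Φ : ℕ → ℂ) (M N y L q : ℕ) [NeZero N] (Θ j : ℤ) (B : ℝ),
    1 ≤ M → 1 ≤ y → 1 ≤ L → 1 ≤ q → 0 ≤ B → N = y * L * q → Nat.Coprime L q →
    (L : ℤ) ∣ Θ ^ 2 + 1 → y ^ 2 ≤ 3 * M → (∀ m, ‖Φ m‖ ≤ B) → (∀ m, Φ m ≠ 0 → M ≤ 2 * m) →
    (∀ m m' : ℕ, ‖Φ m - Φ m'‖ ≤ B / M * |(m : ℝ) - m'|) →
    ‖∑ x ∈ Ioc (-(y : ℤ)) y, Fy Φ y L q j x * phi N y Θ j ((x : ℤ) : ZMod N)‖ ≤
      K * (q * L.divisors.card * 2 ^ N.primeFactors.card * Real.sqrt N *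
        Real.sqrt (Nat.gcd N j.natAbs) * (3 + Real.log N)) * (B * (1 + |(j : ℝ)| / (M * L * q))) := by
  obtain ⟨K, hK, HK⟩ := ks
  refine ⟨120 * K, by linarith, ?_⟩
  intro Φ M N y L q _ Θ j B hM hy hL hq hB hN hLq hΘ hy2 hΦ hΦ0 hΦ1
  have : NeZero L := ⟨by omega⟩
  have : NeZero q := ⟨by omega⟩
  have hN1 : 1 ≤ N := Nat.pos_of_ne_zero (NeZero.ne N)
  have hNr : (1 : ℝ) ≤ N := by exact_mod_cast hN1
  have hlog : 0 ≤ Real.log N := Real.log_nonneg hNr
  rw [shift_sum y (fun x => Fy Φ y L q j x * phi N y Θ j ((x : ℤ) : ZMod N))]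
  set W : ℝ := q * (L.divisors.card * (K * 2 ^ N.primeFactors.card * Real.sqrt (N : ℝ) *
        Real.sqrt (Nat.gcd N j.natAbs))) with hW
  have hW0 : 0 ≤ W := by positivity
  have hyN : y ≤ N := by
    rw [hN, mul_assoc]
    exact Nat.le_mul_of_pos_right _ (Nat.mul_pos hL hq)
  have hS : ∀ k ≤ 2 * y, ‖∑ i ∈ range k, phi N y Θ j (((-(y : ℤ) + 1 + i : ℤ)) : ZMod N)‖ ≤
      W * (3 + Real.log N) := by
    intro k hk
    have h1 := Pool.Agent.H442R2.KF.Inc.completion N 1 (Nat.coprime_one_right N) (phi N y Θ j) W hW0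
      (HK N y L q hN hLq Θ j hΘ) (-(y : ℤ) + 1) k
    have h2 : ∑ i ∈ range k, phi N y Θ j (((-(y : ℤ) + 1 + (1 : ℕ) * i : ℤ)) : ZMod N) =
        ∑ i ∈ range k, phi N y Θ j (((-(y : ℤ) + 1 + i : ℤ)) : ZMod N) := by
      apply Finset.sum_congr rfl
      intro i _
      congr 2
      push_cast
      ring
    rw [h2] at h1
    refine h1.trans ?_
    apply mul_le_mul_of_nonneg_left _ hW0
    have h3 : (k : ℝ) / N ≤ 2 := by
      rw [div_le_iff₀ (by linarith)]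
      exact_mod_cast hk.trans (Nat.mul_le_mul_left 2 hyN)
    linarith
  have hab := abel (fun k => Fy Φ y L q j (-(y : ℤ) + 1 + k))
    (fun k => phi N y Θ j (((-(y : ℤ) + 1 + k : ℤ)) : ZMod N)) (2 * y) (W * (3 + Real.log N)) B hS (by
      intro k
      unfold Fy
      rw [norm_mul, norm_e, mul_one]
      exact hΦ _)
  refine hab.trans ?_
  have htv := tv Φ M y L q j B hM hy hL hq hB hy2 hΦ hΦ0 hΦ1
  have hS0 : 0 ≤ W * (3 + Real.log N) := mul_nonneg hW0 (by linarith)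
  set J : ℝ := |(j : ℝ)| / (M * L * q) with hJ
  have hJ0 : 0 ≤ J := by positivity
  calc W * (3 + Real.log N) * (B + _) ≤
      W * (3 + Real.log N) * (B + B * (18 + 120 * J)) := by
        apply mul_le_mul_of_nonneg_left _ hS0
        linarith
    _ ≤ W * (3 + Real.log N) * (120 * (B * (1 + J))) := by
        apply mul_le_mul_of_nonneg_left _ hS0
        have := mul_nonneg hB hJ0
        nlinarith
    _ = _ := by rw [hW]; ring

end Pool.Agent.T2h76
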